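import Pool.Agent.Lib.MP_7e344a_al.Mg.G001

section

/-!
# MP_7e344a_al: definitions for module 4 (torsion free hyperbolic groups)
-/

set_option autoImplicit false

namespace Pool.Agent.Lib.MP_7e344a_al

variable {A V : Type}

/-- A torsion free group `A` acts freely and cofinitely on the connected, locally finite, `δ`-slim
graph `Γ`. -/
structure Act (A V : Type) [Group A] [MulAction A V] (Γ : SimpleGraph V) (δ : ℕ) : Prop where
  act : ∀ (g : A) (v w : V), Γ.Adj v w → Γ.Adj (g • v) (g • w)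
  free : ∀ (g : A) (v : V), g • v = v → g = 1
  conn : Γ.Connected
  slim : Slim Γ δ
  lfin : ∀ v, {w | Γ.Adj v w}.Finite
  cofin : ∃ S : Set V, S.Finite ∧ ∀ v, ∃ g : A, g • v ∈ S
  tf : ∀ (g : A) (k : ℕ), 0 < k → g ^ k = 1 → g = 1

/-- Torsion free hyperbolic groups. -/
def Hyp (A : Type) [Group A] : Prop :=
  ∃ (V : Type) (_ : MulAction A V) (Γ : SimpleGraph V) (δ : ℕ), Act A V Γ δ

/-- The orbit of `y` under the powers of `h` is additive and grows linearly. -/
structure Lox [Group A] [MulAction A V] (Γ : SimpleGraph V) (h : A) (y : V) (C l : ℕ) : Prop where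
  add : ∀ a b c : ℤ, a ≤ b → b ≤ c → Γ.dist (h ^ a • y) (h ^ b • y) +
    Γ.dist (h ^ b • y) (h ^ c • y) ≤ Γ.dist (h ^ a • y) (h ^ c • y) + C
  grow : ∀ m : ℕ, m ≤ l * (Γ.dist y (h ^ m • y) + 1)

/-- The elementary closure of `h`. -/
def El [Group A] (h : A) : Subgroup A where
  carrier := {g | ∃ p q : ℤ, p ≠ 0 ∧ q ≠ 0 ∧ g * h ^ p * g⁻¹ = h ^ q}
  one_mem' := ⟨1, 1, one_ne_zero, one_ne_zero, by simp⟩
  mul_mem' := by
    rintro g₁ g₂ ⟨p₁, q₁, hp₁, hq₁, h₁⟩ ⟨p₂, q₂, hp₂, hq₂, h₂⟩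
    refine ⟨p₂ * p₁, q₂ * q₁ , mul_ne_zero hp₂ hp₁, mul_ne_zero hq₂ hq₁, ?_⟩
    have e₁ : g₂ * h ^ (p₂ * p₁) * g₂⁻¹ = h ^ (q₂ * p₁) := by
      rw [zpow_mul, ← conj_zpow, h₂, ← zpow_mul]
    have e₂ : g₁ * h ^ (p₁ * q₂) * g₁⁻¹ = h ^ (q₁ * q₂) := by
      rw [zpow_mul, ← conj_zpow, h₁, ← zpow_mul]
    calc g₁ * g₂ * h ^ (p₂ * p₁) * (g₁ * g₂)⁻¹ = g₁ * (g₂ * h ^ (p₂ * p₁) * g₂⁻¹) * g₁⁻¹ := by
          group
      _ = h ^ (q₂ * q₁) := by rw [e₁, mul_comm q₂ p₁, e₂, mul_comm q₁ q₂]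
  inv_mem' := by
    rintro g ⟨p, q, hp, hq, hg⟩
    exact ⟨q, p, hq, hp, by rw [← hg]; group⟩

/-- A sequence of elements obtained by multiplying alternately with powers of `h` and with the
junctions `υ i`. -/
structure RelSeq [Group A] (h : A) (P : ℤ → A) (α : ℤ → ℕ) (υ : ℤ → A) : Prop where
  step : ∀ i, P (i + 1) = P i * h ^ (α i) * υ i

/-- The points on the path of the sequence `P`. -/
def pt [Group A] [MulAction A V] (h : A) (P : ℤ → A) (y : V) (i : ℤ) (j : ℕ) : V :=
  (P i * h ^ j) • y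

/-- The set of all points of the path. -/
def PtSet [Group A] [MulAction A V] (h : A) (P : ℤ → A) (α : ℤ → ℕ) (y : V) : Set V :=
  {v | ∃ (i : ℤ) (j : ℕ), j ≤ α i ∧ v = pt h P y i j}

/-- lexicographic order of positions -/
def LexLE (i : ℤ) (j : ℕ) (i' : ℤ) (j' : ℕ) : Prop := i < i' ∨ (i = i' ∧ j ≤ j')

/-- additivity of the path -/
def PathAdd [Group A] [MulAction A V] (Γ : SimpleGraph V) (h : A) (P : ℤ → A) (α : ℤ → ℕ) (y : V)
    (C : ℕ) : Prop :=
  ∀ (i₁ i₂ i₃ : ℤ) (j₁ j₂ j₃ : ℕ), j₁ ≤ α i₁ → j₂ ≤ α i₂ → j₃ ≤ α i₃ → LexLE i₁ j₁ i₂ j₂ →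
    LexLE i₂ j₂ i₃ j₃ → Γ.dist (pt h P y i₁ j₁) (pt h P y i₂ j₂) +
      Γ.dist (pt h P y i₂ j₂) (pt h P y i₃ j₃) ≤ Γ.dist (pt h P y i₁ j₁) (pt h P y i₃ j₃) + C

/-- Data of a relator: exponents `α i ∈ [M, 1.1 M]`, periodic of period `K`, exponents differing by
at most `c` only if the indices are congruent modulo `K`. The relator is `P K`. -/
structure RelData [Group A] (h : A) (U : Set A) (P : ℤ → A) (α : ℤ → ℕ) (υ : ℤ → A)
    (K M c : ℕ) : Prop extends RelSeq h P α υ where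
  mem : ∀ i, υ i ∈ U
  P0 : P 0 = 1
  Kpos : 0 < K
  per : ∀ i, P (i + K) = P K * P i
  perυ : ∀ i, υ (i + K) = υ i
  perα : ∀ i, α (i + K) = α i
  lo : ∀ i, M ≤ α i
  hi : ∀ i, 10 * α i ≤ 11 * M
  gap : ∀ i j, |(α i : ℤ) - α j| ≤ c → (K : ℤ) ∣ i - j

/-- `Q` is `σ`-quasiconvex. -/
def QC (Γ : SimpleGraph V) (Q : Set V) (σ : ℕ) : Prop :=
  ∀ x ∈ Q, ∀ y ∈ Q, ∀ (p : ℕ → V) (n : ℕ), IsGeo Γ p n x y → ∀ i ≤ n, ∃ q ∈ Q, Γ.dist (p i) q ≤ σ

/-- The graph `Γ` coned off along the translates of `Q`, indexed by the cosets of `W`. -/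
def Cone [Group A] [MulAction A V] (Γ : SimpleGraph V) (Q : Set V) (W : Subgroup A) :
    SimpleGraph (V ⊕ (A ⧸ W)) where
  Adj a b := match a, b with
    | Sum.inl v, Sum.inl w => Γ.Adj v w
    | Sum.inl v, Sum.inr c => ∃ g : A, (g : A ⧸ W) = c ∧ g⁻¹ • v ∈ Q
    | Sum.inr c, Sum.inl v => ∃ g : A, (g : A ⧸ W) = c ∧ g⁻¹ • v ∈ Q
    | Sum.inr _, Sum.inr _ => False
  symm := ⟨by
    rintro (v | c) (w | c') h
    · exact h.symm
    · exact h
    · exact h
    · exact h⟩
  loopless := ⟨by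
    rintro (v | c) h
    · exact Γ.loopless.irrefl v h
    · exact h⟩

/-- The rotations of the coned off graph: the stabilisers of the cone points. -/
def coneN (V : Type) [Group A] (W : Subgroup A) : V ⊕ (A ⧸ W) → Subgroup A
  | Sum.inl _ => ⊥
  | Sum.inr c => MulAction.stabilizer A c

end Pool.Agent.Lib.MP_7e344a_al
end

section

/-!
# MP_7e344a_al: M08, coning off quasiconvex sets
-/

set_option autoImplicit false

namespace Pool.Agent.Lib.MP_7e344a_al

section

variable {A V : Type} [Group A] [MulAction A V] {Γ : SimpleGraph V} {Q : Set V} {W : Subgroup A}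

/-- change of the representative of a cone point -/
theorem mcone_mem_of_mk_eq (hW : ∀ w ∈ W, ∀ q ∈ Q, w • q ∈ Q) {g g' : A} {v : V}
    (h : (g' : A ⧸ W) = (g : A ⧸ W)) (hv : g'⁻¹ • v ∈ Q) : g⁻¹ • v ∈ Q := by
  have h1 : g⁻¹ * g' ∈ W := QuotientGroup.eq.1 h.symm
  have h2 := hW _ h1 _ hv
  rwa [← mul_smul, mul_assoc, mul_inv_cancel, mul_one] at h2

/-- short walks of the coned off graph -/
theorem mcone_walk (hc : Γ.Connected) (hW : ∀ w ∈ W, ∀ q ∈ Q, w • q ∈ Q) {a b : V ⊕ (A ⧸ W)}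
    (p : (Cone Γ Q W).Walk a b) : ∀ w : V, b = Sum.inl w →
    (∀ v : V, a = Sum.inl v → p.length ≤ 3 → Γ.dist v w ≤ p.length ∨
      ∃ (g : A) (v' w' : V), g⁻¹ • v' ∈ Q ∧ g⁻¹ • w' ∈ Q ∧
        Γ.dist v v' + Γ.dist w' w + 2 ≤ p.length) ∧
    (∀ g : A, a = Sum.inr (g : A ⧸ W) → p.length ≤ 2 →
      ∃ w' : V, g⁻¹ • w' ∈ Q ∧ Γ.dist w' w + 1 ≤ p.length) := by
  induction p with
  | nil =>
    intro w hb
    refine ⟨?_, ?_⟩
    · intro v hv _
      rw [hb] at hv
      have : w = v := Sum.inl_injective hv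
      subst this
      left
      rw [SimpleGraph.dist_self]
      exact Nat.zero_le _
    · intro g hg
      rw [hb] at hg
      exact absurd hg (by simp)
  | @cons a u b h p ih =>
    intro w hb
    obtain ⟨ih1, ih2⟩ := ih w hb
    rw [SimpleGraph.Walk.length_cons]
    refine ⟨?_, ?_⟩
    · intro v hv hlen
      subst hv
      rcases u with u | c
      · have hadj : Γ.Adj v u := h
        have hd : Γ.dist v u = 1 := SimpleGraph.dist_eq_one_iff_adj.2 hadj
        rcases ih1 u rfl (by omega) with h1 | ⟨g, v', w', h1, h2, h3⟩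
        · left
          have := hc.dist_triangle (u := v) (v := u) (w := w)
          omega
        · right
          refine ⟨g, v', w', h1, h2, ?_⟩
          have := hc.dist_triangle (u := v) (v := u) (w := v')
          omega
      · have hadj : ∃ g : A, (g : A ⧸ W) = c ∧ g⁻¹ • v ∈ Q := h
        obtain ⟨g, hg, hgv⟩ := hadj
        obtain ⟨w', h1, h2⟩ := ih2 g (by rw [hg]) (by omega)
        right
        refine ⟨g, v, w', hgv, h1, ?_⟩
        rw [SimpleGraph.dist_self]
        omega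
    · intro g hg hlen
      subst hg
      rcases u with u | c
      · have hadj : ∃ g' : A, (g' : A ⧸ W) = (g : A ⧸ W) ∧ g'⁻¹ • u ∈ Q := h
        obtain ⟨g', hg', hu⟩ := hadj
        have hu' := mcone_mem_of_mk_eq hW hg' hu
        rcases ih1 u rfl (by omega) with h1 | ⟨g, v', w', h1, h2, h3⟩
        · exact ⟨u, hu', by omega⟩
        · omega
      · exact absurd h (by exact fun h => h)

theorem mcone_adj_inr {g : A} {v : V} (h : g⁻¹ • v ∈ Q) :
    (Cone Γ Q W).Adj (Sum.inl v) (Sum.inr (g : A ⧸ W)) := ⟨g, rfl, h⟩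

theorem mcone_reach_inl (hc : Γ.Connected) (v w : V) :
    (Cone Γ Q W).Reachable (Sum.inl v) (Sum.inl w) := by
  obtain ⟨p⟩ := hc.preconnected v w
  induction p with
  | nil => exact SimpleGraph.Reachable.refl _
  | @cons a b c h p ih =>
    have h1 : (Cone Γ Q W).Adj (Sum.inl a) (Sum.inl b) := h
    exact h1.reachable.trans ih

theorem mcone_connected (hc : Γ.Connected) (hQ : Q.Nonempty) : (Cone Γ Q W).Connected := by
  obtain ⟨q, hq⟩ := hQ
  have key : ∀ x : V ⊕ (A ⧸ W), (Cone Γ Q W).Reachable (Sum.inl q) x := by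
    rintro (v | c)
    · exact mcone_reach_inl hc q v
    · obtain ⟨g, rfl⟩ := QuotientGroup.mk_surjective c
      have h1 : (Cone Γ Q W).Adj (Sum.inl (g • q)) (Sum.inr (g : A ⧸ W)) :=
        mcone_adj_inr (by rwa [inv_smul_smul])
      exact (mcone_reach_inl hc q (g • q)).trans h1.reachable
  have : Nonempty (V ⊕ (A ⧸ W)) := ⟨Sum.inl q⟩
  exact ⟨fun x y => (key x).symm.trans (key y)⟩

end

theorem cone_slim (δ σ : ℕ) : ∃ δ' : ℕ, ∀ (A V : Type) (_ : Group A) (_ : MulAction A V)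
    (Γ : SimpleGraph V) (Q : Set V) (W : Subgroup A),
    (∀ (g : A) (v w : V), Γ.Adj v w → Γ.Adj (g • v) (g • w)) → Γ.Connected → Slim Γ δ →
    Q.Nonempty → (∀ w ∈ W, ∀ q ∈ Q, w • q ∈ Q) → QC Γ Q σ → (Cone Γ Q W).Connected ∧ Slim (Cone Γ Q W) δ' := by
  obtain ⟨δ', hδ'⟩ := slim_coarse δ 1 (2 * δ + σ + 5)
  refine ⟨δ', ?_⟩
  intro A V _ _ Γ Q W hact hc hs hQ hW hqc
  have hc' : (Cone Γ Q W).Connected := mcone_connected hc hQ
  have hK : ∀ v w, Γ.Adj v w → (Cone Γ Q W).dist (Sum.inl v) (Sum.inl w) ≤ 1 := by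
    intro v w h
    have h1 : (Cone Γ Q W).Adj (Sum.inl v) (Sum.inl w) := h
    exact (SimpleGraph.dist_eq_one_iff_adj.2 h1).le
  have hlip : ∀ v w, (Cone Γ Q W).dist (Sum.inl v) (Sum.inl w) ≤ Γ.dist v w := by
    intro v w
    have := coarse_lip (f := (Sum.inl : V → V ⊕ (A ⧸ W))) hc hc' hK v w
    rwa [one_mul] at this
  refine ⟨hc', hδ' V (V ⊕ (A ⧸ W)) Γ (Cone Γ Q W) Sum.inl hc hs hc' ?_ hK ?_⟩
  · rintro (v | c)
    · exact ⟨v, by rw [SimpleGraph.dist_self]; exact Nat.zero_le _⟩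
    · obtain ⟨g, rfl⟩ := QuotientGroup.mk_surjective c
      obtain ⟨q, hq⟩ := hQ
      have h1 : (Cone Γ Q W).Adj (Sum.inl (g • q)) (Sum.inr (g : A ⧸ W)) :=
        mcone_adj_inr (by rwa [inv_smul_smul])
      exact ⟨g • q, (SimpleGraph.dist_eq_one_iff_adj.2 h1.symm).le⟩
  · intro v w p n hd hp i hi
    obtain ⟨wk, hwk⟩ := hc'.exists_walk_length_eq_dist (Sum.inl v) (Sum.inl w)
    rcases (mcone_walk hc hW wk w rfl).1 v rfl (by omega) with h1 | ⟨g, v', w', hv', hw', h2⟩
    · have h3 := hp.length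
      have h4 := hp.geo 0 i (Nat.zero_le _) hi
      rw [hp.start] at h4
      have h5 := hlip v (p i)
      omega
    · obtain ⟨q, hq⟩ := IsGeo.exists hc v v'
      obtain ⟨r, hr⟩ := IsGeo.exists hc v' w'
      obtain ⟨t, ht⟩ := IsGeo.exists hc w' w
      rcases slim_quad hc hs hp hq hr ht hi with ⟨j, hj, hj'⟩ | ⟨j, hj, hj'⟩ | ⟨j, hj, hj'⟩
      · have h3 := hq.geo 0 j (Nat.zero_le _) hj
        rw [hq.start] at h3
        have h4 := hc.dist_triangle (u := v) (v := q j) (w := p i)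
        rw [SimpleGraph.dist_comm (u := q j) (v := p i)] at h4
        have h5 := hlip v (p i)
        omega
      · have h3 := hqc _ hv' _ hw' (fun k => g⁻¹ • r k) _ (hr.smul hact g⁻¹) j hj
        obtain ⟨x, hx, hxd⟩ := h3
        have h4 : Γ.dist (r j) (g • x) ≤ σ := by
          have := dist_smul hact g (g⁻¹ • r j) x
          rw [smul_inv_smul] at this
          rw [this]
          exact hxd
        have a1 : (Cone Γ Q W).Adj (Sum.inl v') (Sum.inr (g : A ⧸ W)) := mcone_adj_inr hv'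
        have a2 : (Cone Γ Q W).Adj (Sum.inl (g • x)) (Sum.inr (g : A ⧸ W)) :=
          mcone_adj_inr (by rwa [inv_smul_smul])
        have b1 := SimpleGraph.dist_eq_one_iff_adj.2 a1
        have b2 := SimpleGraph.dist_eq_one_iff_adj.2 a2.symm
        have c1 := hlip v v'
        have c2 := hlip (g • x) (r j)
        have c3 := hlip (r j) (p i)
        rw [SimpleGraph.dist_comm (u := g • x) (v := r j)] at c2
        rw [SimpleGraph.dist_comm (u := r j) (v := p i)] at c3
        have t1 := hc'.dist_triangle (u := Sum.inl v) (v := Sum.inl v') (w := Sum.inl (p i))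
        have t2 := hc'.dist_triangle (u := Sum.inl v') (v := Sum.inr (g : A ⧸ W))
          (w := Sum.inl (p i))
        have t3 := hc'.dist_triangle (u := Sum.inr (g : A ⧸ W)) (v := Sum.inl (g • x))
          (w := Sum.inl (p i))
        have t4 := hc'.dist_triangle (u := Sum.inl (g • x)) (v := Sum.inl (r j))
          (w := Sum.inl (p i))
        omega
      · have h3 := ht.geo j (Γ.dist w' w) hj le_rfl
        rw [ht.fin] at h3
        have c1 := hlip (p i) (t j)
        have c2 := hlip (t j) w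
        have t1 := hc'.dist_triangle (u := Sum.inl v) (v := Sum.inl w) (w := Sum.inl (p i))
        have t2 := hc'.dist_triangle (u := Sum.inl w) (v := Sum.inl (t j)) (w := Sum.inl (p i))
        rw [SimpleGraph.dist_comm (u := Sum.inl w) (v := Sum.inl (t j)),
          SimpleGraph.dist_comm (u := Sum.inl (t j)) (v := Sum.inl (p i))] at t2
        omega

end Pool.Agent.Lib.MP_7e344a_al
end

section

/-!
# MP_7e344a_al: M08b, the rotations of the coned off graph
-/

set_option autoImplicit false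

namespace Pool.Agent.Lib.MP_7e344a_al

section

variable {A V : Type} [Group A] [MulAction A V] {Γ : SimpleGraph V} {δ : ℕ} {Q : Set V}
  {W : Subgroup A}

theorem cone_act (hact : ∀ (g : A) (v w : V), Γ.Adj v w → Γ.Adj (g • v) (g • w)) (g : A)
    (a b : V ⊕ (A ⧸ W)) (h : (Cone Γ Q W).Adj a b) : (Cone Γ Q W).Adj (g • a) (g • b) := by
  have key : ∀ (v : V) (c : A ⧸ W), (∃ k : A, (k : A ⧸ W) = c ∧ k⁻¹ • v ∈ Q) →
      ∃ k : A, (k : A ⧸ W) = g • c ∧ k⁻¹ • (g • v) ∈ Q := by
    rintro v c ⟨k, rfl, hk⟩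
    refine ⟨g * k, rfl, ?_⟩
    rwa [smul_smul, mul_inv_rev, mul_assoc, inv_mul_cancel, mul_one]
  rcases a with v | c <;> rcases b with w | c'
  · exact hact g v w h
  · exact key v c' h
  · exact key w c h
  · exact h.elim

theorem coneN_conj (g : A) (c : V ⊕ (A ⧸ W)) (ρ : A) (h : ρ ∈ coneN V W c) :
    g * ρ * g⁻¹ ∈ coneN V W (g • c) := by
  rcases c with v | c
  · have h' : ρ = 1 := h
    rw [h', mul_one, mul_inv_cancel]
    exact Subgroup.one_mem _
  · have h' : ρ • c = c := h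
    change (g * ρ * g⁻¹) • (g • c) = g • c
    rw [smul_smul, inv_mul_cancel_right, mul_smul, h']

theorem coneRot_stab (k ρ : A) (h : ρ • (k : A ⧸ W) = (k : A ⧸ W)) : k⁻¹ * ρ * k ∈ W := by
  have h' : ((ρ * k : A) : A ⧸ W) = (k : A ⧸ W) := h
  have h2 := QuotientGroup.eq.1 h'.symm
  rwa [← mul_assoc] at h2

theorem NN_coneN : NN (coneN V W) = Subgroup.normalClosure (W : Set A) := by
  apply le_antisymm
  · refine iSup_le ?_
    rintro (v | c)
    · exact bot_le
    · intro ρ hρ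
      obtain ⟨k, rfl⟩ := QuotientGroup.mk_surjective c
      have h1 : k⁻¹ * ρ * k ∈ W := coneRot_stab k ρ hρ
      have h2 := Subgroup.Normal.conj_mem
        (Subgroup.normalClosure_normal (s := (W : Set A))) _
        (Subgroup.subset_normalClosure h1) k
      have h3 : k * (k⁻¹ * ρ * k) * k⁻¹ = ρ := by group
      rwa [h3] at h2
  · have hn : (NN (coneN V W)).Normal := by
      refine ⟨fun n hn g => ?_⟩
      refine Subgroup.iSup_induction (coneN V W) (C := fun n => g * n * g⁻¹ ∈ NN (coneN V W))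
        hn ?_ ?_ ?_
      · intro c x hx
        exact Subgroup.mem_iSup_of_mem (g • c) (coneN_conj g c x hx)
      · rw [mul_one, mul_inv_cancel]
        exact Subgroup.one_mem _
      · intro x y hx hy
        have : g * (x * y) * g⁻¹ = (g * x * g⁻¹) * (g * y * g⁻¹) := by group
        rw [this]
        exact Subgroup.mul_mem _ hx hy
    refine Subgroup.normalClosure_le_normal ?_
    intro w hw
    refine Subgroup.mem_iSup_of_mem (S := coneN V W) (Sum.inr ((1 : A) : A ⧸ W)) ?_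
    change w • ((1 : A) : A ⧸ W) = ((1 : A) : A ⧸ W)
    change ((w * 1 : A) : A ⧸ W) = ((1 : A) : A ⧸ W)
    rw [mul_one, QuotientGroup.eq, mul_one]
    exact W.inv_mem hw

theorem coneRot_walk (hW : ∀ w ∈ W, ∀ q ∈ Q, w • q ∈ Q) (L : ℕ) (β : V → ℤ)
    (h1 : ∀ v w, Γ.Adj v w → |β v - β w| ≤ L)
    (h2 : ∀ g : A, g ∉ W → ∀ v w : V, g⁻¹ • v ∈ Q → g⁻¹ • w ∈ Q → |β v - β w| ≤ L)
    {x y : V ⊕ (A ⧸ W)} (p : (Cone Γ Q W).Walk x y)
    (hp : (Sum.inr ((1 : A) : A ⧸ W)) ∉ p.support) (v' : V) (hy : y = Sum.inl v') :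
    (∀ v, x = Sum.inl v → |β v - β v'| ≤ L * p.length) ∧
      (∀ c v, x = Sum.inr c → (Cone Γ Q W).Adj (Sum.inr c) (Sum.inl v) →
        |β v - β v'| ≤ L * p.length) := by
  induction p with
  | nil =>
    refine ⟨?_, ?_⟩
    · intro v hv
      rw [hv] at hy
      rw [Sum.inl.inj hy]
      simp
    · intro c v hv
      rw [hv] at hy
      exact (Sum.inr_ne_inl hy).elim
  | @cons u v₁ y h p ih =>
    rw [SimpleGraph.Walk.support_cons, List.mem_cons, not_or] at hp
    obtain ⟨ih1, ih2⟩ := ih hp.2 hy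
    have hlen : ((SimpleGraph.Walk.cons h p).length : ℤ) = p.length + 1 := by
      rw [SimpleGraph.Walk.length_cons]
      push_cast
      ring
    rw [hlen]
    refine ⟨?_, ?_⟩
    · rintro v rfl
      rcases v₁ with v1 | c
      · have h3 := ih1 v1 rfl
        have h4 := h1 v v1 h
        have h5 := abs_sub_le (β v) (β v1) (β v')
        nlinarith
      · have h3 := ih2 c v rfl h.symm
        nlinarith
    · rintro c v rfl hcv
      rcases v₁ with v1 | c'
      · have h3 := ih1 v1 rfl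
        obtain ⟨g, hg, hgv⟩ := hcv
        obtain ⟨g', hg', hgv'⟩ := h
        have hgW : g ∉ W := by
          intro hgW
          apply hp.1
          rw [← hg]
          congr 1
          rw [QuotientGroup.eq, inv_one, one_mul]
          exact hgW
        have hw : g⁻¹ * g' ∈ W := QuotientGroup.eq.1 (hg.trans hg'.symm)
        have hgv1 : g⁻¹ • v1 ∈ Q := by
          have h6 := hW _ hw _ hgv'
          rwa [smul_smul, mul_assoc, mul_inv_cancel, mul_one] at h6
        have h4 := h2 g hgW v v1 hgv hgv1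
        have h5 := abs_sub_le (β v) (β v1) (β v')
        nlinarith
      · exact h.elim

/-- a walk of the cone graph avoiding the cone point `W` moves every `ℤ`-valued projection `β` at
most by `L` in each step -/
theorem cone_rot (hact : ∀ (g : A) (v w : V), Γ.Adj v w → Γ.Adj (g • v) (g • w))
    (hW : ∀ w ∈ W, ∀ q ∈ Q, w • q ∈ Q) (s L : ℕ) (β : V → ℤ)
    (h1 : ∀ v w, Γ.Adj v w → |β v - β w| ≤ L)
    (h2 : ∀ g : A, g ∉ W → ∀ v w : V, g⁻¹ • v ∈ Q → g⁻¹ • w ∈ Q → |β v - β w| ≤ L)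
    (h3 : ∀ w ∈ W, w ≠ 1 → ∀ q ∈ Q, (s * L : ℤ) < |β q - β (w • q)|) :
    Rot (Cone Γ Q W) (coneN V W) s := by
  refine ⟨cone_act hact, ?_, coneN_conj, ?_⟩
  · rintro (v | c) ρ hρ
    · have h' : ρ = 1 := hρ
      rw [h', one_smul]
    · exact congrArg Sum.inr hρ
  · rintro (v | c) ρ hρ hρ1 q hq hA
    · exact hρ1 hρ
    · rcases q with v | c'
      · obtain ⟨g, rfl, hgv⟩ := hq
        have hw : g⁻¹ * ρ * g ∈ W := coneRot_stab g ρ hρ
        have hw1 : g⁻¹ * ρ * g ≠ 1 := by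
          intro h
          apply hρ1
          have h' : ρ = g * (g⁻¹ * ρ * g) * g⁻¹ := by group
          rw [h', h]
          group
        have hA' := AngLE.smul (cone_act hact) g⁻¹ hA
        obtain ⟨p, hp1, hp2⟩ := hA'
        have e1 : g⁻¹ • (Sum.inr (g : A ⧸ W) : V ⊕ (A ⧸ W)) = Sum.inr ((1 : A) : A ⧸ W) := by
          change Sum.inr (((g⁻¹ * g : A)) : A ⧸ W) = _
          rw [inv_mul_cancel]
        rw [e1] at hp2
        have e2 : g⁻¹ • ρ • (Sum.inl v : V ⊕ (A ⧸ W)) = Sum.inl ((g⁻¹ * ρ * g) • g⁻¹ • v) := by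
          change Sum.inl (g⁻¹ • ρ • v) = _
          congr 1
          rw [smul_smul, smul_smul]
          congr 1
          group
        have h4 := (coneRot_walk hW L β h1 h2 p hp2 _ e2).1 (g⁻¹ • v) rfl
        have h5 := h3 _ hw hw1 _ hgv
        have h6 : (p.length : ℤ) ≤ s := by exact_mod_cast hp1
        nlinarith
      · exact hq.elim

end

end Pool.Agent.Lib.MP_7e344a_al
end

section

/-!
# MP_7e344a_al: M09a, relator data
-/

set_option autoImplicit false

namespace Pool.Agent.Lib.MP_7e344a_al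

variable {A V : Type} [Group A] [MulAction A V] {Γ : SimpleGraph V} {δ : ℕ}

theorem RelData.per_zpow {h : A} {U : Set A} {P : ℤ → A} {α : ℤ → ℕ} {υ : ℤ → A} {K M c : ℕ}
    (hD : RelData h U P α υ K M c) (i k : ℤ) : P (i + K * k) = P K ^ k * P i := by
  induction k using Int.induction_on with
  | zero => simp
  | succ n ih =>
    have e : i + (K : ℤ) * ((n : ℤ) + 1) = (i + K * n) + K := by ring
    rw [e, hD.per, ih, ← mul_assoc, add_comm (n : ℤ) 1, zpow_one_add]
  | pred n ih =>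
    have e : i + (K : ℤ) * (-(n : ℤ)) = (i + K * (-(n : ℤ) - 1)) + K := by ring
    rw [e, hD.per] at ih
    have h2 : P K ^ (-(n : ℤ)) = P K * P K ^ (-(n : ℤ) - 1) := by
      rw [← zpow_one_add]; congr 1; ring
    rw [h2, mul_assoc] at ih
    exact mul_left_cancel ih

theorem RelData.alpha_zmul {h : A} {U : Set A} {P : ℤ → A} {α : ℤ → ℕ} {υ : ℤ → A} {K M c : ℕ}
    (hD : RelData h U P α υ K M c) (i k : ℤ) : α (i + K * k) = α i := by
  induction k using Int.induction_on with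
  | zero => simp
  | succ n ih =>
    have e : i + (K : ℤ) * ((n : ℤ) + 1) = (i + K * n) + K := by ring
    rw [e, hD.perα, ih]
  | pred n ih =>
    have e : i + (K : ℤ) * (-(n : ℤ)) = (i + K * (-(n : ℤ) - 1)) + K := by ring
    rw [e, hD.perα] at ih
    exact ih

theorem RelData.zpow_smul_pt {h : A} {U : Set A} {P : ℤ → A} {α : ℤ → ℕ} {υ : ℤ → A} {K M c : ℕ}
    (hD : RelData h U P α υ K M c) (y : V) (i k : ℤ) (j : ℕ) :
    P K ^ k • pt h P y i j = pt h P y (i + K * k) j := by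
  unfold pt
  rw [hD.per_zpow, ← mul_smul, mul_assoc]

theorem RelData.ptSet_inv {h : A} {U : Set A} {P : ℤ → A} {α : ℤ → ℕ} {υ : ℤ → A} {K M c : ℕ}
    (hD : RelData h U P α υ K M c) (y : V) : ∀ w ∈ Subgroup.zpowers (P K),
    ∀ q ∈ PtSet h P α y, w • q ∈ PtSet h P α y := by
  rintro w hw q ⟨i, j, hj, rfl⟩
  obtain ⟨k, rfl⟩ := Subgroup.mem_zpowers_iff.1 hw
  exact ⟨i + K * k, j, by rw [hD.alpha_zmul]; exact hj, hD.zpow_smul_pt y i k j⟩

theorem RelData.ptSet_fin {h : A} {U : Set A} {P : ℤ → A} {α : ℤ → ℕ} {υ : ℤ → A} {K M c : ℕ}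
    (hD : RelData h U P α υ K M c) (y : V) : ∃ S : Set V, S.Finite ∧
    ∀ q ∈ PtSet h P α y, ∃ w ∈ Subgroup.zpowers (P K), w • q ∈ S := by
  refine ⟨⋃ i ∈ Set.Ico (0 : ℤ) K, ⋃ j ∈ Set.Iic (α i), {pt h P y i j}, ?_, ?_⟩
  · refine Set.Finite.biUnion (Set.finite_Ico _ _) fun i _ => ?_
    exact Set.Finite.biUnion (Set.finite_Iic _) fun j _ => Set.finite_singleton _
  · rintro q ⟨i, j, hj, rfl⟩
    have hK : (0 : ℤ) < K := by exact_mod_cast hD.Kpos
    have hmod : i + (K : ℤ) * (-(i / K)) = i % K := by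
      have := Int.emod_add_mul_ediv i K
      linarith
    refine ⟨P K ^ (-(i / K)), Subgroup.mem_zpowers_iff.2 ⟨_, rfl⟩, ?_⟩
    rw [hD.zpow_smul_pt]
    simp only [Set.mem_iUnion, Set.mem_singleton_iff]
    refine ⟨i + K * (-(i / K)), ?_, j, ?_, rfl⟩
    · rw [hmod]; exact ⟨Int.emod_nonneg _ hK.ne', Int.emod_lt_of_pos _ hK⟩
    · rw [hD.alpha_zmul]; exact hj

/-- products indexed by the integers -/
theorem exists_int_prod (s : ℤ → A) : ∃ P : ℤ → A, P 0 = 1 ∧ ∀ i, P (i + 1) = P i * s i := by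
  let F : ℕ → A := fun n => Nat.rec 1 (fun n x => x * s n) n
  let G : ℕ → A := fun n => Nat.rec 1 (fun n x => x * (s (-((n : ℤ) + 1)))⁻¹) n
  refine ⟨fun i => match i with
    | Int.ofNat n => F n
    | Int.negSucc n => G (n + 1), rfl, ?_⟩
  rintro (n | n)
  · rfl
  · have hs : Int.negSucc n = -((n : ℤ) + 1) := Int.negSucc_eq n
    have hG : G (n + 1) = G n * (s (Int.negSucc n))⁻¹ := by rw [hs]
    rcases n with _ | n
    · change G 0 = G (0 + 1) * s (Int.negSucc 0)
      rw [hG]; simp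
    · change G (n + 1) = G (n + 1 + 1) * s (Int.negSucc (n + 1))
      rw [hG]; simp

/-- relators exist -/
theorem exists_relData (h : A) {U : Set A} {b c' : A} (hb : b ∈ U) (hc : c' ∈ U) (K M c : ℕ)
    (hK : 0 < K) (hM : 10 * (K * (c + 1)) ≤ M) : ∃ (P : ℤ → A) (α : ℤ → ℕ) (υ : ℤ → A),
      RelData h U P α υ K M c ∧ ∃ g ∈ Subgroup.closure {h, b}, P K = g * c' := by
  classical
  have hK' : (0 : ℤ) < K := by exact_mod_cast hK
  set υ : ℤ → A := fun i => if i % (K : ℤ) = (K : ℤ) - 1 then c' else b with hυ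
  set α : ℤ → ℕ := fun i => M + (i % (K : ℤ)).toNat * (c + 1) with hα
  have hυp : ∀ i, υ (i + K) = υ i := fun i => by simp [hυ]
  have hαp : ∀ i, α (i + K) = α i := fun i => by simp [hα]
  have hr : ∀ i : ℤ, (i % (K : ℤ)).toNat < K := fun i => by
    have h1 := Int.emod_lt_of_pos i hK'
    have h0 := Int.emod_nonneg i hK'.ne'
    omega
  obtain ⟨P, P0, hP⟩ := exists_int_prod (fun i => h ^ α i * υ i)
  have hstep : ∀ i, P (i + 1) = P i * h ^ α i * υ i := fun i => by rw [hP, mul_assoc]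
  have hper : ∀ i, P (i + K) = P K * P i := by
    intro i
    induction i using Int.induction_on with
    | zero => simp [P0]
    | succ n ih =>
      have e : (n : ℤ) + 1 + K = (n + K) + 1 := by ring
      rw [e, hstep, ih, hαp, hυp, hstep]
      simp only [mul_assoc]
    | pred n ih =>
      have e : (-(n : ℤ)) + K = (-(n : ℤ) - 1 + K) + 1 := by ring
      have e2 : (-(n : ℤ)) = (-(n : ℤ) - 1) + 1 := by ring
      rw [e, hstep, hαp, hυp] at ih
      rw [e2, hstep] at ih
      have e3 : (-(n : ℤ) - 1 + 1 - 1) = (-(n : ℤ) - 1) := by ring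
      rw [e3] at ih
      have h4 : P (-(n : ℤ) - 1 + K) * (h ^ α (-(n : ℤ) - 1) * υ (-(n : ℤ) - 1)) =
          P K * P (-(n : ℤ) - 1) * (h ^ α (-(n : ℤ) - 1) * υ (-(n : ℤ) - 1)) := by
        simpa only [mul_assoc] using ih
      exact mul_right_cancel h4
  refine ⟨P, α, υ, ⟨⟨hstep⟩, ?_, P0, hK, hper, hυp, hαp, ?_, ?_, ?_⟩, ?_⟩
  · intro i
    by_cases hi : i % (K : ℤ) = (K : ℤ) - 1
    · simp only [hυ, if_pos hi]; exact hc
    · simp only [hυ, if_neg hi]; exact hb
  · intro i; exact Nat.le_add_right _ _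
  · intro i
    have h1 : (i % (K : ℤ)).toNat * (c + 1) ≤ K * (c + 1) :=
      Nat.mul_le_mul_right _ (hr i).le
    simp only [hα]
    omega
  · intro i j hij
    have h1 : (i % (K : ℤ)).toNat = (j % (K : ℤ)).toNat := by
      by_contra hne
      have hc1 : ((α i : ℤ) - α j) =
          (((i % (K : ℤ)).toNat : ℤ) - ((j % (K : ℤ)).toNat : ℤ)) * ((c : ℤ) + 1) := by
        simp only [hα]; push_cast; ring
      rw [hc1, abs_mul] at hij
      have h2 : (1 : ℤ) ≤ |((i % (K : ℤ)).toNat : ℤ) - ((j % (K : ℤ)).toNat : ℤ)| := by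
        apply Int.one_le_abs
        intro h0
        apply hne
        omega
      have h3 : |(c : ℤ) + 1| = c + 1 := abs_of_nonneg (by positivity)
      rw [h3] at hij
      have : (1 : ℤ) * ((c : ℤ) + 1) ≤
          |((i % (K : ℤ)).toNat : ℤ) - ((j % (K : ℤ)).toNat : ℤ)| * ((c : ℤ) + 1) :=
        mul_le_mul_of_nonneg_right h2 (by positivity)
      linarith
    have h0i := Int.emod_nonneg i hK'.ne'
    have h0j := Int.emod_nonneg j hK'.ne'
    have h2 : i % (K : ℤ) = j % (K : ℤ) := by omega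
    exact Int.ModEq.dvd (h2.symm : j ≡ i [ZMOD K])
  · have hclos : ∀ j : ℕ, j + 1 ≤ K → P j ∈ Subgroup.closure {h, b} := by
      intro j
      induction j with
      | zero => intro _; rw [Nat.cast_zero, P0]; exact one_mem _
      | succ j ih =>
        intro hj
        have hm : ((j : ℤ) % (K : ℤ)) ≠ (K : ℤ) - 1 := by
          rw [Int.emod_eq_of_lt (by positivity) (by omega)]
          omega
        rw [Nat.cast_succ, hstep]
        have hυj : υ j = b := by simp only [hυ, if_neg hm]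
        rw [hυj]
        refine mul_mem (mul_mem (ih (by omega)) (pow_mem (Subgroup.subset_closure (by simp)) _))
          (Subgroup.subset_closure (by simp))
    obtain ⟨K1, rfl⟩ : ∃ K1, K = K1 + 1 := ⟨K - 1, by omega⟩
    refine ⟨P K1 * h ^ α K1, mul_mem (hclos K1 le_rfl)
      (pow_mem (Subgroup.subset_closure (by simp)) _), ?_⟩
    have hυK : υ K1 = c' := by
      have : (K1 : ℤ) % ((K1 + 1 : ℕ) : ℤ) = ((K1 + 1 : ℕ) : ℤ) - 1 := by
        rw [Int.emod_eq_of_lt (by positivity) (by push_cast; linarith)]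
        push_cast; ring
      simp only [hυ, if_pos this]
    rw [← hυK, ← hstep, Nat.cast_succ]

end Pool.Agent.Lib.MP_7e344a_al
end

section

/-!
# MP_7e344a_al: M01, finiteness and growth
-/

set_option autoImplicit false

namespace Pool.Agent.Lib.MP_7e344a_al

variable {A V : Type} [Group A] [MulAction A V] {Γ : SimpleGraph V} {δ : ℕ}

/-- balls are finite -/
theorem Act.ball_finite (hA : Act A V Γ δ) (v : V) (B : ℕ) : {w | Γ.dist v w ≤ B}.Finite := by
  induction B with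
  | zero =>
    apply (Set.finite_singleton v).subset
    intro w hw
    have h1 : Γ.dist v w = 0 := Nat.le_zero.1 hw
    exact (hA.conn.dist_eq_zero_iff.1 h1).symm
  | succ B ih =>
    have h1 : (⋃ u ∈ {w | Γ.dist v w ≤ B}, {w | Γ.Adj u w}).Finite :=
      ih.biUnion (fun u _ => hA.lfin u)
    apply (ih.union h1).subset
    intro w hw
    rcases Nat.lt_or_ge (Γ.dist v w) (B + 1) with h2 | h2
    · exact Or.inl (Nat.lt_succ_iff.1 h2)
    · right
      have h3 : Γ.dist v w = B + 1 := le_antisymm hw h2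
      obtain ⟨p, hp⟩ := IsGeo.exists hA.conn v w
      rw [h3] at hp
      have h4 := hp.adj (i := B) (by omega)
      rw [hp.fin] at h4
      have h5 := (FourPt_split hp (i := B) (by omega)).1
      rw [Set.mem_iUnion₂]
      exact ⟨p B, h5.le, h4⟩

theorem MGrowth_inj (hA : Act A V Γ δ) (v : V) {g g' : A} (h : g • v = g' • v) : g = g' := by
  have h1 : (g'⁻¹ * g) • v = v := by rw [mul_smul, h, inv_smul_smul]
  have h2 := hA.free _ _ h1
  rw [inv_mul_eq_one] at h2
  exact h2.symm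

theorem Act.finite_set (hA : Act A V Γ δ) (u v : V) (B : ℕ) :
    {g : A | Γ.dist u (g • v) ≤ B}.Finite := by
  have h1 := hA.ball_finite u B
  exact Set.Finite.preimage (f := fun g : A => g • v)
    (fun g _ g' _ h => MGrowth_inj hA v h) h1

/-- uniform bound for the number of elements of small displacement -/
theorem Act.finite_disp (hA : Act A V Γ δ) (B : ℕ) :
    ∃ M : ℕ, ∀ (v : V) (s : Finset A), (∀ g ∈ s, Γ.dist v (g • v) ≤ B) → s.card ≤ M := by
  classical
  obtain ⟨S, hS, hS'⟩ := hA.cofin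
  refine ⟨∑ w ∈ hS.toFinset, (hA.finite_set w w B).toFinset.card, ?_⟩
  intro v s hs
  obtain ⟨a, ha⟩ := hS' v
  have h1 : s.card ≤ (hA.finite_set (a • v) (a • v) B).toFinset.card := by
    apply Finset.card_le_card_of_injOn (fun g => a * g * a⁻¹)
    · intro g hg
      have h2 := hs g hg
      simp only [Set.Finite.coe_toFinset, Set.mem_ofPred_eq]
      have h3 : (a * g * a⁻¹) • a • v = a • g • v := by
        rw [mul_smul, inv_smul_smul, mul_smul]
      rw [h3, dist_smul hA.act]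
      exact h2
    · intro g _ g' _ h
      have h2 : a * g * a⁻¹ = a * g' * a⁻¹ := h
      exact mul_left_cancel (mul_right_cancel h2)
  refine h1.trans ?_
  exact Finset.single_le_sum (f := fun w => (hA.finite_set w w B).toFinset.card)
    (fun _ _ => Nat.zero_le _) (hS.mem_toFinset.2 ha)

/-- two almost centers of a set are near to each other -/
theorem center_near (hc : Γ.Connected) {κ : ℕ} (hF : FP Γ κ) {X : Set V} {r ε : ℕ} {c c' : V}
    (hX : X.Nonempty) (h : ∀ x ∈ X, Γ.dist c x ≤ r) (h' : ∀ x ∈ X, Γ.dist c' x ≤ r)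
    (hr : ∀ m : V, ∃ x ∈ X, r ≤ Γ.dist m x + ε) : Γ.dist c c' ≤ 2 * κ + 2 * ε + 1 := by
  have _ := hX
  obtain ⟨p, hp⟩ := IsGeo.exists hc c c'
  obtain ⟨a1, a2, a3⟩ := FourPt_split hp (i := Γ.dist c c' / 2) (Nat.div_le_self _ _)
  obtain ⟨x, hx, hx'⟩ := hr (p (Γ.dist c c' / 2))
  have h1 := hF c c' (p (Γ.dist c c' / 2)) x
  have h2 := h x hx
  have h3 := h' x hx
  rw [SimpleGraph.dist_comm (u := c') (v := p (Γ.dist c c' / 2))] at h1
  omega

end Pool.Agent.Lib.MP_7e344a_al
end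

section

/-!
# MP_7e344a_al: M01b, the doubling lemma
-/

set_option autoImplicit false

namespace Pool.Agent.Lib.MP_7e344a_al

variable {A V : Type} [Group A] [MulAction A V] {Γ : SimpleGraph V} {δ : ℕ}

/-- exponentials beat quadratic polynomials -/
theorem doubling_exp (a b m : ℕ) : ∃ j : ℕ, (j + m) * (a + (j + m) * b) < 2 * 2 ^ j := by
  have h := tendsto_pow_const_div_const_pow_of_one_lt 2 (r := (2 : ℝ)) (by norm_num)
  have hpos : (0 : ℝ) < 1 / ((a + b + 1) * 2 ^ m) := by positivity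
  have h1 := (h.eventually (gt_mem_nhds hpos)).and (Filter.eventually_ge_atTop (m + 1))
  obtain ⟨N, hN, hNm⟩ := h1.exists
  refine ⟨N - m, ?_⟩
  have e1 : N - m + m = N := by omega
  rw [e1]
  have h2 : ((N : ℝ) ^ 2) * ((a + b + 1) * 2 ^ m) < 2 ^ N := by
    rw [div_lt_div_iff₀ (by positivity) (by positivity)] at hN
    linarith
  have h3 : N ^ 2 * ((a + b + 1) * 2 ^ m) < 2 ^ N := by exact_mod_cast h2
  have h4 : 2 ^ N = 2 ^ (N - m) * 2 ^ m := by rw [← pow_add, e1]
  rw [h4, ← mul_assoc] at h3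
  have h5 : N ^ 2 * (a + b + 1) < 2 ^ (N - m) := Nat.lt_of_mul_lt_mul_right h3
  have h6 : N * (a + N * b) ≤ N ^ 2 * (a + b + 1) := by
    have hN1 : 1 ≤ N := by omega
    have : N * a ≤ N * N * a := by
      calc N * a = 1 * (N * a) := by ring
        _ ≤ N * (N * a) := Nat.mul_le_mul_right _ hN1
        _ = N * N * a := by ring
    nlinarith
  omega

/-- logarithmic growth of a function with the non-doubling property -/
theorem doubling_log {f : ℕ → ℕ} {B : ℕ} (h0 : f 0 = 0) (hadd : ∀ a b, f (a + b) ≤ f a + f b)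
    (hd : ∀ n, 0 < n → f (2 * n) ≤ f n + B) (k : ℕ) :
    f (2 ^ k) ≤ f 1 + k * B ∧ ∀ n < 2 ^ k, f n ≤ k * (f 1 + k * B) := by
  induction k with
  | zero => simp [h0]
  | succ k ih =>
    obtain ⟨ih1, ih2⟩ := ih
    constructor
    · have e : 2 ^ (k + 1) = 2 * 2 ^ k := by rw [pow_succ, mul_comm]
      have := hd (2 ^ k) (by positivity)
      rw [e, Nat.add_mul k 1 B, one_mul]
      omega
    · intro n hn
      have hmono : k * (f 1 + k * B) + (f 1 + k * B) ≤ (k + 1) * (f 1 + (k + 1) * B) := by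
        nlinarith
      rcases lt_or_ge n (2 ^ k) with h | h
      · have := ih2 n h
        omega
      · obtain ⟨m, rfl⟩ := Nat.exists_eq_add_of_le h
        have hm : m < 2 ^ k := by rw [pow_succ] at hn; omega
        have := ih2 m hm
        have := hadd (2 ^ k) m
        omega

/-- the doubling lemma -/
theorem Act.exists_doubling (hA : Act A V Γ δ) {h : A} (h1 : h ≠ 1) (y : V) (B : ℕ) :
    ∃ n : ℕ, 0 < n ∧ Γ.dist y (h ^ n • y) + B ≤ Γ.dist y (h ^ (2 * n) • y) := by
  classical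
  by_contra hcon
  push Not at hcon
  have hF := fp_of_slim hA.conn hA.slim
  obtain ⟨M, hM⟩ := hA.finite_disp (2 * (6 * δ + 2) + 2 * 1 + 1)
  -- powers of `h` are different
  have hinj : Function.Injective (fun j : ℕ => (h ^ j)⁻¹) := by
    intro a b hab
    have hab' : h ^ a = h ^ b := inv_injective hab
    by_contra hne
    rcases Nat.lt_or_gt_of_ne hne with hlt | hlt
    · obtain ⟨t, ht⟩ := Nat.exists_eq_add_of_lt hlt
      rw [ht, show a + t + 1 = a + (t + 1) by ring, pow_add] at hab'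
      exact h1 (hA.tf h (t + 1) (Nat.succ_pos _) (by simpa using hab'.symm))
    · obtain ⟨t, ht⟩ := Nat.exists_eq_add_of_lt hlt
      rw [ht, show b + t + 1 = b + (t + 1) by ring, pow_add] at hab'
      exact h1 (hA.tf h (t + 1) (Nat.succ_pos _) (by simpa using hab'))
  -- the radius grows linearly
  have key : ∀ (k r : ℕ) (c : V), (∀ i ≤ k * M, Γ.dist c (h ^ i • y) ≤ r) → 2 * k ≤ r := by
    intro k
    induction k with
    | zero => intro r c _; omega
    | succ k ih =>
      intro r c hc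
      by_contra hr
      have hnear : ∀ j ≤ M, Γ.dist c ((h ^ j)⁻¹ • c) ≤ 2 * (6 * δ + 2) + 2 * 1 + 1 := by
        intro j hj
        refine center_near (ε := 1) hA.conn hF (X := {x | ∃ i ≤ k * M, x = h ^ i • y}) (r := r)
          ⟨h ^ 0 • y, 0, Nat.zero_le _, rfl⟩ ?_ ?_ ?_
        · rintro x ⟨i, hi, rfl⟩
          exact hc i (hi.trans (Nat.mul_le_mul_right _ (Nat.le_succ k)))
        · rintro x ⟨i, hi, rfl⟩
          have e1 : Γ.dist ((h ^ j)⁻¹ • c) (h ^ i • y) = Γ.dist c (h ^ (j + i) • y) := by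
            rw [← dist_smul hA.act (h ^ j) ((h ^ j)⁻¹ • c) (h ^ i • y), smul_inv_smul, smul_smul,
              ← pow_add]
          rw [e1]
          apply hc
          rw [Nat.succ_mul]
          omega
        · intro m
          by_contra hm
          push Not at hm
          have h3 := ih (r - 2) m (fun i hi => by
            have := hm _ ⟨i, hi, rfl⟩
            omega)
          have h4 := hm _ ⟨0, Nat.zero_le _, rfl⟩
          omega
      have hcard := hM c ((Finset.range (M + 1)).image (fun j : ℕ => (h ^ j)⁻¹)) (by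
        intro g hg
        rw [Finset.mem_image] at hg
        obtain ⟨j, hj, rfl⟩ := hg
        exact hnear j (by simpa [Nat.lt_succ_iff] using hj))
      rw [Finset.card_image_of_injective _ hinj, Finset.card_range] at hcard
      omega
  -- the displacement grows logarithmically
  have hlog := doubling_log (f := fun n => Γ.dist y (h ^ n • y)) (B := B) (by simp)
    (fun a b => by
      have e1 : Γ.dist (h ^ a • y) (h ^ (a + b) • y) = Γ.dist y (h ^ b • y) := by
        rw [pow_add, mul_smul, dist_smul hA.act]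
      have := hA.conn.dist_triangle (u := y) (v := h ^ a • y) (w := h ^ (a + b) • y)
      rw [e1] at this
      exact this)
    (fun n hn => (hcon n hn).le)
  obtain ⟨m, hm⟩ : ∃ m, M < 2 ^ m := ⟨M, Nat.lt_two_pow_self⟩
  obtain ⟨j, hj⟩ := doubling_exp (Γ.dist y (h ^ 1 • y)) B m
  have h2 := key (2 ^ j) ((j + m) * (Γ.dist y (h ^ 1 • y) + (j + m) * B)) y (fun i hi =>
    (hlog (j + m)).2 i (by
      refine lt_of_le_of_lt hi ?_
      rw [pow_add]
      exact Nat.mul_lt_mul_of_pos_left hm (by positivity)))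
  omega

end Pool.Agent.Lib.MP_7e344a_al
end

section

/-!
# MP_7e344a_al: M02, nontrivial elements are loxodromic
-/

set_option autoImplicit false

namespace Pool.Agent.Lib.MP_7e344a_al

variable {A V : Type} [Group A] [MulAction A V] {Γ : SimpleGraph V} {δ : ℕ}

theorem MLox_dist (hA : Act A V Γ δ) (h : A) (y : V) (a b : ℤ) :
    Γ.dist (h ^ a • y) (h ^ b • y) = Γ.dist y (h ^ (b - a) • y) := by
  have h1 := dist_smul hA.act (h ^ a) y (h ^ (b - a) • y)
  rw [smul_smul, ← zpow_add, add_sub_cancel] at h1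
  exact h1

theorem MLox_dist_neg (hA : Act A V Γ δ) (h : A) (y : V) (a : ℤ) :
    Γ.dist y (h ^ (-a) • y) = Γ.dist y (h ^ a • y) := by
  have h1 := MLox_dist hA h y a 0
  rw [zero_sub, zpow_zero, one_smul] at h1
  rw [← h1, SimpleGraph.dist_comm]

/-- every nontrivial element is loxodromic -/
theorem Act.exists_lox (hA : Act A V Γ δ) {h : A} (h1 : h ≠ 1) (y : V) :
    ∃ C l : ℕ, Lox Γ h y C l := by
  have hF := fp_of_slim hA.conn hA.slim
  obtain ⟨κ, hκ⟩ : ∃ κ, κ = 6 * δ + 2 := ⟨_, rfl⟩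
  rw [← hκ] at hF
  obtain ⟨n, hn, hn2⟩ := hA.exists_doubling h1 y (2 * κ + 2)
  have hz : ∀ k : ℕ, h ^ (k : ℤ) = h ^ k := fun k => zpow_natCast h k
  -- displacement of the double
  have hfn : Γ.dist y (h ^ (2 * n) • y) ≤ 2 * Γ.dist y (h ^ n • y) := by
    have t : Γ.dist y (h ^ (2 * n) • y) ≤ Γ.dist y (h ^ n • y) +
      Γ.dist (h ^ n • y) (h ^ (2 * n) • y) := hA.conn.dist_triangle
    have t2 := MLox_dist hA h y (n : ℤ) ((2 * n : ℕ) : ℤ)
    rw [hz, hz] at t2
    have t3 : ((2 * n : ℕ) : ℤ) - (n : ℤ) = (n : ℤ) := by push_cast; ring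
    rw [t3, hz] at t2
    omega
  obtain ⟨C0, hC0⟩ : ∃ C0, C0 = 2 * Γ.dist y (h ^ n • y) - Γ.dist y (h ^ (2 * n) • y) := ⟨_, rfl⟩
  -- the sparse sequence
  obtain ⟨x, hx⟩ : ∃ x : ℤ → V, x = fun i : ℤ => h ^ (i * n) • y := ⟨_, rfl⟩
  have hx1 : ∀ i : ℤ, Γ.dist (x i) (x (i + 1)) = Γ.dist y (h ^ n • y) := by
    intro i
    simp only [hx]
    rw [MLox_dist hA, ← hz]
    congr 3
    ring
  have hx2 : ∀ i : ℤ, Γ.dist (x (i - 1)) (x (i + 1)) = Γ.dist y (h ^ (2 * n) • y) := by
    intro i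
    simp only [hx]
    rw [MLox_dist hA, ← hz]
    congr 3
    push_cast
    ring
  have hadd : ∀ a b : ℤ, AddOn Γ x a b (C0 + 2 * κ) := by
    intro a b
    apply AddOn.of_local hA.conn hF
    · intro i _ _
      have e1 := hx1 (i - 1)
      rw [sub_add_cancel] at e1
      rw [e1, hx1, hx2]
      omega
    · intro i _ _
      rw [hx1]
      omega
  have hgrow : ∀ m : ℕ, m ≤ Γ.dist (x 0) (x m) := by
    intro m
    have s := (hadd 0 (0 + (m : ℤ))).sum_le
    have s2 : ∑ l ∈ Finset.range m, Γ.dist (x (0 + l)) (x (0 + l + 1)) =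
        m * Γ.dist y (h ^ n • y) := by
      rw [Finset.sum_congr rfl (fun (l : ℕ) _ => hx1 (0 + (l : ℤ)))]
      simp
    rw [s2, zero_add] at s
    have s3 : C0 + 2 * κ + 2 ≤ Γ.dist y (h ^ n • y) := by omega
    have s4 : m * (C0 + 2 * κ + 2) ≤ m * Γ.dist y (h ^ n • y) := Nat.mul_le_mul_left _ s3
    have s5 : m * (C0 + 2 * κ + 2) = m * (C0 + 2 * κ) + 2 * m := by ring
    omega
  -- bound for the remainders
  obtain ⟨R, hR⟩ : ∃ R, R = ∑ r ∈ Finset.range n, Γ.dist y (h ^ r • y) := ⟨_, rfl⟩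
  have hRle : ∀ r : ℕ, r < n → Γ.dist y (h ^ r • y) ≤ R := by
    intro r hr
    rw [hR]
    exact Finset.single_le_sum (f := fun r => Γ.dist y (h ^ r • y)) (fun _ _ => Nat.zero_le _)
      (Finset.mem_range.2 hr)
  have hnz : (0 : ℤ) < n := by exact_mod_cast hn
  have hnear : ∀ a : ℤ, Γ.dist (x (a / n)) (h ^ a • y) ≤ R := by
    intro a
    have e1 := Int.emod_nonneg a hnz.ne'
    have e2 := Int.emod_lt_of_pos a hnz
    have e3 := Int.emod_add_mul_ediv a n
    simp only [hx]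
    rw [MLox_dist hA]
    have e4 : a - a / (n : ℤ) * (n : ℤ) = ((a % n).toNat : ℤ) := by
      rw [Int.toNat_of_nonneg e1]
      linarith [mul_comm (a / (n : ℤ)) (n : ℤ)]
    rw [e4, hz]
    apply hRle
    omega
  refine ⟨C0 + 2 * κ + 6 * R, n * (R + 1), ?_, ?_⟩
  · intro a b c hab hbc
    have d1 := hnear a
    have d2 := hnear b
    have d3 := hnear c
    have m1 : a / (n : ℤ) ≤ b / n := Int.ediv_le_ediv hnz hab
    have m2 : b / (n : ℤ) ≤ c / n := Int.ediv_le_ediv hnz hbc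
    have d4 := hadd (a / n) (c / n) (a / n) (b / n) (c / n) le_rfl m1 m2 le_rfl
    have t1 : Γ.dist (h ^ a • y) (h ^ b • y) ≤ Γ.dist (h ^ a • y) (x (a / n)) +
      Γ.dist (x (a / n)) (h ^ b • y) := hA.conn.dist_triangle
    have t2 : Γ.dist (x (a / n)) (h ^ b • y) ≤ Γ.dist (x (a / n)) (x (b / n)) +
      Γ.dist (x (b / n)) (h ^ b • y) := hA.conn.dist_triangle
    have t3 : Γ.dist (h ^ b • y) (h ^ c • y) ≤ Γ.dist (h ^ b • y) (x (b / n)) +
      Γ.dist (x (b / n)) (h ^ c • y) := hA.conn.dist_triangle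
    have t4 : Γ.dist (x (b / n)) (h ^ c • y) ≤ Γ.dist (x (b / n)) (x (c / n)) +
      Γ.dist (x (c / n)) (h ^ c • y) := hA.conn.dist_triangle
    have t5 : Γ.dist (x (a / n)) (x (c / n)) ≤ Γ.dist (x (a / n)) (h ^ a • y) +
      Γ.dist (h ^ a • y) (x (c / n)) := hA.conn.dist_triangle
    have t6 : Γ.dist (h ^ a • y) (x (c / n)) ≤ Γ.dist (h ^ a • y) (h ^ c • y) +
      Γ.dist (h ^ c • y) (x (c / n)) := hA.conn.dist_triangle
    rw [SimpleGraph.dist_comm (u := h ^ a • y) (v := x (a / n))] at t1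
    rw [SimpleGraph.dist_comm (u := h ^ b • y) (v := x (b / n))] at t3
    rw [SimpleGraph.dist_comm (u := h ^ c • y) (v := x (c / n))] at t6
    omega
  · intro m
    have d1 := hnear (m : ℤ)
    have e1 : (m : ℤ) / (n : ℤ) = ((m / n : ℕ) : ℤ) := by push_cast; rfl
    rw [e1, hz] at d1
    have d2 := hgrow (m / n)
    have hx0 : x 0 = y := by simp [hx]
    have t1 : Γ.dist (x 0) (x ((m / n : ℕ) : ℤ)) ≤ Γ.dist (x 0) (h ^ m • y) +
      Γ.dist (h ^ m • y) (x ((m / n : ℕ) : ℤ)) := hA.conn.dist_triangle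
    rw [SimpleGraph.dist_comm (u := h ^ m • y)] at t1
    rw [hx0] at t1 d2
    have e2 : m < n * (m / n + 1) := by
      have := Nat.lt_mul_div_succ m hn
      exact this
    have e3 : m / n + 1 ≤ (R + 1) * (Γ.dist y (h ^ m • y) + 1) := by
      have e4 : (R + 1) * (Γ.dist y (h ^ m • y) + 1) =
          R * Γ.dist y (h ^ m • y) + R + Γ.dist y (h ^ m • y) + 1 := by ring
      rw [e4]
      omega
    calc m ≤ n * (m / n + 1) := e2.le
      _ ≤ n * ((R + 1) * (Γ.dist y (h ^ m • y) + 1)) := Nat.mul_le_mul_left _ e3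
      _ = n * (R + 1) * (Γ.dist y (h ^ m • y) + 1) := by ring

theorem Lox.ne_one (hA : Act A V Γ δ) {h : A} {y : V} {C l : ℕ} (hL : Lox Γ h y C l) :
    h ≠ 1 := by
  rintro rfl
  have _ := hA
  have h1 := hL.grow (l + 1)
  rw [one_pow, one_smul, SimpleGraph.dist_self] at h1
  omega

/-- displacement of a power -/
theorem Act.dist_zpow (hA : Act A V Γ δ) (h : A) (y : V) (a b : ℤ) :
    Γ.dist (h ^ a • y) (h ^ b • y) = Γ.dist y (h ^ (b - a) • y) := MLox_dist hA h y a b

theorem Act.dist_zpow_neg (hA : Act A V Γ δ) (h : A) (y : V) (a : ℤ) :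
    Γ.dist y (h ^ (-a) • y) = Γ.dist y (h ^ a • y) := MLox_dist_neg hA h y a

theorem MLox_natAbs (hA : Act A V Γ δ) (h : A) (y : V) (a : ℤ) :
    Γ.dist y (h ^ a • y) = Γ.dist y (h ^ a.natAbs • y) := by
  rcases Int.natAbs_eq a with ha | ha
  · conv_lhs => rw [ha]
    rw [zpow_natCast]
  · conv_lhs => rw [ha]
    rw [hA.dist_zpow_neg, zpow_natCast]

theorem Act.dist_zpow_le (hA : Act A V Γ δ) (h : A) (y : V) (a : ℤ) :
    Γ.dist y (h ^ a • y) ≤ a.natAbs * Γ.dist y (h • y) := by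
  rw [MLox_natAbs hA]
  generalize a.natAbs = n
  induction n with
  | zero => simp
  | succ n ih =>
    have t : Γ.dist y (h ^ (n + 1) • y) ≤ Γ.dist y (h ^ n • y) +
      Γ.dist (h ^ n • y) (h ^ (n + 1) • y) := hA.conn.dist_triangle
    have t2 : Γ.dist (h ^ n • y) (h ^ (n + 1) • y) = Γ.dist y (h • y) := by
      rw [pow_succ, mul_smul]
      exact dist_smul hA.act (h ^ n) y (h • y)
    rw [t2] at t
    rw [Nat.succ_mul]
    omega

theorem Lox.grow_int (hA : Act A V Γ δ) {h : A} {y : V} {C l : ℕ} (hL : Lox Γ h y C l) (m : ℤ) :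
    m.natAbs ≤ l * (Γ.dist y (h ^ m • y) + 1) := by
  rw [MLox_natAbs hA]
  exact hL.grow m.natAbs

theorem Lox.addOn {h : A} {y : V} {C l : ℕ} (hL : Lox Γ h y C l) (a b : ℤ) :
    AddOn Γ (fun i : ℤ => h ^ i • y) a b C := by
  intro i j k _ hij hjk _
  exact hL.add i j k hij hjk

theorem Act.stepOn (hA : Act A V Γ δ) (h : A) (y : V) (a b : ℤ) :
    StepOn Γ (fun i : ℤ => h ^ i • y) a b (Γ.dist y (h • y)) := by
  intro i _ _
  simp only
  rw [hA.dist_zpow, add_sub_cancel_left, zpow_one]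

/-- almost additivity of the displacement, in terms of natural numbers -/
theorem Lox.nat_add (hA : Act A V Γ δ) {h : A} {y : V} {C l : ℕ} (hL : Lox Γ h y C l) (a b : ℕ) :
    Γ.dist y (h ^ a • y) + Γ.dist y (h ^ b • y) ≤ Γ.dist y (h ^ (a + b) • y) + C := by
  have h1 := hL.add 0 a (a + b) (by omega) (by omega)
  rw [hA.dist_zpow, hA.dist_zpow, hA.dist_zpow, sub_zero, sub_zero, add_sub_cancel_left,
    zpow_natCast, zpow_natCast] at h1
  have h2 : h ^ ((a : ℤ) + b) = h ^ (a + b) := by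
    rw [← zpow_natCast h (a + b)]
    push_cast
    rfl
  rw [h2] at h1
  exact h1

theorem Act.nat_sub (hA : Act A V Γ δ) (h : A) (y : V) (a b : ℕ) :
    Γ.dist y (h ^ (a + b) • y) ≤ Γ.dist y (h ^ a • y) + Γ.dist y (h ^ b • y) := by
  have t : Γ.dist y (h ^ (a + b) • y) ≤ Γ.dist y (h ^ a • y) +
      Γ.dist (h ^ a • y) (h ^ (a + b) • y) := hA.conn.dist_triangle
  have t2 : Γ.dist (h ^ a • y) (h ^ (a + b) • y) = Γ.dist y (h ^ b • y) := by
    rw [pow_add, mul_smul]
    exact dist_smul hA.act (h ^ a) y (h ^ b • y)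
  omega

/-- exponents with nearby displacements are near -/
theorem Lox.close (hA : Act A V Γ δ) {h : A} {y : V} {C l : ℕ} (hL : Lox Γ h y C l) {a b D : ℕ}
    (h1 : Γ.dist y (h ^ a • y) ≤ Γ.dist y (h ^ b • y) + D) :
    a ≤ b + l * (D + C + 1) := by
  rcases le_or_gt a b with hab | hab
  · omega
  · obtain ⟨t, rfl⟩ : ∃ t, a = b + t := ⟨a - b, by omega⟩
    have h2 := hL.nat_add hA b t
    have h3 := hL.grow t
    have h4 : l * (Γ.dist y (h ^ t • y) + 1) ≤ l * (D + C + 1) :=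
      Nat.mul_le_mul_left _ (by omega)
    omega

end Pool.Agent.Lib.MP_7e344a_al
end

section

/-!
# MP_7e344a_al: M14, free groups are torsion free hyperbolic
-/

set_option autoImplicit false

namespace Pool.Agent.Lib.MP_7e344a_al

/-- trees are slim -/
theorem slim_of_isTree {V : Type} {Γ : SimpleGraph V} (h : Γ.IsTree) : Slim Γ 0 := by
  classical
  intro p q r l m n x y z hp hq hr i hi
  have hc : Γ.Connected := h.connected
  obtain ⟨w1, hw1, -⟩ := hp.walk hc (Nat.zero_le i) hi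
  obtain ⟨w2, hw2, -⟩ := hp.walk hc hi (le_refl l)
  have e0 : p 0 = x := hp.start
  have el : p l = y := hp.fin
  have hpath : ((w1.append w2).copy e0 el).IsPath := by
    refine SimpleGraph.Walk.isPath_of_length_eq_dist _ ?_
    rw [hp.length, SimpleGraph.Walk.length_copy, SimpleGraph.Walk.length_append]
    omega
  have hmem : p i ∈ ((w1.append w2).copy e0 el).support := by
    rw [SimpleGraph.Walk.support_copy, SimpleGraph.Walk.mem_support_append_iff]
    exact Or.inl w1.end_mem_support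
  obtain ⟨wq, -, hwq⟩ := hq.walk hc (Nat.zero_le m) (le_refl m)
  obtain ⟨wr, -, hwr⟩ := hr.walk hc (Nat.zero_le n) (le_refl n)
  let W : Γ.Walk x y := (wr.copy hr.start hr.fin).append (wq.copy hq.start hq.fin).reverse
  have huniq := (h.isAcyclic.subsingleton_path x y).elim ⟨_, hpath⟩ ⟨W.bypass, W.bypass_isPath⟩
  have heq : ((w1.append w2).copy e0 el) = W.bypass := congrArg Subtype.val huniq
  rw [heq] at hmem
  have hW : p i ∈ W.support := W.support_bypass_subset_support hmem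
  rw [SimpleGraph.Walk.mem_support_append_iff] at hW
  rcases hW with hW | hW
  · rw [SimpleGraph.Walk.support_copy] at hW
    obtain ⟨k, -, hk, hk'⟩ := hwr _ hW
    exact Or.inr ⟨k, hk, by rw [hk', SimpleGraph.dist_self]⟩
  · rw [SimpleGraph.Walk.support_reverse, List.mem_reverse, SimpleGraph.Walk.support_copy] at hW
    obtain ⟨k, -, hk, hk'⟩ := hwq _ hW
    exact Or.inl ⟨k, hk, by rw [hk', SimpleGraph.dist_self]⟩

/-- a graph with a height function such that adjacent vertices have different heights and each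
vertex has at most one lower neighbour is acyclic -/
theorem free_isAcyclic_of_height {V : Type} {Γ : SimpleGraph V} (ht : V → ℕ)
    (h1 : ∀ v w, Γ.Adj v w → ht v ≠ ht w)
    (h2 : ∀ v w w', Γ.Adj v w → Γ.Adj v w' → ht w < ht v → ht w' < ht v → w = w') :
    Γ.IsAcyclic := by
  classical
  intro u c hc
  have hne : (c.support.toFinset).Nonempty :=
    ⟨u, List.mem_toFinset.mpr c.start_mem_support⟩
  obtain ⟨v, hv, hmax⟩ := Finset.exists_max_image c.support.toFinset ht hne
  rw [List.mem_toFinset] at hv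
  have hcr : (c.rotate v hv).IsCycle := SimpleGraph.Walk.isCycle_rotate hv |>.mpr hc
  have hsub : ∀ w ∈ (c.rotate v hv).support, w ∈ c.support := by
    intro w hw
    unfold SimpleGraph.Walk.rotate at hw
    rw [SimpleGraph.Walk.mem_support_append_iff] at hw
    rcases hw with hw | hw
    · exact c.support_dropUntil_subset_support hv hw
    · exact c.support_takeUntil_subset_support hv hw
  have hnil := hcr.not_nil
  have ha : Γ.Adj v (c.rotate v hv).snd := SimpleGraph.Walk.adj_snd hnil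
  have hb : Γ.Adj (c.rotate v hv).penultimate v := SimpleGraph.Walk.adj_penultimate hnil
  have hma : (c.rotate v hv).snd ∈ (c.rotate v hv).support := SimpleGraph.Walk.getVert_mem_support _ _
  have hmb : (c.rotate v hv).penultimate ∈ (c.rotate v hv).support :=
    SimpleGraph.Walk.getVert_mem_support _ _
  have hla := hmax _ (List.mem_toFinset.mpr (hsub _ hma))
  have hlb := hmax _ (List.mem_toFinset.mpr (hsub _ hmb))
  refine hcr.snd_ne_penultimate (h2 v _ _ ha hb.symm ?_ ?_)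
  · exact lt_of_le_of_ne hla (h1 _ _ ha.symm)
  · exact lt_of_le_of_ne hlb (h1 _ _ hb)

/-- the Cayley graph of the free group -/
def freeCay : SimpleGraph (FreeGroup Bool) where
  Adj v w := ∃ x : Bool × Bool, w = v * FreeGroup.mk [x]
  symm := ⟨by
    rintro v w ⟨x, rfl⟩
    refine ⟨(x.1, !x.2), ?_⟩
    rw [mul_assoc]
    have : (FreeGroup.mk [x] : FreeGroup Bool) * FreeGroup.mk [(x.1, !x.2)] = 1 := by
      have h := FreeGroup.inv_mk (L := [x])
      simp only [FreeGroup.invRev, List.map_cons, List.map_nil, List.reverse_singleton] at h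
      rw [← h, mul_inv_cancel]
    rw [this, mul_one]⟩
  loopless := ⟨by
    rintro v ⟨x, hx⟩
    have h : (FreeGroup.mk [x] : FreeGroup Bool) = 1 := by
      have := congrArg (fun t => v⁻¹ * t) hx
      simpa using this.symm
    have h2 := congrArg FreeGroup.toWord h
    rw [FreeGroup.toWord_mk, FreeGroup.toWord_one] at h2
    simp [FreeGroup.reduce] at h2⟩

theorem free_inv_mk (x : Bool × Bool) (v : FreeGroup Bool) :
    (v * FreeGroup.mk [x])⁻¹ = FreeGroup.mk [(x.1, !x.2)] * v⁻¹ := by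
  rw [mul_inv_rev, FreeGroup.inv_mk]
  rfl

/-- the height: the length of the reduced word of the inverse -/
def freeHt (v : FreeGroup Bool) : ℕ := (v⁻¹).toWord.length

theorem free_toWord (x : Bool × Bool) (u : FreeGroup Bool) :
    ((FreeGroup.mk [x] * u).toWord.length = u.toWord.length + 1) ∨
    ((FreeGroup.mk [x] * u).toWord.length + 1 = u.toWord.length ∧
      ∃ L, u.toWord = (x.1, !x.2) :: L) := by
  have h1 : (FreeGroup.mk [x] * u) = FreeGroup.mk (x :: u.toWord) := by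
    conv_lhs => rw [← FreeGroup.mk_toWord (x := u)]
    rw [FreeGroup.mul_mk]
    rfl
  rw [h1, FreeGroup.toWord_mk, FreeGroup.reduce.cons, FreeGroup.reduce_toWord]
  cases hu : u.toWord with
  | nil => left; simp
  | cons y L =>
    obtain ⟨y1, y2⟩ := y
    obtain ⟨x1, x2⟩ := x
    by_cases hxy : x1 = y1 ∧ x2 = !y2
    · right
      obtain ⟨rfl, rfl⟩ := hxy
      simp
    · left
      simp [hxy]

theorem free_ht_ne (v w : FreeGroup Bool) (h : freeCay.Adj v w) : freeHt v ≠ freeHt w := by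
  obtain ⟨x, rfl⟩ := h
  unfold freeHt
  rw [free_inv_mk]
  rcases free_toWord (x.1, !x.2) v⁻¹ with h | ⟨h, -⟩ <;> omega

theorem free_ht_unique (v w w' : FreeGroup Bool) (h : freeCay.Adj v w) (h' : freeCay.Adj v w')
    (hw : freeHt w < freeHt v) (hw' : freeHt w' < freeHt v) : w = w' := by
  obtain ⟨x, rfl⟩ := h
  obtain ⟨x', rfl⟩ := h'
  unfold freeHt at hw hw'
  rw [free_inv_mk] at hw hw'
  rcases free_toWord (x.1, !x.2) v⁻¹ with h | ⟨h, L, hL⟩
  · omega
  rcases free_toWord (x'.1, !x'.2) v⁻¹ with h' | ⟨h', L', hL'⟩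
  · omega
  rw [hL] at hL'
  obtain ⟨x1, x2⟩ := x
  obtain ⟨x1', x2'⟩ := x'
  simp only [Bool.not_not, List.cons.injEq, Prod.mk.injEq] at hL'
  obtain ⟨⟨rfl, rfl⟩, -⟩ := hL'
  rfl

theorem free_conn : freeCay.Connected := by
  have : Nonempty (FreeGroup Bool) := ⟨1⟩
  have key : ∀ L : List (Bool × Bool), freeCay.Reachable 1 (FreeGroup.mk L) := by
    intro L
    induction L using List.reverseRecOn with
    | nil => exact SimpleGraph.Reachable.refl _
    | append_singleton L x ih =>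
      refine ih.trans (SimpleGraph.Adj.reachable ⟨x, ?_⟩)
      rw [FreeGroup.mul_mk]
  rw [SimpleGraph.connected_iff]
  refine ⟨?_, this⟩
  intro v w
  have hv := key v.toWord
  have hw := key w.toWord
  rw [FreeGroup.mk_toWord] at hv hw
  exact hv.symm.trans hw

theorem hyp_free : Hyp (FreeGroup Bool) := by
  refine ⟨FreeGroup Bool, inferInstance, freeCay, 0, ?_⟩
  refine
    { act := ?_, free := ?_, conn := free_conn, slim := ?_, lfin := ?_, cofin := ?_, tf := ?_ }
  · rintro g v w ⟨x, rfl⟩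
    exact ⟨x, by simp [mul_assoc]⟩
  · intro g v hgv
    simpa using hgv
  · refine slim_of_isTree ⟨free_conn, ?_⟩
    exact free_isAcyclic_of_height freeHt free_ht_ne free_ht_unique
  · intro v
    refine (Set.finite_range (fun x : Bool × Bool => v * FreeGroup.mk [x])).subset ?_
    rintro w ⟨x, rfl⟩
    exact ⟨x, rfl⟩
  · exact ⟨{1}, Set.finite_singleton _, fun v => ⟨v⁻¹, by simp⟩⟩
  · intro g k hk hg
    exact (pow_eq_one_iff_left hk.ne').mp hg

end Pool.Agent.Lib.MP_7e344a_al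
end
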