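import Pool.Agent.Lib.MP_7e344a_al.Mg.G001

section

/-!
# MP_7e344a_al: T01b, the triangle lemma
-/

set_option autoImplicit false

namespace Pool.Agent.Lib.MP_7e344a_al

variable {V : Type} {G : Type} {Γ : SimpleGraph V}

theorem tri_along (hc : Γ.Connected) {p : ℕ → V} {n : ℕ} {x y : V} (h : IsGeo Γ p n x y) {c : V}
    {i j : ℕ} (hij : i ≤ j) (hj : j ≤ n) (hav : ∀ k, i ≤ k → k ≤ j → p k ≠ c) :
    AngLE Γ c (p i) (p j) (j - i) := by
  obtain ⟨w, hw, hs⟩ := h.walk hc hij hj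
  refine ⟨w, le_of_eq hw, ?_⟩
  intro hmem
  obtain ⟨k, hk1, hk2, hk3⟩ := hs c hmem
  exact hav k hk1 hk2 hk3.symm

theorem tri_short (hc : Γ.Connected) {a b c : V} {δ : ℕ} (h : Γ.dist a b ≤ δ)
    (h' : δ < Γ.dist a c) : AngLE Γ c a b δ := by
  obtain ⟨w, hw, hs⟩ := exists_walk_avoid hc (lt_of_le_of_lt h h')
  exact ⟨w, by omega, hs⟩

theorem tri_side (hc : Γ.Connected) {δ : ℕ} (hs : Slim Γ δ) {p q r : ℕ → V} {l m n : ℕ}
    {c y z : V} (hp : IsGeo Γ p l c y) (hq : IsGeo Γ q m c z) (hr : IsGeo Γ r n y z)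
    (hl : 1 ≤ l) :
    (∃ j ≤ n, AngLE Γ c (p 1) (r j) (2 * δ) ∧ Γ.dist c (r j) ≤ 2 * δ + 1) ∨
    (∃ k, 1 ≤ k ∧ k ≤ m ∧ AngLE Γ c (p 1) (q k) (2 * δ) ∧ k ≤ 2 * δ + 1) := by
  have hne : ∀ k, 1 ≤ k → k ≤ l → p k ≠ c := by
    intro k hk1 hk2 hk3
    have := hp.inj hk2 (Nat.zero_le l) (hk3.trans hp.start.symm)
    omega
  rcases lt_or_ge l (δ + 1) with hlR | hlR
  · left
    refine ⟨0, Nat.zero_le _, ?_, ?_⟩
    · have h1 := tri_along hc hp (i := 1) (j := l) hl (le_refl l) hne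
      rw [hp.fin, ← hr.start] at h1
      exact h1.mono (by omega)
    · rw [hr.start, hp.length]; omega
  · have hda : Γ.dist c (p (δ + 1)) = δ + 1 := by
      have := hp.geo 0 (δ + 1) (Nat.zero_le _) hlR
      rw [hp.start] at this
      simpa using this
    have hda' : Γ.dist (p (δ + 1)) c = δ + 1 := by rw [SimpleGraph.dist_comm]; exact hda
    have h1 : AngLE Γ c (p 1) (p (δ + 1)) δ := by
      have := tri_along hc hp (i := 1) (j := δ + 1) (by omega) hlR
        (fun k hk1 hk2 => hne k hk1 (le_trans hk2 hlR))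
      simpa using this
    rcases hs p r q l n m c y z hp hr hq (δ + 1) hlR with ⟨j, hj, hd⟩ | ⟨k, hk, hd⟩
    · left
      refine ⟨j, hj, ?_, ?_⟩
      · exact (h1.trans (tri_short hc hd (by omega))).mono (by omega)
      · have := hc.dist_triangle (u := c) (v := p (δ + 1)) (w := r j)
        omega
    · right
      have hck : Γ.dist c (q k) = k := by
        have := hq.geo 0 k (Nat.zero_le _) hk
        rw [hq.start] at this
        simpa using this
      have t1 := hc.dist_triangle (u := c) (v := p (δ + 1)) (w := q k)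
      have t2 := hc.dist_triangle (u := c) (v := q k) (w := p (δ + 1))
      rw [SimpleGraph.dist_comm (u := q k)] at t2
      refine ⟨k, by omega, hk, ?_, by omega⟩
      exact (h1.trans (tri_short hc hd (by omega))).mono (by omega)

/-- TL: the triangle lemma -/
theorem triangle (hc : Γ.Connected) {δ : ℕ} (hs : Slim Γ δ) {p q r : ℕ → V} {l m n : ℕ}
    {c y z : V} (hp : IsGeo Γ p l c y) (hq : IsGeo Γ q m c z) (hr : IsGeo Γ r n y z)
    (hl : 1 ≤ l) (hm : 1 ≤ m) (hn : ∀ k ≤ n, r k ≠ c) : AngLE Γ c (p 1) (q 1) (D0 δ) := by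
  have hnep : ∀ k, 1 ≤ k → k ≤ l → p k ≠ c := by
    intro k hk1 hk2 hk3
    have := hp.inj hk2 (Nat.zero_le l) (hk3.trans hp.start.symm)
    omega
  have hneq : ∀ k, 1 ≤ k → k ≤ m → q k ≠ c := by
    intro k hk1 hk2 hk3
    have := hq.inj hk2 (Nat.zero_le m) (hk3.trans hq.start.symm)
    omega
  rcases tri_side hc hs hp hq hr hl with ⟨j, hj, ha1, ha2⟩ | ⟨k, hk1, hk2, ha, hk3⟩
  · rcases tri_side hc hs hq hp hr.symm hm with ⟨j', hj', hb1, hb2⟩ | ⟨k, hk1, hk2, hb, hk3⟩
    · set i' := n - j' with hi'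
      have hi'n : i' ≤ n := by omega
      have hdist : Γ.dist (r j) (r i') ≤ 4 * δ + 2 := by
        have := hc.dist_triangle (u := r j) (v := c) (w := r i')
        rw [SimpleGraph.dist_comm (u := r j) (v := c)] at this
        have hb2' : Γ.dist c (r i') ≤ 2 * δ + 1 := hb2
        omega
      have hmid : AngLE Γ c (r j) (r i') (4 * δ + 2) := by
        rcases le_total j i' with hji | hji
        · have h1 := tri_along hc hr hji hi'n (fun k _ hk2 => hn k (le_trans hk2 hi'n))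
          have h2 := hr.geo j i' hji hi'n
          exact h1.mono (by omega)
        · have h1 := tri_along hc hr hji hj (fun k _ hk2 => hn k (le_trans hk2 hj))
          have h2 := hr.geo i' j hji hj
          rw [SimpleGraph.dist_comm] at h2
          exact h1.symm.mono (by omega)
      exact ((ha1.trans hmid).trans hb1.symm).mono (by simp only [D0]; omega)
    · have h1 := tri_along hc hp (i := 1) (j := k) hk1 hk2
        (fun i hi1 hi2 => hnep i hi1 (le_trans hi2 hk2))
      exact (h1.trans hb.symm).mono (by simp only [D0]; omega)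
  · have h1 := tri_along hc hq (i := 1) (j := k) hk1 hk2
      (fun i hi1 hi2 => hneq i hi1 (le_trans hi2 hk2))
    exact (ha.trans h1.symm).mono (by simp only [D0]; omega)

end Pool.Agent.Lib.MP_7e344a_al
end

section

/-!
# MP_7e344a_al: T02, chains of geodesics, the fan lemma
-/

set_option autoImplicit false

namespace Pool.Agent.Lib.MP_7e344a_al

variable {V : Type} {G : Type} {Γ : SimpleGraph V}

/-- the trivial geodesic -/
theorem chains_const (x : V) : IsGeo Γ (fun _ => x) 0 x x := by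
  refine ⟨?_, rfl, rfl⟩
  intro i j hij hj
  have : j = 0 := by omega
  subst this
  simp

/-- an edge is a geodesic -/
theorem chains_edge {x y : V} (h : Γ.Adj x y) :
    IsGeo Γ (fun i => if i = 0 then x else y) 1 x y := by
  refine ⟨?_, by simp, by simp⟩
  intro i j hij hj
  rcases Nat.eq_zero_or_pos i with hi | hi
  · subst hi
    rcases Nat.eq_zero_or_pos j with hj0 | hj0
    · subst hj0
      simp
    · have : j = 1 := by omega
      subst this
      simpa using (SimpleGraph.dist_eq_one_iff_adj.mpr h)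
  · have hi1 : i = 1 := by omega
    have hj1 : j = 1 := by omega
    subst hi1
    subst hj1
    simp

theorem Chain.start_mem {m : ℕ} {P : Set V} {x y : V} (h : Chain Γ m P x y) : x ∈ P := by
  induction h with
  | refl x => exact Set.mem_singleton x
  | snoc p n h hp ih => exact Or.inl ih

theorem Chain.end_mem {m : ℕ} {P : Set V} {x y : V} (h : Chain Γ m P x y) : y ∈ P := by
  cases h with
  | refl => exact Set.mem_singleton _
  | snoc p n h hp => exact Or.inr ⟨n, Set.mem_Iic.mpr le_rfl, hp.fin⟩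

theorem Chain.of_geo {p : ℕ → V} {n : ℕ} {x y : V} (h : IsGeo Γ p n x y) :
    Chain Γ 1 (p '' Set.Iic n) x y := by
  have h1 := Chain.snoc p n (Chain.refl (Γ := Γ) x) h
  have h2 : ({x} : Set V) ∪ p '' Set.Iic n = p '' Set.Iic n := by
    apply Set.union_eq_self_of_subset_left
    rw [Set.singleton_subset_iff]
    exact ⟨0, Set.mem_Iic.mpr (Nat.zero_le n), h.start⟩
  rw [h2] at h1
  exact h1

theorem Chain.trans {m n : ℕ} {P Q : Set V} {x y z : V} (h : Chain Γ m P x y)
    (h' : Chain Γ n Q y z) : Chain Γ (m + n) (P ∪ Q) x z := by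
  induction h' with
  | refl y =>
    have h2 : P ∪ {y} = P := by
      apply Set.union_eq_self_of_subset_right
      rw [Set.singleton_subset_iff]
      exact h.end_mem
    rw [h2]
    exact h
  | snoc p k h1 hp ih =>
    have h3 := Chain.snoc p k (ih h) hp
    rw [Set.union_assoc] at h3
    exact h3

theorem Chain.symm {m : ℕ} {P : Set V} {x y : V} (h : Chain Γ m P x y) : Chain Γ m P y x := by
  induction h with
  | refl x => exact Chain.refl x
  | @snoc m P x y z p n h hp ih =>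
    have h1 : Chain Γ 1 ((fun i => p (n - i)) '' Set.Iic n) z y := Chain.of_geo hp.symm
    have h2 : (fun i => p (n - i)) '' Set.Iic n = p '' Set.Iic n := by
      ext v
      constructor
      · rintro ⟨i, hi, rfl⟩
        exact ⟨n - i, Set.mem_Iic.mpr (Nat.sub_le n i), rfl⟩
      · rintro ⟨i, hi, rfl⟩
        have hi' : i ≤ n := hi
        refine ⟨n - i, Set.mem_Iic.mpr (Nat.sub_le n i), ?_⟩
        show p (n - (n - i)) = p i
        rw [Nat.sub_sub_self hi']
    rw [h2] at h1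
    have h3 := h1.trans ih
    rw [Set.union_comm, Nat.add_comm] at h3
    exact h3

theorem Chain.mono {m n : ℕ} {P : Set V} {x y : V} (h : Chain Γ m P x y) (hmn : m ≤ n) :
    Chain Γ n P x y := by
  induction n, hmn using Nat.le_induction with
  | base => exact h
  | succ k hk ih =>
    have h1 := Chain.snoc (fun _ => y) 0 ih (chains_const y)
    have h2 : P ∪ (fun _ : ℕ => y) '' Set.Iic 0 = P := by
      apply Set.union_eq_self_of_subset_right
      rintro v ⟨i, _, rfl⟩
      exact h.end_mem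
    rw [h2] at h1
    exact h1

theorem Chain.split {m : ℕ} {P : Set V} {x y c : V} (h : Chain Γ m P x y) (hc : c ∈ P) :
    ∃ m1 m2 : ℕ, ∃ P1 P2 : Set V, Chain Γ m1 P1 x c ∧ Chain Γ m2 P2 c y ∧ m1 + m2 ≤ m + 1 ∧
      P1 ⊆ P ∧ P2 ⊆ P := by
  induction h with
  | refl x =>
    have hcx : c = x := hc
    subst hcx
    exact ⟨0, 0, {c}, {c}, Chain.refl c, Chain.refl c, by omega, le_rfl, le_rfl⟩
  | @snoc m P x y z p n h hp ih =>
    rcases hc with hc | hc
    · obtain ⟨m1, m2, P1, P2, h1, h2, hm, hP1, hP2⟩ := ih hc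
      refine ⟨m1, m2 + 1, P1, P2 ∪ p '' Set.Iic n, h1, Chain.snoc p n h2 hp, by omega, ?_, ?_⟩
      · exact hP1.trans Set.subset_union_left
      · exact Set.union_subset_union_left _ hP2
    · obtain ⟨i, hi, rfl⟩ := hc
      have hi' : i ≤ n := hi
      refine ⟨m + 1, 1, P ∪ p '' Set.Iic i, (fun j => p (i + j)) '' Set.Iic (n - i),
        Chain.snoc p i h (hp.take hi'), Chain.of_geo (hp.drop hi'), by omega, ?_, ?_⟩
      · apply Set.union_subset_union_right
        apply Set.image_mono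
        exact Set.Iic_subset_Iic.mpr hi'
      · rintro v ⟨j, hj, rfl⟩
        have hj' : j ≤ n - i := hj
        exact Or.inr ⟨i + j, Set.mem_Iic.mpr (by omega), rfl⟩

theorem Chain.smul [Group G] [MulAction G V]
    (hact : ∀ (g : G) (v w : V), Γ.Adj v w → Γ.Adj (g • v) (g • w)) (g : G) {m : ℕ} {P : Set V}
    {x y : V} (h : Chain Γ m P x y) : Chain Γ m ((fun v => g • v) '' P) (g • x) (g • y) := by
  induction h with
  | refl x =>
    rw [Set.image_singleton]
    exact Chain.refl (g • x)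
  | @snoc m P x y z p n h hp ih =>
    rw [Set.image_union, Set.image_image]
    exact Chain.snoc (fun i => g • p i) n ih (hp.smul hact g)

/-- a walk of length `n` is a chain of `n` geodesics (edges) -/
theorem Chain.of_walk {x y : V} (w : Γ.Walk x y) : Chain Γ w.length {v | v ∈ w.support} x y := by
  induction w with
  | @nil x =>
    have h2 : {v | v ∈ (SimpleGraph.Walk.nil : Γ.Walk x x).support} = ({x} : Set V) := by
      ext v
      simp
    rw [h2]
    exact Chain.refl x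
  | @cons x z y h w ih =>
    have h1 := (Chain.of_geo (chains_edge h)).trans ih
    have h2 : (fun i : ℕ => if i = 0 then x else z) '' Set.Iic 1 ∪ {v | v ∈ w.support} =
        {v | v ∈ (SimpleGraph.Walk.cons h w).support} := by
      ext v
      constructor
      · rintro (⟨i, hi, rfl⟩ | hv)
        · by_cases h0 : i = 0
          · simp [h0]
          · simp [h0]
        · have hv' : v ∈ w.support := hv
          simp [hv']
      · intro hv
        have hv' : v = x ∨ v ∈ w.support := by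
          simpa using hv
        rcases hv' with rfl | hv'
        · exact Or.inl ⟨0, Set.mem_Iic.mpr (by omega), by simp⟩
        · exact Or.inr hv'
    rw [h2, Nat.add_comm] at h1
    exact h1

/-- Fan lemma: a chain of `m` geodesics avoiding `c` -/
theorem fan (hc : Γ.Connected) {δ : ℕ} (hs : Slim Γ δ) {m : ℕ} {P : Set V} {c y z : V}
    (h : Chain Γ m P y z) (hcP : c ∉ P) {p q : ℕ → V} {l n : ℕ} (hp : IsGeo Γ p l c y)
    (hq : IsGeo Γ q n c z) : AngLE Γ c (p 1) (q 1) (D0 δ * (m + 1)) := by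
  have pos : ∀ {p : ℕ → V} {l : ℕ} {y : V}, IsGeo Γ p l c y → y ≠ c → 1 ≤ l := by
    intro p l y hp hy
    rcases Nat.eq_zero_or_pos l with h0 | h0
    · subst h0
      exact absurd (hp.fin.symm.trans hp.start) hy
    · exact h0
  induction h generalizing q n with
  | refl y =>
    have hy : y ≠ c := by
      rintro rfl
      exact hcP (Set.mem_singleton _)
    have := triangle hc hs hp hq (chains_const y) (pos hp hy) (pos hq hy) (fun k _ => hy)
    simpa using this
  | @snoc m P y w z r k h hr ih =>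
    have hcP' : c ∉ P := fun hh => hcP (Or.inl hh)
    have hcr : ∀ j ≤ k, r j ≠ c := by
      intro j hj hh
      exact hcP (Or.inr ⟨j, Set.mem_Iic.mpr hj, hh⟩)
    obtain ⟨q', hq'⟩ := IsGeo.exists hc c w
    have h1 := ih hcP' hp hq'
    have hw : w ≠ c := by
      have := hcr 0 (Nat.zero_le k)
      rwa [hr.start] at this
    have hz : z ≠ c := by
      have := hcr k le_rfl
      rwa [hr.fin] at this
    have h2 := triangle hc hs hq' hq hr (pos hq' hw) (pos hq hz) hcr
    have h3 := h1.trans h2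
    have h4 : D0 δ * (m + 1) + D0 δ = D0 δ * (m + 1 + 1) := by ring
    rw [h4] at h3
    exact h3

end Pool.Agent.Lib.MP_7e344a_al
end

section

/-!
# MP_7e344a_al: G01, finiteness of small angles, malnormality
-/

set_option autoImplicit false

namespace Pool.Agent.Lib.MP_7e344a_al

variable {G I : Type} [Group G]

open Pointwise

theorem lf_cos_fix (H : I → Subgroup G) {i : I} {a : G} (ha : a ∈ H i) :
    a • cos H i 1 = cos H i 1 := by
  rw [smul_cos, cos_eq_iff]
  refine ⟨rfl, ?_⟩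
  simpa using inv_mem ha

theorem lf_transl (H : I → Subgroup G) {i : I} {a b : G} {θ : ℕ} (ha : a ∈ H i)
    (h : AngLE (Inc H) (cos H i 1) (elt H a) (elt H b) θ) :
    AngLE (Inc H) (cos H i 1) (elt H 1) (elt H (a⁻¹ * b)) θ := by
  have := h.smul (inc_act H) a⁻¹
  rw [lf_cos_fix H (inv_mem ha), smul_elt, smul_elt, inv_mul_cancel] at this
  exact this

/-- neighbours of the vertex `cos i 1` -/
theorem lf_nbr (H : I → Subgroup G) {i : I} {v : CV G H} (h : (Inc H).Adj (cos H i 1) v) :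
    ∃ a ∈ H i, v = elt H a := by
  rcases cv_cases H v with ⟨a, rfl⟩ | ⟨j, a, rfl⟩
  · rw [SimpleGraph.adj_comm, adj_elt_cos, mul_one] at h
    exact ⟨a, by simpa using inv_mem h, rfl⟩
  · exact (not_adj_cos_cos H _ _ _ _ h).elim

/-- `a` is the direction of `v` seen from the vertex `cos i 1` -/
def lf_Dir (H : I → Subgroup G) (i : I) (v : CV G H) (a : G) : Prop :=
  a ∈ H i ∧ ∃ (p : ℕ → CV G H) (l : ℕ), 1 ≤ l ∧ IsGeo (Inc H) p l (cos H i 1) v ∧ p 1 = elt H a

theorem lf_dir_exists (H : I → Subgroup G) (hc : (Inc H).Connected) {i : I} {v : CV G H}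
    (hv : v ≠ cos H i 1) : ∃ a, lf_Dir H i v a := by
  obtain ⟨p, hp⟩ := IsGeo.exists hc (cos H i 1) v
  have hpos : 0 < (Inc H).dist (cos H i 1) v := hc.pos_dist_of_ne hv.symm
  have hadj := hp.adj hpos
  rw [hp.start] at hadj
  obtain ⟨a, ha, hpa⟩ := lf_nbr H hadj
  exact ⟨a, ha, p, _, hpos, hp, hpa⟩

theorem lf_dir_elt (H : I → Subgroup G) {i : I} {a : G} (ha : a ∈ H i) :
    lf_Dir H i (elt H a) a := by
  have hadj : (Inc H).Adj (cos H i 1) (elt H a) := by
    rw [SimpleGraph.adj_comm, adj_elt_cos, mul_one]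
    exact inv_mem ha
  have := chains_edge hadj
  exact ⟨ha, _, 1, le_rfl, this, this.fin⟩

/-- it suffices to know the finiteness of angles at most `D0 δ` -/
theorem lf_all (H : I → Subgroup G) {δ : ℕ} (hc : (Inc H).Connected) (hs : Slim (Inc H) δ) {i : I}
    (h : {a : G | a ∈ H i ∧ AngLE (Inc H) (cos H i 1) (elt H 1) (elt H a) (D0 δ)}.Finite) (θ : ℕ) :
    {a : G | a ∈ H i ∧ AngLE (Inc H) (cos H i 1) (elt H 1) (elt H a) θ}.Finite := by
  set F := {a : G | a ∈ H i ∧ AngLE (Inc H) (cos H i 1) (elt H 1) (elt H a) (D0 δ)} with hF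
  have hstep : ∀ {v v' : CV G H} {a a' : G} {r : ℕ → CV G H} {n : ℕ}, lf_Dir H i v a →
      lf_Dir H i v' a' → IsGeo (Inc H) r n v v' → (∀ k ≤ n, r k ≠ cos H i 1) → a⁻¹ * a' ∈ F := by
    rintro v v' a a' r n ⟨ha, p, l, hl, hp, hp1⟩ ⟨ha', q, m, hm, hq, hq1⟩ hr hrn
    have := triangle hc hs hp hq hr hl hm hrn
    rw [hp1, hq1] at this
    exact ⟨mul_mem (inv_mem ha) ha', lf_transl H ha this⟩
  have key : ∀ n : ℕ, ∃ T : Set G, T.Finite ∧ ∀ (v v' : CV G H) (w : (Inc H).Walk v v') (a a' : G),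
      w.length ≤ n → cos H i 1 ∉ w.support → lf_Dir H i v a → lf_Dir H i v' a' →
      a⁻¹ * a' ∈ T := by
    intro n
    induction n with
    | zero =>
      refine ⟨F, h, ?_⟩
      intro v v' w a a' hw hP hv hv'
      cases w with
      | nil =>
        refine hstep hv hv' (chains_const v) ?_
        intro k _ he
        apply hP
        rw [← he]
        simp
      | cons h1 w1 => simp at hw
    | succ n ih =>
      obtain ⟨T, hT, hT'⟩ := ih
      refine ⟨F ∪ F * T, h.union (h.mul hT), ?_⟩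
      intro v v' w a a' hw hP hv hv'
      cases w with
      | nil =>
        left
        refine hstep hv hv' (chains_const v) ?_
        intro k _ he
        apply hP
        rw [← he]
        simp
      | @cons _ v1 _ h1 w1 =>
        right
        rw [SimpleGraph.Walk.length_cons] at hw
        rw [SimpleGraph.Walk.support_cons, List.mem_cons, not_or] at hP
        have hv1 : v1 ≠ cos H i 1 := by
          rintro rfl
          exact hP.2 w1.start_mem_support
        obtain ⟨a1, ha1⟩ := lf_dir_exists H hc hv1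
        have e1 : a⁻¹ * a1 ∈ F := by
          have hedge := chains_edge h1
          refine hstep hv ha1 hedge ?_
          intro k hk
          rcases Nat.le_one_iff_eq_zero_or_eq_one.1 hk with rfl | rfl
          · rw [hedge.start]
            exact fun he => hP.1 he.symm
          · rw [hedge.fin]
            exact hv1
        have e2 : a1⁻¹ * a' ∈ T := hT' v1 v' w1 a1 a' (by omega) hP.2 ha1 hv'
        exact ⟨_, e1, _, e2, by group⟩
  obtain ⟨T, hT, hT'⟩ := key θ
  refine hT.subset ?_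
  rintro a ⟨ha, w, hw, hP⟩
  have := hT' _ _ w 1 a hw hP (lf_dir_elt H (one_mem _)) (lf_dir_elt H ha)
  simpa using this

/-- malnormality -/
theorem mal {H : I → Subgroup G} {T : Set I} (hG : Good H T) {i j : I} (hi : i ∈ T)
    (htf : TF (H i)) {u x : G} (hne : i ≠ j ∨ u ∉ H i) (hx : x ∈ H i) (hx' : u⁻¹ * x * u ∈ H j) :
    x = 1 := by
  obtain ⟨δ, hs⟩ := hG.slim
  have hc := hG.conn
  have hfin := hG.lf i hi (D0 δ)
  have hPQ : cos H j u ≠ cos H i 1 := by
    intro h
    rw [eq_comm, cos_eq_iff] at h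
    rcases hne with h1 | h1
    · exact h1 h.1
    · exact h1 (by simpa using h.2)
  obtain ⟨p, hp⟩ := IsGeo.exists hc (cos H i 1) (cos H j u)
  have hpos : 0 < (Inc H).dist (cos H i 1) (cos H j u) := hc.pos_dist_of_ne hPQ.symm
  have hadj := hp.adj hpos
  rw [hp.start] at hadj
  obtain ⟨a, ha, hpa⟩ := lf_nbr H hadj
  have hxk : ∀ k : ℕ, u⁻¹ * x ^ k * u ∈ H j := by
    intro k
    have h1 : u⁻¹ * x ^ k * u = (u⁻¹ * x * u) ^ k := by
      have := conj_pow (i := k) (a := u⁻¹) (b := x)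
      rw [inv_inv] at this
      exact this.symm
    rw [h1]
    exact pow_mem hx' k
  have hmem : ∀ k : ℕ, a⁻¹ * (x ^ k * a) ∈ {a : G | a ∈ H i ∧
      AngLE (Inc H) (cos H i 1) (elt H 1) (elt H a) (D0 δ)} := by
    intro k
    have hp' := hp.smul (inc_act H) (x ^ k)
    have hfQ : x ^ k • cos H j u = cos H j u := by
      rw [smul_cos, cos_eq_iff]
      refine ⟨rfl, ?_⟩
      have := inv_mem (hxk k)
      convert this using 1
      group
    rw [lf_cos_fix H (pow_mem hx k), hfQ] at hp'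
    have htri := triangle hc hs hp hp' (chains_const (cos H j u)) hpos hpos (fun _ _ => hPQ)
    simp only [zero_add] at hpa
    rw [hpa, smul_elt] at htri
    exact ⟨mul_mem (inv_mem ha) (mul_mem (pow_mem hx k) ha), lf_transl H ha htri⟩
  obtain ⟨k, -, l, -, hkl, he⟩ := Set.infinite_univ.exists_ne_map_eq_of_mapsTo
    (f := fun k : ℕ => a⁻¹ * (x ^ k * a)) (t := {a : G | a ∈ H i ∧
      AngLE (Inc H) (cos H i 1) (elt H 1) (elt H a) (D0 δ)}) (fun k _ => hmem k) hfin
  have he' : x ^ k = x ^ l := by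
    simpa using he
  have hgen : ∀ k l : ℕ, k < l → x ^ k = x ^ l → x = 1 := by
    intro k l hkl he
    refine htf x hx (l - k) (by omega) ?_
    have : x ^ l = x ^ (l - k) * x ^ k := by
      rw [← pow_add]
      congr 1
      omega
    rw [this] at he
    simpa using he
  rcases lt_or_gt_of_ne hkl with h | h
  · exact hgen k l h he'
  · exact hgen l k h he'.symm

/-- The graph with the additional edges `e - e j`, `e ∈ H i`, `j ∈ J`. -/
def Aug (H : I → Subgroup G) (i : I) (J : Set G) : SimpleGraph (CV G H) :=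
  Inc H ⊔ SimpleGraph.fromRel (fun v w => ∃ e ∈ H i, ∃ j ∈ J, v = elt H e ∧ w = elt H (e * j))

theorem aug_lf {H : I → Subgroup G} {T : Set I} (hG : Good H T) {i : I} (hi : i ∈ T) (J : Set G)
    (hJ : J.Finite) (hJi : J ⊆ H i) (θ : ℕ) :
    {a : G | a ∈ H i ∧ AngLE (Aug H i J) (cos H i 1) (elt H 1) (elt H a) θ}.Finite := by
  have hfin := hG.lf i hi θ
  set F := {a : G | a ∈ H i ∧ AngLE (Inc H) (cos H i 1) (elt H 1) (elt H a) θ} with hF
  have key : ∀ n : ℕ, n ≤ θ → ∃ S : Set G, S.Finite ∧ ∀ (v v' : CV G H)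
      (w : (Aug H i J).Walk v v') (e' : G), w.length ≤ n → cos H i 1 ∉ w.support → e' ∈ H i →
      v' = elt H e' → ∃ e'' ∈ H i, ∃ w' : (Inc H).Walk v (elt H e''), w'.length ≤ n ∧
        cos H i 1 ∉ w'.support ∧ e''⁻¹ * e' ∈ S := by
    intro n
    induction n with
    | zero =>
      intro _
      refine ⟨{1}, Set.finite_singleton _, ?_⟩
      intro v v' w e' hw hP he' hv'
      cases w with
      | nil =>
        subst hv'
        exact ⟨e', he', SimpleGraph.Walk.nil, by simp, by simpa using hP, by simp⟩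
      | cons h1 w1 => simp at hw
    | succ n ih =>
      intro hn
      obtain ⟨S, hS, hS'⟩ := ih (by omega)
      refine ⟨{1} ∪ (S ∪ (J ∪ J⁻¹) * (F * S)), (Set.finite_singleton _).union
        (hS.union ((hJ.union hJ.inv).mul (hfin.mul hS))), ?_⟩
      intro v v' w e' hw hP he' hv'
      cases w with
      | nil =>
        subst hv'
        exact ⟨e', he', SimpleGraph.Walk.nil, by simp, by simpa using hP, by simp⟩
      | @cons _ v1 _ h1 w1 =>
        rw [SimpleGraph.Walk.length_cons] at hw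
        rw [SimpleGraph.Walk.support_cons, List.mem_cons, not_or] at hP
        obtain ⟨e'', he'', w', hw', hP', hS2⟩ := hS' v1 v' w1 e' (by omega) hP.2 he' hv'
        rcases h1 with h1 | h1
        · refine ⟨e'', he'', SimpleGraph.Walk.cons h1 w', ?_, ?_, ?_⟩
          · rw [SimpleGraph.Walk.length_cons]
            omega
          · rw [SimpleGraph.Walk.support_cons, List.mem_cons, not_or]
            exact ⟨hP.1, hP'⟩
          · exact Or.inr (Or.inl hS2)
        · rw [SimpleGraph.fromRel_adj] at h1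
          -- the additional edge starts at `elt e0` and ends at `elt (e0 k)`
          obtain ⟨e0, he0, k, hk, hkH, hv, hv1⟩ : ∃ e0 ∈ H i, ∃ k ∈ J ∪ J⁻¹, k ∈ H i ∧
              v = elt H e0 ∧ v1 = elt H (e0 * k) := by
            rcases h1.2 with ⟨e0, he0, k, hk, h2, h3⟩ | ⟨e0, he0, k, hk, h2, h3⟩
            · exact ⟨e0, he0, k, Or.inl hk, hJi hk, h2, h3⟩
            · refine ⟨e0 * k, mul_mem he0 (hJi hk), k⁻¹, Or.inr (by simpa using hk),
                inv_mem (hJi hk), h3, ?_⟩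
              rw [mul_inv_cancel_right]
              exact h2
          subst hv hv1
          refine ⟨e0, he0, SimpleGraph.Walk.nil, by simp, by simpa using hP.1, ?_⟩
          right; right
          have h4 : (e0 * k)⁻¹ * e'' ∈ F := by
            refine ⟨mul_mem (inv_mem (mul_mem he0 hkH)) he'', ?_⟩
            refine lf_transl H (mul_mem he0 hkH) ⟨w', by omega, hP'⟩
          exact ⟨k, hk, _, ⟨_, h4, _, hS2, rfl⟩, by simp only [mul_inv_rev]; group⟩
  obtain ⟨S, hS, hS'⟩ := key θ le_rfl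
  refine (hfin.mul hS).subset ?_
  rintro a ⟨ha, w, hw, hP⟩
  obtain ⟨e'', he'', w', hw', hP', hS2⟩ := hS' _ _ w a hw hP ha rfl
  exact ⟨e'', ⟨he'', w', hw', hP'⟩, _, hS2, by simp⟩

theorem aug_smul {H : I → Subgroup G} {i : I} (J : Set G) {e : G} (he : e ∈ H i) {v w : CV G H}
    {θ : ℕ} (h : AngLE (Aug H i J) (cos H i 1) v w θ) :
    AngLE (Aug H i J) (cos H i 1) (e • v) (e • w) θ := by
  have hact : ∀ (g : H i) (v w : CV G H), (Aug H i J).Adj v w →
      (Aug H i J).Adj (g • v) (g • w) := by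
    rintro ⟨g, hg⟩ v w hvw
    change (Aug H i J).Adj (g • v) (g • w)
    rcases hvw with hvw | hvw
    · exact Or.inl (inc_act H g _ _ hvw)
    · rw [SimpleGraph.fromRel_adj] at hvw
      refine Or.inr ?_
      rw [SimpleGraph.fromRel_adj]
      refine ⟨fun h => hvw.1 (MulAction.injective g h), ?_⟩
      rcases hvw.2 with ⟨e, he, j, hj, rfl, rfl⟩ | ⟨e, he, j, hj, rfl, rfl⟩
      · exact Or.inl ⟨g * e, mul_mem hg he, j, hj, rfl, by rw [smul_elt, mul_assoc]⟩
      · exact Or.inr ⟨g * e, mul_mem hg he, j, hj, rfl, by rw [smul_elt, mul_assoc]⟩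
  have := h.smul hact ⟨e, he⟩
  change AngLE (Aug H i J) (e • cos H i 1) (e • v) (e • w) θ at this
  rw [lf_cos_fix H he] at this
  exact this

theorem lf_angle_le {V : Type} {Γ Γ' : SimpleGraph V} (hle : Γ ≤ Γ') {c u v : V} {θ : ℕ}
    (h : AngLE Γ c u v θ) : AngLE Γ' c u v θ := by
  obtain ⟨w, hw, hP⟩ := h
  refine ⟨w.mapLe hle, ?_, ?_⟩
  · simpa using hw
  · simpa using hP

/-- translates of a geodesic from `1` to `g`, passages through the vertex `H i` being replaced by
additional edges -/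
theorem aug_jump (H : I → Subgroup G) (hc : (Inc H).Connected) (i : I) (g : G) :
    ∃ J : Set G, J.Finite ∧ J ⊆ H i ∧ ∀ h : G, AngLE (Aug H i J) (cos H i 1) (elt H h)
      (elt H (h * g)) ((Inc H).dist (elt H 1) (elt H g)) := by
  obtain ⟨p, hp⟩ := IsGeo.exists hc (elt H 1) (elt H g)
  set n := (Inc H).dist (elt H 1) (elt H g) with hn
  set J : Set G := {a | ∃ k f e1 e2, k + 2 ≤ n ∧ p k = elt H e1 ∧ p (k + 1) = cos H i f ∧
    p (k + 2) = elt H e2 ∧ a = e1⁻¹ * e2} with hJ
  have hJfin : J.Finite := by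
    have hsub : J ⊆ ⋃ k ∈ Finset.range n, {a | ∃ e1 e2, p k = elt H e1 ∧ p (k + 2) = elt H e2 ∧
        a = e1⁻¹ * e2} := by
      rintro a ⟨k, f, e1, e2, hk, h1, h2, h3, h4⟩
      simp only [Set.mem_iUnion]
      exact ⟨k, Finset.mem_range.2 (by omega), e1, e2, h1, h3, h4⟩
    refine Set.Finite.subset ?_ hsub
    refine Set.Finite.biUnion (Finset.finite_toSet _) ?_
    intro k _
    refine Set.Subsingleton.finite ?_
    rintro a ⟨e1, e2, h1, h2, rfl⟩ b ⟨f1, f2, h3, h4, rfl⟩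
    rw [h1, elt_inj] at h3
    rw [h2, elt_inj] at h4
    rw [h3, h4]
  have hJi : J ⊆ H i := by
    rintro a ⟨k, f, e1, e2, hk, h1, h2, h3, rfl⟩
    have ha1 := hp.adj (i := k) (by omega)
    have ha2 := hp.adj (i := k + 1) (by omega)
    rw [h1, h2, adj_elt_cos] at ha1
    rw [show k + 1 + 1 = k + 2 by omega, h2, h3, SimpleGraph.adj_comm, adj_elt_cos] at ha2
    have h5 := mul_mem ha1 (inv_mem ha2)
    have h6 : e1⁻¹ * f * (e2⁻¹ * f)⁻¹ = e1⁻¹ * e2 := by group
    rw [h6] at h5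
    exact h5
  have hle : Inc H ≤ Aug H i J := le_sup_left
  refine ⟨J, hJfin, hJi, ?_⟩
  intro h
  have hq := hp.smul (inc_act H) h
  rw [smul_elt, smul_elt, mul_one] at hq
  by_cases hex : ∃ k ≤ n, h • p k = cos H i 1
  · obtain ⟨k, hk, hkP⟩ := hex
    have huniq : ∀ m ≤ n, h • p m = cos H i 1 → m = k := by
      intro m hm hmP
      exact hq.inj hm hk (hmP.trans hkP.symm)
    have hk0 : k ≠ 0 := by
      rintro rfl
      rw [hq.start] at hkP
      exact elt_ne_cos H _ _ _ hkP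
    have hkn : k ≠ n := by
      rintro rfl
      rw [hq.fin] at hkP
      exact elt_ne_cos H _ _ _ hkP
    obtain ⟨m, rfl⟩ : ∃ m, k = m + 1 := ⟨k - 1, by omega⟩
    have ha1 := hq.adj (i := m) (by omega)
    have ha2 := hq.adj (i := m + 1) (by omega)
    rw [hkP, SimpleGraph.adj_comm] at ha1
    rw [hkP] at ha2
    obtain ⟨f1, hf1, hpf1⟩ := lf_nbr H ha1
    obtain ⟨f2, hf2, hpf2⟩ := lf_nbr H ha2
    have hp1 : p m = elt H (h⁻¹ * f1) := by
      rw [← smul_elt, ← hpf1, inv_smul_smul]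
    have hp2 : p (m + 2) = elt H (h⁻¹ * f2) := by
      rw [← smul_elt, ← hpf2, inv_smul_smul]
    have hp3 : p (m + 1) = cos H i h⁻¹ := by
      have : h⁻¹ • cos H i 1 = cos H i h⁻¹ := by rw [smul_cos, mul_one]
      rw [← this, ← hkP, inv_smul_smul]
    have hj : f1⁻¹ * f2 ∈ J := by
      refine ⟨m, h⁻¹, h⁻¹ * f1, h⁻¹ * f2, by omega, hp1, hp3, hp2, by group⟩
    have hf12 : f1 ≠ f2 := by
      rintro rfl
      have := hq.inj (i := m) (j := m + 1 + 1) (by omega) (by omega) (hpf1.trans hpf2.symm)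
      omega
    have hedge : (Aug H i J).Adj (elt H f1) (elt H f2) := by
      refine Or.inr ?_
      rw [SimpleGraph.fromRel_adj]
      refine ⟨fun he => hf12 ((elt_inj H).1 he), Or.inl ⟨f1, hf1, _, hj, rfl, ?_⟩⟩
      rw [mul_inv_cancel_left]
    have A1 : AngLE (Aug H i J) (cos H i 1) (elt H h) (elt H f1) m := by
      have := tri_along hc hq (c := cos H i 1) (i := 0) (j := m) (Nat.zero_le _) (by omega) (by
        intro k _ hk hkP'
        have := huniq k (by omega) hkP'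
        omega)
      rw [hq.start] at this
      rw [hpf1] at this
      exact lf_angle_le hle (this.mono (by omega))
    have A2 : AngLE (Aug H i J) (cos H i 1) (elt H f1) (elt H f2) 1 := by
      refine ⟨SimpleGraph.Walk.cons hedge SimpleGraph.Walk.nil, by simp, ?_⟩
      simp only [SimpleGraph.Walk.support_cons, SimpleGraph.Walk.support_nil, List.mem_cons,
        List.not_mem_nil, or_false, not_or]
      exact ⟨(elt_ne_cos H _ _ _).symm, (elt_ne_cos H _ _ _).symm⟩
    have A3 : AngLE (Aug H i J) (cos H i 1) (elt H f2) (elt H (h * g)) (n - (m + 1 + 1)) := by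
      have := tri_along hc hq (c := cos H i 1) (i := m + 1 + 1) (j := n) (by omega) le_rfl (by
        intro k hk1 hk2 hkP'
        have := huniq k hk2 hkP'
        omega)
      rw [hq.fin] at this
      rw [hpf2] at this
      exact lf_angle_le hle this
    exact ((A1.trans A2).trans A3).mono (by omega)
  · push Not at hex
    have := tri_along hc hq (c := cos H i 1) (i := 0) (j := n) (Nat.zero_le _) le_rfl
      (fun k _ hk => hex k hk)
    rw [hq.start, hq.fin, Nat.sub_zero] at this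
    exact lf_angle_le hle this

end Pool.Agent.Lib.MP_7e344a_al
end

section

/-!
# MP_7e344a_al: T03, the length function of a rotation family
-/

set_option autoImplicit false

namespace Pool.Agent.Lib.MP_7e344a_al

variable {V : Type} {G : Type} {Γ : SimpleGraph V}

variable [Group G] {N : V → Subgroup G}

theorem Len_mul_isProd {k l : ℕ} {n n' : G} (h : IsProd N k n) (h' : IsProd N l n') :
    IsProd N (k + l) (n * n') := by
  induction h with
  | one => simpa using h'
  | mul c ρ hρ h ih =>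
    have := IsProd.mul c ρ hρ ih
    rw [mul_assoc]
    convert this using 1
    omega

theorem Len_exists_isProd {n : G} (hn : n ∈ NN N) : ∃ k, IsProd N k n := by
  unfold NN at hn
  refine Subgroup.iSup_induction N (C := fun g => ∃ k, IsProd N k g) hn ?_ ?_ ?_
  · intro c ρ hρ
    exact ⟨1, by simpa using IsProd.mul c ρ hρ IsProd.one⟩
  · exact ⟨0, IsProd.one⟩
  · rintro a b ⟨k, hk⟩ ⟨l, hl⟩
    exact ⟨k + l, Len_mul_isProd hk hl⟩

theorem isProd_len {n : G} (hn : n ∈ NN N) : IsProd N (len N n) n :=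
  Nat.sInf_mem (s := {k | IsProd N k n}) (Len_exists_isProd hn)

theorem len_le {n : G} {k : ℕ} (h : IsProd N k n) : len N n ≤ k :=
  Nat.sInf_le (s := {k | IsProd N k n}) h

theorem Len_mem_NN {c : V} {ρ : G} (h : ρ ∈ N c) : ρ ∈ NN N :=
  Subgroup.mem_iSup_of_mem c h

theorem IsProd.mem {n : G} {k : ℕ} (h : IsProd N k n) : n ∈ NN N := by
  induction h with
  | one => exact Subgroup.one_mem _
  | mul c ρ hρ h ih => exact Subgroup.mul_mem _ (Len_mem_NN hρ) ih

theorem len_mul {n n' : G} (hn : n ∈ NN N) (hn' : n' ∈ NN N) :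
    len N (n * n') ≤ len N n + len N n' :=
  len_le (Len_mul_isProd (isProd_len hn) (isProd_len hn'))

theorem len_one : len N (1 : G) = 0 := by
  have := len_le (N := N) (IsProd.one)
  omega

theorem len_eq_zero {n : G} (hn : n ∈ NN N) (h : len N n = 0) : n = 1 := by
  have h1 := isProd_len hn
  rw [h] at h1
  cases h1
  rfl

theorem len_rot {c : V} {ρ : G} (h : ρ ∈ N c) : len N ρ ≤ 1 := by
  refine len_le ?_
  simpa using IsProd.mul c ρ h IsProd.one

theorem mem_NN {c : V} {ρ : G} (h : ρ ∈ N c) : ρ ∈ NN N := Len_mem_NN h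

theorem Len_red_mem {n : G} (hn : n ∈ NN N) {c : V} {ρ : G} (h : ρ ∈ N c) :
    ρ⁻¹ * n ∈ NN N :=
  Subgroup.mul_mem _ (Subgroup.inv_mem _ (mem_NN h)) hn

variable [MulAction G V]

theorem Len_conj_isProd (hconj : ∀ (g : G) (c : V), ∀ ρ ∈ N c, g * ρ * g⁻¹ ∈ N (g • c)) (g : G)
    {n : G} {k : ℕ} (h : IsProd N k n) : IsProd N k (g * n * g⁻¹) := by
  induction h with
  | one => simpa using IsProd.one
  | mul c ρ hρ h ih =>
    have := IsProd.mul (g • c) (g * ρ * g⁻¹) (hconj g c ρ hρ) ih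
    convert this using 1
    group

theorem NN_conj (hconj : ∀ (g : G) (c : V), ∀ ρ ∈ N c, g * ρ * g⁻¹ ∈ N (g • c)) (g : G) {n : G}
    (hn : n ∈ NN N) : g * n * g⁻¹ ∈ NN N :=
  (Len_conj_isProd hconj g (isProd_len hn)).mem

theorem len_conj (hconj : ∀ (g : G) (c : V), ∀ ρ ∈ N c, g * ρ * g⁻¹ ∈ N (g • c)) (g : G) {n : G}
    (hn : n ∈ NN N) : len N (g * n * g⁻¹) = len N n := by
  apply le_antisymm
  · exact len_le (Len_conj_isProd hconj g (isProd_len hn))
  · have h1 := Len_conj_isProd hconj g⁻¹ (isProd_len (NN_conj hconj g hn))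
    have h2 : g⁻¹ * (g * n * g⁻¹) * g⁻¹⁻¹ = n := by group
    rw [h2] at h1
    exact len_le h1

omit [MulAction G V] in
theorem exists_red {n : G} (hn : n ∈ NN N) (h1 : n ≠ 1) : ∃ c ρ, Red N n c ρ := by
  have hp := isProd_len hn
  generalize hk : len N n = k at hp
  cases hp with
  | one => exact absurd rfl h1
  | @mul k' n' c ρ hρ h =>
    refine ⟨c, ρ, hρ, ?_⟩
    have h2 : ρ⁻¹ * (ρ * n') = n' := by group
    rw [h2, hk]
    have := len_le h
    omega

omit [MulAction G V] in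
/-- a reducing rotation reduces the length by exactly one -/
theorem Red.len_eq {n : G} (hn : n ∈ NN N) {c : V} {ρ : G} (h : Red N n c ρ) :
    len N (ρ⁻¹ * n) + 1 = len N n := by
  have h1 := h.2
  have h2 : len N (ρ * (ρ⁻¹ * n)) ≤ len N ρ + len N (ρ⁻¹ * n) :=
    len_mul (mem_NN h.1) (Len_red_mem hn h.1)
  have h3 : ρ * (ρ⁻¹ * n) = n := by group
  rw [h3] at h2
  have h4 := len_rot (N := N) h.1
  omega

omit [MulAction G V] in
theorem Red.ne_one {n : G} {c : V} {ρ : G} (h : Red N n c ρ) : ρ ≠ 1 := by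
  rintro rfl
  have := h.2
  simp at this

/-- Lemma A (i) -/
theorem Red.transfer (hconj : ∀ (g : G) (c : V), ∀ ρ ∈ N c, g * ρ * g⁻¹ ∈ N (g • c)) {n : G}
    (hn : n ∈ NN N) {c c' : V} {ρ ρ' : G} (h : Red N n c ρ) (h' : Red N (ρ⁻¹ * n) c' ρ') :
    Red N n c' ρ' := by
  refine ⟨h'.1, ?_⟩
  have hn1 : ρ⁻¹ * n ∈ NN N := Len_red_mem hn h.1
  have e1 := h.len_eq hn
  have e2 := h'.len_eq hn1
  have hm : ρ'⁻¹ * ρ * ρ'⁻¹⁻¹ ∈ N (ρ'⁻¹ • c) := hconj ρ'⁻¹ c ρ h.1
  have h3 : ρ'⁻¹ * n = (ρ'⁻¹ * ρ * ρ'⁻¹⁻¹) * (ρ'⁻¹ * (ρ⁻¹ * n)) := by group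
  have h4 := len_mul (N := N) (mem_NN hm) (Len_red_mem hn1 h'.1)
  rw [← h3] at h4
  have h5 := len_rot (N := N) hm
  omega

/-- Lemma A (ii) -/
theorem Red.transfer' (hconj : ∀ (g : G) (c : V), ∀ ρ ∈ N c, g * ρ * g⁻¹ ∈ N (g • c)) {n : G}
    (hn : n ∈ NN N) {c c' : V} {ρ ρ' : G} (h : Red N n c ρ) (h' : Red N (ρ⁻¹ * n) c' ρ') :
    Red N n (ρ • c') (ρ * ρ' * ρ⁻¹) := by
  refine ⟨hconj ρ c' ρ' h'.1, ?_⟩
  have hn1 : ρ⁻¹ * n ∈ NN N := Len_red_mem hn h.1
  have e1 := h.len_eq hn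
  have e2 := h'.len_eq hn1
  have h3 : (ρ * ρ' * ρ⁻¹)⁻¹ * n = ρ * (ρ'⁻¹ * (ρ⁻¹ * n)) := by group
  have h4 := len_mul (N := N) (mem_NN h.1) (Len_red_mem hn1 h'.1)
  rw [← h3] at h4
  have h5 := len_rot (N := N) h.1
  omega

omit [MulAction G V] in
/-- Lemma A (iii) -/
theorem Red.ne {n : G} (hn : n ∈ NN N) {c c' : V} {ρ ρ' : G} (h : Red N n c ρ)
    (h' : Red N (ρ⁻¹ * n) c' ρ') : c' ≠ c := by
  rintro rfl
  have hn1 : ρ⁻¹ * n ∈ NN N := Len_red_mem hn h.1
  have e1 := h.len_eq hn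
  have e2 := h'.len_eq hn1
  have hm : ρ * ρ' ∈ N c' := Subgroup.mul_mem _ h.1 h'.1
  have h3 : n = (ρ * ρ') * (ρ'⁻¹ * (ρ⁻¹ * n)) := by group
  have h4 := len_mul (N := N) (mem_NN hm) (Len_red_mem hn1 h'.1)
  rw [← h3] at h4
  have h5 := len_rot (N := N) hm
  omega

end Pool.Agent.Lib.MP_7e344a_al
end

section

/-!
# MP_7e344a_al: T04, the Greendlinger lemma
-/

set_option autoImplicit false

namespace Pool.Agent.Lib.MP_7e344a_al

variable {V : Type} {G : Type} {Γ : SimpleGraph V}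

variable [Group G] [MulAction G V] {N : V → Subgroup G}

/-- the conclusion of the Greendlinger lemma for one element -/
def GreenAt (Γ : SimpleGraph V) (N : V → Subgroup G) (δ : ℕ) (n : G) : Prop :=
  ∀ (p : ℕ → V) (l : ℕ) (x : V), IsGeo Γ p l x (n • x) →
    ∃ i ≤ l, ∃ ρ, Red N n (p i) ρ ∧
      (i = 0 ∨ i = l ∨ AngLE Γ (p i) (p (i - 1)) (ρ⁻¹ • p (i + 1)) (D0 δ))

theorem green_step2 {δ s m : ℕ} (hc : Γ.Connected) (hs : Slim Γ δ) (hR : Rot Γ N s)
    (hm : D0 δ * (m + 5) ≤ s) {n : G} (hn : n ∈ NN N) (h1 : n ≠ 1)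
    (ih : ∀ n' ∈ NN N, n' ≠ 1 → len N n' < len N n → GreenAt Γ N δ n')
    {P : Set V} {x : V} (hP : Chain Γ m P x (n • x)) : ∃ c ∈ P, ∃ ρ, Red N n c ρ := by
  classical
  -- minimal distance
  have hex : ∃ d : ℕ, ∃ p ∈ P, ∃ c ρ, Red N n c ρ ∧ Γ.dist p c = d := by
    obtain ⟨c, ρ, h⟩ := exists_red hn h1
    exact ⟨_, x, hP.start_mem, c, ρ, h, rfl⟩
  obtain ⟨p0, hp0, c, ρ, hred, hd⟩ := Nat.find_spec hex
  have hmin : ∀ q ∈ P, ∀ c' ρ', Red N n c' ρ' → Nat.find hex ≤ Γ.dist q c' :=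
    fun q hq c' ρ' h => Nat.find_min' hex ⟨q, hq, c', ρ', h, rfl⟩
  generalize Nat.find hex = d at hd hmin
  rcases Nat.eq_zero_or_pos d with hd0 | hdpos
  · have : p0 = c := by
      rw [hd0] at hd
      exact (hc.dist_eq_zero_iff).1 hd
    exact ⟨c, this ▸ hp0, ρ, hred⟩
  exfalso
  have hnotin : ∀ c' ρ', Red N n c' ρ' → c' ∉ P := by
    intro c' ρ' h hc'
    have := hmin c' hc' c' ρ' h
    rw [SimpleGraph.dist_self] at this
    omega
  have hρ : ρ ∈ N c := hred.1
  have hρi : ρ⁻¹ ∈ N c := (N c).inv_mem hρ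
  have hfix : ρ • c = c := hR.fix c ρ hρ
  have hfixi : ρ⁻¹ • c = c := hR.fix c ρ⁻¹ hρi
  have hρ1 : ρ ≠ 1 := hred.ne_one
  have hρi1 : ρ⁻¹ ≠ 1 := fun h => hρ1 (inv_eq_one.1 h)
  have hn' : ρ⁻¹ * n ∈ NN N := (NN N).mul_mem ((NN N).inv_mem (mem_NN hρ)) hn
  obtain ⟨τ, hτ⟩ := IsGeo.exists hc p0 c
  rw [hd] at hτ
  obtain ⟨m1, m2, P1, P2, hP1, hP2, hm12, hP1P, hP2P⟩ := hP.split hp0
  have hP2' := hP2.smul hR.act ρ⁻¹
  rw [← mul_smul ρ⁻¹ n x] at hP2'
  have hcP1 : c ∉ P1 := fun h => hnotin c ρ hred (hP1P h)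
  have hcP2 : c ∉ (fun v => ρ⁻¹ • v) '' P2 := by
    rintro ⟨v, hv, hvc⟩
    simp only at hvc
    have : v = c := by rw [inv_smul_eq_iff, hfix] at hvc; exact hvc
    exact hnotin c ρ hred (this ▸ hP2P hv)
  have hτadj : Γ.Adj c (τ (d - 1)) := by
    have := hτ.adj (i := d - 1) (by omega)
    rw [Nat.sub_add_cancel hdpos, hτ.fin] at this
    exact this.symm
  by_cases hn1 : ρ⁻¹ * n = 1
  · rw [hn1, one_smul] at hP2'
    have hch := hP1.symm.trans hP2'.symm
    have hcu : c ∉ P1 ∪ (fun v => ρ⁻¹ • v) '' P2 := by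
      rintro (h | h)
      · exact hcP1 h
      · exact hcP2 h
    have hτs := hτ.symm
    have hτs' := hτs.smul hR.act ρ⁻¹
    rw [hfixi] at hτs'
    have hA := fan hc hs hch hcu hτs hτs'
    exact hR.deep c ρ⁻¹ hρi hρi1 _ hτadj (hA.mono ((Nat.mul_le_mul_left _ (by omega)).trans hm))
  · have hlt : len N (ρ⁻¹ * n) < len N n := hred.2
    obtain ⟨σ, hσ⟩ := IsGeo.exists hc x ((ρ⁻¹ * n) • x)
    generalize Γ.dist x ((ρ⁻¹ * n) • x) = L at hσ
    obtain ⟨i, hi, ρ', hred', halt⟩ := ih _ hn' hn1 hlt σ L x hσ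
    -- the chain P'
    have hT1 := Chain.of_geo hτ
    have hT2 := (Chain.of_geo hτ).symm.smul hR.act ρ⁻¹
    rw [hfixi] at hT2
    have hP' := ((hP1.trans hT1).trans hT2).trans hP2'
    have hmem : σ i ∈ P1 ∪ τ '' Set.Iic d ∪ (fun v => ρ⁻¹ • v) '' (τ '' Set.Iic d) ∪
        (fun v => ρ⁻¹ • v) '' P2 := by
      rcases halt with h | h | h
      · rw [h, hσ.start]; exact hP'.start_mem
      · rw [h, hσ.fin]; exact hP'.end_mem
      · by_contra hnot
        rcases Nat.eq_zero_or_pos i with hi0 | hipos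
        · rw [hi0, hσ.start] at hnot; exact hnot hP'.start_mem
        rcases Nat.lt_or_ge i L with hiL | hiL
        swap
        · have : i = L := le_antisymm hi hiL
          rw [this, hσ.fin] at hnot; exact hnot hP'.end_mem
        have hfan := fan hc hs hP' hnot (hσ.take hi).symm (hσ.drop hi)
        have hB := hfan.symm.trans h
        refine hR.deep (σ i) ρ'⁻¹ ((N (σ i)).inv_mem hred'.1)
          (fun h => hred'.ne_one (inv_eq_one.1 h)) _ (hσ.adj hiL) (hB.mono ?_)
        calc D0 δ * (m1 + 1 + 1 + m2 + 1) + D0 δ = D0 δ * (m1 + 1 + 1 + m2 + 1 + 1) := by ring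
          _ ≤ D0 δ * (m + 5) := Nat.mul_le_mul_left _ (by omega)
          _ ≤ s := hm
    have hne : σ i ≠ c := Red.ne hn hred hred'
    have htr := Red.transfer hR.conj hn hred hred'
    have htr' := Red.transfer' hR.conj hn hred hred'
    have hτd : ∀ j ≤ d, Γ.dist p0 (τ j) = j := by
      intro j hj
      exact (hτ.take hj).length
    rcases hmem with ((h | ⟨j, hj, hjj⟩) | ⟨v, ⟨j, hj, hjj⟩, hv⟩) | ⟨v, hv, hvv⟩
    · exact hnotin _ _ htr (hP1P h)
    · have hjd : j ≤ d := hj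
      have hjne : j ≠ d := by
        rintro rfl
        exact hne (hjj.symm.trans hτ.fin)
      have := hmin p0 hp0 _ _ htr
      rw [← hjj, hτd j hjd] at this
      omega
    · have hjd : j ≤ d := hj
      simp only at hv
      have hvσ : ρ • σ i = v := by rw [← hv, smul_inv_smul]
      have hjne : j ≠ d := by
        rintro rfl
        apply hne
        rw [← hv, ← hjj, hτ.fin, hfixi]
      have := hmin p0 hp0 _ _ htr'
      rw [hvσ, ← hjj, hτd j hjd] at this
      omega
    · simp only at hvv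
      have hvσ : ρ • σ i = v := by rw [← hvv, smul_inv_smul]
      rw [hvσ] at htr'
      exact hnotin _ _ htr' (hP2P hv)

theorem green_step1 {δ s : ℕ} (hc : Γ.Connected) (hs : Slim Γ δ) (hR : Rot Γ N s)
    (h6 : D0 δ * 6 ≤ s) {n : G} (hn : n ∈ NN N) (h1 : n ≠ 1)
    (ih : ∀ n' ∈ NN N, n' ≠ 1 → len N n' < len N n → GreenAt Γ N δ n') : GreenAt Γ N δ n := by
  classical
  intro p l x hp
  obtain ⟨c, ⟨i, hi, hic⟩, ρ, hred⟩ := green_step2 (m := 1) hc hs hR h6 hn h1 ih (Chain.of_geo hp)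
  have hi : i ≤ l := hi
  subst hic
  by_cases hA : i = 0 ∨ i = l ∨ AngLE Γ (p i) (p (i - 1)) (ρ⁻¹ • p (i + 1)) (D0 δ)
  · exact ⟨i, hi, ρ, hred, hA⟩
  push Not at hA
  obtain ⟨hi0, hil, hA⟩ := hA
  have hipos : 0 < i := Nat.pos_of_ne_zero hi0
  have hilt : i < l := lt_of_le_of_ne hi hil
  have hρ : ρ ∈ N (p i) := hred.1
  have hρi : ρ⁻¹ ∈ N (p i) := (N (p i)).inv_mem hρ
  have hfix : ρ • p i = p i := hR.fix _ ρ hρ
  have hfixi : ρ⁻¹ • p i = p i := hR.fix _ ρ⁻¹ hρi
  have hn' : ρ⁻¹ * n ∈ NN N := (NN N).mul_mem ((NN N).inv_mem (mem_NN hρ)) hn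
  have htake := hp.take hi
  have hdrop := (hp.drop hi).smul hR.act ρ⁻¹
  rw [hfixi, ← mul_smul ρ⁻¹ n x] at hdrop
  have hdist : Γ.dist x ((ρ⁻¹ * n) • x) = i + (l - i) := by
    obtain ⟨σ, hσ⟩ := IsGeo.exists hc x ((ρ⁻¹ * n) • x)
    by_cases hcσ : ∀ k ≤ Γ.dist x ((ρ⁻¹ * n) • x), σ k ≠ p i
    · exfalso
      have := triangle hc hs htake.symm hdrop hσ hipos (by omega) hcσ
      exact hA this
    · push Not at hcσ
      obtain ⟨k, hk, hkc⟩ := hcσ
      have e1 := (hσ.take hk).length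
      have e2 := (hσ.drop hk).length
      rw [hkc, htake.length] at e1
      rw [hkc, hdrop.length] at e2
      omega
  have hγ := htake.append hc hdrop hdist
  have hn1 : ρ⁻¹ * n ≠ 1 := by
    intro h
    rw [h, one_smul, SimpleGraph.dist_self] at hdist
    omega
  rw [Nat.add_sub_cancel' hi] at hγ
  obtain ⟨j, hj, ρ', hred', halt⟩ := ih _ hn' hn1 hred.2 _ _ _ hγ
  have hγ1 : ∀ k, k ≤ i → (if k ≤ i then p k else ρ⁻¹ • p (i + (k - i))) = p k := by
    intro k hk; rw [if_pos hk]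
  have hγ2 : ∀ k, i ≤ k → (if k ≤ i then p k else ρ⁻¹ • p (i + (k - i))) = ρ⁻¹ • p k := by
    intro k hk
    by_cases h : k ≤ i
    · have : k = i := le_antisymm h hk
      rw [if_pos h, this, hfixi]
    · rw [if_neg h, Nat.add_sub_cancel' hk]
  rcases Nat.lt_trichotomy j i with hji | hji | hji
  · rw [hγ1 j hji.le] at hred' halt
    rw [hγ1 (j - 1) (by omega), hγ1 (j + 1) hji] at halt
    refine ⟨j, hj, ρ', Red.transfer hR.conj hn hred hred', halt⟩
  · rw [hγ1 j hji.le] at hred'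
    exact absurd (congrArg p hji) (Red.ne hn hred hred')
  · rw [hγ2 j hji.le] at hred' halt
    rw [hγ2 (j - 1) (by omega), hγ2 (j + 1) (by omega)] at halt
    have htr' := Red.transfer' hR.conj hn hred hred'
    rw [smul_inv_smul] at htr'
    refine ⟨j, hj, _, htr', ?_⟩
    rcases halt with h | h | h
    · exact Or.inl h
    · exact Or.inr (Or.inl h)
    · right; right
      have := h.smul hR.act ρ
      rw [smul_inv_smul, smul_inv_smul] at this
      have e : (ρ * ρ' * ρ⁻¹)⁻¹ • p (j + 1) = ρ • ρ'⁻¹ • ρ⁻¹ • p (j + 1) := by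
        rw [← mul_smul, ← mul_smul]
        congr 1
        group
      rw [e]
      exact this

theorem green_all {δ s : ℕ} (hc : Γ.Connected) (hs : Slim Γ δ) (hR : Rot Γ N s)
    (h6 : D0 δ * 6 ≤ s) : ∀ (k : ℕ) (n : G), n ∈ NN N → n ≠ 1 → len N n = k → GreenAt Γ N δ n := by
  intro k
  induction k using Nat.strong_induction_on with
  | _ k ihk =>
    intro n hn h1 hk
    refine green_step1 hc hs hR h6 hn h1 ?_
    intro n' hn' h1' hlt
    exact ihk _ (hk ▸ hlt) n' hn' h1' rfl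

theorem green {δ s : ℕ} (hc : Γ.Connected) (hs : Slim Γ δ) (hR : Rot Γ N s)
    (h6 : D0 δ * 6 ≤ s) {n : G} (hn : n ∈ NN N) (h1 : n ≠ 1) {p : ℕ → V} {l : ℕ} {x : V}
    (hp : IsGeo Γ p l x (n • x)) :
    ∃ i ≤ l, ∃ ρ, Red N n (p i) ρ ∧
      (i = 0 ∨ i = l ∨ AngLE Γ (p i) (p (i - 1)) (ρ⁻¹ • p (i + 1)) (D0 δ)) :=
  green_all hc hs hR h6 _ n hn h1 rfl p l x hp

theorem green_chain {δ s m : ℕ} (hc : Γ.Connected) (hs : Slim Γ δ) (hR : Rot Γ N s)
    (h6 : D0 δ * 6 ≤ s) (hm : D0 δ * (m + 5) ≤ s) {n : G} (hn : n ∈ NN N) (h1 : n ≠ 1)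
    {P : Set V} {x : V} (hP : Chain Γ m P x (n • x)) : ∃ c ∈ P, ∃ ρ, Red N n c ρ :=
  green_step2 hc hs hR hm hn h1 (fun n' hn' h1' _ => green_all hc hs hR h6 _ n' hn' h1' rfl) hP

end Pool.Agent.Lib.MP_7e344a_al
end

section

/-!
# MP_7e344a_al: T05, T06, quotients of graphs by rotation families
-/

set_option autoImplicit false

namespace Pool.Agent.Lib.MP_7e344a_al

variable {V V' : Type} {G : Type} {Γ : SimpleGraph V} {Γ' : SimpleGraph V'}
variable [Group G] [MulAction G V] {N : V → Subgroup G} {K : Subgroup G} {π : V → V'}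

/-! ## T05 -/

theorem IsQuot.map_walk (hQ : IsQuot Γ K Γ' π) {u v : V} (w : Γ.Walk u v) :
    ∃ w' : Γ'.Walk (π u) (π v), w'.length = w.length ∧ ∀ a ∈ w'.support, ∃ b ∈ w.support, π b = a := by
  induction w with
  | nil => exact ⟨SimpleGraph.Walk.nil, rfl, by simp⟩
  | cons h w ih =>
    obtain ⟨w', h1, h2⟩ := ih
    refine ⟨SimpleGraph.Walk.cons (hQ.adj _ _ h) w', by simp [h1], ?_⟩
    intro a ha
    rw [SimpleGraph.Walk.support_cons, List.mem_cons] at ha
    rcases ha with rfl | ha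
    · exact ⟨_, by simp, rfl⟩
    · obtain ⟨b, hb, rfl⟩ := h2 a ha
      exact ⟨b, by simp [hb], rfl⟩

theorem IsQuot.lift_walk (hQ : IsQuot Γ K Γ' π) {a b : V'} (w : Γ'.Walk a b) (u : V)
    (hu : π u = a) : ∃ (v : V) (w' : Γ.Walk u v), π v = b ∧ w'.length = w.length ∧
      ∀ y ∈ w'.support, π y ∈ w.support := by
  induction w generalizing u with
  | nil =>
    refine ⟨u, SimpleGraph.Walk.nil, hu, rfl, ?_⟩
    intro y hy
    rw [SimpleGraph.Walk.support_nil, List.mem_singleton] at hy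
    rw [hy, hu]
    simp
  | cons h w ih =>
    subst hu
    obtain ⟨u', hadj, hu'⟩ := hQ.lift u _ h
    obtain ⟨v, w', h1, h2, h3⟩ := ih u' hu'
    refine ⟨v, SimpleGraph.Walk.cons hadj w', h1, by simp [h2], ?_⟩
    intro y hy
    rw [SimpleGraph.Walk.support_cons, List.mem_cons] at hy
    rw [SimpleGraph.Walk.support_cons, List.mem_cons]
    rcases hy with rfl | hy
    · exact Or.inl rfl
    · exact Or.inr (h3 y hy)

theorem IsQuot.connected (hQ : IsQuot Γ K Γ' π) (hc : Γ.Connected) : Γ'.Connected := by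
  have : Nonempty V' := hc.nonempty.map π
  refine SimpleGraph.Connected.mk ?_
  intro a b
  obtain ⟨u, rfl⟩ := hQ.surj a
  obtain ⟨v, rfl⟩ := hQ.surj b
  obtain ⟨w⟩ := hc.preconnected u v
  obtain ⟨w', _, _⟩ := hQ.map_walk w
  exact ⟨w'⟩

theorem IsQuot.dist_le (hQ : IsQuot Γ K Γ' π) (hc : Γ.Connected) (u v : V) :
    Γ'.dist (π u) (π v) ≤ Γ.dist u v := by
  obtain ⟨w, hw⟩ := hc.exists_walk_length_eq_dist u v
  obtain ⟨w', h1, _⟩ := hQ.map_walk w
  calc Γ'.dist (π u) (π v) ≤ w'.length := SimpleGraph.dist_le w'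
    _ = Γ.dist u v := by rw [h1, hw]

/-- along a path with adjacent steps distances grow by at most one -/
theorem quot_dist_path (hc : Γ.Connected) {q : ℕ → V} {n : ℕ}
    (hadj : ∀ i < n, Γ.Adj (q i) (q (i + 1))) (i j : ℕ) (hij : i ≤ j) (hj : j ≤ n) :
    Γ.dist (q i) (q j) ≤ j - i := by
  induction j, hij using Nat.le_induction with
  | base => simp
  | succ j hij ih =>
    have h1 := ih (by omega)
    have h2 : Γ.dist (q j) (q (j + 1)) = 1 := SimpleGraph.dist_eq_one_iff_adj.mpr (hadj j (by omega))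
    have h3 := hc.dist_triangle (u := q i) (v := q j) (w := q (j + 1))
    omega

/-- a path in `Γ` over a geodesic of `Γ'` is a geodesic -/
theorem IsQuot.geo_of_lift (hQ : IsQuot Γ K Γ' π) (hc : Γ.Connected) {p : ℕ → V'} {n : ℕ}
    {a b : V'} (hp : IsGeo Γ' p n a b) {q : ℕ → V} (hq : ∀ i ≤ n, π (q i) = p i)
    (hadj : ∀ i < n, Γ.Adj (q i) (q (i + 1))) : IsGeo Γ q n (q 0) (q n) := by
  refine ⟨?_, rfl, rfl⟩
  intro i j hij hj
  refine le_antisymm (quot_dist_path hc hadj i j hij hj) ?_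
  have h1 := hp.geo i j hij hj
  have h2 := hQ.dist_le hc (q i) (q j)
  rw [hq i (by omega), hq j hj, h1] at h2
  exact h2

theorem IsQuot.lift_geo (hQ : IsQuot Γ K Γ' π) (hc : Γ.Connected) {p : ℕ → V'} {n : ℕ}
    {a b : V'} (hp : IsGeo Γ' p n a b) (u : V) (hu : π u = a) :
    ∃ q : ℕ → V, q 0 = u ∧ (∀ i ≤ n, π (q i) = p i) ∧ ∀ i < n, Γ.Adj (q i) (q (i + 1)) := by
  classical
  let step : ℕ → V → V := fun i v =>
    if h : Γ'.Adj (π v) (p (i + 1)) then (hQ.lift v (p (i + 1)) h).choose else v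
  let q : ℕ → V := fun i => Nat.rec u step i
  have hq0 : q 0 = u := rfl
  have hqs : ∀ i, q (i + 1) = step i (q i) := fun i => rfl
  have key : ∀ i, i ≤ n → π (q i) = p i ∧ (∀ j < i, Γ.Adj (q j) (q (j + 1))) := by
    intro i
    induction i with
    | zero =>
      intro _
      refine ⟨?_, fun j hj => absurd hj (by omega)⟩
      rw [hq0, hu, hp.start]
    | succ i ih =>
      intro hi
      obtain ⟨h1, h2⟩ := ih (by omega)
      have hadj : Γ'.Adj (π (q i)) (p (i + 1)) := by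
        rw [h1]
        exact hp.adj (by omega)
      have hstep : q (i + 1) = (hQ.lift (q i) (p (i + 1)) hadj).choose := by
        rw [hqs]
        simp only [step]
        rw [dif_pos hadj]
      have hspec := (hQ.lift (q i) (p (i + 1)) hadj).choose_spec
      rw [← hstep] at hspec
      refine ⟨hspec.2, ?_⟩
      intro j hj
      rcases Nat.lt_succ_iff_lt_or_eq.mp hj with hj | rfl
      · exact h2 j hj
      · exact hspec.1
  exact ⟨q, hq0, fun i hi => (key i hi).1, fun i hi => (key n le_rfl).2 i hi⟩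

/-- the group generated by the rotations meets the stabilisers only in rotations -/
theorem rot_stab {δ s : ℕ} (hc : Γ.Connected) (hs : Slim Γ δ) (hR : Rot Γ N s)
    (h6 : D0 δ * 6 ≤ s) {n : G} (hn : n ∈ NN N) {c : V} (hcn : n • c = c) : n ∈ N c := by
  have key : ∀ (k : ℕ) (n : G), len N n = k → n ∈ NN N → n • c = c → n ∈ N c := by
    intro k
    induction k using Nat.strong_induction_on with
    | _ k ih =>
      intro n hk hn hcn
      by_cases h1 : n = 1
      · rw [h1]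
        exact one_mem _
      · have hP : Chain Γ 0 {c} c (n • c) := by
          rw [hcn]
          exact Chain.refl c
        obtain ⟨c', hc', ρ, hρ, hlt⟩ := green_chain hc hs hR h6 (by omega) hn h1 hP
        rw [Set.mem_singleton_iff] at hc'
        subst hc'
        have hmem : ρ⁻¹ * n ∈ NN N := mul_mem (inv_mem (mem_NN hρ)) hn
        have hfix : (ρ⁻¹ * n) • c' = c' := by
          rw [mul_smul, hcn]
          exact hR.fix c' _ (inv_mem hρ)
        have h2 := ih (len N (ρ⁻¹ * n)) (by omega) (ρ⁻¹ * n) rfl hmem hfix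
        have h3 := mul_mem hρ h2
        rwa [mul_inv_cancel_left] at h3
  exact key (len N n) n rfl hn hcn

/-- adjacent vertices are in different orbits -/
theorem not_adj_smul {δ s : ℕ} (hc : Γ.Connected) (hs : Slim Γ δ) (hR : Rot Γ N s)
    (h6 : D0 δ * 6 ≤ s) {n : G} (hn : n ∈ NN N) (c : V) : ¬ Γ.Adj c (n • c) := by
  have key : ∀ (k : ℕ) (n : G), len N n = k → n ∈ NN N → ¬ Γ.Adj c (n • c) := by
    intro k
    induction k using Nat.strong_induction_on with
    | _ k ih =>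
      intro n hk hn hadj
      by_cases h1 : n = 1
      · rw [h1, one_smul] at hadj
        exact Γ.loopless.irrefl c hadj
      · have hP := Chain.of_walk (SimpleGraph.Walk.cons hadj SimpleGraph.Walk.nil)
        obtain ⟨c', hc', ρ, hρ, hlt⟩ := green_chain hc hs hR h6
          (by simp only [SimpleGraph.Walk.length_cons, SimpleGraph.Walk.length_nil]; omega) hn h1 hP
        have hmem : ρ⁻¹ * n ∈ NN N := mul_mem (inv_mem (mem_NN hρ)) hn
        refine ih (len N (ρ⁻¹ * n)) (by omega) (ρ⁻¹ * n) rfl hmem ?_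
        simp only [SimpleGraph.Walk.support_cons, SimpleGraph.Walk.support_nil, List.mem_cons,
          List.not_mem_nil, or_false, Set.mem_setOf_eq] at hc'
        rcases hc' with rfl | rfl
        · have h2 := hR.act ρ⁻¹ _ _ hadj
          rw [hR.fix _ _ (inv_mem hρ), ← mul_smul] at h2
          exact h2
        · rw [mul_smul, hR.fix _ _ (inv_mem hρ)]
          exact hadj
  exact key (len N n) n rfl hn

/-! ## T06 -/

theorem green_free {δ s : ℕ} (hc : Γ.Connected) (hs : Slim Γ δ) (hR : Rot Γ N s)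
    (h6 : D0 δ * 6 ≤ s) {n : G} (hn : n ∈ NN N) (h1 : n ≠ 1) {p : ℕ → V} {l : ℕ} {x : V}
    (hx : N x = ⊥) (hp : IsGeo Γ p l x (n • x)) :
    ∃ i, 0 < i ∧ i < l ∧ ∃ ρ ∈ N (p i), ρ ≠ 1 ∧
      AngLE Γ (p i) (p (i - 1)) (ρ⁻¹ • p (i + 1)) (D0 δ) := by
  obtain ⟨i, hi, ρ, hred, h⟩ := green hc hs hR h6 hn h1 hp
  have hρ1 : ρ ≠ 1 := hred.ne_one
  have hi0 : i ≠ 0 := by
    rintro rfl
    have h2 := hred.1
    rw [hp.start, hx, Subgroup.mem_bot] at h2
    exact hρ1 h2
  have hil : i ≠ l := by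
    rintro rfl
    have h2 := hred.1
    rw [hp.fin] at h2
    have h3 := hR.conj n⁻¹ _ _ h2
    rw [inv_smul_smul, hx, Subgroup.mem_bot] at h3
    apply hρ1
    have h4 : n⁻¹ * ρ = n⁻¹ := by
      have := congrArg (· * n⁻¹) h3
      simpa [mul_assoc] using this
    exact mul_left_cancel (a := n⁻¹) (by rw [h4, mul_one])
  rcases h with h | h | h
  · exact absurd h hi0
  · exact absurd h hil
  · exact ⟨i, by omega, by omega, ρ, hred.1, hρ1, h⟩

/-- If `x` and `n • x` are joined by a walk of length `m` without apices then `n = 1`. -/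
theorem green_walk {δ s m : ℕ} (hc : Γ.Connected) (hs : Slim Γ δ) (hR : Rot Γ N s)
    (h6 : D0 δ * 6 ≤ s) (hm : D0 δ * (m + 5) ≤ s) {n : G} (hn : n ∈ NN N) {x : V}
    (w : Γ.Walk x (n • x)) (hw : w.length ≤ m) (hN : ∀ v ∈ w.support, N v = ⊥) : n = 1 := by
  by_contra h1
  obtain ⟨c, hcm, ρ, hred⟩ := green_chain hc hs hR h6 hm hn h1 ((Chain.of_walk w).mono hw)
  have h2 := hred.1
  rw [hN c hcm, Subgroup.mem_bot] at h2
  exact hred.ne_one h2

/-! ## the canonical quotient -/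

/-- Vertices of the quotient. -/
abbrev QV (V : Type) {G : Type} [Group G] [MulAction G V] (K : Subgroup G) : Type :=
  MulAction.orbitRel.Quotient K V

/-- The quotient map. -/
def qmk (K : Subgroup G) (v : V) : QV V K := Quotient.mk'' v

/-- The quotient graph. -/
def QG (Γ : SimpleGraph V) (K : Subgroup G) : SimpleGraph (QV V K) where
  Adj a b := a ≠ b ∧ ∃ v w, qmk K v = a ∧ qmk K w = b ∧ Γ.Adj v w
  symm := ⟨by
    rintro a b ⟨h, v, w, hv, hw, h'⟩
    exact ⟨h.symm, w, v, hw, hv, h'.symm⟩⟩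
  loopless := ⟨fun a h => h.1 rfl⟩

theorem qmk_eq_iff (K : Subgroup G) (v w : V) : qmk K v = qmk K w ↔ ∃ n ∈ K, n • v = w := by
  unfold qmk
  rw [Quotient.eq'', MulAction.orbitRel_apply, MulAction.mem_orbit_iff]
  constructor
  · rintro ⟨⟨n, hn⟩, h⟩
    refine ⟨n⁻¹, inv_mem hn, ?_⟩
    rw [← h]
    exact inv_smul_smul n w
  · rintro ⟨n, hn, h⟩
    refine ⟨⟨n⁻¹, inv_mem hn⟩, ?_⟩
    rw [← h]
    exact inv_smul_smul n v

theorem isQuot_QG {δ s : ℕ} (hc : Γ.Connected) (hs : Slim Γ δ) (hR : Rot Γ N s)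
    (h6 : D0 δ * 6 ≤ s) : IsQuot Γ (NN N) (QG Γ (NN N)) (qmk (NN N)) := by
  refine ⟨?_, qmk_eq_iff (NN N), ?_, ?_⟩
  · intro a
    induction a using Quotient.inductionOn' with
    | h v => exact ⟨v, rfl⟩
  · intro v w hvw
    refine ⟨?_, v, w, rfl, rfl, hvw⟩
    intro h
    obtain ⟨n, hn, rfl⟩ := (qmk_eq_iff (NN N) v w).mp h
    exact not_adj_smul hc hs hR h6 hn v hvw
  · rintro v a ⟨_, v', w', hv', hw', hadj⟩
    obtain ⟨n, hn, hnv⟩ := (qmk_eq_iff (NN N) v' v).mp hv'
    refine ⟨n • w', ?_, ?_⟩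
    · rw [← hnv]
      exact hR.act n _ _ hadj
    · rw [← hw']
      exact ((qmk_eq_iff (NN N) w' (n • w')).mpr ⟨n, hn, rfl⟩).symm

end Pool.Agent.Lib.MP_7e344a_al
end

section

/-!
# MP_7e344a_al: T05c, lifting small angles
-/

set_option autoImplicit false

namespace Pool.Agent.Lib.MP_7e344a_al

variable {V V' : Type} {G : Type} {Γ : SimpleGraph V} {Γ' : SimpleGraph V'}
variable [Group G] [MulAction G V] {N : V → Subgroup G} {π : V → V'}

/-- walks of length at most `θ` whose projections avoid `a'` -/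
def alW (Γ : SimpleGraph V) (π : V → V') (a' : V') (θ : ℕ) (a b : V) : Prop :=
  ∃ w : Γ.Walk a b, w.length ≤ θ ∧ ∀ y ∈ w.support, π y ≠ a'

theorem angLift_pi {K : Subgroup G} (hQ : IsQuot Γ K Γ' π) {g : G} (hg : g ∈ K) (y : V) :
    π (g • y) = π y := ((hQ.fib y (g • y)).2 ⟨g, hg, rfl⟩).symm

theorem alW_smul {K : Subgroup G} (hQ : IsQuot Γ K Γ' π)
    (hact : ∀ (g : G) (v w : V), Γ.Adj v w → Γ.Adj (g • v) (g • w)) {g : G} (hg : g ∈ K)
    {a' : V'} {θ : ℕ} {a b : V} (h : alW Γ π a' θ a b) : alW Γ π a' θ (g • a) (g • b) := by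
  obtain ⟨w, hw, hs⟩ := h
  let φ : Γ →g Γ := ⟨fun v => g • v, fun {v w} h => hact g v w h⟩
  refine ⟨w.map φ, by simpa using hw, ?_⟩
  intro y hy
  rw [SimpleGraph.Walk.support_map, List.mem_map] at hy
  obtain ⟨z, hz, rfl⟩ := hy
  have : π (φ z) = π z := angLift_pi hQ hg z
  rw [this]
  exact hs z hz

theorem alW_cut {K : Subgroup G} (hQ : IsQuot Γ K Γ' π)
    (hact : ∀ (g : G) (v w : V), Γ.Adj v w → Γ.Adj (g • v) (g • w)) {g : G} (hg : g ∈ K)
    {a' : V'} {θ : ℕ} {a b d : V} (w : Γ.Walk a b) (hw : w.length ≤ θ)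
    (hs : ∀ y ∈ w.support, π y ≠ a') (hd : d ∈ w.support) (hgd : g • d = d) :
    alW Γ π a' θ a (g • b) := by
  classical
  let φ : Γ →g Γ := ⟨fun v => g • v, fun {v w} h => hact g v w h⟩
  have hφd : φ d = d := hgd
  have hlen : (w.takeUntil d hd).length + (w.dropUntil d hd).length = w.length := by
    have := congrArg SimpleGraph.Walk.length (w.take_spec hd)
    rwa [SimpleGraph.Walk.length_append] at this
  refine ⟨(w.takeUntil d hd).append (((w.dropUntil d hd).map φ).copy hφd rfl), ?_, ?_⟩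
  · rw [SimpleGraph.Walk.length_append, SimpleGraph.Walk.length_copy,
      SimpleGraph.Walk.length_map]
    omega
  · intro y hy
    rw [SimpleGraph.Walk.mem_support_append_iff] at hy
    rcases hy with hy | hy
    · exact hs y (w.support_takeUntil_subset_support hd hy)
    · rw [SimpleGraph.Walk.support_copy, SimpleGraph.Walk.support_map, List.mem_map] at hy
      obtain ⟨z, hz, rfl⟩ := hy
      have : π (φ z) = π z := angLift_pi hQ hg z
      rw [this]
      exact hs z (w.support_dropUntil_subset_support hd hz)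

theorem angle_lift_aux {δ s θ : ℕ} (hc : Γ.Connected) (hs : Slim Γ δ) (hR : Rot Γ N s)
    (h6 : D0 δ * 6 ≤ s) (hθ : D0 δ * (θ + 7) ≤ s) (hQ : IsQuot Γ (NN N) Γ' π) {c : V} (k : ℕ) :
    ∀ {e f : V} {ν : G}, ν ∈ NN N → len N ν = k → Γ.Adj c e → Γ.Adj c f →
      alW Γ π (π c) θ e (ν • f) → ∃ ρ ∈ N c, AngLE Γ c e (ρ • f) θ := by
  induction k using Nat.strong_induction_on with
  | _ k ih =>
    intro e f ν hν hk he hf hw
    by_cases h1 : ν = 1
    · subst h1
      rw [one_smul] at hw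
      obtain ⟨w, hw1, hw2⟩ := hw
      exact ⟨1, one_mem _, by rw [one_smul]; exact ⟨w, hw1, fun h => hw2 c h rfl⟩⟩
    · obtain ⟨w, hw1, hw2⟩ := hw
      have hadj : Γ.Adj (ν • f) (ν • c) := hR.act ν f c hf.symm
      let W : Γ.Walk c (ν • c) :=
        SimpleGraph.Walk.cons he (w.append (SimpleGraph.Walk.cons hadj SimpleGraph.Walk.nil))
      have hWlen : W.length ≤ θ + 2 := by
        simp only [W, SimpleGraph.Walk.length_cons, SimpleGraph.Walk.length_append,
          SimpleGraph.Walk.length_nil]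
        omega
      have hch := (Chain.of_walk W).mono hWlen
      obtain ⟨c', hc', ρ', hred⟩ := green_chain hc hs hR h6 (m := θ + 2)
        (le_trans (Nat.mul_le_mul_left _ (by omega)) hθ) hν h1 hch
      have hρ' : ρ' ∈ N c' := hred.1
      have hlt : len N (ρ'⁻¹ * ν) < k := by rw [← hk]; exact hred.2
      have hmem : ρ'⁻¹ ∈ NN N := (NN N).inv_mem (mem_NN hρ')
      have hmem2 : ρ'⁻¹ * ν ∈ NN N := (NN N).mul_mem hmem hν
      have hc'' : c' = c ∨ c' ∈ w.support ∨ c' = ν • c := by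
        have h2 : c' ∈ W.support := hc'
        simp only [W, SimpleGraph.Walk.support_cons, List.mem_cons,
          SimpleGraph.Walk.mem_support_append_iff, SimpleGraph.Walk.support_nil,
          List.not_mem_nil, or_false] at h2
        rcases h2 with h2 | h2 | h2 | h2
        · exact Or.inl h2
        · exact Or.inr (Or.inl h2)
        · right; left
          rw [h2]; exact w.end_mem_support
        · exact Or.inr (Or.inr h2)
      rcases hc'' with h2 | h2 | h2
      · -- c' = c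
        subst h2
        have hfix : ρ'⁻¹ • c' = c' := hR.fix c' _ ((N c').inv_mem hρ')
        have hadj1 : Γ.Adj c' (ρ'⁻¹ • e) := by
          have := hR.act ρ'⁻¹ c' e he
          rwa [hfix] at this
        have hw' : alW Γ π (π c') θ (ρ'⁻¹ • e) ((ρ'⁻¹ * ν) • f) := by
          have := alW_smul hQ hR.act hmem (⟨w, hw1, hw2⟩ : alW Γ π (π c') θ e (ν • f))
          rwa [smul_smul] at this
        obtain ⟨ρ, hρ, hang⟩ := ih _ hlt hmem2 rfl hadj1 hf hw'
        refine ⟨ρ' * ρ, (N c').mul_mem hρ' hρ, ?_⟩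
        have h3 := hang.smul hR.act ρ'
        rw [hR.fix c' _ hρ', smul_smul, mul_inv_cancel, one_smul, smul_smul] at h3
        exact h3
      · -- c' on w
        have hfix : ρ'⁻¹ • c' = c' := hR.fix c' _ ((N c').inv_mem hρ')
        have hw' : alW Γ π (π c) θ e ((ρ'⁻¹ * ν) • f) := by
          have := alW_cut hQ hR.act hmem w hw1 hw2 h2 hfix
          rwa [smul_smul] at this
        exact ih _ hlt hmem2 rfl he hf hw'
      · -- c' = ν • c
        subst h2
        have hρ0 : ν⁻¹ * ρ' * ν ∈ N c := by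
          have := hR.conj ν⁻¹ (ν • c) ρ' hρ'
          rwa [inv_inv, inv_smul_smul] at this
        have hadj1 : Γ.Adj c ((ν⁻¹ * ρ' * ν) • f) := by
          have := hR.act (ν⁻¹ * ρ' * ν) c f hf
          rwa [hR.fix c _ hρ0] at this
        have heq : (ρ'⁻¹ * ν) • ((ν⁻¹ * ρ' * ν) • f) = ν • f := by
          rw [smul_smul]; congr 1; group
        have hw' : alW Γ π (π c) θ e ((ρ'⁻¹ * ν) • ((ν⁻¹ * ρ' * ν) • f)) := by
          rw [heq]; exact ⟨w, hw1, hw2⟩
        obtain ⟨ρ, hρ, hang⟩ := ih _ hlt hmem2 rfl he hadj1 hw'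
        refine ⟨ρ * (ν⁻¹ * ρ' * ν), (N c).mul_mem hρ hρ0, ?_⟩
        rwa [smul_smul] at hang

/-- Small angles of the quotient lift. -/
theorem angle_lift {δ s θ : ℕ} (hc : Γ.Connected) (hs : Slim Γ δ) (hR : Rot Γ N s)
    (h6 : D0 δ * 6 ≤ s) (hθ : D0 δ * (θ + 7) ≤ s) (hQ : IsQuot Γ (NN N) Γ' π) {c e f : V}
    (he : Γ.Adj c e) (hf : Γ.Adj c f) (h : AngLE Γ' (π c) (π e) (π f) θ) :
    ∃ ρ ∈ N c, AngLE Γ c e (ρ • f) θ := by
  obtain ⟨w', hw1, hw2⟩ := h
  obtain ⟨v, w, hv, hwl, hws⟩ := hQ.lift_walk w' e rfl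
  obtain ⟨ν, hν, hνf⟩ := (hQ.fib f v).1 hv.symm
  subst hνf
  exact angle_lift_aux hc hs hR h6 hθ hQ (len N ν) hν rfl he hf
    ⟨w, by omega, fun y hy h3 => hw2 (h3 ▸ hws y hy)⟩

end Pool.Agent.Lib.MP_7e344a_al
end

section

/-!
# MP_7e344a_al: T05b, hyperbolicity of the quotient
-/

set_option autoImplicit false

namespace Pool.Agent.Lib.MP_7e344a_al

variable {V V' : Type} {G : Type} {Γ : SimpleGraph V} {Γ' : SimpleGraph V'}
variable [Group G] [MulAction G V] {N : V → Subgroup G} {π : V → V'}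

/-- Rotating the final part of a path about one of its vertices. -/
theorem slimQ_rotate {s : ℕ} (hR : Rot Γ N s) (hQ : IsQuot Γ (NN N) Γ' π) {L i : ℕ} (hi : i ≤ L)
    {S : ℕ → V} (hadj : ∀ j < L, Γ.Adj (S j) (S (j + 1))) {g : G} (hg : S L = g • S 0) {ρ : G}
    (hρ : ρ ∈ N (S i)) :
    ∃ S' : ℕ → V, (∀ j, π (S' j) = π (S j)) ∧ (∀ j < L, Γ.Adj (S' j) (S' (j + 1))) ∧
      S' L = (ρ⁻¹ * g) • S' 0 := by
  have hfix : ρ⁻¹ • S i = S i := hR.fix _ _ (inv_mem hρ)
  refine ⟨fun j => if j ≤ i then S j else ρ⁻¹ • S j, ?_, ?_, ?_⟩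
  · intro j
    by_cases h : j ≤ i
    · simp [h]
    · simp only [h, if_false]
      exact ((hQ.fib _ _).2 ⟨ρ⁻¹, inv_mem (mem_NN hρ), rfl⟩).symm
  · intro j hj
    rcases lt_trichotomy j i with h | h | h
    · have h1 : j ≤ i := h.le
      have h2 : j + 1 ≤ i := h
      simp only [h1, h2, if_true]
      exact hadj j hj
    · subst h
      have h2 : ¬ (j + 1 ≤ j) := by omega
      simp only [le_refl, h2, if_true, if_false]
      have h3 := hR.act ρ⁻¹ _ _ (hadj j hj)
      rwa [hfix] at h3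
    · have h1 : ¬ (j ≤ i) := by omega
      have h2 : ¬ (j + 1 ≤ i) := by omega
      simp only [h1, h2, if_false]
      exact hR.act _ _ _ (hadj j hj)
  · simp only [Nat.zero_le, if_true]
    by_cases h : L ≤ i
    · have h1 : i = L := le_antisymm hi h
      subst h1
      simp only [le_refl, if_true]
      rw [mul_smul, ← hg, hfix]
    · simp only [h, if_false, hg, mul_smul]

/-- A loop of `Γ'` consisting of three geodesics lifts to a loop in `Γ`. -/
theorem slimQ_close {δ s : ℕ} (hc : Γ.Connected) (hs : Slim Γ δ) (hR : Rot Γ N s)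
    (h8 : D0 δ * 8 ≤ s) (hQ : IsQuot Γ (NN N) Γ' π) {p q r : ℕ → V'} {l m k : ℕ} {x y z : V'}
    (hp : IsGeo Γ' p l x y) (hq : IsGeo Γ' q m y z) (hr : IsGeo Γ' r k z x) :
    ∀ (t : ℕ) (S : ℕ → V) (g : G), len N g = t → g ∈ NN N →
      (∀ j ≤ k, π (S j) = r j) → (∀ j ≤ l, π (S (k + j)) = p j) →
      (∀ j ≤ m, π (S (k + l + j)) = q j) → (∀ j < k + l + m, Γ.Adj (S j) (S (j + 1))) →
      S (k + l + m) = g • S 0 →
      ∃ S' : ℕ → V, (∀ j ≤ k, π (S' j) = r j) ∧ (∀ j ≤ l, π (S' (k + j)) = p j) ∧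
      (∀ j ≤ m, π (S' (k + l + j)) = q j) ∧ (∀ j < k + l + m, Γ.Adj (S' j) (S' (j + 1))) ∧
      S' (k + l + m) = S' 0 := by
  intro t
  induction t using Nat.strong_induction_on with
  | _ t ih =>
    intro S g ht hg hSr hSp hSq hadj hend
    by_cases h1 : g = 1
    · refine ⟨S, hSr, hSp, hSq, hadj, ?_⟩
      rw [hend, h1, one_smul]
    have hgr : IsGeo Γ S k (S 0) (S k) :=
      hQ.geo_of_lift hc hr hSr (fun i hi => hadj i (by omega))
    have hgp : IsGeo Γ (fun j => S (k + j)) l (S (k + 0)) (S (k + l)) :=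
      hQ.geo_of_lift hc hp hSp (fun i hi => hadj (k + i) (by omega))
    have hgq : IsGeo Γ (fun j => S (k + l + j)) m (S (k + l + 0)) (S (k + l + m)) :=
      hQ.geo_of_lift hc hq hSq (fun i hi => hadj (k + l + i) (by omega))
    have hch := ((Chain.of_geo hgr).trans (Chain.of_geo hgp)).trans (Chain.of_geo hgq)
    rw [hend] at hch
    obtain ⟨c, hcP, ρ, hred⟩ := green_chain (m := 1 + 1 + 1) hc hs hR (by omega) (by omega) hg h1 hch
    have hci : ∃ i ≤ k + l + m, S i = c := by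
      rcases hcP with (⟨i, hi, rfl⟩ | ⟨i, hi, rfl⟩) | ⟨i, hi, rfl⟩
      · exact ⟨i, by simp only [Set.mem_Iic] at hi; omega, rfl⟩
      · exact ⟨k + i, by simp only [Set.mem_Iic] at hi; omega, rfl⟩
      · exact ⟨k + l + i, by simp only [Set.mem_Iic] at hi; omega, rfl⟩
    obtain ⟨i, hi, rfl⟩ := hci
    obtain ⟨S', h1', h2', h3'⟩ := slimQ_rotate hR hQ hi hadj hend hred.1
    exact ih (len N (ρ⁻¹ * g)) (ht ▸ hred.2) S' (ρ⁻¹ * g) rfl
      (mul_mem (inv_mem (mem_NN hred.1)) hg) (fun j hj => (h1' _).trans (hSr j hj))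
      (fun j hj => (h1' _).trans (hSp j hj)) (fun j hj => (h1' _).trans (hSq j hj)) h2' h3'

/-- Hyperbolicity of the quotient. -/
theorem slim_quot {δ s : ℕ} (hc : Γ.Connected) (hs : Slim Γ δ) (hR : Rot Γ N s)
    (h8 : D0 δ * 8 ≤ s) (hQ : IsQuot Γ (NN N) Γ' π) : Slim Γ' δ := by
  intro p q r l m k x y z hp hq hr i hi
  obtain ⟨u, hu⟩ := hQ.surj z
  have hr' := hr.symm
  obtain ⟨A, hA0, hA, hAadj⟩ := hQ.lift_geo hc hr' u hu
  have hAk : π (A k) = x := by rw [hA k le_rfl]; simpa using hr.start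
  obtain ⟨P, hP0, hP, hPadj⟩ := hQ.lift_geo hc hp (A k) hAk
  have hPl : π (P l) = y := by rw [hP l le_rfl]; exact hp.fin
  obtain ⟨Q, hQ0, hQ', hQadj⟩ := hQ.lift_geo hc hq (P l) hPl
  have hQm : π (Q m) = z := by rw [hQ' m le_rfl]; exact hq.fin
  obtain ⟨g, hg, hgu⟩ := (hQ.fib u (Q m)).1 (hu.trans hQm.symm)
  set S : ℕ → V := fun j => if j ≤ k then A j else if j ≤ k + l then P (j - k) else Q (j - k - l)
    with hS
  have hSA : ∀ j ≤ k, S j = A j := fun j hj => by simp [hS, hj]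
  have hSP : ∀ j ≤ l, S (k + j) = P j := by
    intro j hj
    rcases Nat.eq_zero_or_pos j with h | h
    · subst h; rw [hP0]; simp [hS]
    · have e1 : ¬ (k + j ≤ k) := by omega
      have e2 : k + j ≤ k + l := by omega
      simp only [hS, e1, e2, if_false, if_true]
      congr 1; omega
  have hSQ : ∀ j ≤ m, S (k + l + j) = Q j := by
    intro j hj
    rcases Nat.eq_zero_or_pos j with h | h
    · subst h; rw [hQ0]; exact hSP l le_rfl
    · have e1 : ¬ (k + l + j ≤ k) := by omega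
      have e2 : ¬ (k + l + j ≤ k + l) := by omega
      simp only [hS, e1, e2, if_false]
      congr 1; omega
  have hSadj : ∀ j < k + l + m, Γ.Adj (S j) (S (j + 1)) := by
    intro j hj
    rcases lt_or_ge j k with h | h
    · rw [hSA j h.le, hSA (j + 1) h]; exact hAadj j h
    · rcases lt_or_ge j (k + l) with h' | h'
      · obtain ⟨a, rfl⟩ := Nat.exists_eq_add_of_le h
        rw [hSP a (by omega), add_assoc, hSP (a + 1) (by omega)]; exact hPadj a (by omega)
      · obtain ⟨a, rfl⟩ := Nat.exists_eq_add_of_le h'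
        rw [hSQ a (by omega), add_assoc, hSQ (a + 1) (by omega)]; exact hQadj a (by omega)
  have hS0 : S 0 = u := by rw [hSA 0 (Nat.zero_le _), hA0]
  obtain ⟨T, hTr, hTp, hTq, hTadj, hTend⟩ := slimQ_close hc hs hR h8 hQ hp hq hr' (len N g) S g rfl
    hg (fun j hj => by rw [hSA j hj]; exact hA j hj) (fun j hj => by rw [hSP j hj]; exact hP j hj)
    (fun j hj => by rw [hSQ j hj]; exact hQ' j hj) hSadj (by rw [hSQ m le_rfl, hS0, hgu])
  have hgr : IsGeo Γ T k (T 0) (T k) :=
    hQ.geo_of_lift hc hr' hTr (fun i hi => hTadj i (by omega))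
  have hgp : IsGeo Γ (fun j => T (k + j)) l (T (k + 0)) (T (k + l)) :=
    hQ.geo_of_lift hc hp hTp (fun i hi => hTadj (k + i) (by omega))
  have hgq : IsGeo Γ (fun j => T (k + l + j)) m (T (k + l + 0)) (T (k + l + m)) :=
    hQ.geo_of_lift hc hq hTq (fun i hi => hTadj (k + l + i) (by omega))
  rw [hTend] at hgq
  rcases hs _ _ _ l m k _ _ _ hgp hgq hgr.symm i hi with ⟨j, hj, h⟩ | ⟨j, hj, h⟩
  · left
    refine ⟨j, hj, ?_⟩
    have h2 := hQ.dist_le hc (T (k + i)) (T (k + l + j))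
    rw [hTp i hi, hTq j hj] at h2
    exact h2.trans h
  · right
    refine ⟨j, hj, ?_⟩
    have h2 := hQ.dist_le hc (T (k + i)) (T (k - j))
    rw [hTp i hi, hTr (k - j) (by omega)] at h2
    have e : k - (k - j) = j := by omega
    simp only [e] at h2
    exact h2.trans h

end Pool.Agent.Lib.MP_7e344a_al
end

section

/-!
# MP_7e344a_al: T07a, T07b, angles between directions; orbits without large angles
-/

set_option autoImplicit false

namespace Pool.Agent.Lib.MP_7e344a_al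

variable {V : Type} {G : Type} {Γ : SimpleGraph V}

/-- The angle at `c` between the directions of `u` and `v` is at most `θ` (for all geodesics). -/
def DA (Γ : SimpleGraph V) (c u v : V) (θ : ℕ) : Prop :=
  ∀ (p q : ℕ → V) (l m : ℕ), IsGeo Γ p l c u → IsGeo Γ q m c v → AngLE Γ c (p 1) (q 1) θ

theorem DA.symm {c u v : V} {θ : ℕ} (h : DA Γ c u v θ) : DA Γ c v u θ :=
  fun p q l m hp hq => (h q p m l hq hp).symm

theorem DA.mono {c u v : V} {θ η : ℕ} (h : DA Γ c u v θ) (hθ : θ ≤ η) : DA Γ c u v η :=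
  fun p q l m hp hq => (h p q l m hp hq).mono hθ

theorem DA.trans (hc : Γ.Connected) {c u v w : V} {θ η : ℕ} (h : DA Γ c u v θ)
    (h' : DA Γ c v w η) : DA Γ c u w (θ + η) := by
  intro p q l m hp hq
  obtain ⟨s, hs⟩ := IsGeo.exists hc c v
  exact (h p s l _ hp hs).trans (h' s q _ m hs hq)

theorem DA.smul [Group G] [MulAction G V]
    (hact : ∀ (g : G) (v w : V), Γ.Adj v w → Γ.Adj (g • v) (g • w)) (g : G) {c u v : V} {θ : ℕ}
    (h : DA Γ c u v θ) : DA Γ (g • c) (g • u) (g • v) θ := by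
  intro p q l m hp hq
  have hp' := IsGeo.smul hact g⁻¹ hp
  have hq' := IsGeo.smul hact g⁻¹ hq
  rw [inv_smul_smul, inv_smul_smul] at hp' hq'
  have := AngLE.smul hact g (h _ _ l m hp' hq')
  simpa only [smul_inv_smul] using this

/-- a geodesic from `u` to `v` avoiding `c` -/
theorem DA.of_avoid (hc : Γ.Connected) {δ : ℕ} (hs : Slim Γ δ) {c u v : V} {r : ℕ → V} {n : ℕ}
    (hr : IsGeo Γ r n u v) (h : ∀ k ≤ n, r k ≠ c) : DA Γ c u v (D0 δ) := by
  intro p q l m hp hq
  have hl : 1 ≤ l := by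
    by_contra hl
    have hl0 : l = 0 := by omega
    subst hl0
    exact h 0 (Nat.zero_le _) (by rw [hr.start, ← hp.fin, hp.start])
  have hm : 1 ≤ m := by
    by_contra hm
    have hm0 : m = 0 := by omega
    subst hm0
    exact h n le_rfl (by rw [hr.fin, ← hq.fin, hq.start])
  exact triangle hc hs hp hq hr hl hm h

/-- adjacent vertices different from `c` -/
theorem DA.of_adj (hc : Γ.Connected) {δ : ℕ} (hs : Slim Γ δ) {c u v : V} (h : Γ.Adj u v)
    (hu : u ≠ c) (hv : v ≠ c) : DA Γ c u v (D0 δ) := by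
  obtain ⟨r, hr⟩ := IsGeo.exists hc u v
  refine DA.of_avoid hc hs hr ?_
  intro k hk
  have h1 : Γ.dist u v = 1 := SimpleGraph.dist_eq_one_iff_adj.mpr h
  rw [h1] at hr hk
  rcases Nat.le_one_iff_eq_zero_or_eq_one.mp hk with rfl | rfl
  · rw [hr.start]; exact hu
  · rw [hr.fin]; exact hv

theorem DA.refl (hc : Γ.Connected) {δ : ℕ} (hs : Slim Γ δ) {c u : V} (hu : u ≠ c) :
    DA Γ c u u (D0 δ) := by
  obtain ⟨r, hr⟩ := IsGeo.exists hc u u
  refine DA.of_avoid hc hs hr ?_
  intro k hk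
  rw [SimpleGraph.dist_self] at hk
  have : k = 0 := by omega
  subst this
  rw [hr.start]; exact hu

/-- a geodesic from `u` to `v` passing through `c` with a small angle -/
theorem DA.of_through (hc : Γ.Connected) {δ θ : ℕ} (hs : Slim Γ δ) {u v : V} {r : ℕ → V} {n i : ℕ}
    (hr : IsGeo Γ r n u v) (h0 : 0 < i) (hn : i < n)
    (h : AngLE Γ (r i) (r (i - 1)) (r (i + 1)) θ) : DA Γ (r i) u v (θ + 2 * D0 δ) := by
  intro p q l m hp hq
  have hu : u ≠ r i := by
    intro he
    have := hr.inj (Nat.zero_le n) hn.le (hr.start.trans he)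
    omega
  have hv : v ≠ r i := by
    intro he
    have := hr.inj le_rfl hn.le (hr.fin.trans he)
    omega
  have h1 := DA.refl hc hs hu p _ l i hp (hr.take hn.le).symm
  have h2 := DA.refl hc hs hv _ q (n - i) m (hr.drop hn.le) hq
  exact ((h1.trans h).trans h2).mono (by omega)

theorem DA.through {θ : ℕ} {u v : V} {r : ℕ → V} {n i : ℕ}
    (hr : IsGeo Γ r n u v) (h0 : 0 < i) (hn : i < n) (h : DA Γ (r i) u v θ) :
    AngLE Γ (r i) (r (i - 1)) (r (i + 1)) θ :=
  h _ _ i (n - i) (hr.take hn.le).symm (hr.drop hn.le)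

/-- a large angle at `c` forces geodesics through `c` -/
theorem dist_of_not_DA (hc : Γ.Connected) {δ : ℕ} (hs : Slim Γ δ) {c u v : V} (hu : u ≠ c)
    (hv : v ≠ c) (h : ¬ DA Γ c u v (D0 δ)) : Γ.dist u v = Γ.dist u c + Γ.dist c v := by
  obtain ⟨r, hr⟩ := IsGeo.exists hc u v
  by_cases hx : ∀ k ≤ Γ.dist u v, r k ≠ c
  · exact absurd (DA.of_avoid hc hs hr hx) h
  · push Not at hx
    obtain ⟨k, hk, hkc⟩ := hx
    have h1 := (hr.take hk).length
    have h2 := (hr.drop hk).length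
    rw [hkc] at h1 h2
    omega

/-- isometries preserve adjacency -/
theorem Dir_adj_map {φ : V → V} (hφ : ∀ v w, Γ.dist (φ v) (φ w) = Γ.dist v w) {v w : V}
    (h : Γ.Adj v w) : Γ.Adj (φ v) (φ w) := by
  rw [← SimpleGraph.dist_eq_one_iff_adj] at h ⊢
  rw [hφ]; exact h

theorem Dir_inj (hc : Γ.Connected) {φ : V → V} (hφ : ∀ v w, Γ.dist (φ v) (φ w) = Γ.dist v w) :
    Function.Injective φ := by
  intro v w h
  have := hφ v w
  rw [h, SimpleGraph.dist_self] at this
  exact (hc.dist_eq_zero_iff).mp this.symm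

theorem Dir_AngLE_map (hc : Γ.Connected) {φ : V → V}
    (hφ : ∀ v w, Γ.dist (φ v) (φ w) = Γ.dist v w) {c u v : V} {θ : ℕ}
    (h : AngLE Γ c u v θ) : AngLE Γ (φ c) (φ u) (φ v) θ := by
  obtain ⟨w, hw, hcw⟩ := h
  let f : Γ →g Γ := ⟨φ, fun {a b} hab => Dir_adj_map hφ hab⟩
  refine ⟨w.map f, by rw [SimpleGraph.Walk.length_map]; exact hw, ?_⟩
  rw [SimpleGraph.Walk.support_map, List.mem_map]
  rintro ⟨x, hx, hxe⟩
  have : x = c := Dir_inj hc hφ hxe
  subst this
  exact hcw hx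

theorem Dir_IsGeo_map {φ : V → V}
    (hφ : ∀ v w, Γ.dist (φ v) (φ w) = Γ.dist v w) {p : ℕ → V} {n : ℕ} {x y : V}
    (h : IsGeo Γ p n x y) : IsGeo Γ (fun i => φ (p i)) n (φ x) (φ y) :=
  ⟨fun i j hij hj => by rw [hφ]; exact h.geo i j hij hj, by rw [h.start], by rw [h.fin]⟩

/-- transport of `DA` backwards along an isometry with a left inverse isometry -/
theorem Dir_DA_map (hc : Γ.Connected) {φ ψ : V → V}
    (hφ : ∀ v w, Γ.dist (φ v) (φ w) = Γ.dist v w)
    (hψ : ∀ v w, Γ.dist (ψ v) (ψ w) = Γ.dist v w) (hψφ : ∀ v, ψ (φ v) = v) {c u v : V} {θ : ℕ}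
    (h : DA Γ (φ c) (φ u) (φ v) θ) : DA Γ c u v θ := by
  intro p q l m hp hq
  have h1 := h _ _ l m (Dir_IsGeo_map hφ hp) (Dir_IsGeo_map hφ hq)
  have h2 := Dir_AngLE_map hc hψ h1
  simpa only [hψφ] using h2

theorem Dir_iter {h : V → V} (hh : ∀ v w, Γ.dist (h v) (h w) = Γ.dist v w) (n : ℕ) :
    ∀ v w, Γ.dist (h^[n] v) (h^[n] w) = Γ.dist v w := by
  induction n with
  | zero => intro v w; rfl
  | succ n ih =>
    intro v w
    rw [Function.iterate_succ_apply', Function.iterate_succ_apply', hh, ih]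

/-- the displacement bound of an orbit -/
noncomputable def Dir_R (Γ : SimpleGraph V) (h : V → V) (p : ℕ) (v : V) : ℕ :=
  (Finset.range p).sup (fun j => Γ.dist v (h^[j] v))

theorem Dir_orbit_dist {h : V → V} (hh : ∀ v w, Γ.dist (h v) (h w) = Γ.dist v w) {p : ℕ}
    (hp : 0 < p) (hper : ∀ v, h^[p] v = v) (v : V) (a b : ℕ) :
    Γ.dist (h^[a] v) (h^[b] v) ≤ Dir_R Γ h p v := by
  have key : ∀ a b, a ≤ b → Γ.dist (h^[a] v) (h^[b] v) ≤ Dir_R Γ h p v := by
    intro a b hab
    obtain ⟨d, rfl⟩ := Nat.exists_eq_add_of_le hab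
    rw [Function.iterate_add_apply, Dir_iter hh]
    have hmod : h^[d % p] v = h^[d] v := by
      have : Function.IsPeriodicPt h p v := hper v
      exact this.iterate_mod_apply d
    rw [← hmod]
    exact Finset.le_sup (f := fun j => Γ.dist v (h^[j] v)) (Finset.mem_range.mpr (Nat.mod_lt _ hp))
  rcases le_total a b with hab | hab
  · exact key a b hab
  · rw [SimpleGraph.dist_comm]; exact key b a hab

/-- T07b: an automorphism of finite order without fixed vertices has an orbit without large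
angles (choose a vertex whose orbit has minimal diameter). -/
theorem exists_small_orbit (hc : Γ.Connected) {δ : ℕ} (hs : Slim Γ δ) (h : V → V)
    (hh : ∀ v w, Γ.dist (h v) (h w) = Γ.dist v w) {p : ℕ} (hp : 0 < p) (hper : ∀ v, h^[p] v = v)
    (hfree : ∀ j, 0 < j → j < p → ∀ v, h^[j] v ≠ v) :
    ∃ v, ∀ c, ∀ i j : ℕ, h^[i] v ≠ c → h^[j] v ≠ c → DA Γ c (h^[i] v) (h^[j] v) (4 * D0 δ) := by
  obtain ⟨v, hv⟩ : ∃ v, ∀ w, Dir_R Γ h p v ≤ Dir_R Γ h p w := by
    haveI := hc.nonempty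
    exact ⟨_, fun w => Function.argmin_le (Dir_R Γ h p) w⟩
  refine ⟨v, ?_⟩
  by_contra hcon
  push Not at hcon
  obtain ⟨c, i, j, hi, hj, hD⟩ := hcon
  -- main claim
  have claim : ∀ m, 0 < m → m < p → Γ.dist c (h^[m] c) + 2 ≤ Dir_R Γ h p v := by
    intro m hm hmp
    set c' := h^[m] c with hc'
    have hcc : c' ≠ c := hfree m hm hmp c
    -- step 1
    obtain ⟨a, hac, haD⟩ : ∃ a, h^[a] v ≠ c ∧ ¬ DA Γ c (h^[a] v) c' (2 * D0 δ) := by
      by_contra hno
      push Not at hno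
      have h1 := hno i hi
      have h2 := (hno j hj).symm
      exact hD ((h1.trans hc h2).mono (by omega))
    -- step 2
    obtain ⟨b, hbc, hbD⟩ : ∃ b, h^[b] v ≠ c' ∧ ¬ DA Γ c' (h^[b] v) c (2 * D0 δ) := by
      by_contra hno
      push Not at hno
      have hinv : ∀ x, h^[p - m] (h^[m] x) = x := by
        intro x
        rw [← Function.iterate_add_apply, Nat.sub_add_cancel hmp.le]
        exact hper x
      have hni : h^[m + i] v ≠ c' := by
        intro he
        rw [Function.iterate_add_apply, hc'] at he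
        exact hi (Dir_inj hc (Dir_iter hh m) he)
      have hnj : h^[m + j] v ≠ c' := by
        intro he
        rw [Function.iterate_add_apply, hc'] at he
        exact hj (Dir_inj hc (Dir_iter hh m) he)
      have h1 := hno (m + i) hni
      have h2 := (hno (m + j) hnj).symm
      have h3 := (h1.trans hc h2).mono (show 2 * D0 δ + 2 * D0 δ ≤ 4 * D0 δ by omega)
      rw [Function.iterate_add_apply, Function.iterate_add_apply, hc'] at h3
      exact hD (Dir_DA_map hc (Dir_iter hh m) (Dir_iter hh (p - m)) hinv h3)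
    -- step 3
    have e1 : Γ.dist (h^[a] v) c' = Γ.dist (h^[a] v) c + Γ.dist c c' :=
      dist_of_not_DA hc hs hac hcc (fun hx => haD (hx.mono (by omega)))
    have dcc : 0 < Γ.dist c c' := hc.pos_dist_of_ne (Ne.symm hcc)
    -- step 4
    have hDA4 : DA Γ c' (h^[a] v) c (D0 δ) := by
      obtain ⟨r, hr⟩ := IsGeo.exists hc (h^[a] v) c
      refine DA.of_avoid hc hs hr ?_
      intro k hk hkc
      have h1 := (hr.take hk).length
      rw [hkc] at h1
      omega
    have hac' : h^[a] v ≠ c' := by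
      intro he
      rw [he, SimpleGraph.dist_self] at e1
      omega
    -- step 5
    have hnD : ¬ DA Γ c' (h^[a] v) (h^[b] v) (D0 δ) := by
      intro hx
      exact hbD ((hx.symm.trans hc hDA4).mono (by omega))
    -- step 6
    have e2 := dist_of_not_DA hc hs hac' hbc hnD
    have e3 := Dir_orbit_dist hh hp hper v a b
    have e4 : 0 < Γ.dist (h^[a] v) c := hc.pos_dist_of_ne hac
    have e5 : 0 < Γ.dist c' (h^[b] v) := hc.pos_dist_of_ne (Ne.symm hbc)
    omega
  -- `p ≥ 2`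
  have hp2 : 1 < p := by
    by_contra hle
    have hp1 : p = 1 := by omega
    subst hp1
    have hfix : ∀ n, h^[n] v = v := by
      intro n
      induction n with
      | zero => rfl
      | succ n ih =>
        rw [Function.iterate_succ_apply']
        rw [ih]; exact hper v
    rw [hfix] at hi
    rw [hfix, hfix] at hD
    exact hD ((DA.refl hc hs hi).mono (by omega))
  have h2 := claim 1 one_pos hp2
  have h3 := hv c
  have h4 : Dir_R Γ h p c < Dir_R Γ h p v := by
    rw [Dir_R, Finset.sup_lt_iff (by rw [Nat.bot_eq_zero]; omega)]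
    intro m hm
    rcases Nat.eq_zero_or_pos m with rfl | hm0
    · rw [Function.iterate_zero_apply, SimpleGraph.dist_self]; omega
    · have := claim m hm0 (Finset.mem_range.mp hm)
      omega
  omega

end Pool.Agent.Lib.MP_7e344a_al
end
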