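import Pool.Agent.Lib.MP_7e344a_al.Mg.G006
import Pool.Agent.Lib.MP_7e344a_al.Mg.G003

section

/-!
# MP_7e344a_al: M10a, the action of the quotient group, local finiteness
-/

set_option autoImplicit false

namespace Pool.Agent.Lib.MP_7e344a_al

/-- the action of `G ⧸ N` on the quotient of `V` by `N` -/
def quotAct {G V : Type} [Group G] [MulAction G V] (N : Subgroup G) [N.Normal] :
    MulAction (G ⧸ N) (QV V N) where
  smul g c := Quotient.map₂ (fun (g : G) (v : V) => g • v) (by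
    rintro g₁ g₂ hg v₁ v₂ ⟨⟨n, hn⟩, h⟩
    have hg' : g₁⁻¹ * g₂ ∈ N := QuotientGroup.leftRel_apply.1 hg
    change n • v₂ = v₁ at h
    refine ⟨⟨g₁ * (n * (g₁⁻¹ * g₂)⁻¹) * g₁⁻¹,
      Subgroup.Normal.conj_mem ‹_› _ (N.mul_mem hn (N.inv_mem hg')) _⟩, ?_⟩
    change (g₁ * (n * (g₁⁻¹ * g₂)⁻¹) * g₁⁻¹) • g₂ • v₂ = g₁ • v₁
    rw [← h, smul_smul, smul_smul]
    congr 1
    group) g c
  one_smul := by
    rintro ⟨v⟩
    exact congrArg _ (one_smul G v)
  mul_smul := by
    rintro ⟨g⟩ ⟨g'⟩ ⟨v⟩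
    exact congrArg _ (mul_smul g g' v)

theorem quotAct_mk {G V : Type} [Group G] [MulAction G V] (N : Subgroup G) [N.Normal] (g : G)
    (v : V) : letI := quotAct (V := V) N
    (QuotientGroup.mk g : G ⧸ N) • qmk N v = qmk N (g • v) := rfl

variable {A V : Type} [Group A] [MulAction A V] {Γ : SimpleGraph V} {δ : ℕ} {Q : Set V}
  {W : Subgroup A}

/-- the quotient graph is locally finite -/
theorem quot_lfin (hA : Act A V Γ δ) (hW : ∀ w ∈ W, ∀ q ∈ Q, w • q ∈ Q)
    (hfin : ∃ S : Set V, S.Finite ∧ ∀ q ∈ Q, ∃ w ∈ W, w • q ∈ S)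
    (v : QV (V ⊕ (A ⧸ W)) (NN (coneN V W))) :
    {w | (QG (Cone Γ Q W) (NN (coneN V W))).Adj v w}.Finite := by
  obtain ⟨x, rfl⟩ : ∃ x, qmk (NN (coneN V W)) x = v := by
    induction v using Quotient.inductionOn' with
    | h v => exact ⟨v, rfl⟩
  obtain ⟨S, hS, hSQ⟩ := hfin
  have hsub : {w | (QG (Cone Γ Q W) (NN (coneN V W))).Adj (qmk (NN (coneN V W)) x) w} ⊆
      (qmk (NN (coneN V W))) '' {y | (Cone Γ Q W).Adj x y} := by
    rintro _ ⟨_, v', w', hv', rfl, hadj⟩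
    obtain ⟨n, hn, hnv⟩ := (qmk_eq_iff _ v' x).1 hv'
    refine ⟨n • w', ?_, ?_⟩
    · rw [Set.mem_ofPred_eq, ← hnv]
      exact cone_act hA.act n _ _ hadj
    · exact ((qmk_eq_iff _ w' (n • w')).2 ⟨n, hn, rfl⟩).symm
  have hconj : ∀ (k w : A), w ∈ W → k * w * k⁻¹ ∈ NN (coneN V W) := by
    intro k w hw
    rw [NN_coneN]
    exact Subgroup.Normal.conj_mem (Subgroup.normalClosure_normal (s := (W : Set A))) _
      (Subgroup.subset_normalClosure hw) k
  rcases x with v | c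
  · have hf1 : {g : A | g⁻¹ • v ∈ S}.Finite := by
      refine hS.preimage (f := fun g : A => g⁻¹ • v) ?_
      intro g _ g' _ h
      have h' : g⁻¹ • v = g'⁻¹ • v := h
      have h2 : (g' * g⁻¹) • v = v := by
        rw [mul_smul, h', smul_inv_smul]
      have h3 := hA.free _ _ h2
      exact (mul_inv_eq_one.1 h3).symm
    have hf2 : {y | (Cone Γ Q W).Adj (Sum.inl v) y}.Finite := by
      refine (((hA.lfin v).image Sum.inl).union
        (hf1.image (fun g : A => (Sum.inr (g : A ⧸ W) : V ⊕ (A ⧸ W))))).subset ?_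
      rintro (w | c) hy
      · exact Or.inl ⟨w, hy, rfl⟩
      · obtain ⟨g, rfl, hg⟩ := hy
        obtain ⟨w, hw, hwS⟩ := hSQ _ hg
        refine Or.inr ⟨g * w⁻¹, ?_, ?_⟩
        · rw [Set.mem_ofPred_eq, mul_inv_rev, inv_inv, mul_smul]
          exact hwS
        · change Sum.inr ((g * w⁻¹ : A) : A ⧸ W) = Sum.inr (g : A ⧸ W)
          congr 1
          rw [QuotientGroup.eq, mul_inv_rev, inv_inv, inv_mul_cancel_right]
          exact hw
    exact (hf2.image _).subset hsub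
  · obtain ⟨g, rfl⟩ := QuotientGroup.mk_surjective c
    refine (hS.image (fun t => qmk (NN (coneN V W)) (Sum.inl (g • t) : V ⊕ (A ⧸ W)))).subset ?_
    intro a ha
    obtain ⟨y, hy, rfl⟩ := hsub ha
    rcases y with u | c'
    · obtain ⟨k, hk, hku⟩ := hy
      obtain ⟨w, hw, hwS⟩ := hSQ _ hku
      have hgk : g⁻¹ * k ∈ W := QuotientGroup.eq.1 hk.symm
      refine ⟨w • k⁻¹ • u, hwS, ?_⟩
      refine ((qmk_eq_iff _ (Sum.inl u : V ⊕ (A ⧸ W)) (Sum.inl (g • w • k⁻¹ • u))).2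
        ⟨g * (w * (g⁻¹ * k)⁻¹) * g⁻¹, hconj _ _ (W.mul_mem hw (W.inv_mem hgk)), ?_⟩).symm
      change Sum.inl ((g * (w * (g⁻¹ * k)⁻¹) * g⁻¹) • u) = Sum.inl (g • w • k⁻¹ • u)
      congr 1
      rw [smul_smul, smul_smul]
      congr 1
      group
    · exact hy.elim

end Pool.Agent.Lib.MP_7e344a_al
end

section

/-!
# MP_7e344a_al: T07c, T07d, torsion in quotients by rotation families
-/

set_option autoImplicit false

namespace Pool.Agent.Lib.MP_7e344a_al

variable {V V' : Type} {G : Type} {Γ : SimpleGraph V} {Γ' : SimpleGraph V'}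
variable [Group G] [MulAction G V] {N : V → Subgroup G} {π : V → V'}

theorem tor_bot_smul {s : ℕ} (hR : Rot Γ N s) (g : G) {v : V} (h : N v = ⊥) : N (g • v) = ⊥ := by
  rw [eq_bot_iff]
  intro ρ hρ
  have h1 := hR.conj g⁻¹ (g • v) ρ hρ
  rw [inv_smul_smul, h, Subgroup.mem_bot, inv_inv] at h1
  rw [Subgroup.mem_bot]
  have h2 : ρ = g * (g⁻¹ * ρ * g) * g⁻¹ := by group
  rw [h2, h1]
  group

theorem tor_bot_of_smul {s : ℕ} (hR : Rot Γ N s) (g : G) {v : V} (h : N (g • v) = ⊥) :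
    N v = ⊥ := by
  have := tor_bot_smul hR g⁻¹ h
  rwa [inv_smul_smul] at this

/-- T07c: rigidity -/
theorem rigid {δ s Θ : ℕ} (hc : Γ.Connected) (hs : Slim Γ δ) (hR : Rot Γ N s)
    (h6 : D0 δ * 6 ≤ s) (hΘ : Θ + D0 δ ≤ s) {n : G} (hn : n ∈ NN N) {u : V} (hu : N u = ⊥)
    (h : ∀ c, N c ≠ ⊥ → DA Γ c u (n • u) Θ) : n = 1 := by
  by_contra h1
  obtain ⟨p, hp⟩ := IsGeo.exists hc u (n • u)
  obtain ⟨i, hi0, hil, ρ, hρ, hρ1, hang⟩ := green_free hc hs hR h6 hn h1 hu hp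
  have hN : N (p i) ≠ ⊥ := by
    intro hbot
    rw [hbot, Subgroup.mem_bot] at hρ
    exact hρ1 hρ
  have h2 := DA.through hp hi0 hil (h _ hN)
  have h3 := h2.symm.trans hang
  refine hR.deep (p i) ρ⁻¹ (Subgroup.inv_mem _ hρ) (by simpa using hρ1) (p (i + 1))
    (hp.adj hil) (h3.mono hΘ)

/-- T07c: lifting pairs without large angles -/
theorem lift_pair {δ s Θ : ℕ} (hc : Γ.Connected) (hs : Slim Γ δ) (hR : Rot Γ N s)
    (h6 : D0 δ * 6 ≤ s) (hΘ : D0 δ * (Θ + 7) ≤ s) (hQ : IsQuot Γ (NN N) Γ' π) {u u' : V}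
    (hu : N u = ⊥) (hu' : N u' = ⊥)
    (h : ∀ c, N c ≠ ⊥ → DA Γ' (π c) (π u) (π u') Θ) :
    ∃ n ∈ NN N, ∀ c, N c ≠ ⊥ → DA Γ c u (n • u') (Θ + 2 * D0 δ) := by
  have hc' := hQ.connected hc
  obtain ⟨p', hp'⟩ := IsGeo.exists hc' (π u) (π u')
  generalize Γ'.dist (π u) (π u') = L at hp'
  have main : ∀ j : ℕ, ∃ q : ℕ → V, q 0 = u ∧ (∀ i ≤ L, π (q i) = p' i) ∧
      (∀ i < L, Γ.Adj (q i) (q (i + 1))) ∧
      ∀ i, 0 < i → i ≤ j → i < L → N (q i) ≠ ⊥ → AngLE Γ (q i) (q (i - 1)) (q (i + 1)) Θ := by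
    intro j
    induction j with
    | zero =>
      obtain ⟨q, h1, h2, h3⟩ := hQ.lift_geo hc hp' u rfl
      exact ⟨q, h1, h2, h3, fun i hi hi' => by omega⟩
    | succ j ih =>
      obtain ⟨q, h1, h2, h3, h4⟩ := ih
      by_cases hj : j + 1 < L ∧ N (q (j + 1)) ≠ ⊥
      · obtain ⟨hjL, hN⟩ := hj
        have h5 := h _ hN
        rw [h2 _ hjL.le] at h5
        have h6' := DA.through hp' (show 0 < j + 1 by omega) hjL h5
        rw [Nat.add_sub_cancel, ← h2 _ hjL.le, ← h2 j (by omega), ← h2 (j + 1 + 1) (by omega)] at h6'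
        obtain ⟨ρ, hρ, hang⟩ := angle_lift hc hs hR h6 hΘ hQ (h3 j (by omega)).symm (h3 _ hjL) h6'
        have hπ : ∀ v, π (ρ • v) = π v := fun v =>
          ((hQ.fib v (ρ • v)).2 ⟨ρ, mem_NN hρ, rfl⟩).symm
        refine ⟨fun i => if i ≤ j + 1 then q i else ρ • q i, ?_, ?_, ?_, ?_⟩
        · simp only [Nat.zero_le, if_true]
          exact h1
        · intro i hi
          simp only
          split_ifs
          · exact h2 i hi
          · rw [hπ]
            exact h2 i hi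
        · intro i hi
          simp only
          rcases lt_trichotomy i (j + 1) with hlt | rfl | hgt
          · rw [if_pos hlt.le, if_pos (by omega)]
            exact h3 i hi
          · rw [if_pos le_rfl, if_neg (by omega)]
            have := hR.act ρ _ _ (h3 _ hi)
            rwa [hR.fix _ ρ hρ] at this
          · rw [if_neg (by omega), if_neg (by omega)]
            exact hR.act ρ _ _ (h3 _ hi)
        · intro i hi0 hi hiL hNi
          simp only at hNi ⊢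
          rw [if_pos hi] at hNi ⊢
          rw [if_pos (by omega)]
          rcases Nat.lt_or_ge i (j + 1) with hlt | hge
          · rw [if_pos (by omega)]
            exact h4 i hi0 (by omega) hiL hNi
          · have : i = j + 1 := by omega
            subst this
            rw [if_neg (by omega), Nat.add_sub_cancel]
            exact hang
      · refine ⟨q, h1, h2, h3, fun i hi0 hi hiL hNi => ?_⟩
        rcases Nat.lt_or_ge i (j + 1) with hlt | hge
        · exact h4 i hi0 (by omega) hiL hNi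
        · have : i = j + 1 := by omega
          subst this
          exact absurd ⟨hiL, hNi⟩ hj
  obtain ⟨q, h1, h2, h3, h4⟩ := main L
  have hq := hQ.geo_of_lift hc hp' h2 h3
  have hL : π u' = π (q L) := by
    rw [h2 L le_rfl, hp'.fin]
  obtain ⟨n, hn, hnu⟩ := (hQ.fib _ _).1 hL
  refine ⟨n, hn, fun c hNc => ?_⟩
  rw [hnu]
  rw [h1] at hq
  by_cases hcq : ∃ i ≤ L, q i = c
  · obtain ⟨i, hi, rfl⟩ := hcq
    have hi0 : 0 < i := by
      rcases Nat.eq_zero_or_pos i with rfl | h0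
      · rw [h1] at hNc
        exact absurd hu hNc
      · exact h0
    have hiL : i < L := by
      rcases lt_or_eq_of_le hi with hlt | rfl
      · exact hlt
      · rw [← hnu] at hNc
        exact absurd (tor_bot_smul hR n hu') hNc
    exact DA.of_through hc hs hq hi0 hiL (h4 i hi0 hi hiL hNc)
  · push Not at hcq
    exact (DA.of_avoid hc hs hq hcq).mono (by omega)

omit [MulAction G V] in
theorem tor_dist_le (hc : Γ.Connected) (f : V → V) (hf : ∀ a b, Γ.Adj a b → Γ.Adj (f a) (f b))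
    (a b : V) : Γ.dist (f a) (f b) ≤ Γ.dist a b := by
  obtain ⟨w, hw⟩ := hc.exists_walk_length_eq_dist a b
  rw [← hw]
  let F : Γ →g Γ := ⟨f, fun {a b} h => hf a b h⟩
  have := SimpleGraph.dist_le (w.map F)
  rwa [SimpleGraph.Walk.length_map] at this

/-- T07d: the quotient by a deep rotation family containing all stabilisers is torsion free. -/
theorem torsion {δ s : ℕ} (hc : Γ.Connected) (hs : Slim Γ δ) (hR : Rot Γ N s)
    (h6 : D0 δ * (6 * D0 δ + 40) ≤ s) (hst : ∀ (v : V) (g : G), g • v = v → g ∈ N v)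
    (hbip : ∀ v w, Γ.Adj v w → N v ≠ ⊥ → N w = ⊥)
    (htf : ∀ (g : G) (k : ℕ), 0 < k → g ^ k = 1 → g = 1)
    {g : G} {k : ℕ} (hk : 0 < k) (hg : g ^ k ∈ NN N) : g ∈ NN N := by
  classical
  by_contra hgN
  have hD : 0 < D0 δ := by unfold D0; omega
  have h6' : D0 δ * 6 ≤ s := le_trans (Nat.mul_le_mul_left _ (by omega)) h6
  have h8' : D0 δ * 8 ≤ s := le_trans (Nat.mul_le_mul_left _ (by omega)) h6
  have hΘ1 : D0 δ * (6 * D0 δ + 7) ≤ s := le_trans (Nat.mul_le_mul_left _ (by omega)) h6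
  have hΘ2 : 24 * D0 δ + D0 δ ≤ s := by
    refine le_trans ?_ h6
    nlinarith
  -- the least period
  obtain ⟨p, hp0, hpN, hpmin⟩ : ∃ p, 0 < p ∧ g ^ p ∈ NN N ∧
      ∀ j, 0 < j → j < p → g ^ j ∉ NN N := by
    have hex : ∃ p, 0 < p ∧ g ^ p ∈ NN N := ⟨k, hk, hg⟩
    refine ⟨Nat.find hex, (Nat.find_spec hex).1, (Nat.find_spec hex).2, fun j hj hjp hcon => ?_⟩
    exact Nat.find_min hex hjp ⟨hj, hcon⟩
  have hp1 : 1 < p := by
    rcases Nat.lt_or_ge 1 p with h | h
    · exact h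
    · have : p = 1 := by omega
      rw [this, pow_one] at hpN
      exact absurd hpN hgN
  have hQ := isQuot_QG hc hs hR h6'
  have hcQ := hQ.connected hc
  have hsQ := slim_quot hc hs hR h8' hQ
  have hconj := hR.conj
  generalize QG Γ (NN N) = ΓQ at hQ hcQ hsQ
  generalize qmk (V := V) (NN N) = π at hQ
  -- the induced map
  obtain ⟨h, hh⟩ : ∃ h : QV V (NN N) → QV V (NN N), ∀ v, h (π v) = π (g • v) := by
    choose r hr using hQ.surj
    refine ⟨fun a => π (g • r a), fun v => ?_⟩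
    obtain ⟨n, hn, hnv⟩ := (hQ.fib _ _).1 (hr (π v))
    refine (hQ.fib _ _).2 ⟨g * n * g⁻¹, NN_conj hconj g hn, ?_⟩
    rw [mul_smul, mul_smul, inv_smul_smul, hnv]
  obtain ⟨h', hh'⟩ : ∃ h : QV V (NN N) → QV V (NN N), ∀ v, h (π v) = π (g⁻¹ • v) := by
    choose r hr using hQ.surj
    refine ⟨fun a => π (g⁻¹ • r a), fun v => ?_⟩
    obtain ⟨n, hn, hnv⟩ := (hQ.fib _ _).1 (hr (π v))
    refine (hQ.fib _ _).2 ⟨g⁻¹ * n * g⁻¹⁻¹, NN_conj hconj g⁻¹ hn, ?_⟩
    rw [mul_smul, mul_smul, inv_smul_smul, hnv]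
  have hadj : ∀ (x : G) (f : QV V (NN N) → QV V (NN N)), (∀ v, f (π v) = π (x • v)) →
      ∀ a b, ΓQ.Adj a b → ΓQ.Adj (f a) (f b) := by
    intro x f hf a b hab
    obtain ⟨v, rfl⟩ := hQ.surj a
    obtain ⟨w, hvw, rfl⟩ := hQ.lift v b hab
    rw [hf, hf]
    exact hQ.adj _ _ (hR.act x _ _ hvw)
  have hdist : ∀ v w, ΓQ.dist (h v) (h w) = ΓQ.dist v w := by
    intro a b
    refine le_antisymm (tor_dist_le hcQ h (hadj g h hh) a b) ?_
    have h1 := tor_dist_le hcQ h' (hadj g⁻¹ h' hh') (h a) (h b)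
    have h2 : ∀ a, h' (h a) = a := by
      intro a
      obtain ⟨v, rfl⟩ := hQ.surj a
      rw [hh, hh', inv_smul_smul]
    rwa [h2, h2] at h1
  have hiter : ∀ (j : ℕ) (v : V), h^[j] (π v) = π (g ^ j • v) := by
    intro j
    induction j with
    | zero => intro v; simp
    | succ j ih =>
      intro v
      rw [Function.iterate_succ_apply', ih, hh, pow_succ', mul_smul]
  have hiterdist : ∀ (j : ℕ) v w, ΓQ.dist (h^[j] v) (h^[j] w) = ΓQ.dist v w := by
    intro j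
    induction j with
    | zero => intro v w; rfl
    | succ j ih =>
      intro v w
      rw [Function.iterate_succ_apply', Function.iterate_succ_apply', hdist, ih]
  have hper : ∀ v, h^[p] v = v := by
    intro a
    obtain ⟨v, rfl⟩ := hQ.surj a
    rw [hiter]
    exact ((hQ.fib _ _).2 ⟨g ^ p, hpN, rfl⟩).symm
  have hfree : ∀ j, 0 < j → j < p → ∀ v, h^[j] v ≠ v := by
    intro j hj hjp a ha
    obtain ⟨v, rfl⟩ := hQ.surj a
    rw [hiter] at ha
    obtain ⟨n, hn, hnv⟩ := (hQ.fib _ _).1 ha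
    have h1 := hst v (n * g ^ j) (by rw [mul_smul]; exact hnv)
    have h2 := (NN N).mul_mem ((NN N).inv_mem hn) (mem_NN h1)
    rw [inv_mul_cancel_left] at h2
    exact hpmin j hj hjp h2
  obtain ⟨a, ha⟩ := exists_small_orbit hcQ hsQ h hdist hp0 hper hfree
  obtain ⟨v, rfl⟩ := hQ.surj a
  -- points of trivial rotation group are not over apices
  have hne : ∀ (u c : V), N u = ⊥ → N c ≠ ⊥ → ∀ j, h^[j] (π u) ≠ π c := by
    intro u c hu hNc j hcon
    rw [hiter] at hcon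
    obtain ⟨n, hn, hnc⟩ := (hQ.fib _ _).1 hcon
    rw [← hnc] at hNc
    exact hNc (tor_bot_smul hR n (tor_bot_smul hR _ hu))
  -- the claim
  obtain ⟨u, hu, hclaim⟩ : ∃ u, N u = ⊥ ∧ ∀ i, 0 < i → i < p → ∀ c, N c ≠ ⊥ →
      DA ΓQ (π c) (π u) (h^[i] (π u)) (6 * D0 δ) := by
    by_cases hNv : N v = ⊥
    · refine ⟨v, hNv, fun i hi hip c hNc => ?_⟩
      exact (ha (π c) 0 i (hne v c hNv hNc 0) (hne v c hNv hNc i)).mono (by omega)
    · have h1v : h (π v) ≠ π v := hfree 1 one_pos hp1 (π v)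
      obtain ⟨r, hr⟩ := IsGeo.exists hcQ (π v) (h (π v))
      have hl0 : 0 < ΓQ.dist (π v) (h (π v)) := hcQ.pos_dist_of_ne (Ne.symm h1v)
      generalize ΓQ.dist (π v) (h (π v)) = l at hr hl0
      have hadj0 : ΓQ.Adj (π v) (r 1) := by
        have := hr.adj hl0
        rwa [hr.start] at this
      obtain ⟨u, hvu, hur⟩ := hQ.lift v _ hadj0
      have hu : N u = ⊥ := hbip v u hvu hNv
      -- a_j, b_j
      have hAdj : ∀ j, ΓQ.Adj (h^[j] (π v)) (h^[j] (π u)) := by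
        intro j
        rw [hiter, hiter]
        exact hQ.adj _ _ (hR.act _ _ _ hvu)
      have hgeo : ∀ j, DA ΓQ (h^[j] (π v)) (h^[j] (π u)) (h^[j + 1] (π v)) (D0 δ) := by
        intro j
        have hrj : IsGeo ΓQ (fun i => h^[j] (r i)) l (h^[j] (π v)) (h^[j + 1] (π v)) := by
          refine ⟨fun x y hxy hy => ?_, ?_, ?_⟩
          · rw [hiterdist]
            exact hr.geo x y hxy hy
          · rw [hr.start]
          · rw [hr.fin, Function.iterate_succ_apply]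
        have hd := hrj.drop (i := 1) hl0
        rw [← hur] at hd
        refine DA.of_avoid hcQ hsQ hd fun k hk hcon => ?_
        have h0 : h^[j] (r 0) = h^[j] (π v) := hrj.start
        have := hrj.inj (i := 1 + k) (j := 0) (by omega) (by omega) (hcon.trans h0.symm)
        omega
      refine ⟨u, hu, fun i hi hip c hNc => ?_⟩
      have hb0 : π u ≠ π c := hne u c hu hNc 0
      have hbi : h^[i] (π u) ≠ π c := hne u c hu hNc i
      have hai : h^[i] (π v) ≠ π v := hfree i hi hip _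
      by_cases hcv : π v = π c
      · -- case B
        have e1 := hgeo 0
        simp only [Function.iterate_zero, id_eq, zero_add, Function.iterate_one] at e1
        have e2 : DA ΓQ (π v) (h (π v)) (h^[i] (π v)) (4 * D0 δ) :=
          ha (π v) 1 i (by simpa using h1v) hai
        have e3 : DA ΓQ (π v) (h^[i] (π v)) (h^[i] (π u)) (D0 δ) :=
          DA.of_adj hcQ hsQ (hAdj i) hai (by rw [hcv]; exact hbi)
        rw [← hcv]
        exact (DA.trans hcQ (DA.trans hcQ e1 e2) e3).mono (by omega)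
      · by_cases hci : h^[i] (π v) = π c
        · -- case C
          have e1 : DA ΓQ (h^[i] (π v)) (π u) (π v) (D0 δ) :=
            DA.of_adj hcQ hsQ (hAdj 0).symm (by rw [hci]; exact hb0) (Ne.symm hai)
          have e2 : DA ΓQ (h^[i] (π v)) (π v) (h^[i + 1] (π v)) (4 * D0 δ) := by
            refine ha _ 0 (i + 1) (Ne.symm hai) ?_
            rw [Function.iterate_succ_apply']
            exact hfree 1 one_pos hp1 _
          have e3 := (hgeo i).symm
          rw [← hci]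
          exact (DA.trans hcQ (DA.trans hcQ e1 e2) e3).mono (by omega)
        · -- case A
          have e1 : DA ΓQ (π c) (π u) (π v) (D0 δ) :=
            DA.of_adj hcQ hsQ (hAdj 0).symm hb0 hcv
          have e2 : DA ΓQ (π c) (π v) (h^[i] (π v)) (4 * D0 δ) := ha _ 0 i hcv hci
          have e3 : DA ΓQ (π c) (h^[i] (π v)) (h^[i] (π u)) (D0 δ) :=
            DA.of_adj hcQ hsQ (hAdj i) hci hbi
          exact (DA.trans hcQ (DA.trans hcQ e1 e2) e3).mono (by omega)
  -- the lifts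
  have hlift : ∀ i, ∃ n ∈ NN N, (i = 0 → n = 1) ∧ (i < p →
      ∀ c, N c ≠ ⊥ → DA Γ c u (n • (g ^ i • u)) (8 * D0 δ)) := by
    intro i
    rcases Nat.eq_zero_or_pos i with rfl | hi
    · refine ⟨1, (NN N).one_mem, fun _ => rfl, fun _ c hNc => ?_⟩
      rw [one_smul, pow_zero, one_smul]
      refine (DA.refl hc hs ?_).mono (by omega)
      rintro rfl
      exact hNc hu
    · by_cases hip : i < p
      · obtain ⟨n, hn, hn'⟩ := lift_pair (Θ := 6 * D0 δ) hc hs hR h6' hΘ1 hQ hu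
          (tor_bot_smul hR (g ^ i) hu) (fun c hNc => by
            have := hclaim i hi hip c hNc
            rwa [hiter] at this)
        exact ⟨n, hn, fun h0 => by omega, fun _ c hNc => (hn' c hNc).mono (by omega)⟩
      · exact ⟨1, (NN N).one_mem, fun _ => rfl, fun h => absurd h hip⟩
  choose n hnN hn0 hnDA using hlift
  obtain ⟨gi, hgi⟩ : ∃ gi : ℕ → G, gi = fun i => n i * g ^ i := ⟨_, rfl⟩
  have hgi0 : gi 0 = 1 := by
    rw [hgi]
    simp [hn0 0 rfl]
  have hP : ∀ i < p, ∀ c, N c ≠ ⊥ → DA Γ c u (gi i • u) (8 * D0 δ) := by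
    intro i hi c hNc
    rw [hgi]
    simp only
    rw [mul_smul]
    exact hnDA i hi c hNc
  have hnorm : (NN N).Normal := ⟨fun x hx y => NN_conj hconj y hx⟩
  have hcoe : ∀ i, (gi i : G ⧸ NN N) = (g : G ⧸ NN N) ^ i := by
    intro i
    rw [hgi]
    simp only
    rw [QuotientGroup.mk_mul, (QuotientGroup.eq_one_iff (n i)).2 (hnN i), one_mul,
      QuotientGroup.mk_pow]
  have hgp : (g : G ⧸ NN N) ^ p = 1 := by
    rw [← QuotientGroup.mk_pow]
    exact (QuotientGroup.eq_one_iff _).2 hpN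
  have hmul : ∀ i < p, ∀ j < p, gi i * gi j = gi ((i + j) % p) := by
    intro i hi j hj
    have hk : (i + j) % p < p := Nat.mod_lt _ hp0
    obtain ⟨k, hkdef⟩ : ∃ k, k = (i + j) % p := ⟨_, rfl⟩
    rw [← hkdef] at hk ⊢
    have hnn : gi i * gi j * (gi k)⁻¹ ∈ NN N := by
      rw [← QuotientGroup.eq_one_iff, QuotientGroup.mk_mul, QuotientGroup.mk_mul,
        QuotientGroup.mk_inv, hcoe, hcoe, hcoe, ← pow_add, mul_inv_eq_one, hkdef]
      conv_lhs => rw [← Nat.div_add_mod (i + j) p, pow_add, pow_mul, hgp, one_pow, one_mul]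
    have hx : N (gi k • u) = ⊥ := tor_bot_smul hR _ hu
    have h1 : gi i * gi j * (gi k)⁻¹ = 1 := by
      refine rigid (Θ := 24 * D0 δ) hc hs hR h6' hΘ2 hnn hx fun c hNc => ?_
      have e0 : (gi i * gi j * (gi k)⁻¹) • (gi k • u) = gi i • (gi j • u) := by
        rw [mul_smul, inv_smul_smul, mul_smul]
      rw [e0]
      have e1 := (hP k hk c hNc).symm
      have e2 := hP i hi c hNc
      have hNc' : N ((gi i)⁻¹ • c) ≠ ⊥ := fun hcon => hNc (tor_bot_of_smul hR _ hcon)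
      have e3 := DA.smul hR.act (gi i) (hP j hj _ hNc')
      rw [smul_inv_smul] at e3
      exact (DA.trans hc (DA.trans hc e1 e2) e3).mono (by omega)
    exact mul_inv_eq_one.1 h1
  have hpow : ∀ m, gi 1 ^ m = gi (m % p) := by
    intro m
    induction m with
    | zero => simp [hgi0]
    | succ m ih =>
      rw [pow_succ, ih, hmul _ (Nat.mod_lt _ hp0) _ hp1]
      congr 1
      rw [Nat.mod_add_mod]
  have h1 : gi 1 ^ p = 1 := by
    rw [hpow, Nat.mod_self, hgi0]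
  have h2 := htf _ p hp0 h1
  rw [hgi] at h2
  simp only [pow_one] at h2
  have h3 : g = (n 1)⁻¹ := (inv_eq_of_mul_eq_one_right h2).symm
  rw [h3] at hgN
  exact hgN ((NN N).inv_mem (hnN 1))

end Pool.Agent.Lib.MP_7e344a_al
end

section

/-!
# MP_7e344a_al: M10b, the quotient group is torsion free hyperbolic
-/

set_option autoImplicit false

namespace Pool.Agent.Lib.MP_7e344a_al

variable {A V : Type} [Group A] [MulAction A V] {Γ : SimpleGraph V} {δ : ℕ} {Q : Set V}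
  {W : Subgroup A}

theorem mquot_stab (hA : Act A V Γ δ) (v : V ⊕ (A ⧸ W)) (g : A) (h : g • v = v) :
    g ∈ coneN V W v := by
  rcases v with v | c
  · have h1 : g • v = v := Sum.inl_injective h
    rw [hA.free g v h1]
    exact one_mem _
  · exact (Sum.inr_injective h : g • c = c)

theorem mquot_bip (v w : V ⊕ (A ⧸ W)) (h : (Cone Γ Q W).Adj v w) (hv : coneN V W v ≠ ⊥) :
    coneN V W w = ⊥ := by
  rcases v with v | c
  · exact absurd rfl hv
  · rcases w with w | c'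
    · rfl
    · exact absurd h (fun h => h)

theorem hyp_quot_aux (hA : Act A V Γ δ) (hW : ∀ w ∈ W, ∀ q ∈ Q, w • q ∈ Q)
    (hfin : ∃ S : Set V, S.Finite ∧ ∀ q ∈ Q, ∃ w ∈ W, w • q ∈ S) {δ' s : ℕ}
    (hcon : (Cone Γ Q W).Connected) (hs : Slim (Cone Γ Q W) δ')
    (hR : Rot (Cone Γ Q W) (coneN V W) s) (h : D0 δ' * (6 * D0 δ' + 40) ≤ s)
    (K : Subgroup A) [K.Normal] (hK : NN (coneN V W) = K) : Hyp (A ⧸ K) := by
  subst hK
  have h6 : D0 δ' * 6 ≤ s := le_trans (Nat.mul_le_mul_left _ (by omega)) h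
  have h8 : D0 δ' * 8 ≤ s := le_trans (Nat.mul_le_mul_left _ (by omega)) h
  have hQ := isQuot_QG hcon hs hR h6
  let _ := quotAct (V := V ⊕ (A ⧸ W)) (NN (coneN V W))
  refine ⟨QV (V ⊕ (A ⧸ W)) (NN (coneN V W)), quotAct (NN (coneN V W)),
    QG (Cone Γ Q W) (NN (coneN V W)), δ', ?_⟩
  constructor
  · -- act
    intro g a b hab
    obtain ⟨g, rfl⟩ := QuotientGroup.mk_surjective g
    obtain ⟨hne, v, w, rfl, rfl, hvw⟩ := hab
    refine ⟨fun h1 => hne (MulAction.injective _ h1), g • v, g • w, ?_, ?_, hR.act g v w hvw⟩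
    · rw [quotAct_mk]
    · rw [quotAct_mk]
  · -- free
    intro g a ha
    obtain ⟨g, rfl⟩ := QuotientGroup.mk_surjective g
    obtain ⟨v, rfl⟩ := hQ.surj a
    rw [quotAct_mk] at ha
    obtain ⟨n, hn, hnv⟩ := (hQ.fib _ _).1 ha
    rw [smul_smul] at hnv
    have h1 : n * g ∈ NN (coneN V W) := mem_NN (mquot_stab hA v _ hnv)
    rw [QuotientGroup.eq_one_iff]
    exact (Subgroup.mul_mem_cancel_left _ hn).1 h1
  · exact hQ.connected hcon
  · exact slim_quot hcon hs hR h8 hQ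
  · exact quot_lfin hA hW hfin
  · -- cofinite
    obtain ⟨S, hS, hS'⟩ := hA.cofin
    refine ⟨(fun v => qmk (NN (coneN V W)) (Sum.inl v : V ⊕ (A ⧸ W))) '' S ∪
      {qmk (NN (coneN V W)) (Sum.inr ((1 : A) : A ⧸ W) : V ⊕ (A ⧸ W))},
      (hS.image _).union (Set.finite_singleton _), ?_⟩
    intro a
    obtain ⟨v, rfl⟩ := hQ.surj a
    rcases v with v | c
    · obtain ⟨g, hg⟩ := hS' v
      refine ⟨(g : A ⧸ NN (coneN V W)), Or.inl ⟨g • v, hg, ?_⟩⟩
      rw [quotAct_mk]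
      rfl
    · obtain ⟨c, rfl⟩ := QuotientGroup.mk_surjective c
      refine ⟨((c⁻¹ : A) : A ⧸ NN (coneN V W)), Or.inr ?_⟩
      rw [quotAct_mk, Set.mem_singleton_iff]
      congr 1
      change (Sum.inr ((c⁻¹ * c : A) : A ⧸ W) : V ⊕ (A ⧸ W)) = _
      rw [inv_mul_cancel]
  · -- torsion free
    intro g k hk hg
    obtain ⟨g, rfl⟩ := QuotientGroup.mk_surjective g
    rw [← QuotientGroup.mk_pow, QuotientGroup.eq_one_iff] at hg
    rw [QuotientGroup.eq_one_iff]
    exact torsion hcon hs hR h (mquot_stab hA) mquot_bip hA.tf hk hg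

theorem hyp_quot (hA : Act A V Γ δ) (hW : ∀ w ∈ W, ∀ q ∈ Q, w • q ∈ Q)
    (hfin : ∃ S : Set V, S.Finite ∧ ∀ q ∈ Q, ∃ w ∈ W, w • q ∈ S) {δ' s : ℕ}
    (hcon : (Cone Γ Q W).Connected) (hs : Slim (Cone Γ Q W) δ')
    (hR : Rot (Cone Γ Q W) (coneN V W) s) (h : D0 δ' * (6 * D0 δ' + 40) ≤ s) :
    Hyp (A ⧸ Subgroup.normalClosure (W : Set A)) :=
  hyp_quot_aux hA hW hfin hcon hs hR h _ NN_coneN

theorem cone_avoid (hA : Act A V Γ δ) {δ' s m : ℕ}
    (hcon : (Cone Γ Q W).Connected) (hs : Slim (Cone Γ Q W) δ')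
    (hR : Rot (Cone Γ Q W) (coneN V W) s) (h6 : D0 δ' * 6 ≤ s) (hm : D0 δ' * (m + 5) ≤ s) {g : A}
    (hg : g ∈ Subgroup.normalClosure (W : Set A)) {v : V} (hv : Γ.dist v (g • v) ≤ m) :
    g = 1 := by
  obtain ⟨w, hw⟩ := hA.conn.exists_walk_length_eq_dist v (g • v)
  let f : Γ →g Cone Γ Q W := ⟨Sum.inl, fun {a b} h => h⟩
  rw [← NN_coneN (V := V)] at hg
  have h1 : (w.map f).length ≤ m := by
    rw [SimpleGraph.Walk.length_map, hw]
    exact hv
  have h2 : ∀ x ∈ (w.map f).support, coneN V W x = ⊥ := by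
    intro x hx
    rw [SimpleGraph.Walk.support_map, List.mem_map] at hx
    obtain ⟨y, _, rfl⟩ := hx
    rfl
  exact green_walk (x := Sum.inl v) hcon hs hR h6 hm hg (w.map f) h1 h2

end Pool.Agent.Lib.MP_7e344a_al
end
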