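import Pool.Agent.Lib.MP_7e344a_al.Mg.G005
import Pool.Agent.Lib.MP_7e344a_al.Mg.G006
import Pool.Agent.Lib.MP_7e344a_al.Mg.G008
import Pool.Agent.Lib.MP_7e344a_al.M_Mif

section

/-!
# MP_7e344a_al: M09b, the rotation family of a relator
-/

set_option autoImplicit false

namespace Pool.Agent.Lib.MP_7e344a_al

variable {A V : Type} [Group A] [MulAction A V] {Γ : SimpleGraph V} {δ : ℕ}

/-- periodicity of the exponents -/
theorem fam_perα {h : A} {U : Set A} {P : ℤ → A} {α : ℤ → ℕ} {υ : ℤ → A} {K M c : ℕ}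
    (hD : RelData h U P α υ K M c) (i k : ℤ) : α (i + K * k) = α i := by
  induction k using Int.induction_on with
  | zero => simp
  | succ k ih =>
    rw [← ih, ← hD.perα (i + K * k)]
    congr 1
    ring
  | pred k ih =>
    rw [← ih, ← hD.perα (i + K * (-(k : ℤ) - 1))]
    congr 1
    ring

/-- nearest positions of points with a small distance -/
theorem fam_near1 (hA : Act A V Γ δ) {κ : ℕ} (hF : FP Γ κ) {h : A} {P : ℤ → A} {α : ℤ → ℕ}
    {y : V} {C c D : ℕ} (hG : RelGeom Γ h P α y C)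
    (hc : c = 4 * (2 * C + Γ.dist y (h • y) + κ) + κ + 2)
    (hbig : ∀ i, c + D + 3 * C < Γ.dist y (h ^ (α i) • y)) {u u' : V} {i i' : ℤ} {j j' : ℕ}
    (hn : Nearest Γ h P α y u i j) (hn' : Nearest Γ h P α y u' i' j') (hd : Γ.dist u u' ≤ D) :
    i' ≤ i + 1 := by
  by_contra hcon
  have h1 := RelGeom.far hA hG hn.1 hn'.1 (by omega : i + 2 ≤ i')
  have h2 := hbig (i + 1)
  have h3 := RelGeom.proj2 hA hF hG hc hn hn' (by omega)
  omega

/-- positions of points of a translate -/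
theorem fam_trans (hA : Act A V Γ δ) {κ : ℕ} (hF : FP Γ κ) {h : A} {P : ℤ → A} {α : ℤ → ℕ}
    {y : V} {C c E : ℕ} (hG : RelGeom Γ h P α y C)
    (hc : c = 4 * (2 * C + Γ.dist y (h • y) + κ) + κ + 2)
    (hE : E = 2 * C + c + Γ.dist y (h • y) + κ)
    (hbig : ∀ i, c + 3 * C < Γ.dist y (h ^ (α i) • y)) {W : Subgroup A}
    (hov : ∀ (x : A) (i₁ i₂ i₁' i₂' : ℤ) (j₁ j₂ j₁' j₂' : ℕ), j₁ ≤ α i₁ → j₂ ≤ α i₂ →
        j₁' ≤ α i₁' → j₂' ≤ α i₂' → i₁ + 5 ≤ i₂ →
        Γ.dist (pt h P y i₁ j₁) (x • pt h P y i₁' j₁') ≤ E →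
        Γ.dist (pt h P y i₂ j₂) (x • pt h P y i₂' j₂') ≤ E → x ∈ W)
    {g : A} (hg : g ∉ W) {v w : V} (hv : g⁻¹ • v ∈ PtSet h P α y) (hw : g⁻¹ • w ∈ PtSet h P α y)
    {i i' : ℤ} {j j' : ℕ}
    (hn : Nearest Γ h P α y v i j) (hn' : Nearest Γ h P α y w i' j') : i' ≤ i + 4 := by
  by_contra hcon
  have h1 := RelGeom.far hA hG hn.1 hn'.1 (by omega : i + 2 ≤ i')
  have h2 := hbig (i + 1)
  have h3 := RelGeom.proj2 hA hF hG hc hn hn' (by omega)
  have t1 : Γ.dist (pt h P y i j) w ≤ Γ.dist (pt h P y i j) (pt h P y i' j') +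
    Γ.dist (pt h P y i' j') w := hA.conn.dist_triangle
  have t2 : Γ.dist v (pt h P y i' j') ≤ Γ.dist v (pt h P y i j) +
    Γ.dist (pt h P y i j) (pt h P y i' j') := hA.conn.dist_triangle
  obtain ⟨k, a, ha, hva⟩ := hv
  obtain ⟨k', a', ha', hwa⟩ := hw
  have hva' : v = pt h (fun i => g * P i) y k a := by
    have : v = g • (g⁻¹ • v) := by simp
    rw [this, hva]
    simp only [pt, ← mul_smul, mul_assoc]
  have hwa' : w = pt h (fun i => g * P i) y k' a' := by
    have : w = g • (g⁻¹ • w) := by simp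
    rw [this, hwa]
    simp only [pt, ← mul_smul, mul_assoc]
  have hpt : ∀ (m : ℤ) (b : ℕ), pt h (fun i => g * P i) y m b = g • pt h P y m b := by
    intro m b
    simp only [pt, ← mul_smul, mul_assoc]
  have hG' := RelGeom.smul hA hG g
  -- every point coarsely between `v` and `w` is near a point of the translate
  have key : ∀ p : V, Γ.dist v p + Γ.dist p w ≤ Γ.dist v w + c →
      ∃ (m : ℤ) (b : ℕ), b ≤ α m ∧ Γ.dist p (g • pt h P y m b) ≤ E := by
    intro p hp
    have hlex : LexLE k a k' a' ∨ LexLE k' a' k a := by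
      unfold LexLE
      omega
    rcases hlex with hlex | hlex
    · rw [hva', hwa'] at hp
      obtain ⟨m, b, hb, _, _, hd⟩ := RelGeom.near hA hF hG' ha ha' hlex hp
      refine ⟨m, b, hb, ?_⟩
      rw [← hpt, hE]
      exact hd
    · have hp' : Γ.dist w p + Γ.dist p v ≤ Γ.dist w v + c := by
        rw [SimpleGraph.dist_comm (u := w) (v := p), SimpleGraph.dist_comm (u := p) (v := v),
          SimpleGraph.dist_comm (u := w) (v := v)]
        omega
      rw [hva', hwa'] at hp'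
      obtain ⟨m, b, hb, _, _, hd⟩ := RelGeom.near hA hF hG' ha' ha hlex hp'
      refine ⟨m, b, hb, ?_⟩
      rw [← hpt, hE]
      exact hd
  obtain ⟨m, b, hb, hd⟩ := key (pt h P y i j) (by omega)
  obtain ⟨m', b', hb', hd'⟩ := key (pt h P y i' j') (by omega)
  exact hg (hov g i i' m m' j j' b b' hn.1 hn'.1 hb hb' (by omega) hd hd')

theorem rel_family (hA : Act A V Γ δ) {h : A} {y : V} {C l : ℕ} (hL : Lox Γ h y C l) {U : Set A}
    (hU : U.Finite) (hUE : ∀ u ∈ U, u ∉ El h) :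
    ∃ σ c₄ : ℕ, ∀ s : ℕ, ∃ K₀ : ℕ, ∀ K ≥ K₀, ∃ M₂ : ℕ, ∀ M ≥ M₂,
      ∀ (P : ℤ → A) (α : ℤ → ℕ) (υ : ℤ → A), RelData h U P α υ K M c₄ →
      QC Γ (PtSet h P α y) σ ∧ Rot (Cone Γ (PtSet h P α y) (Subgroup.zpowers (P K)))
        (coneN V (Subgroup.zpowers (P K))) s := by
  obtain ⟨C', M₀, hgeo⟩ := exists_relGeom hA hL hU hUE
  obtain ⟨κ, hκ⟩ : ∃ κ, κ = 6 * δ + 2 := ⟨_, rfl⟩
  have hF : FP Γ κ := hκ ▸ fp_of_slim hA.conn hA.slim
  obtain ⟨c, hc⟩ : ∃ c, c = 4 * (2 * C' + Γ.dist y (h • y) + κ) + κ + 2 := ⟨_, rfl⟩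
  obtain ⟨E, hE⟩ : ∃ E, E = 2 * C' + c + Γ.dist y (h • y) + κ := ⟨_, rfl⟩
  obtain ⟨M₁, c₄, hov⟩ := overlap hA hL hU hUE C' E
  refine ⟨2 * C' + Γ.dist y (h • y) + κ, c₄, fun s => ⟨4 * s + 3, fun K hK =>
    ⟨M₀ + M₁ + l * (c + 1 + 3 * C' + 1) + 1, fun M hM P α υ hD => ?_⟩⟩⟩
  have hG : RelGeom Γ h P α y C' := hgeo P α υ hD.toRelSeq hD.mem (fun i => by
    have := hD.lo i
    omega)
  have hbig : ∀ i, c + 1 + 3 * C' < Γ.dist y (h ^ (α i) • y) := by
    intro i
    by_contra hcon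
    have h1 := hL.grow (α i)
    have h2 := hD.lo i
    have h3 : l * (Γ.dist y (h ^ (α i) • y) + 1) ≤ l * (c + 1 + 3 * C' + 1) :=
      Nat.mul_le_mul_left _ (by omega)
    omega
  refine ⟨RelGeom.qc hA hF hG, ?_⟩
  have hne := fun v => exists_nearest Γ h P α y v
  choose β b hβ using hne
  have near1 : ∀ (u u' : V) (i i' : ℤ) (j j' : ℕ), Nearest Γ h P α y u i j →
      Nearest Γ h P α y u' i' j' → Γ.dist u u' ≤ 1 → |i - i'| ≤ 1 := by
    intro u u' i i' j j' hn hn' hd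
    have h1 := fam_near1 hA hF hG hc hbig hn hn' hd
    have h2 := fam_near1 hA hF hG hc hbig hn' hn (by rwa [SimpleGraph.dist_comm])
    rw [abs_le]
    omega
  have hself : ∀ (i : ℤ) (j : ℕ), j ≤ α i → Nearest Γ h P α y (pt h P y i j) i j := by
    intro i j hj
    refine ⟨hj, fun i' j' _ => ?_⟩
    rw [SimpleGraph.dist_self]
    exact Nat.zero_le _
  apply cone_rot hA.act (hD.ptSet_inv y) s 4 β
  · intro v w hvw
    have h1 : Γ.dist v w ≤ 1 := by
      rw [SimpleGraph.dist_eq_one_iff_adj.mpr hvw]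
    have h2 := near1 v w _ _ _ _ (hβ v) (hβ w) h1
    rw [abs_le] at h2 ⊢
    push_cast
    omega
  · intro g hg v w hv hw
    have hov' := hov P α υ K M c₄ (by omega) le_rfl hD hG
    have hbig' : ∀ i, c + 3 * C' < Γ.dist y (h ^ (α i) • y) := by
      intro i
      have := hbig i
      omega
    have h1 := fam_trans hA hF hG hc hE hbig' hov' hg hv hw (hβ v) (hβ w)
    have h2 := fam_trans hA hF hG hc hE hbig' hov' hg hw hv (hβ w) (hβ v)
    rw [abs_le]
    push_cast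
    omega
  · intro w hw hw1 q hq
    obtain ⟨i, j, hj, rfl⟩ := hq
    obtain ⟨k, rfl⟩ := Subgroup.mem_zpowers_iff.1 hw
    have hk : k ≠ 0 := by
      rintro rfl
      exact hw1 (zpow_zero _)
    have e1 : (P K) ^ k • pt h P y i j = pt h P y (i + K * k) j := by
      simp only [pt, ← mul_smul]
      rw [hD.per_zpow i k, mul_assoc]
    have hj' : j ≤ α (i + K * k) := by
      rw [fam_perα hD]
      exact hj
    rw [e1]
    have h1 := near1 _ _ _ _ _ _ (hβ (pt h P y i j)) (hself i j hj) (by simp)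
    have h2 := near1 _ _ _ _ _ _ (hβ (pt h P y (i + K * k) j)) (hself _ j hj') (by simp)
    have h3 : (K : ℤ) ≤ |(K : ℤ) * k| := by
      rw [abs_mul]
      have h4 : (1 : ℤ) ≤ |k| := Int.one_le_abs hk
      have h5 : |(K : ℤ)| = K := abs_of_nonneg (by positivity)
      rw [h5]
      nlinarith [(by positivity : (0 : ℤ) ≤ (K : ℤ))]
    generalize β (pt h P y i j) = x at h1 ⊢
    generalize β (pt h P y (i + K * k) j) = x' at h2 ⊢
    generalize (K : ℤ) * k = t at h2 h3 ⊢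
    push_cast
    rw [abs_le] at h1 h2
    rcases abs_cases t with ⟨h4, _⟩ | ⟨h4, _⟩ <;>
      rcases abs_cases (x - x') with ⟨h5, _⟩ | ⟨h5, _⟩ <;> omega

end Pool.Agent.Lib.MP_7e344a_al
end

section

/-!
# MP_7e344a_al: M11, capturing elements
-/

set_option autoImplicit false

namespace Pool.Agent.Lib.MP_7e344a_al

/-- In a suitable quotient, the element `t` belongs to the subgroup generated by `a` and `b`. -/
theorem Hyp.capture {A : Type} [Group A] (hA : Hyp A) {a b : A} (hab : a * b ≠ b * a) (t : A)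
    (F : Set A) (hF : F.Finite) (h1 : 1 ∉ F) : ∃ (N : Subgroup A) (_ : N.Normal),
      Hyp (A ⧸ N) ∧ (∀ f ∈ F, f ∉ N) ∧ t ∈ Subgroup.closure {a, b} ⊔ N := by
  obtain ⟨V, _, Γ, δ, hA⟩ := hA
  have ha1 : a ≠ 1 := by
    rintro rfl
    exact hab (by rw [one_mul, mul_one])
  obtain ⟨y⟩ := hA.conn.nonempty
  obtain ⟨C, l, hL⟩ := hA.exists_lox ha1 y
  have hb : b ∉ El a := fun hb => hab (El_comm hA ha1 (self_mem_El a) hb)
  obtain ⟨x, hx, c', hc', hxc⟩ : ∃ x ∈ Subgroup.closure {a, b}, ∃ c' : A, c' ∉ El a ∧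
      c' = x * t⁻¹ := by
    by_cases ht : t⁻¹ ∈ El a
    · refine ⟨b, Subgroup.subset_closure (by simp), b * t⁻¹, fun h => hb ?_, rfl⟩
      exact ((El a).mul_mem_cancel_right ht).1 h
    · exact ⟨1, Subgroup.one_mem _, t⁻¹, ht, (one_mul _).symm⟩
  obtain ⟨σ, c₄, hfam⟩ := rel_family hA hL (U := {b, c'}) (by simp) (by
    rintro u (rfl | hu)
    · exact hb
    · rw [Set.mem_singleton_iff] at hu
      rw [hu]
      exact hc')
  obtain ⟨δ', hδ'⟩ := cone_slim δ σ
  obtain ⟨m, hm⟩ : ∃ m : ℕ, ∀ f ∈ F, Γ.dist y (f • y) ≤ m := by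
    obtain ⟨m, hm⟩ := (hF.image (fun f => Γ.dist y (f • y))).bddAbove
    exact ⟨m, fun f hf => hm (Set.mem_image_of_mem _ hf)⟩
  obtain ⟨K₀, hK₀⟩ := hfam (D0 δ' * (6 * D0 δ' + 40) + D0 δ' * (m + 5))
  obtain ⟨M₂, hM₂⟩ := hK₀ (K₀ + 1) (Nat.le_succ _)
  obtain ⟨P, α, υ, hD, g, hg, hPK⟩ := exists_relData a (U := {b, c'}) (b := b) (c' := c')
    (by simp) (by simp) (K₀ + 1) (max M₂ (10 * ((K₀ + 1) * (c₄ + 1)))) c₄ (Nat.succ_pos _)
    (le_max_right _ _)
  obtain ⟨hQC, hR⟩ := hM₂ _ (le_max_left _ _) P α υ hD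
  set W : Subgroup A := Subgroup.zpowers (P ((K₀ + 1 : ℕ) : ℤ)) with hW
  have hne : (PtSet a P α y).Nonempty := ⟨pt a P y 0 0, 0, 0, Nat.zero_le _, rfl⟩
  have hinv : ∀ w ∈ W, ∀ q ∈ PtSet a P α y, w • q ∈ PtSet a P α y := hD.ptSet_inv y
  obtain ⟨hcon, hslim⟩ := hδ' A V _ _ Γ (PtSet a P α y) W hA.act hA.conn hA.slim hne hinv hQC
  refine ⟨Subgroup.normalClosure (W : Set A), Subgroup.normalClosure_normal, ?_, ?_, ?_⟩
  · exact hyp_quot hA hinv (hD.ptSet_fin y) hcon hslim hR (Nat.le_add_right _ _)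
  · intro f hf hfN
    have := cone_avoid hA hcon hslim hR (by nlinarith) (Nat.le_add_left _ _) hfN (hm f hf)
    rw [this] at hf
    exact h1 hf
  · have hPN : P ((K₀ + 1 : ℕ) : ℤ) ∈ Subgroup.normalClosure (W : Set A) :=
      Subgroup.subset_normalClosure (Subgroup.mem_zpowers _)
    have ht : t = (P ((K₀ + 1 : ℕ) : ℤ))⁻¹ * (g * x) := by
      rw [hPK, hxc]
      group
    rw [ht]
    have hg' : g ∈ Subgroup.closure {a, b} := hg
    exact Subgroup.mul_mem _ (Subgroup.mem_sup_right (Subgroup.inv_mem _ hPN))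
      (Subgroup.mem_sup_left (Subgroup.mul_mem _ hg' hx))

end Pool.Agent.Lib.MP_7e344a_al
end

section

/-!
# MP_7e344a_al: M11b, capturing finitely generated subgroups
-/

set_option autoImplicit false

namespace Pool.Agent.Lib.MP_7e344a_al

theorem Hyp.congr {A B : Type} [Group A] [Group B] (e : A ≃* B) (h : Hyp A) : Hyp B := by
  obtain ⟨V, inst, Γ, δ, hA⟩ := h
  let instB : MulAction B V := MulAction.compHom V e.symm.toMonoidHom
  have key : ∀ (g : B) (v : V), g • v = (e.symm g) • v := fun g v => rfl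
  refine ⟨V, instB, Γ, δ, ?_⟩
  refine ⟨?_, ?_, hA.conn, hA.slim, hA.lfin, ?_, ?_⟩
  · intro g v w hvw
    rw [key, key]
    exact hA.act _ v w hvw
  · intro g v hgv
    rw [key] at hgv
    have h1 := hA.free _ v hgv
    have h2 : e (e.symm g) = e 1 := by rw [h1]
    simpa using h2
  · obtain ⟨S, hS, h1⟩ := hA.cofin
    refine ⟨S, hS, ?_⟩
    intro v
    obtain ⟨g, hg⟩ := h1 v
    refine ⟨e g, ?_⟩
    rw [key, MulEquiv.symm_apply_apply]
    exact hg
  · intro g k hk hg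
    have h1 : (e.symm g) ^ k = 1 := by
      rw [← map_pow, hg, map_one]
    have h2 := hA.tf _ k hk h1
    have h3 : e (e.symm g) = e 1 := by rw [h2]
    simpa using h3

theorem Hyp.capture_rel {G : Type} [Group G] {N : Subgroup G} [N.Normal] (hN : Hyp (G ⧸ N))
    {a b : G} (hab : a * b * a⁻¹ * b⁻¹ ∉ N) (t : G) (F : Set G) (hF : F.Finite)
    (h1 : ∀ f ∈ F, f ∉ N) : ∃ (N' : Subgroup G) (_ : N'.Normal), N ≤ N' ∧
      Hyp (G ⧸ N') ∧ (∀ f ∈ F, f ∉ N') ∧ t ∈ Subgroup.closure {a, b} ⊔ N' := by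
  have hab' : (QuotientGroup.mk' N a) * (QuotientGroup.mk' N b) ≠
      (QuotientGroup.mk' N b) * (QuotientGroup.mk' N a) := by
    intro h
    apply hab
    rw [← QuotientGroup.eq_one_iff (N := N)]
    change QuotientGroup.mk' N (a * b * a⁻¹ * b⁻¹) = 1
    rw [map_mul, map_mul, map_mul, h, map_inv, map_inv]
    group
  have hF' : (QuotientGroup.mk' N '' F).Finite := hF.image _
  have h1' : (1 : G ⧸ N) ∉ QuotientGroup.mk' N '' F := by
    rintro ⟨f, hf, hf1⟩
    exact h1 f hf ((QuotientGroup.eq_one_iff (N := N) f).mp hf1)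
  obtain ⟨N₁, hN₁, hyp, hav, ht⟩ := Hyp.capture hN hab' (QuotientGroup.mk' N t)
    (QuotientGroup.mk' N '' F) hF' h1'
  let φ : G →* (G ⧸ N) ⧸ N₁ := (QuotientGroup.mk' N₁).comp (QuotientGroup.mk' N)
  have hφ : Function.Surjective φ :=
    (QuotientGroup.mk'_surjective N₁).comp (QuotientGroup.mk'_surjective N)
  have hker : ∀ g : G, g ∈ φ.ker ↔ QuotientGroup.mk' N g ∈ N₁ := by
    intro g
    rw [MonoidHom.mem_ker]
    exact QuotientGroup.eq_one_iff (N := N₁) _
  have hle : N ≤ φ.ker := by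
    intro g hg
    rw [hker]
    have : QuotientGroup.mk' N g = 1 := (QuotientGroup.eq_one_iff (N := N) g).mpr hg
    rw [this]
    exact N₁.one_mem
  refine ⟨φ.ker, inferInstance, hle, ?_, ?_, ?_⟩
  · exact Hyp.congr (QuotientGroup.quotientKerEquivOfSurjective φ hφ).symm hyp
  · intro f hf hf'
    rw [hker] at hf'
    exact hav _ ⟨f, hf, rfl⟩ hf'
  · have hsub : Subgroup.closure {QuotientGroup.mk' N a, QuotientGroup.mk' N b} ⊔ N₁ ≤
        (Subgroup.closure {a, b} ⊔ φ.ker).map (QuotientGroup.mk' N) := by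
      refine sup_le ?_ ?_
      · rw [Subgroup.closure_le]
        rintro x (rfl | rfl)
        · exact ⟨a, (le_sup_left : _ ≤ Subgroup.closure {a, b} ⊔ φ.ker)
            (Subgroup.subset_closure (by simp)), rfl⟩
        · exact ⟨b, (le_sup_left : _ ≤ Subgroup.closure {a, b} ⊔ φ.ker)
            (Subgroup.subset_closure (by simp)), rfl⟩
      · intro x hx
        obtain ⟨g, rfl⟩ := QuotientGroup.mk'_surjective N x
        exact ⟨g, (le_sup_right : _ ≤ Subgroup.closure {a, b} ⊔ φ.ker) ((hker g).mpr hx), rfl⟩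
    obtain ⟨s, hs, hst⟩ := hsub ht
    have h2 : s⁻¹ * t ∈ N := by
      rw [← QuotientGroup.eq_one_iff (N := N)]
      change QuotientGroup.mk' N (s⁻¹ * t) = 1
      rw [map_mul, map_inv, hst]
      group
    have h3 : t = s * (s⁻¹ * t) := by group
    rw [h3]
    exact Subgroup.mul_mem _ hs ((le_sup_right : _ ≤ Subgroup.closure {a, b} ⊔ φ.ker) (hle h2))

/-- the induction over the elements to be captured -/
theorem Hyp.capture_ind {G : Type} [Group G] [DecidableEq G] (a b : G) (F : Set G)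
    (hF : F.Finite) (hc : a * b * a⁻¹ * b⁻¹ ∈ F) (T : Finset G) :
    ∀ (N : Subgroup G) (_ : N.Normal) (_ : Hyp (G ⧸ N)), (∀ f ∈ F, f ∉ N) →
      ∃ (N' : Subgroup G) (_ : N'.Normal), N ≤ N' ∧ Hyp (G ⧸ N') ∧ (∀ f ∈ F, f ∉ N') ∧
        (T : Set G) ⊆ (Subgroup.closure {a, b} ⊔ N' : Subgroup G) := by
  induction T using Finset.induction_on with
  | empty =>
    intro N hNn hN h1
    exact ⟨N, hNn, le_rfl, hN, h1, by simp⟩
  | insert t T _ ih =>
    intro N hNn hN h1
    obtain ⟨N₁, hN₁, hle, hyp, hav, hsub⟩ := ih N hNn hN h1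
    obtain ⟨N₂, hN₂, hle2, hyp2, hav2, ht⟩ := Hyp.capture_rel hyp (hav _ hc) t F hF hav
    refine ⟨N₂, hN₂, hle.trans hle2, hyp2, hav2, ?_⟩
    intro x hx
    rw [Finset.coe_insert] at hx
    rcases hx with rfl | hx
    · exact ht
    · exact (sup_le_sup_left hle2 (Subgroup.closure {a, b})) (hsub hx)

/-- a finitely generated subgroup becomes two-generated -/
theorem Hyp.capture_set {G : Type} [Group G] {N : Subgroup G} [N.Normal] (hN : Hyp (G ⧸ N))
    (S : Finset G) (F : Set G) (hF : F.Finite)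
    (h1 : ∀ f ∈ F, f ∉ N) : ∃ (N' : Subgroup G) (_ : N'.Normal), N ≤ N' ∧
      Hyp (G ⧸ N') ∧ (∀ f ∈ F, f ∉ N') ∧ ∃ a ∈ Subgroup.closure (S : Set G),
        ∃ b ∈ Subgroup.closure (S : Set G), ∀ s ∈ S, s ∈ Subgroup.closure {a, b} ⊔ N' := by
  classical
  by_cases hcomm : ∀ a ∈ S, ∀ b ∈ S, a * b * a⁻¹ * b⁻¹ ∈ N
  · obtain ⟨V, inst, Γ, δ, hA⟩ := id hN
    have hS : ∀ x ∈ QuotientGroup.mk' N '' (S : Set G), ∀ y ∈ QuotientGroup.mk' N '' (S : Set G),
        x * y = y * x := by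
      rintro _ ⟨a, ha, rfl⟩ _ ⟨b, hb, rfl⟩
      have h2 : QuotientGroup.mk' N (a * b * a⁻¹ * b⁻¹) = 1 :=
        (QuotientGroup.eq_one_iff (N := N) _).mpr (hcomm a ha b hb)
      rw [map_mul, map_mul, map_mul, map_inv, map_inv, mul_inv_eq_one, mul_inv_eq_iff_eq_mul] at h2
      exact h2
    obtain ⟨z, hz⟩ := comm_cyclic hA _ hS
    rw [← MonoidHom.map_closure] at hz
    have hzm : z ∈ Subgroup.map (QuotientGroup.mk' N) (Subgroup.closure (S : Set G)) := by
      rw [hz]; exact Subgroup.mem_zpowers z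
    obtain ⟨c, hc, hcz⟩ := hzm
    refine ⟨N, inferInstance, le_rfl, hN, h1, c, hc, c, hc, ?_⟩
    intro s hs
    have hsm : QuotientGroup.mk' N s ∈ Subgroup.zpowers z := by
      rw [← hz]
      exact ⟨s, Subgroup.subset_closure hs, rfl⟩
    obtain ⟨k, hk⟩ := Subgroup.mem_zpowers_iff.mp hsm
    have h2 : (c ^ k)⁻¹ * s ∈ N := by
      rw [← QuotientGroup.eq_one_iff (N := N)]
      change QuotientGroup.mk' N ((c ^ k)⁻¹ * s) = 1
      rw [map_mul, map_inv, map_zpow, hcz, hk]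
      group
    have h3 : s = c ^ k * ((c ^ k)⁻¹ * s) := by group
    rw [h3]
    refine Subgroup.mul_mem _ ((le_sup_left : _ ≤ Subgroup.closure {c, c} ⊔ N) ?_)
      ((le_sup_right : _ ≤ Subgroup.closure {c, c} ⊔ N) h2)
    exact Subgroup.zpow_mem _ (Subgroup.subset_closure (by simp)) k
  · push Not at hcomm
    obtain ⟨a, ha, b, hb, hab⟩ := hcomm
    obtain ⟨N', hN', hle, hyp, hav, hsub⟩ := Hyp.capture_ind a b (insert (a * b * a⁻¹ * b⁻¹) F)
      (hF.insert _) (Set.mem_insert _ _) S N inferInstance hN (by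
        rintro f (rfl | hf)
        · exact hab
        · exact h1 f hf)
    refine ⟨N', hN', hle, hyp, fun f hf => hav f (Set.mem_insert_of_mem _ hf), a,
      Subgroup.subset_closure ha, b, Subgroup.subset_closure hb, hsub⟩

end Pool.Agent.Lib.MP_7e344a_al
end

section

/-!
# MP_7e344a_al: M15, the monster
-/

set_option autoImplicit false

namespace Pool.Agent.Lib.MP_7e344a_al

/-! ### Preliminaries -/

theorem mon_countable_coprod (G H : Type) [Group G] [Group H] [Countable G] [Countable H] :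
    Countable (Monoid.Coprod G H) := by
  have h : Function.Surjective (Monoid.Coprod.mk : FreeMonoid (G ⊕ H) →* Monoid.Coprod G H) :=
    Monoid.Coprod.mk_surjective
  have : Countable (FreeMonoid (G ⊕ H)) := inferInstanceAs (Countable (List (G ⊕ H)))
  exact h.countable

theorem mon_map_surj {G H : Type} [Group G] [Group H] (φ : G →* H) (hφ : Function.Surjective φ) :
    Function.Surjective (Monoid.Coprod.map φ (MonoidHom.id (Multiplicative ℤ))) := by
  intro f
  induction f using Monoid.Coprod.induction_on with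
  | inl m =>
    obtain ⟨g, rfl⟩ := hφ m
    exact ⟨Monoid.Coprod.inl g, by simp⟩
  | inr n => exact ⟨Monoid.Coprod.inr n, by simp⟩
  | mul x y hx hy =>
    obtain ⟨u, hu⟩ := hx
    obtain ⟨v, hv⟩ := hy
    exact ⟨u * v, by rw [map_mul, hu, hv]⟩

theorem Hyp.torsion {A : Type} [Group A] (h : Hyp A) (g : A) (k : ℕ) (hk : 0 < k)
    (hg : g ^ k = 1) : g = 1 := by
  obtain ⟨V, _, Γ, δ, hA⟩ := h
  exact hA.tf g k hk hg

/-- the commutator of the two generators -/
def monC : FreeGroup Bool :=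
  FreeGroup.of false * FreeGroup.of true * (FreeGroup.of false)⁻¹ * (FreeGroup.of true)⁻¹

theorem monC_ne : monC ≠ 1 := by
  unfold monC
  decide

/-- States of the construction. -/
structure MonState where
  N : Subgroup (FreeGroup Bool)
  F : Set (FreeGroup Bool)
  normal : N.Normal
  hyp : Hyp (FreeGroup Bool ⧸ N)
  fin : F.Finite
  av : ∀ f ∈ F, f ∉ N
  mem : monC ∈ F

theorem MonState.step_set (σ : MonState) (S : Finset (FreeGroup Bool)) :
    ∃ τ : MonState, σ.N ≤ τ.N ∧ σ.F ⊆ τ.F ∧ ∃ a ∈ Subgroup.closure (S : Set (FreeGroup Bool)),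
      ∃ b ∈ Subgroup.closure (S : Set (FreeGroup Bool)),
        ∀ s ∈ S, s ∈ Subgroup.closure {a, b} ⊔ τ.N := by
  have := σ.normal
  obtain ⟨N', hn, h1, h2, h3, a, ha, b, hb, h4⟩ := σ.hyp.capture_set S σ.F σ.fin σ.av
  exact ⟨⟨N', σ.F, hn, h2, σ.fin, h3, σ.mem⟩, h1, subset_rfl, a, ha, b, hb, h4⟩

theorem MonState.step_word (σ : MonState)
    (T : Finset (Monoid.Coprod (FreeGroup Bool) (Multiplicative ℤ))) :
    ∃ τ : MonState, σ.N ≤ τ.N ∧ σ.F ⊆ τ.F ∧
      ((∃ f ∈ T, haveI := σ.normal; Monoid.Coprod.map (QuotientGroup.mk' σ.N)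
        (MonoidHom.id (Multiplicative ℤ)) f = 1) ∨ ∃ t, ∀ f ∈ T, retr t f ∈ τ.F) := by
  classical
  have := σ.normal
  by_cases h : ∃ f ∈ T, Monoid.Coprod.map (QuotientGroup.mk' σ.N)
        (MonoidHom.id (Multiplicative ℤ)) f = 1
  · exact ⟨σ, le_rfl, subset_rfl, Or.inl h⟩
  push Not at h
  have hab : (QuotientGroup.mk' σ.N (FreeGroup.of false)) * (QuotientGroup.mk' σ.N
      (FreeGroup.of true)) ≠ (QuotientGroup.mk' σ.N (FreeGroup.of true)) *
      (QuotientGroup.mk' σ.N (FreeGroup.of false)) := by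
    intro he
    apply σ.av monC σ.mem
    rw [← QuotientGroup.eq_one_iff]
    change QuotientGroup.mk' σ.N monC = 1
    unfold monC
    rw [map_mul, map_mul, map_mul, map_inv, map_inv, he]
    group
  obtain ⟨t', ht'⟩ := σ.hyp.mif hab (T.image (Monoid.Coprod.map (QuotientGroup.mk' σ.N)
    (MonoidHom.id (Multiplicative ℤ)))) (by
      rw [Finset.mem_image]
      rintro ⟨f, hf, h1⟩
      exact h f hf h1)
  obtain ⟨t, rfl⟩ := QuotientGroup.mk'_surjective σ.N t'
  refine ⟨⟨σ.N, σ.F ∪ (fun f => retr t f) '' (T : Set _), σ.normal, σ.hyp,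
    σ.fin.union (T.finite_toSet.image _), ?_, Or.inl σ.mem⟩, le_rfl, Set.subset_union_left,
    Or.inr ⟨t, fun f hf => Or.inr ⟨f, hf, rfl⟩⟩⟩
  rintro g (hg | ⟨f, hf, rfl⟩)
  · exact σ.av g hg
  · intro hN
    apply ht' _ (Finset.mem_image_of_mem _ hf)
    rw [← retr_map]
    exact (QuotientGroup.eq_one_iff _).2 hN

/-- what a step has to do -/
def MonGood (σ τ : MonState) : Finset (FreeGroup Bool) ⊕
    Finset (Monoid.Coprod (FreeGroup Bool) (Multiplicative ℤ)) → Prop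
  | Sum.inl S => σ.N ≤ τ.N ∧ σ.F ⊆ τ.F ∧
      ∃ a ∈ Subgroup.closure (S : Set (FreeGroup Bool)),
      ∃ b ∈ Subgroup.closure (S : Set (FreeGroup Bool)),
        ∀ s ∈ S, s ∈ Subgroup.closure {a, b} ⊔ τ.N
  | Sum.inr T => σ.N ≤ τ.N ∧ σ.F ⊆ τ.F ∧
      ((∃ f ∈ T, haveI := σ.normal; Monoid.Coprod.map (QuotientGroup.mk' σ.N)
        (MonoidHom.id (Multiplicative ℤ)) f = 1) ∨ ∃ t, ∀ f ∈ T, retr t f ∈ τ.F)

theorem MonState.exists_step (σ : MonState) (T : Finset (FreeGroup Bool) ⊕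
    Finset (Monoid.Coprod (FreeGroup Bool) (Multiplicative ℤ))) : ∃ τ, MonGood σ τ T := by
  rcases T with S | T
  · exact σ.step_set S
  · exact σ.step_word T

theorem MonGood.le {σ τ : MonState} {T : Finset (FreeGroup Bool) ⊕
    Finset (Monoid.Coprod (FreeGroup Bool) (Multiplicative ℤ))} (h : MonGood σ τ T) :
    σ.N ≤ τ.N ∧ σ.F ⊆ τ.F := by
  rcases T with S | T
  · exact ⟨h.1, h.2.1⟩
  · exact ⟨h.1, h.2.1⟩

theorem exists_monState : ∃ _ : MonState, True := by
  have : (⊥ : Subgroup (FreeGroup Bool)).Normal := inferInstance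
  refine ⟨⟨⊥, {monC}, inferInstance, Hyp.congr (QuotientGroup.quotientBot).symm hyp_free,
    Set.finite_singleton _, ?_, Set.mem_singleton _⟩, trivial⟩
  rintro f rfl
  rw [Subgroup.mem_bot]
  exact monC_ne

/-- There is a countable torsion free mixed identity free group all of whose finitely generated
subgroups are 2-generated. -/
theorem monster : ∃ (A : Type) (_ : Group A), Countable A ∧
    (∀ (g : A) (k : ℕ), 0 < k → g ^ k = 1 → g = 1) ∧ MIF A ∧
    ∀ S : Finset A, ∃ a b : A, Subgroup.closure (S : Set A) = Subgroup.closure {a, b} := by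
  classical
  have := mon_countable_coprod (FreeGroup Bool) (Multiplicative ℤ)
  obtain ⟨e, he⟩ := exists_surjective_nat (Finset (FreeGroup Bool) ⊕
    Finset (Monoid.Coprod (FreeGroup Bool) (Multiplicative ℤ)))
  obtain ⟨σ₀, -⟩ := exists_monState
  choose stp hstp using MonState.exists_step
  let σ : ℕ → MonState := fun n => Nat.rec σ₀ (fun n τ => stp τ (e n)) n
  have hσ : ∀ n, MonGood (σ n) (σ (n + 1)) (e n) := fun n => hstp (σ n) (e n)
  have hN : Monotone fun n => (σ n).N := monotone_nat_of_le_succ fun n => (hσ n).le.1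
  have hF : Monotone fun n => (σ n).F := monotone_nat_of_le_succ fun n => (hσ n).le.2
  let N : Subgroup (FreeGroup Bool) := ⨆ n, (σ n).N
  have hmem : ∀ g, g ∈ N ↔ ∃ n, g ∈ (σ n).N := fun g =>
    Subgroup.mem_iSup_of_directed hN.directed_le
  have hle : ∀ n, (σ n).N ≤ N := fun n => le_iSup (fun n => (σ n).N) n
  have hNn : N.Normal := by
    refine ⟨fun g hg h => ?_⟩
    obtain ⟨n, hn⟩ := (hmem g).1 hg
    exact (hmem _).2 ⟨n, (σ n).normal.conj_mem g hn h⟩
  have hav : ∀ n, ∀ f ∈ (σ n).F, f ∉ N := by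
    intro n f hf hfN
    obtain ⟨m, hm⟩ := (hmem f).1 hfN
    exact (σ (max n m)).av f (hF (le_max_left n m) hf) (hN (le_max_right n m) hm)
  have hsurj := QuotientGroup.mk'_surjective N
  refine ⟨FreeGroup Bool ⧸ N, inferInstance, hsurj.countable, ?_, ?_, ?_⟩
  · intro g k hk hg
    obtain ⟨g, rfl⟩ := hsurj g
    rw [← map_pow] at hg
    obtain ⟨n, hn⟩ := (hmem _).1 ((QuotientGroup.eq_one_iff _).1 hg)
    have := (σ n).normal
    have h1 : (QuotientGroup.mk' (σ n).N g) ^ k = 1 := by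
      rw [← map_pow]
      exact (QuotientGroup.eq_one_iff _).2 hn
    have h2 := (σ n).hyp.torsion _ k hk h1
    exact (QuotientGroup.eq_one_iff _).2 (hle n ((QuotientGroup.eq_one_iff _).1 h2))
  · intro F hF1
    have hs := mon_map_surj (QuotientGroup.mk' N) hsurj
    choose lft hlft using hs
    obtain ⟨n, hn⟩ := he (Sum.inr (F.image lft))
    have h := hσ n
    rw [hn] at h
    obtain ⟨-, -, h | ⟨t, ht⟩⟩ := h
    · exfalso
      obtain ⟨f', hf', h1⟩ := h
      rw [Finset.mem_image] at hf'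
      obtain ⟨f, hf, rfl⟩ := hf'
      apply hF1
      have := (σ n).normal
      have h2 : f = Monoid.Coprod.map (QuotientGroup.map (σ n).N N (MonoidHom.id _) (hle n))
          (MonoidHom.id (Multiplicative ℤ)) (Monoid.Coprod.map (QuotientGroup.mk' (σ n).N)
            (MonoidHom.id (Multiplicative ℤ)) (lft f)) := by
        rw [← MonoidHom.comp_apply, Monoid.Coprod.map_comp_map]
        conv_lhs => rw [← hlft f]
        congr 1
      rw [h1, map_one] at h2
      rwa [← h2]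
    · refine ⟨QuotientGroup.mk' N t, fun f hf => ?_⟩
      have h1 := ht (lft f) (Finset.mem_image_of_mem _ hf)
      have h2 := hav (n + 1) _ h1
      intro h3
      apply h2
      rw [← QuotientGroup.eq_one_iff]
      change QuotientGroup.mk' N (retr t (lft f)) = 1
      rw [retr_map, hlft f, h3]
  · intro S
    choose lft hlft using hsurj
    obtain ⟨n, hn⟩ := he (Sum.inl (S.image lft))
    have h := hσ n
    rw [hn] at h
    obtain ⟨-, -, a, ha, b, hb, h4⟩ := h
    have himg : (QuotientGroup.mk' N) '' ((S.image lft : Finset (FreeGroup Bool)) : Set _) =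
        (S : Set (FreeGroup Bool ⧸ N)) := by
      ext s
      simp only [Finset.coe_image, Set.mem_image, Finset.mem_coe, exists_exists_and_eq_and]
      constructor
      · rintro ⟨s', hs', rfl⟩
        rwa [hlft]
      · intro hs
        exact ⟨s, hs, hlft s⟩
    refine ⟨QuotientGroup.mk' N a, QuotientGroup.mk' N b, le_antisymm ?_ ?_⟩
    · rw [Subgroup.closure_le]
      intro s hs
      have h5 := h4 _ (Finset.mem_image_of_mem lft hs)
      have h6 := Subgroup.mem_map_of_mem (QuotientGroup.mk' N) h5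
      rw [hlft, Subgroup.map_sup, MonoidHom.map_closure, Set.image_pair] at h6
      have h7 : Subgroup.map (QuotientGroup.mk' N) (σ (n + 1)).N = ⊥ := by
        rw [Subgroup.map_eq_bot_iff, QuotientGroup.ker_mk']
        exact hle (n + 1)
      rw [h7, sup_bot_eq] at h6
      exact h6
    · rw [← himg, ← MonoidHom.map_closure, Subgroup.closure_le]
      rintro s (rfl | rfl)
      · exact Subgroup.mem_map_of_mem _ ha
      · exact Subgroup.mem_map_of_mem _ hb

end Pool.Agent.Lib.MP_7e344a_al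
end
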