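import Mathlib

section

/-!
# MP_7e344a_al: basic definitions (slim graphs, angles, chains, rotation families)

All graphs are simple graphs; distances are `SimpleGraph.dist`. A geodesic is a function `ℕ → V`,
looked at on `[0, n]`.
-/

set_option autoImplicit false

namespace Pool.Agent.Lib.MP_7e344a_al

variable {V : Type} {G : Type}

/-- `p` is a geodesic on `[0, n]`. -/
def Geo (Γ : SimpleGraph V) (p : ℕ → V) (n : ℕ) : Prop :=
  ∀ i j, i ≤ j → j ≤ n → Γ.dist (p i) (p j) = j - i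

/-- `p` is a geodesic on `[0, n]` from `x` to `y`. -/
structure IsGeo (Γ : SimpleGraph V) (p : ℕ → V) (n : ℕ) (x y : V) : Prop where
  geo : Geo Γ p n
  start : p 0 = x
  fin : p n = y

/-- Geodesic triangles are `δ`-slim. -/
def Slim (Γ : SimpleGraph V) (δ : ℕ) : Prop :=
  ∀ (p q r : ℕ → V) (l m n : ℕ) (x y z : V), IsGeo Γ p l x y → IsGeo Γ q m y z →
    IsGeo Γ r n x z → ∀ i ≤ l, (∃ j ≤ m, Γ.dist (p i) (q j) ≤ δ) ∨ ∃ k ≤ n, Γ.dist (p i) (r k) ≤ δ

/-- `u` and `v` are joined by a walk of length at most `θ` avoiding `c` (the angle at `c` between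
`u` and `v` is at most `θ`). -/
def AngLE (Γ : SimpleGraph V) (c u v : V) (θ : ℕ) : Prop :=
  ∃ w : Γ.Walk u v, w.length ≤ θ ∧ c ∉ w.support

/-- The universal angle constant of a `δ`-slim graph. -/
def D0 (δ : ℕ) : ℕ := 8 * δ + 4

/-- `P` is the vertex set of a path from `x` to `y` consisting of `m` geodesic segments. -/
inductive Chain (Γ : SimpleGraph V) : ℕ → Set V → V → V → Prop
  | refl (x : V) : Chain Γ 0 {x} x x
  | snoc {m : ℕ} {P : Set V} {x y z : V} (p : ℕ → V) (n : ℕ) (h : Chain Γ m P x y)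
      (hp : IsGeo Γ p n y z) : Chain Γ (m + 1) (P ∪ p '' Set.Iic n) x z

/-- A rotation family of depth `s`: each vertex `c` has a group `N c` of rotations about `c`, all
nontrivial rotations have angle larger than `s`. -/
structure Rot [Group G] [MulAction G V] (Γ : SimpleGraph V) (N : V → Subgroup G) (s : ℕ) :
    Prop where
  act : ∀ (g : G) (v w : V), Γ.Adj v w → Γ.Adj (g • v) (g • w)
  fix : ∀ (c : V), ∀ ρ ∈ N c, ρ • c = c
  conj : ∀ (g : G) (c : V), ∀ ρ ∈ N c, g * ρ * g⁻¹ ∈ N (g • c)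
  deep : ∀ (c : V), ∀ ρ ∈ N c, ρ ≠ 1 → ∀ q, Γ.Adj c q → ¬ AngLE Γ c q (ρ • q) s

/-- The (normal) subgroup generated by all rotations. -/
def NN [Group G] (N : V → Subgroup G) : Subgroup G := ⨆ c, N c

/-- `n` is a product of `k` rotations. -/
inductive IsProd [Group G] (N : V → Subgroup G) : ℕ → G → Prop
  | one : IsProd N 0 1
  | mul {k : ℕ} {n : G} (c : V) (ρ : G) (hρ : ρ ∈ N c) (h : IsProd N k n) :
      IsProd N (k + 1) (ρ * n)

/-- The minimal number of rotations in a factorization of `n`. -/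
noncomputable def len [Group G] (N : V → Subgroup G) (n : G) : ℕ := sInf {k | IsProd N k n}

/-- The rotation `ρ` about `c` is reducing for `n`. -/
def Red [Group G] (N : V → Subgroup G) (n : G) (c : V) (ρ : G) : Prop :=
  ρ ∈ N c ∧ len N (ρ⁻¹ * n) < len N n

/-- `π` presents the graph `Γ'` as the quotient of `Γ` by the group `N`. -/
structure IsQuot [Group G] [MulAction G V] {V' : Type} (Γ : SimpleGraph V) (N : Subgroup G)
    (Γ' : SimpleGraph V') (π : V → V') : Prop where
  surj : Function.Surjective π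
  fib : ∀ v w, π v = π w ↔ ∃ n ∈ N, n • v = w
  adj : ∀ v w, Γ.Adj v w → Γ'.Adj (π v) (π w)
  lift : ∀ v a, Γ'.Adj (π v) a → ∃ w, Γ.Adj v w ∧ π w = a

end Pool.Agent.Lib.MP_7e344a_al
end

section

/-!
# MP_7e344a_al: T01, geodesics, angles, the triangle lemma
-/

set_option autoImplicit false

namespace Pool.Agent.Lib.MP_7e344a_al

variable {V : Type} {G : Type} {Γ : SimpleGraph V}

/-- consecutive points adjacent gives an upper bound of the distances -/
theorem basic_dist_le_of_adj (hc : Γ.Connected) {p : ℕ → V} {n : ℕ}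
    (h : ∀ i < n, Γ.Adj (p i) (p (i + 1))) (i k : ℕ) (hk : i + k ≤ n) :
    Γ.dist (p i) (p (i + k)) ≤ k := by
  induction k with
  | zero => simp
  | succ k ih =>
    have h1 := ih (by omega)
    have h2 : Γ.dist (p (i + k)) (p (i + k + 1)) = 1 :=
      SimpleGraph.dist_eq_one_iff_adj.mpr (h (i + k) (by omega))
    have h3 := hc.dist_triangle (u := p i) (v := p (i + k)) (w := p (i + k + 1))
    have h4 : i + (k + 1) = i + k + 1 := by omega
    rw [h4]
    omega

theorem IsGeo.exists (hc : Γ.Connected) (x y : V) : ∃ p, IsGeo Γ p (Γ.dist x y) x y := by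
  obtain ⟨w, hw⟩ := hc.exists_walk_length_eq_dist x y
  have hadj : ∀ i < w.length, Γ.Adj (w.getVert i) (w.getVert (i + 1)) := fun i hi =>
    w.adj_getVert_succ hi
  refine ⟨fun i => w.getVert i, ?_, by simp, ?_⟩
  · intro i j hij hj
    rw [← hw] at hj
    have h1 : Γ.dist (w.getVert i) (w.getVert j) ≤ j - i := by
      have := basic_dist_le_of_adj hc (p := fun i => w.getVert i) hadj i (j - i) (by omega)
      rwa [show i + (j - i) = j by omega] at this
    have h2 : Γ.dist x (w.getVert i) ≤ i := by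
      have := basic_dist_le_of_adj hc (p := fun i => w.getVert i) hadj 0 i (by omega)
      simpa using this
    have h3 : Γ.dist (w.getVert j) y ≤ w.length - j := by
      have := basic_dist_le_of_adj hc (p := fun i => w.getVert i) hadj j (w.length - j) (by omega)
      rw [show j + (w.length - j) = w.length by omega] at this
      simpa using this
    have h4 := hc.dist_triangle (u := x) (v := w.getVert i) (w := y)
    have h5 := hc.dist_triangle (u := w.getVert i) (v := w.getVert j) (w := y)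
    show Γ.dist (w.getVert i) (w.getVert j) = j - i
    omega
  · show w.getVert (Γ.dist x y) = y
    rw [← hw]
    simp

theorem IsGeo.length {p : ℕ → V} {n : ℕ} {x y : V} (h : IsGeo Γ p n x y) : Γ.dist x y = n := by
  have := h.geo 0 n (Nat.zero_le _) le_rfl
  rw [h.start, h.fin] at this
  simpa using this

theorem IsGeo.symm {p : ℕ → V} {n : ℕ} {x y : V} (h : IsGeo Γ p n x y) :
    IsGeo Γ (fun i => p (n - i)) n y x := by
  refine ⟨?_, ?_, ?_⟩
  · intro i j hij hj
    have := h.geo (n - j) (n - i) (by omega) (by omega)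
    show Γ.dist (p (n - i)) (p (n - j)) = j - i
    rw [SimpleGraph.dist_comm, this]
    omega
  · show p (n - 0) = y
    rw [Nat.sub_zero]
    exact h.fin
  · show p (n - n) = x
    rw [Nat.sub_self]
    exact h.start

/-- initial part -/
theorem IsGeo.take {p : ℕ → V} {n : ℕ} {x y : V} (h : IsGeo Γ p n x y) {i : ℕ} (hi : i ≤ n) :
    IsGeo Γ p i x (p i) :=
  ⟨fun a b hab hb => h.geo a b hab (hb.trans hi), h.start, rfl⟩

/-- final part -/
theorem IsGeo.drop {p : ℕ → V} {n : ℕ} {x y : V} (h : IsGeo Γ p n x y) {i : ℕ} (hi : i ≤ n) :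
    IsGeo Γ (fun j => p (i + j)) (n - i) (p i) y := by
  refine ⟨?_, ?_, ?_⟩
  · intro a b hab hb
    have := h.geo (i + a) (i + b) (by omega) (by omega)
    show Γ.dist (p (i + a)) (p (i + b)) = b - a
    omega
  · rfl
  · show p (i + (n - i)) = y
    rw [show i + (n - i) = n by omega]
    exact h.fin

/-- concatenation: if distances add up, the concatenation is a geodesic -/
theorem IsGeo.append (hc : Γ.Connected) {p q : ℕ → V} {m n : ℕ} {x y z : V}
    (hp : IsGeo Γ p m x y) (hq : IsGeo Γ q n y z) (h : Γ.dist x z = m + n) :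
    IsGeo Γ (fun i => if i ≤ m then p i else q (i - m)) (m + n) x z := by
  refine ⟨?_, ?_, ?_⟩
  · intro a b hab hb
    by_cases h1 : b ≤ m
    · have h2 : a ≤ m := hab.trans h1
      simp only [h1, h2, if_true]
      exact hp.geo a b hab h1
    · by_cases h2 : a ≤ m
      · simp only [h1, h2, if_true, if_false]
        have e1 := hp.geo 0 a (Nat.zero_le _) h2
        have e2 := hp.geo a m h2 le_rfl
        have e3 := hq.geo 0 (b - m) (Nat.zero_le _) (by omega)
        have e4 := hq.geo (b - m) n (by omega) le_rfl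
        rw [hp.start] at e1
        rw [hp.fin] at e2
        rw [hq.start] at e3
        rw [hq.fin] at e4
        have t1 := hc.dist_triangle (u := x) (v := p a) (w := z)
        have t2 := hc.dist_triangle (u := p a) (v := q (b - m)) (w := z)
        have t3 := hc.dist_triangle (u := p a) (v := y) (w := q (b - m))
        omega
      · simp only [h1, h2, if_false]
        have := hq.geo (a - m) (b - m) (by omega) (by omega)
        omega
  · simp [hp.start]
  · by_cases h1 : m + n ≤ m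
    · have h2 : n = 0 := by omega
      subst h2
      simp only [Nat.add_zero, le_refl, if_true]
      rw [hp.fin, ← hq.start, hq.fin]
    · simp only [h1, if_false]
      rw [show m + n - m = n by omega]
      exact hq.fin

theorem IsGeo.adj {p : ℕ → V} {n : ℕ} {x y : V} (h : IsGeo Γ p n x y) {i : ℕ}
    (hi : i < n) : Γ.Adj (p i) (p (i + 1)) := by
  have := h.geo i (i + 1) (by omega) (by omega)
  rw [show i + 1 - i = 1 by omega] at this
  exact SimpleGraph.dist_eq_one_iff_adj.mp this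

theorem IsGeo.inj {p : ℕ → V} {n : ℕ} {x y : V} (h : IsGeo Γ p n x y)
    {i j : ℕ} (hi : i ≤ n) (hj : j ≤ n) (hij : p i = p j) : i = j := by
  rcases le_total i j with h1 | h1
  · have := h.geo i j h1 hj
    rw [hij, SimpleGraph.dist_self] at this
    omega
  · have := h.geo j i h1 hi
    rw [hij, SimpleGraph.dist_self] at this
    omega

/-- a point at the right distances lies on some geodesic; here: a geodesic walk along `p` -/
theorem IsGeo.walk (hc : Γ.Connected) {p : ℕ → V} {n : ℕ} {x y : V} (h : IsGeo Γ p n x y)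
    {i j : ℕ} (hij : i ≤ j) (hj : j ≤ n) :
    ∃ w : Γ.Walk (p i) (p j), w.length = j - i ∧ ∀ v ∈ w.support, ∃ k, i ≤ k ∧ k ≤ j ∧ v = p k := by
  have _ := hc
  obtain ⟨k, rfl⟩ := Nat.exists_eq_add_of_le hij
  clear hij
  induction k with
  | zero =>
    refine ⟨SimpleGraph.Walk.nil, by simp, ?_⟩
    intro v hv
    refine ⟨i, le_rfl, by omega, ?_⟩
    simpa using hv
  | succ k ih =>
    obtain ⟨w, hw1, hw2⟩ := ih (by omega)
    have hadj : Γ.Adj (p (i + k)) (p (i + (k + 1))) := h.adj (i := i + k) (by omega)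
    refine ⟨w.concat hadj, ?_, ?_⟩
    · rw [SimpleGraph.Walk.length_concat, hw1]
      omega
    · intro v hv
      rw [SimpleGraph.Walk.support_concat] at hv
      simp only [List.mem_append, List.mem_singleton] at hv
      rcases hv with hv | hv
      · obtain ⟨l, hl1, hl2, hl3⟩ := hw2 v hv
        exact ⟨l, hl1, by omega, hl3⟩
      · exact ⟨i + (k + 1), by omega, le_rfl, hv⟩

/-- a shortest walk from `a` to `b` avoids `c` if `c` is further from `a` than `b` -/
theorem exists_walk_avoid (hc : Γ.Connected) {a b c : V} (h : Γ.dist a b < Γ.dist a c) :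
    ∃ w : Γ.Walk a b, w.length = Γ.dist a b ∧ c ∉ w.support := by
  classical
  obtain ⟨w, hw⟩ := hc.exists_walk_length_eq_dist a b
  refine ⟨w, hw, ?_⟩
  intro hcs
  have h1 := w.length_takeUntil_le_length hcs
  have h2 := SimpleGraph.dist_le (w.takeUntil c hcs)
  omega

theorem AngLE.refl {c u : V} (h : u ≠ c) : AngLE Γ c u u 0 := by
  refine ⟨SimpleGraph.Walk.nil, by simp, ?_⟩
  simpa using fun h' => h h'.symm

theorem AngLE.symm {c u v : V} {θ : ℕ} (h : AngLE Γ c u v θ) : AngLE Γ c v u θ := by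
  obtain ⟨w, h1, h2⟩ := h
  refine ⟨w.reverse, by simpa using h1, by simpa using h2⟩

theorem AngLE.trans {c u v w : V} {θ η : ℕ} (h : AngLE Γ c u v θ) (h' : AngLE Γ c v w η) :
    AngLE Γ c u w (θ + η) := by
  obtain ⟨w1, h1, h2⟩ := h
  obtain ⟨w2, h3, h4⟩ := h'
  refine ⟨w1.append w2, ?_, ?_⟩
  · rw [SimpleGraph.Walk.length_append]
    omega
  · rw [SimpleGraph.Walk.mem_support_append_iff]
    tauto

theorem AngLE.mono {c u v : V} {θ η : ℕ} (h : AngLE Γ c u v θ) (hθ : θ ≤ η) : AngLE Γ c u v η := by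
  obtain ⟨w1, h1, h2⟩ := h
  exact ⟨w1, h1.trans hθ, h2⟩

theorem AngLE.ne {c u v : V} {θ : ℕ} (h : AngLE Γ c u v θ) : u ≠ c ∧ v ≠ c := by
  obtain ⟨w1, _, h2⟩ := h
  refine ⟨?_, ?_⟩
  · rintro rfl
    exact h2 w1.start_mem_support
  · rintro rfl
    exact h2 w1.end_mem_support

/-- the image of a walk under a group element -/
theorem basic_walk_smul [Group G] [MulAction G V]
    (hact : ∀ (g : G) (v w : V), Γ.Adj v w → Γ.Adj (g • v) (g • w)) (g : G) {u v : V}
    (w : Γ.Walk u v) : ∃ w' : Γ.Walk (g • u) (g • v), w'.length = w.length ∧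
      w'.support = w.support.map (fun a => g • a) := by
  induction w with
  | nil => exact ⟨SimpleGraph.Walk.nil, by simp, by simp⟩
  | cons h p ih =>
    obtain ⟨w', h1, h2⟩ := ih
    refine ⟨SimpleGraph.Walk.cons (hact g _ _ h) w', ?_, ?_⟩
    · simp [h1]
    · simp [h2]

theorem AngLE.smul [Group G] [MulAction G V]
    (hact : ∀ (g : G) (v w : V), Γ.Adj v w → Γ.Adj (g • v) (g • w)) (g : G) {c u v : V} {θ : ℕ}
    (h : AngLE Γ c u v θ) : AngLE Γ (g • c) (g • u) (g • v) θ := by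
  obtain ⟨w, h1, h2⟩ := h
  obtain ⟨w', h3, h4⟩ := basic_walk_smul hact g w
  refine ⟨w', ?_, ?_⟩
  · rw [h3]
    exact h1
  · rw [h4, List.mem_map]
    rintro ⟨a, ha, hac⟩
    have : a = c := MulAction.injective g hac
    exact h2 (this ▸ ha)

theorem basic_dist_smul_le [Group G] [MulAction G V]
    (hact : ∀ (g : G) (v w : V), Γ.Adj v w → Γ.Adj (g • v) (g • w)) (g : G) (v w : V)
    (hr : Γ.Reachable v w) : Γ.dist (g • v) (g • w) ≤ Γ.dist v w := by
  obtain ⟨p, hp⟩ := hr.exists_walk_length_eq_dist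
  obtain ⟨p', h1, _⟩ := basic_walk_smul hact g p
  have := SimpleGraph.dist_le p'
  omega

theorem basic_reach [Group G] [MulAction G V]
    (hact : ∀ (g : G) (v w : V), Γ.Adj v w → Γ.Adj (g • v) (g • w)) (g : G) (v w : V)
    (hr : Γ.Reachable v w) : Γ.Reachable (g • v) (g • w) := by
  obtain ⟨p⟩ := hr
  obtain ⟨p', _, _⟩ := basic_walk_smul hact g p
  exact ⟨p'⟩

theorem dist_smul [Group G] [MulAction G V]
    (hact : ∀ (g : G) (v w : V), Γ.Adj v w → Γ.Adj (g • v) (g • w)) (g : G) (v w : V) :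
    Γ.dist (g • v) (g • w) = Γ.dist v w := by
  by_cases hr : Γ.Reachable v w
  · apply le_antisymm
    · exact basic_dist_smul_le hact g v w hr
    · have := basic_dist_smul_le hact g⁻¹ (g • v) (g • w) (basic_reach hact g v w hr)
      simpa using this
  · have hr' : ¬ Γ.Reachable (g • v) (g • w) := by
      intro h
      apply hr
      have := basic_reach hact g⁻¹ _ _ h
      simpa using this
    rw [SimpleGraph.dist_eq_zero_of_not_reachable hr, SimpleGraph.dist_eq_zero_of_not_reachable hr']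

theorem IsGeo.smul [Group G] [MulAction G V]
    (hact : ∀ (g : G) (v w : V), Γ.Adj v w → Γ.Adj (g • v) (g • w)) (g : G) {p : ℕ → V} {n : ℕ}
    {x y : V} (h : IsGeo Γ p n x y) : IsGeo Γ (fun i => g • p i) n (g • x) (g • y) := by
  refine ⟨?_, ?_, ?_⟩
  · intro i j hij hj
    show Γ.dist (g • p i) (g • p j) = j - i
    rw [dist_smul hact]
    exact h.geo i j hij hj
  · show g • p 0 = g • x
    rw [h.start]
  · show g • p n = g • y
    rw [h.fin]

end Pool.Agent.Lib.MP_7e344a_al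
end

section

/-!
# MP_7e344a_al: T08, guessing geodesics
-/

set_option autoImplicit false

namespace Pool.Agent.Lib.MP_7e344a_al

section Guess

variable {V : Type} {Γ : SimpleGraph V} {L : V → V → Set V} {h : ℕ}

/-- Points of `L` are logarithmically close to paths. -/
theorem guess_dyadic (hc : Γ.Connected)
    (h2 : ∀ x y, Γ.dist x y ≤ 1 → ∀ p ∈ L x y, Γ.dist x p ≤ h)
    (h3 : ∀ x y z, ∀ p ∈ L x y, ∃ q, (q ∈ L x z ∨ q ∈ L z y) ∧ Γ.dist p q ≤ h) (k : ℕ) :
    ∀ (x : ℕ → V) (n : ℕ), n ≤ 2 ^ k → (∀ i < n, Γ.dist (x i) (x (i + 1)) ≤ 1) →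
      ∀ p ∈ L (x 0) (x n), ∃ i ≤ n, Γ.dist (x i) p ≤ h * (k + 1) := by
  induction k with
  | zero =>
    intro x n hn hx p hp
    refine ⟨0, Nat.zero_le _, ?_⟩
    have h01 : Γ.dist (x 0) (x n) ≤ 1 := by
      rcases Nat.eq_zero_or_pos n with rfl | hpos
      · rw [SimpleGraph.dist_self]; exact Nat.zero_le _
      · have : n = 1 := by simp at hn; omega
        subst this
        exact hx 0 (by omega)
    simpa using h2 _ _ h01 p hp
  | succ k ih =>
    intro x n hn hx p hp
    have hpow : 2 ^ (k + 1) = 2 ^ k + 2 ^ k := by ring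
    obtain ⟨q, hq, hpq⟩ := h3 (x 0) (x n) (x (n / 2)) p hp
    rcases hq with hq | hq
    · obtain ⟨i, hi, hd⟩ := ih x (n / 2) (by omega) (fun i hi => hx i (by omega)) q hq
      refine ⟨i, by omega, ?_⟩
      have := hc.dist_triangle (u := x i) (v := q) (w := p)
      rw [SimpleGraph.dist_comm (u := q) (v := p)] at this
      calc Γ.dist (x i) p ≤ h * (k + 1) + h := by omega
        _ = h * (k + 1 + 1) := by ring
    · obtain ⟨i, hi, hd⟩ := ih (fun j => x (n / 2 + j)) (n - n / 2) (by omega)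
        (fun i hi => by
          have := hx (n / 2 + i) (by omega)
          simpa [Nat.add_assoc] using this) q (by
          have e : n / 2 + (n - n / 2) = n := by omega
          simpa [e] using hq)
      refine ⟨n / 2 + i, by omega, ?_⟩
      have := hc.dist_triangle (u := x (n / 2 + i)) (v := q) (w := p)
      rw [SimpleGraph.dist_comm (u := q) (v := p)] at this
      calc Γ.dist (x (n / 2 + i)) p ≤ h * (k + 1) + h := by
            have := hd
            omega
        _ = h * (k + 1 + 1) := by ring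

/-- the numerical estimate -/
theorem guess_num (h t : ℕ) (ht : 80 * (h + 1) ^ 2 ≤ t) :
    ∃ k : ℕ, 4 * t + 4 * h + 2 ≤ 2 ^ k ∧ 2 * h + h * (k + 1) < t := by
  obtain ⟨H, rfl⟩ : ∃ H, H = h + 1 := ⟨_, rfl⟩
  set m := t / (4 * (h + 1)) with hm
  have hpos : 0 < 4 * (h + 1) := by omega
  have hm1 : 4 * (h + 1) * m ≤ t := Nat.mul_div_le t _
  have hm2 : t < 4 * (h + 1) * (m + 1) := by
    have := Nat.lt_mul_div_succ t hpos
    simpa [hm] using this
  have hm3 : 20 * (h + 1) ≤ m := by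
    rw [hm, Nat.le_div_iff_mul_le hpos]
    calc 20 * (h + 1) * (4 * (h + 1)) = 80 * (h + 1) ^ 2 := by ring
      _ ≤ t := ht
  refine ⟨2 * m, ?_, ?_⟩
  · have h1 : m + 1 ≤ 2 ^ m := Nat.lt_two_pow_self
    calc 4 * t + 4 * h + 2 ≤ 20 * (h + 1) * (m + 1) := by nlinarith
      _ ≤ (m + 1) * (m + 1) := Nat.mul_le_mul_right _ (by omega)
      _ ≤ 2 ^ m * 2 ^ m := Nat.mul_le_mul h1 h1
      _ = 2 ^ (2 * m) := by rw [two_mul, pow_add]
  · nlinarith

/-- Points of `L` are close to geodesics. -/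
theorem guess_close (hc : Γ.Connected)
    (h2 : ∀ x y, Γ.dist x y ≤ 1 → ∀ p ∈ L x y, Γ.dist x p ≤ h)
    (h3 : ∀ x y z, ∀ p ∈ L x y, ∃ q, (q ∈ L x z ∨ q ∈ L z y) ∧ Γ.dist p q ≤ h)
    (g : ℕ → V) (n : ℕ) (x y : V) (hg : IsGeo Γ g n x y) (p : V) (hp : p ∈ L x y) :
    ∃ i ≤ n, Γ.dist (g i) p ≤ 80 * (h + 1) ^ 2 := by
  classical
  -- the statement for geodesics of length at most `N`
  have key : ∃ t : ℕ, ∀ (g : ℕ → V) (n' : ℕ) (x y : V), n' ≤ n → IsGeo Γ g n' x y →
      ∀ p ∈ L x y, ∃ i ≤ n', Γ.dist (g i) p ≤ t := by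
    refine ⟨h * (n + 1), ?_⟩
    intro g n' x y hn' hg p hp
    have h1 : n' ≤ 2 ^ n := hn'.trans (Nat.lt_two_pow_self).le
    exact guess_dyadic hc h2 h3 n g n' h1 (fun i hi => by
      rw [hg.geo i (i + 1) (by omega) (by omega)]; omega) p (by
        rw [hg.start, hg.fin]; exact hp)
  obtain ⟨t, ht, hmin⟩ : ∃ t : ℕ, (∀ (g : ℕ → V) (n' : ℕ) (x y : V), n' ≤ n →
      IsGeo Γ g n' x y → ∀ p ∈ L x y, ∃ i ≤ n', Γ.dist (g i) p ≤ t) ∧
      ∀ s < t, ¬ ∀ (g : ℕ → V) (n' : ℕ) (x y : V), n' ≤ n → IsGeo Γ g n' x y →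
        ∀ p ∈ L x y, ∃ i ≤ n', Γ.dist (g i) p ≤ s :=
    ⟨Nat.find key, Nat.find_spec key, fun s hs => Nat.find_min key hs⟩
  suffices hsuff : t ≤ 80 * (h + 1) ^ 2 by
    obtain ⟨i, hi, hd⟩ := ht g n x y le_rfl hg p hp
    exact ⟨i, hi, hd.trans hsuff⟩
  by_contra hlt
  rw [not_le] at hlt
  obtain ⟨k, hk1, hk2⟩ := guess_num h t hlt.le
  have hbig : 2 * h < t := by
    have := Nat.zero_le (h * (k + 1))
    omega
  apply hmin (t - 1) (by omega)
  intro g n' x y hn' hg p hp
  by_contra hcon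
  push Not at hcon
  have hfar : ∀ i ≤ n', t ≤ Γ.dist (g i) p := fun i hi => by
    have := hcon i hi
    omega
  obtain ⟨i, hi, hd⟩ := ht g n' x y hn' hg p hp
  obtain ⟨s, hs⟩ : ∃ s, s = 2 * t + 2 * h + 1 := ⟨_, rfl⟩
  obtain ⟨a, ha⟩ : ∃ a, a = i - s := ⟨_, rfl⟩
  obtain ⟨b, hb⟩ : ∃ b, b = min (i + s) n' := ⟨_, rfl⟩
  have hai : a ≤ i := by omega
  have hib : i ≤ b := by omega
  have hbn : b ≤ n' := by omega
  have hx0 := hg.start
  have hyn := hg.fin
  -- first cut
  obtain ⟨q1, hq1, hpq1⟩ := h3 x y (g a) p hp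
  rcases hq1 with hq1 | hq1
  · rcases Nat.eq_zero_or_pos a with ha0 | hapos
    · rw [ha0, hx0] at hq1
      have h4 := h2 x x (by rw [SimpleGraph.dist_self]; omega) q1 hq1
      have h5 := hfar 0 (Nat.zero_le _)
      rw [hx0] at h5
      have h6 := hc.dist_triangle (u := x) (v := q1) (w := p)
      rw [SimpleGraph.dist_comm (u := q1) (v := p)] at h6
      omega
    · obtain ⟨j, hj, hdj⟩ := ht g a x (g a) (by omega) (hg.take (by omega)) q1 hq1
      have h4 := hg.geo j i (by omega) hi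
      have h5 := hc.dist_triangle (u := g j) (v := q1) (w := g i)
      have h6 := hc.dist_triangle (u := q1) (v := p) (w := g i)
      rw [SimpleGraph.dist_comm (u := q1) (v := p), SimpleGraph.dist_comm (u := p) (v := g i)] at h6
      omega
  · -- second cut
    obtain ⟨q2, hq2, hq12⟩ := h3 (g a) y (g b) q1 hq1
    rcases hq2 with hq2 | hq2
    · obtain ⟨j, hj, hdj⟩ := guess_dyadic hc h2 h3 k (fun j => g (a + j)) (b - a) (by omega)
        (fun j hj => by
          have := hg.geo (a + j) (a + j + 1) (by omega) (by omega)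
          simp only [← Nat.add_assoc]
          rw [this]; omega) q2 (by
          have e : a + (b - a) = b := by omega
          simpa [e] using hq2)
      have h4 := hfar (a + j) (by omega)
      have h5 := hc.dist_triangle (u := g (a + j)) (v := q2) (w := p)
      have h6 := hc.dist_triangle (u := q2) (v := q1) (w := p)
      rw [SimpleGraph.dist_comm (u := q2) (v := q1), SimpleGraph.dist_comm (u := q1) (v := p)] at h6
      omega
    · rcases Nat.lt_or_ge b n' with hbn' | hbn'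
      · have hgeo := hg.drop hbn
        rw [show g b = g b from rfl] at hgeo
        obtain ⟨j, hj, hdj⟩ := ht _ (n' - b) (g b) y (by omega) hgeo q2 hq2
        have h4 := hg.geo i (b + j) (by omega) (by omega)
        have h5 := hc.dist_triangle (u := g i) (v := p) (w := g (b + j))
        have h6 := hc.dist_triangle (u := p) (v := q1) (w := g (b + j))
        have h7 := hc.dist_triangle (u := q1) (v := q2) (w := g (b + j))
        rw [SimpleGraph.dist_comm (u := q2) (v := g (b + j))] at h7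
        omega
      · have hb' : b = n' := by omega
        rw [hb', hyn] at hq2
        have h4 := h2 y y (by rw [SimpleGraph.dist_self]; omega) q2 hq2
        have h5 := hfar n' le_rfl
        rw [hyn] at h5
        have h6 := hc.dist_triangle (u := y) (v := q2) (w := p)
        have h7 := hc.dist_triangle (u := q2) (v := q1) (w := p)
        rw [SimpleGraph.dist_comm (u := q2) (v := q1), SimpleGraph.dist_comm (u := q1) (v := p)] at h7
        have h8 : 3 * h < t := by
          have : 0 < k + 1 := by omega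
          have := Nat.le_mul_of_pos_right h this
          omega
        omega

/-- Geodesics are close to `L`. -/
theorem guess_back (hc : Γ.Connected) {R : ℕ}
    (h1 : ∀ x y, ∃ (c : ℕ → V) (n : ℕ), c 0 = x ∧ c n = y ∧ (∀ i ≤ n, c i ∈ L x y) ∧
      ∀ i < n, Γ.dist (c i) (c (i + 1)) ≤ h)
    (hR : ∀ (g : ℕ → V) (n : ℕ) (x y : V), IsGeo Γ g n x y → ∀ p ∈ L x y,
      ∃ i ≤ n, Γ.dist (g i) p ≤ R)
    (g : ℕ → V) (l : ℕ) (x y : V) (hg : IsGeo Γ g l x y) (i : ℕ) (hi : i ≤ l) :
    ∃ c ∈ L x y, Γ.dist (g i) c ≤ 3 * R + h := by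
  classical
  obtain ⟨c, n, hc0, hcn, hcL, hcd⟩ := h1 x y
  have hex : ∃ j, j ≤ n ∧ ∃ a, i ≤ a ∧ a ≤ l ∧ Γ.dist (g a) (c j) ≤ R := by
    refine ⟨n, le_rfl, l, hi, le_rfl, ?_⟩
    rw [hcn, hg.fin, SimpleGraph.dist_self]
    exact Nat.zero_le _
  obtain ⟨j, ⟨hjn, a, hia, hal, hda⟩, hmin⟩ : ∃ j, (j ≤ n ∧ ∃ a, i ≤ a ∧ a ≤ l ∧
      Γ.dist (g a) (c j) ≤ R) ∧ ∀ j' < j, ¬ (j' ≤ n ∧ ∃ a, i ≤ a ∧ a ≤ l ∧
      Γ.dist (g a) (c j') ≤ R) := ⟨Nat.find hex, Nat.find_spec hex, fun j' hj' => Nat.find_min hex hj'⟩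
  refine ⟨c j, hcL j hjn, ?_⟩
  have e1 := hg.geo i a hia hal
  rcases Nat.eq_zero_or_pos j with hj0 | hjpos
  · rw [hj0, hc0, ← hg.start] at hda ⊢
    have e2 := hg.geo 0 a (Nat.zero_le _) hal
    have e3 := hg.geo 0 i (Nat.zero_le _) hi
    rw [SimpleGraph.dist_comm] at hda ⊢
    omega
  · obtain ⟨a', ha'l, hda'⟩ := hR g l x y hg (c (j - 1)) (hcL _ (by omega))
    have ha'i : a' < i := by
      by_contra hcon
      exact hmin (j - 1) (by omega) ⟨by omega, a', by omega, ha'l, hda'⟩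
    have e2 := hg.geo a' a (by omega) hal
    have e3 := hcd (j - 1) (by omega)
    rw [show j - 1 + 1 = j by omega] at e3
    have e4 := hc.dist_triangle (u := g a') (v := c (j - 1)) (w := g a)
    have e5 := hc.dist_triangle (u := c (j - 1)) (v := c j) (w := g a)
    rw [SimpleGraph.dist_comm (u := c j) (v := g a)] at e5
    have e6 := hc.dist_triangle (u := g i) (v := g a) (w := c j)
    omega

end Guess

/-- T08: guessing geodesics (Bowditch, Masur–Schleimer). -/
theorem guess (h : ℕ) : ∃ δ : ℕ, ∀ (V : Type) (Γ : SimpleGraph V) (L : V → V → Set V),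
    Γ.Connected →
    (∀ x y, ∃ (c : ℕ → V) (n : ℕ), c 0 = x ∧ c n = y ∧ (∀ i ≤ n, c i ∈ L x y) ∧
      ∀ i < n, Γ.dist (c i) (c (i + 1)) ≤ h) →
    (∀ x y, Γ.dist x y ≤ 1 → ∀ p ∈ L x y, Γ.dist x p ≤ h) →
    (∀ x y z, ∀ p ∈ L x y, ∃ q, (q ∈ L x z ∨ q ∈ L z y) ∧ Γ.dist p q ≤ h) →
    Slim Γ δ := by
  obtain ⟨R, hRdef⟩ : ∃ R, R = 80 * (h + 1) ^ 2 := ⟨_, rfl⟩
  refine ⟨4 * R + 2 * h, ?_⟩
  intro V Γ L hc h1 h2 h3
  have hR : ∀ (g : ℕ → V) (n : ℕ) (x y : V), IsGeo Γ g n x y → ∀ p ∈ L x y,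
      ∃ i ≤ n, Γ.dist (g i) p ≤ R := by
    intro g n x y hg p hp
    rw [hRdef]
    exact guess_close hc h2 h3 g n x y hg p hp
  intro p q r l m n x y z hp hq hr i hi
  obtain ⟨c, hcL, hdc⟩ := guess_back hc h1 hR p l x y hp i hi
  obtain ⟨q', hq', hdq⟩ := h3 x y z c hcL
  have e1 := hc.dist_triangle (u := p i) (v := c) (w := q')
  rcases hq' with hq' | hq'
  · right
    obtain ⟨k, hk, hdk⟩ := hR r n x z hr q' hq'
    refine ⟨k, hk, ?_⟩
    have e2 := hc.dist_triangle (u := p i) (v := q') (w := r k)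
    rw [SimpleGraph.dist_comm (u := q') (v := r k)] at e2
    omega
  · left
    obtain ⟨k, hk, hdk⟩ := hR _ m z y hq.symm q' hq'
    refine ⟨m - k, by omega, ?_⟩
    have e2 := hc.dist_triangle (u := p i) (v := q') (w := q (m - k))
    rw [SimpleGraph.dist_comm (u := q') (v := q (m - k))] at e2
    omega

end Pool.Agent.Lib.MP_7e344a_al
end

section

/-!
# MP_7e344a_al: T09, slimness of coarse images
-/

set_option autoImplicit false

namespace Pool.Agent.Lib.MP_7e344a_al

/-- coarse Lipschitz property -/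
theorem coarse_lip {V W : Type} {Γ : SimpleGraph V} {Γ' : SimpleGraph W} {f : V → W} {K : ℕ}
    (hc : Γ.Connected) (hc' : Γ'.Connected)
    (hK : ∀ v w, Γ.Adj v w → Γ'.dist (f v) (f w) ≤ K) (v w : V) :
    Γ'.dist (f v) (f w) ≤ K * Γ.dist v w := by
  obtain ⟨p, hp⟩ := IsGeo.exists hc v w
  have key : ∀ i ≤ Γ.dist v w, Γ'.dist (f v) (f (p i)) ≤ K * i := by
    intro i
    induction i with
    | zero =>
      intro _
      rw [hp.start, SimpleGraph.dist_self]
      exact Nat.zero_le _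
    | succ i ih =>
      intro hi
      have h1 := ih (by omega)
      have h2 := hK _ _ (hp.adj (i := i) (by omega))
      have h3 := hc'.dist_triangle (u := f v) (v := f (p i)) (w := f (p (i + 1)))
      calc Γ'.dist (f v) (f (p (i + 1))) ≤ K * i + K := by omega
        _ = K * (i + 1) := by ring
  have := key _ le_rfl
  rwa [hp.fin] at this

/-- T09: slimness of the target of a coarsely Lipschitz, coarsely surjective map such that the
images of geodesics between points with nearby images are bounded. -/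
theorem slim_coarse (δ K M : ℕ) : ∃ δ' : ℕ, ∀ (V W : Type) (Γ : SimpleGraph V)
    (Γ' : SimpleGraph W) (f : V → W), Γ.Connected → Slim Γ δ → Γ'.Connected →
    (∀ w, ∃ v, Γ'.dist w (f v) ≤ 1) → (∀ v w, Γ.Adj v w → Γ'.dist (f v) (f w) ≤ K) →
    (∀ v w p n, Γ'.dist (f v) (f w) ≤ 3 → IsGeo Γ p n v w →
      ∀ i ≤ n, Γ'.dist (f v) (f (p i)) ≤ M) → Slim Γ' δ' := by
  obtain ⟨δ', hδ'⟩ := guess (K * δ + K + M + 1)
  refine ⟨δ', ?_⟩
  intro V W Γ Γ' f hc hs hc' hsurj hK hM
  choose σ hσ using hsurj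
  choose g hg using fun a b : W => IsGeo.exists hc (σ a) (σ b)
  apply hδ' W Γ' (fun a b => {a, b} ∪ {w | ∃ i ≤ Γ.dist (σ a) (σ b), w = f (g a b i)}) hc'
  · intro x y
    obtain ⟨n, hn⟩ : ∃ n, n = Γ.dist (σ x) (σ y) := ⟨_, rfl⟩
    have hgxy := hg x y
    rw [← hn] at hgxy
    refine ⟨fun j => if j = 0 then x else if j ≤ n + 1 then f (g x y (j - 1)) else y, n + 2,
      by simp, by simp, ?_, ?_⟩
    · intro i hi
      simp only
      split_ifs with h1 h2
      · exact Or.inl (Or.inl rfl)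
      · exact Or.inr ⟨i - 1, by omega, rfl⟩
      · exact Or.inl (Or.inr rfl)
    · intro i hi
      simp only
      rcases Nat.eq_zero_or_pos i with h0 | h0
      · subst h0
        rw [if_pos rfl, if_neg (show ¬ 0 + 1 = 0 by omega), if_pos (show 0 + 1 ≤ n + 1 by omega)]
        have := hσ x
        rw [show 0 + 1 - 1 = 0 by rfl, hgxy.start]
        omega
      · rw [if_neg (show ¬ i = 0 by omega), if_neg (show ¬ i + 1 = 0 by omega)]
        rcases Nat.lt_or_ge i (n + 1) with h1 | h1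
        · rw [if_pos (show i ≤ n + 1 by omega), if_pos (show i + 1 ≤ n + 1 by omega)]
          have := hK _ _ (hgxy.adj (i := i - 1) (by omega))
          rw [show i - 1 + 1 = i by omega] at this
          rw [show i + 1 - 1 = i by omega]
          omega
        · have h2 : i = n + 1 := by omega
          subst h2
          rw [if_pos (show n + 1 ≤ n + 1 by omega), if_neg (show ¬ n + 1 + 1 ≤ n + 1 by omega),
            show n + 1 - 1 = n by omega, hgxy.fin, SimpleGraph.dist_comm]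
          have := hσ y
          omega
  · intro x y hxy p hp
    rcases hp with (hp | hp) | ⟨i, hi, hp⟩
    · rw [hp, SimpleGraph.dist_self]; exact Nat.zero_le _
    · rw [show p = y from hp]; omega
    · have h1 := hσ x
      have h2 := hσ y
      have h3 := hc'.dist_triangle (u := f (σ x)) (v := x) (w := f (σ y))
      have h4 := hc'.dist_triangle (u := x) (v := y) (w := f (σ y))
      rw [SimpleGraph.dist_comm (u := f (σ x)) (v := x)] at h3
      have h5 := hM _ _ (g x y) _ (by omega) (hg x y) i hi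
      have h6 := hc'.dist_triangle (u := x) (v := f (σ x)) (w := p)
      rw [hp] at h6 ⊢
      omega
  · intro x y z p hp
    rcases hp with (hp | hp) | ⟨i, hi, hp⟩
    · refine ⟨x, Or.inl (Or.inl (Or.inl rfl)), ?_⟩
      rw [show p = x from hp, SimpleGraph.dist_self]; exact Nat.zero_le _
    · refine ⟨y, Or.inr (Or.inl (Or.inr rfl)), ?_⟩
      rw [show p = y from hp, SimpleGraph.dist_self]; exact Nat.zero_le _
    · rcases hs (g x y) _ (g x z) _ _ _ (σ x) (σ y) (σ z) (hg x y) (hg z y).symm (hg x z) i hi with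
        ⟨j, hj, hd⟩ | ⟨k, hk, hd⟩
      · refine ⟨f (g z y (Γ.dist (σ z) (σ y) - j)),
          Or.inr (Or.inr ⟨Γ.dist (σ z) (σ y) - j, Nat.sub_le _ _, rfl⟩), ?_⟩
        have h1 := coarse_lip hc hc' hK (g x y i) (g z y (Γ.dist (σ z) (σ y) - j))
        have h2 : K * Γ.dist (g x y i) (g z y (Γ.dist (σ z) (σ y) - j)) ≤ K * δ :=
          Nat.mul_le_mul_left K hd
        rw [hp]
        omega
      · refine ⟨f (g x z k), Or.inl (Or.inr ⟨k, hk, rfl⟩), ?_⟩
        have h1 := coarse_lip hc hc' hK (g x y i) (g x z k)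
        have h2 : K * Γ.dist (g x y i) (g x z k) ≤ K * δ := Nat.mul_le_mul_left K hd
        rw [hp]
        omega

end Pool.Agent.Lib.MP_7e344a_al
end

section

/-!
# MP_7e344a_al: T10, the four point inequality; additive sequences
-/

set_option autoImplicit false

namespace Pool.Agent.Lib.MP_7e344a_al

variable {V : Type} {Γ : SimpleGraph V}

/-- The four point inequality. -/
def FP (Γ : SimpleGraph V) (κ : ℕ) : Prop := ∀ x y z w : V,
  Γ.dist x y + Γ.dist z w ≤ max (Γ.dist x z + Γ.dist y w) (Γ.dist x w + Γ.dist y z) + κ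

/-- distances of a point of a geodesic from the ends -/
theorem FourPt_split {p : ℕ → V} {n : ℕ} {x y : V} (h : IsGeo Γ p n x y) {i : ℕ} (hi : i ≤ n) :
    Γ.dist x (p i) = i ∧ Γ.dist (p i) y = n - i ∧ Γ.dist x y = n := by
  have h1 := h.geo 0 i (Nat.zero_le _) hi
  have h2 := h.geo i n hi le_rfl
  have h3 := h.geo 0 n (Nat.zero_le _) le_rfl
  rw [h.start] at h1 h3
  rw [h.fin] at h2 h3
  exact ⟨by simpa using h1, h2, by simpa using h3⟩

/-- a point of a geodesic `[x, y]` whose distance from `o` is about the Gromov product -/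
theorem FourPt_mid (hc : Γ.Connected) {δ : ℕ} (hs : Slim Γ δ) (o : V) {p : ℕ → V} {n : ℕ}
    {x y : V} (hp : IsGeo Γ p n x y) :
    ∃ i ≤ n, 2 * Γ.dist o (p i) + n ≤ Γ.dist o x + Γ.dist o y + (4 * δ + 2) := by
  classical
  obtain ⟨q, hq⟩ := IsGeo.exists hc y o
  obtain ⟨r, hr⟩ := IsGeo.exists hc x o
  have hsl := hs p q r n _ _ x y o hp hq hr
  -- the largest index close to `[x, o]`
  have hex : ∃ i ≤ n, (∃ k ≤ Γ.dist x o, Γ.dist (p i) (r k) ≤ δ) ∧
      ∃ i', i ≤ i' ∧ i' ≤ i + 1 ∧ i' ≤ n ∧ ∃ j ≤ Γ.dist y o, Γ.dist (p i') (q j) ≤ δ := by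
    by_contra hcon
    push Not at hcon
    have hall : ∀ i, i ≤ n → ∃ k ≤ Γ.dist x o, Γ.dist (p i) (r k) ≤ δ := by
      intro i
      induction i with
      | zero =>
        intro _
        refine ⟨0, Nat.zero_le _, ?_⟩
        rw [hp.start, hr.start, SimpleGraph.dist_self]
        exact Nat.zero_le _
      | succ i ih =>
        intro hi
        obtain ⟨k, hk, hk'⟩ := ih (by omega)
        have h1 := hcon i (by omega) ⟨k, hk, hk'⟩ (i + 1) (by omega) le_rfl hi
        rcases hsl (i + 1) hi with ⟨j, hj, hj'⟩ | h2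
        · exact absurd hj' (not_le.2 (h1 j hj))
        · exact h2
    obtain ⟨k, hk, hk'⟩ := hall n le_rfl
    have h1 := hcon n le_rfl ⟨k, hk, hk'⟩ n le_rfl (by omega) le_rfl 0 (Nat.zero_le _)
    rw [hp.fin, hq.start, SimpleGraph.dist_self] at h1
    omega
  obtain ⟨i, hi, ⟨k, hk, hk'⟩, i', hi1, hi2, hi3, j, hj, hj'⟩ := hex
  refine ⟨i, hi, ?_⟩
  obtain ⟨a1, a2, a3⟩ := FourPt_split hp hi
  obtain ⟨b1, b2, b3⟩ := FourPt_split hp hi3
  obtain ⟨c1, c2, c3⟩ := FourPt_split hr hk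
  obtain ⟨d1, d2, d3⟩ := FourPt_split hq hj
  have e1 : Γ.dist o (p i) ≤ Γ.dist o (r k) + Γ.dist (r k) (p i) := hc.dist_triangle
  have e2 : Γ.dist x (p i) ≤ Γ.dist x (r k) + Γ.dist (r k) (p i) := hc.dist_triangle
  have e3 : Γ.dist o (p i') ≤ Γ.dist o (q j) + Γ.dist (q j) (p i') := hc.dist_triangle
  have e4 : Γ.dist y (p i') ≤ Γ.dist y (q j) + Γ.dist (q j) (p i') := hc.dist_triangle
  have e5 : Γ.dist o (p i) ≤ Γ.dist o (p i') + Γ.dist (p i') (p i) := hc.dist_triangle
  have e6 := hp.geo i i' hi1 hi3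
  rw [SimpleGraph.dist_comm (u := r k) (v := p i)] at e1 e2
  rw [SimpleGraph.dist_comm (u := q j) (v := p i')] at e3 e4
  rw [SimpleGraph.dist_comm (u := p i') (v := p i)] at e5
  rw [SimpleGraph.dist_comm (u := y) (v := p i')] at e4
  rw [SimpleGraph.dist_comm (u := o) (v := r k)] at e1
  rw [SimpleGraph.dist_comm (u := o) (v := q j)] at e3
  rw [SimpleGraph.dist_comm (u := x) (v := o)] at c2 c3 hk
  rw [SimpleGraph.dist_comm (u := y) (v := o)] at d2 d3 hj
  omega

theorem fp_of_slim (hc : Γ.Connected) {δ : ℕ} (hs : Slim Γ δ) : FP Γ (6 * δ + 2) := by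
  intro x y z w
  obtain ⟨p, hp⟩ := IsGeo.exists hc x y
  obtain ⟨q, hq⟩ := IsGeo.exists hc y z
  obtain ⟨r, hr⟩ := IsGeo.exists hc x z
  obtain ⟨i, hi, him⟩ := FourPt_mid hc hs w hp
  rcases hs p q r _ _ _ x y z hp hq hr i hi with ⟨j, hj, hj'⟩ | ⟨k, hk, hk'⟩
  · obtain ⟨d1, d2, d3⟩ := FourPt_split hq hj
    have e1 : Γ.dist y w ≤ Γ.dist y (q j) + Γ.dist (q j) w := hc.dist_triangle
    have e2 : Γ.dist z w ≤ Γ.dist z (q j) + Γ.dist (q j) w := hc.dist_triangle
    have e3 : Γ.dist (q j) w ≤ Γ.dist (q j) (p i) + Γ.dist (p i) w := hc.dist_triangle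
    rw [SimpleGraph.dist_comm (u := z) (v := q j)] at e2
    rw [SimpleGraph.dist_comm (u := q j) (v := p i), SimpleGraph.dist_comm (u := p i) (v := w)] at e3
    rw [SimpleGraph.dist_comm (u := w) (v := x), SimpleGraph.dist_comm (u := w) (v := y)] at him
    omega
  · obtain ⟨d1, d2, d3⟩ := FourPt_split hr hk
    have e1 : Γ.dist x w ≤ Γ.dist x (r k) + Γ.dist (r k) w := hc.dist_triangle
    have e2 : Γ.dist z w ≤ Γ.dist z (r k) + Γ.dist (r k) w := hc.dist_triangle
    have e3 : Γ.dist (r k) w ≤ Γ.dist (r k) (p i) + Γ.dist (p i) w := hc.dist_triangle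
    rw [SimpleGraph.dist_comm (u := z) (v := r k)] at e2
    rw [SimpleGraph.dist_comm (u := r k) (v := p i), SimpleGraph.dist_comm (u := p i) (v := w)] at e3
    rw [SimpleGraph.dist_comm (u := w) (v := x), SimpleGraph.dist_comm (u := w) (v := y)] at him
    omega

/-- every geodesic polygon with four sides is `2 δ`-slim -/
theorem slim_quad (hc : Γ.Connected) {δ : ℕ} (hs : Slim Γ δ) {p q r t : ℕ → V} {a b c d : ℕ}
    {x y z w : V} (hp : IsGeo Γ p a x w) (hq : IsGeo Γ q b x y) (hr : IsGeo Γ r c y z)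
    (ht : IsGeo Γ t d z w) {i : ℕ} (hi : i ≤ a) :
    (∃ j ≤ b, Γ.dist (p i) (q j) ≤ 2 * δ) ∨ (∃ j ≤ c, Γ.dist (p i) (r j) ≤ 2 * δ) ∨
      ∃ j ≤ d, Γ.dist (p i) (t j) ≤ 2 * δ := by
  obtain ⟨s, hs'⟩ := IsGeo.exists hc w y
  have hs2 := hs'.symm
  rcases hs p s q a _ b x w y hp hs' hq i hi with ⟨j, hj, hj'⟩ | ⟨k, hk, hk'⟩
  · have h1 : j ≤ Γ.dist w y := hj
    have h2 := hs s r (fun i => t (d - i)) _ c d w y z hs' hr ht.symm j h1
    rcases h2 with ⟨k, hk, hk'⟩ | ⟨k, hk, hk'⟩
    · refine Or.inr (Or.inl ⟨k, hk, ?_⟩)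
      have : Γ.dist (p i) (r k) ≤ Γ.dist (p i) (s j) + Γ.dist (s j) (r k) := hc.dist_triangle
      omega
    · refine Or.inr (Or.inr ⟨d - k, Nat.sub_le _ _, ?_⟩)
      have : Γ.dist (p i) (t (d - k)) ≤ Γ.dist (p i) (s j) + Γ.dist (s j) (t (d - k)) :=
        hc.dist_triangle
      have hk'' : Γ.dist (s j) (t (d - k)) ≤ δ := hk'
      omega
  · exact Or.inl ⟨k, hk, by omega⟩

/-- `z` is `C`-additive on the interval `[a, b]`. -/
def AddOn (Γ : SimpleGraph V) (z : ℤ → V) (a b : ℤ) (C : ℕ) : Prop :=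
  ∀ i j k, a ≤ i → i ≤ j → j ≤ k → k ≤ b →
    Γ.dist (z i) (z j) + Γ.dist (z j) (z k) ≤ Γ.dist (z i) (z k) + C

/-- The steps of `z` on `[a, b]` are at most `S`. -/
def StepOn (Γ : SimpleGraph V) (z : ℤ → V) (a b : ℤ) (S : ℕ) : Prop :=
  ∀ i, a ≤ i → i < b → Γ.dist (z i) (z (i + 1)) ≤ S

theorem AddOn.neg {z : ℤ → V} {a b : ℤ} {C : ℕ} (h : AddOn Γ z a b C) :
    AddOn Γ (fun i => z (-i)) (-b) (-a) C := by
  intro i j k hi hij hjk hk
  have h1 := h (-k) (-j) (-i) (by omega) (by omega) (by omega) (by omega)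
  rw [SimpleGraph.dist_comm (u := z (-k)) (v := z (-j)),
    SimpleGraph.dist_comm (u := z (-j)) (v := z (-i)),
    SimpleGraph.dist_comm (u := z (-k)) (v := z (-i))] at h1
  simp only
  omega

theorem StepOn.neg {z : ℤ → V} {a b : ℤ} {S : ℕ} (h : StepOn Γ z a b S) :
    StepOn Γ (fun i => z (-i)) (-b) (-a) S := by
  intro i hi hi'
  have h1 := h (-(i + 1)) (by omega) (by omega)
  have h2 : -(i + 1) + 1 = -i := by ring
  rw [h2, SimpleGraph.dist_comm] at h1
  exact h1

/-- discrete intermediate value theorem -/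
theorem StepOn.ivt (hc : Γ.Connected) {z : ℤ → V} {a b : ℤ} {S T : ℕ} (h : StepOn Γ z a b S)
    (hab : a ≤ b) (hT : T ≤ Γ.dist (z a) (z b)) :
    ∃ i, a ≤ i ∧ i ≤ b ∧ T ≤ Γ.dist (z a) (z i) ∧ Γ.dist (z a) (z i) ≤ T + S := by
  classical
  have hex : ∃ n : ℕ, T ≤ Γ.dist (z a) (z (a + n)) := by
    refine ⟨(b - a).toNat, ?_⟩
    have : a + ((b - a).toNat : ℤ) = b := by omega
    rw [this]
    exact hT
  have hle : Nat.find hex ≤ (b - a).toNat := by
    apply Nat.find_min'
    have : a + ((b - a).toNat : ℤ) = b := by omega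
    rw [this]
    exact hT
  refine ⟨a + (Nat.find hex : ℤ), by omega, by omega, Nat.find_spec hex, ?_⟩
  rcases Nat.eq_zero_or_pos (Nat.find hex) with h0 | h0
  · rw [h0]
    simp
  · obtain ⟨k, hk⟩ : ∃ k, Nat.find hex = k + 1 := ⟨Nat.find hex - 1, by omega⟩
    have h1 := Nat.find_min hex (m := k) (by omega)
    have h2 := h (a + k) (by omega) (by omega)
    rw [hk]
    have h3 : Γ.dist (z a) (z (a + k + 1)) ≤ Γ.dist (z a) (z (a + k)) +
      Γ.dist (z (a + k)) (z (a + k + 1)) := hc.dist_triangle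
    have h4 : a + ((k + 1 : ℕ) : ℤ) = a + k + 1 := by push_cast; ring
    rw [h4]
    omega

/-- a point coarsely between the ends of an additive sequence is near the sequence -/
theorem AddOn.near (hc : Γ.Connected) {κ : ℕ} (hF : FP Γ κ) {z : ℤ → V} {a b : ℤ} {C S E : ℕ}
    (h : AddOn Γ z a b C) (hS : StepOn Γ z a b S) (hab : a ≤ b) {v : V}
    (hv : Γ.dist (z a) v + Γ.dist v (z b) ≤ Γ.dist (z a) (z b) + E) :
    ∃ i, a ≤ i ∧ i ≤ b ∧ Γ.dist v (z i) ≤ C + E + S + κ := by
  obtain ⟨i, h1, h2, h3, h4⟩ := StepOn.ivt (T := min (Γ.dist (z a) v) (Γ.dist (z a) (z b))) hc hS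
    hab (min_le_right _ _)
  refine ⟨i, h1, h2, ?_⟩
  have h5 := hF v (z i) (z a) (z b)
  have h6 := h a i b le_rfl h1 h2 le_rfl
  rw [SimpleGraph.dist_comm (u := v) (v := z a)] at h5
  rw [SimpleGraph.dist_comm (u := z i) (v := z a)] at h5
  have h7 : Γ.dist v (z b) ≤ Γ.dist v (z a) + Γ.dist (z a) (z b) := hc.dist_triangle
  rw [SimpleGraph.dist_comm (u := v) (v := z a)] at h7
  omega

/-- geodesics between points of an additive sequence stay near the sequence -/
theorem AddOn.geo_near (hc : Γ.Connected) {κ : ℕ} (hF : FP Γ κ) {z : ℤ → V} {a b : ℤ} {C S : ℕ}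
    (h : AddOn Γ z a b C) (hS : StepOn Γ z a b S) (hab : a ≤ b) {p : ℕ → V} {n : ℕ}
    (hp : IsGeo Γ p n (z a) (z b)) {t : ℕ} (ht : t ≤ n) :
    ∃ i, a ≤ i ∧ i ≤ b ∧ Γ.dist (p t) (z i) ≤ C + S + κ := by
  obtain ⟨h1, h2, h3⟩ := FourPt_split hp ht
  obtain ⟨i, hi, hi', hi''⟩ := AddOn.near (E := 0) hc hF h hS hab (v := p t) (by omega)
  exact ⟨i, hi, hi', by omega⟩

/-- one sided local to global principle -/
theorem FourPt_claimA {κ : ℕ} (hF : FP Γ κ) {y : ℕ → V} {n C : ℕ}
    (h1 : ∀ i, i < n → Γ.dist (y i) (y (i + 1)) + Γ.dist (y (i + 1)) (y (i + 2)) ≤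
      Γ.dist (y i) (y (i + 2)) + C)
    (h2 : ∀ i, i < n → C + 2 * κ + 1 ≤ Γ.dist (y (i + 1)) (y (i + 2))) :
    ∀ i, i < n → Γ.dist (y 0) (y (i + 1)) + Γ.dist (y (i + 1)) (y (i + 2)) ≤
      Γ.dist (y 0) (y (i + 2)) + C + κ := by
  intro i
  induction i with
  | zero =>
    intro hi
    have := h1 0 hi
    simp only [zero_add] at this ⊢
    omega
  | succ i ih =>
    intro hi
    have h3 := ih (by omega)
    have h4 := h1 (i + 1) hi
    have h5 := h2 i (by omega)
    have h6 := hF (y (i + 1)) (y (i + 3)) (y 0) (y (i + 2))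
    have e1 : i + 1 + 1 = i + 2 := rfl
    have e2 : i + 1 + 2 = i + 3 := rfl
    rw [e1, e2] at h4 ⊢
    rw [SimpleGraph.dist_comm (u := y (i + 1)) (v := y 0),
      SimpleGraph.dist_comm (u := y (i + 3)) (v := y (i + 2)),
      SimpleGraph.dist_comm (u := y (i + 3)) (v := y 0)] at h6
    omega

/-- local to global principle -/
theorem AddOn.of_local (hc : Γ.Connected) {κ : ℕ} (hF : FP Γ κ) {x : ℤ → V} {a b : ℤ} {C : ℕ}
    (h1 : ∀ i, a < i → i < b → Γ.dist (x (i - 1)) (x i) + Γ.dist (x i) (x (i + 1)) ≤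
      Γ.dist (x (i - 1)) (x (i + 1)) + C)
    (h2 : ∀ i, a ≤ i → i < b → C + 2 * κ + 1 ≤ Γ.dist (x i) (x (i + 1))) :
    AddOn Γ x a b (C + 2 * κ) := by
  -- upward claim
  have hA : ∀ i j : ℤ, a ≤ i → i < j → j < b →
      Γ.dist (x i) (x j) + Γ.dist (x j) (x (j + 1)) ≤ Γ.dist (x i) (x (j + 1)) + C + κ := by
    intro i j hi hij hj
    have h3 := FourPt_claimA hF (y := fun l => x (i + l)) (n := (j - i).toNat) (C := C)
      (by
        intro l hl
        have h4 := h1 (i + l + 1) (by omega) (by omega)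
        have e1 : i + (l : ℤ) + 1 - 1 = i + l := by ring
        have e2 : i + ((l + 1 : ℕ) : ℤ) = i + l + 1 := by push_cast; ring
        have e3 : i + ((l + 2 : ℕ) : ℤ) = i + l + 1 + 1 := by push_cast; ring
        simp only [e2, e3]
        rw [e1] at h4
        exact h4)
      (by
        intro l hl
        have h4 := h2 (i + l + 1) (by omega) (by omega)
        have e2 : i + ((l + 1 : ℕ) : ℤ) = i + l + 1 := by push_cast; ring
        have e3 : i + ((l + 2 : ℕ) : ℤ) = i + l + 1 + 1 := by push_cast; ring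
        simp only [e2, e3]
        exact h4) ((j - i).toNat - 1) (by omega)
    have e2 : i + (((j - i).toNat - 1 + 1 : ℕ) : ℤ) = j := by omega
    have e3 : i + (((j - i).toNat - 1 + 2 : ℕ) : ℤ) = j + 1 := by omega
    simp only [e2, e3, Nat.cast_zero, add_zero] at h3
    exact h3
  -- downward claim
  have hB : ∀ j k : ℤ, a < j → j < k → k ≤ b →
      Γ.dist (x k) (x j) + Γ.dist (x j) (x (j - 1)) ≤ Γ.dist (x k) (x (j - 1)) + C + κ := by
    intro j k hj hjk hk
    have h3 := FourPt_claimA hF (y := fun l => x (k - l)) (n := (k - j).toNat) (C := C)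
      (by
        intro l hl
        have h4 := h1 (k - l - 1) (by omega) (by omega)
        have e1 : k - (l : ℤ) - 1 + 1 = k - l := by ring
        have e2 : k - ((l + 1 : ℕ) : ℤ) = k - l - 1 := by push_cast; ring
        have e3 : k - ((l + 2 : ℕ) : ℤ) = k - l - 1 - 1 := by push_cast; ring
        simp only [e2, e3]
        rw [e1] at h4
        rw [SimpleGraph.dist_comm (u := x (k - l)) (v := x (k - l - 1)),
          SimpleGraph.dist_comm (u := x (k - l - 1)) (v := x (k - l - 1 - 1)),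
          SimpleGraph.dist_comm (u := x (k - l)) (v := x (k - l - 1 - 1))]
        omega)
      (by
        intro l hl
        have h4 := h2 (k - l - 1 - 1) (by omega) (by omega)
        have e1 : k - (l : ℤ) - 1 - 1 + 1 = k - l - 1 := by ring
        have e2 : k - ((l + 1 : ℕ) : ℤ) = k - l - 1 := by push_cast; ring
        have e3 : k - ((l + 2 : ℕ) : ℤ) = k - l - 1 - 1 := by push_cast; ring
        simp only [e2, e3]
        rw [e1] at h4
        rw [SimpleGraph.dist_comm (u := x (k - l - 1)) (v := x (k - l - 1 - 1))]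
        exact h4) ((k - j).toNat - 1) (by omega)
    have e2 : k - (((k - j).toNat - 1 + 1 : ℕ) : ℤ) = j := by omega
    have e3 : k - (((k - j).toNat - 1 + 2 : ℕ) : ℤ) = j - 1 := by omega
    simp only [e2, e3, Nat.cast_zero, sub_zero] at h3
    exact h3
  intro i j k hi hij hjk hk
  rcases hij.eq_or_lt with rfl | hij
  · rw [SimpleGraph.dist_self]
    omega
  rcases hjk.eq_or_lt with rfl | hjk
  · rw [SimpleGraph.dist_self]
    omega
  have h3 := hB j k (by omega) hjk hk
  have h4 := hF (x (j - 1)) (x k) (x i) (x j)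
  have h5 := h2 (j - 1) (by omega) (by omega)
  have e1 : j - 1 + 1 = j := by ring
  rw [e1] at h5
  rw [SimpleGraph.dist_comm (u := x k) (v := x j), SimpleGraph.dist_comm (u := x j) (v := x (j - 1)),
    SimpleGraph.dist_comm (u := x k) (v := x (j - 1))] at h3
  rw [SimpleGraph.dist_comm (u := x (j - 1)) (v := x i), SimpleGraph.dist_comm (u := x k) (v := x j),
    SimpleGraph.dist_comm (u := x k) (v := x i)] at h4
  have h7 : i = j - 1 ∨ i < j - 1 := by omega
  rcases h7 with h7 | h7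
  · subst h7
    rw [SimpleGraph.dist_self] at h4
    omega
  · have h6 := hA i (j - 1) hi h7 (by omega)
    rw [e1] at h6
    omega

/-- lower bound for the distance of the ends -/
theorem AddOn.sum_le {x : ℤ → V} {a : ℤ} {n : ℕ} {C : ℕ} (h : AddOn Γ x a (a + n) C) :
    ∑ l ∈ Finset.range n, Γ.dist (x (a + l)) (x (a + l + 1)) ≤
      Γ.dist (x a) (x (a + n)) + n * C := by
  induction n with
  | zero => simp
  | succ n ih =>
    have h1 := ih (fun i j k hi hij hjk hk => h i j k hi hij hjk (by push_cast; omega))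
    have h2 := h a (a + n) (a + n + 1) le_rfl (by omega) (by omega) (by push_cast; omega)
    rw [Finset.sum_range_succ]
    have e1 : a + ((n + 1 : ℕ) : ℤ) = a + n + 1 := by push_cast; ring
    rw [e1]
    have e2 : (n + 1) * C = n * C + C := by ring
    rw [e2]
    omega

/-- projection to an additive sequence, one point, upper half -/
theorem FourPt_proj1 (hc : Γ.Connected) {κ : ℕ} (hF : FP Γ κ) {z : ℤ → V} {C S : ℕ}
    (h : ∀ a b, AddOn Γ z a b C) (hS : ∀ a b, StepOn Γ z a b S) {u : V} {m : ℤ}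
    (hm : ∀ k, Γ.dist u (z m) ≤ Γ.dist u (z k)) (k : ℤ) (hk : m ≤ k) :
    Γ.dist u (z m) + Γ.dist (z m) (z k) ≤ Γ.dist u (z k) + (2 * (C + S + κ) + 1) := by
  have t1 : Γ.dist u (z k) ≤ Γ.dist u (z m) + Γ.dist (z m) (z k) := hc.dist_triangle
  have t2 := hm k
  obtain ⟨l, h1, h2, h3, h4⟩ := StepOn.ivt
    (T := (Γ.dist u (z m) + Γ.dist (z m) (z k) - Γ.dist u (z k)) / 2) hc (hS m k) hk (by omega)
  have h5 := hF u (z l) (z m) (z k)
  have h6 := h m k m l k le_rfl h1 h2 le_rfl
  have h7 := hm l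
  rw [SimpleGraph.dist_comm (u := z l) (v := z m)] at h5
  omega

/-- projection to an additive sequence, one point -/
theorem proj1 (hc : Γ.Connected) {κ : ℕ} (hF : FP Γ κ) {z : ℤ → V} {C S : ℕ}
    (h : ∀ a b, AddOn Γ z a b C) (hS : ∀ a b, StepOn Γ z a b S) {u : V} {m : ℤ}
    (hm : ∀ k, Γ.dist u (z m) ≤ Γ.dist u (z k)) (k : ℤ) :
    Γ.dist u (z m) + Γ.dist (z m) (z k) ≤ Γ.dist u (z k) + (2 * (C + S + κ) + 1) := by
  rcases le_total m k with hk | hk
  · exact FourPt_proj1 hc hF h hS hm k hk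
  · have h1 := FourPt_proj1 (z := fun i => z (-i)) (m := -m) (u := u) hc hF
      (fun a b => by
        have := (h (-b) (-a)).neg
        simpa using this)
      (fun a b => by
        have := (hS (-b) (-a)).neg
        simpa using this)
      (fun k => by
        have := hm (-k)
        simpa using this) (-k) (by omega)
    simpa using h1

/-- projection to an additive sequence, two points -/
theorem proj2 (hc : Γ.Connected) {κ : ℕ} (hF : FP Γ κ) {z : ℤ → V} {C S : ℕ}
    (h : ∀ a b, AddOn Γ z a b C) (hS : ∀ a b, StepOn Γ z a b S) {u u' : V} {m m' : ℤ}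
    (hm : ∀ k, Γ.dist u (z m) ≤ Γ.dist u (z k)) (hm' : ∀ k, Γ.dist u' (z m') ≤ Γ.dist u' (z k))
    (hfar : 4 * (C + S + κ) + κ + 2 < 2 * Γ.dist (z m) (z m')) :
    Γ.dist u (z m) + Γ.dist (z m) (z m') + Γ.dist (z m') u' ≤
      Γ.dist u u' + (4 * (C + S + κ) + κ + 2) := by
  have h1 := proj1 hc hF h hS hm m'
  have h2 := proj1 hc hF h hS hm' m
  have h3 := hF u (z m') u' (z m)
  rw [SimpleGraph.dist_comm (u := z m') (v := z m)] at h2 h3
  rw [SimpleGraph.dist_comm (u := u') (v := z m')] at h2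
  omega

end Pool.Agent.Lib.MP_7e344a_al
end

section

/-!
# MP_7e344a_al: definitions for module G (coset graphs)
-/

set_option autoImplicit false

namespace Pool.Agent.Lib.MP_7e344a_al

variable {G I : Type} [Group G]

/-- Vertices of the coset graph: group elements and cosets. -/
abbrev CV (G : Type) [Group G] {I : Type} (H : I → Subgroup G) : Type := G ⊕ (Σ i, G ⧸ H i)

/-- the vertex of a group element -/
def elt (H : I → Subgroup G) (g : G) : CV G H := Sum.inl g

/-- the vertex of the coset `g H i` -/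
def cos (H : I → Subgroup G) (i : I) (g : G) : CV G H := Sum.inr ⟨i, QuotientGroup.mk g⟩

/-- The coset graph: every group element is adjacent to its cosets. -/
def Inc (H : I → Subgroup G) : SimpleGraph (CV G H) where
  Adj a b := match a, b with
    | Sum.inl g, Sum.inr c => (QuotientGroup.mk g : G ⧸ H c.1) = c.2
    | Sum.inr c, Sum.inl g => (QuotientGroup.mk g : G ⧸ H c.1) = c.2
    | Sum.inl _, Sum.inl _ => False
    | Sum.inr _, Sum.inr _ => False
  symm := ⟨by
    rintro (g | c) (g' | c') h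
    · exact h
    · exact h
    · exact h
    · exact h⟩
  loopless := ⟨by
    rintro (g | c) h
    · exact h
    · exact h⟩

variable (H : I → Subgroup G)

theorem cv_cases (v : CV G H) : (∃ g, v = elt H g) ∨ ∃ i g, v = cos H i g := by
  rcases v with g | ⟨i, c⟩
  · exact Or.inl ⟨g, rfl⟩
  · obtain ⟨g, rfl⟩ := QuotientGroup.mk_surjective c
    exact Or.inr ⟨i, g, rfl⟩

theorem elt_inj {g g' : G} : elt H g = elt H g' ↔ g = g' :=
  ⟨fun h => Sum.inl_injective h, fun h => h ▸ rfl⟩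

theorem elt_ne_cos (g : G) (i : I) (u : G) : elt H g ≠ cos H i u := by
  intro h
  exact absurd h (by simp [elt, cos])

theorem cos_eq_iff {i j : I} {u v : G} : cos H i u = cos H j v ↔ i = j ∧ u⁻¹ * v ∈ H i := by
  constructor
  · intro h
    have h' := Sum.inr_injective h
    have hij : i = j := congrArg Sigma.fst h'
    subst hij
    refine ⟨rfl, ?_⟩
    have h'' : (QuotientGroup.mk u : G ⧸ H i) = QuotientGroup.mk v := by
      simpa using h'
    exact QuotientGroup.eq.1 h''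
  · rintro ⟨rfl, h⟩
    have : (QuotientGroup.mk u : G ⧸ H i) = QuotientGroup.mk v := QuotientGroup.eq.2 h
    simp only [cos, this]

theorem adj_elt_cos {g u : G} {i : I} : (Inc H).Adj (elt H g) (cos H i u) ↔ g⁻¹ * u ∈ H i := by
  change (QuotientGroup.mk g : G ⧸ H i) = QuotientGroup.mk u ↔ _
  exact QuotientGroup.eq

theorem adj_self (g : G) (i : I) : (Inc H).Adj (elt H g) (cos H i g) := by
  rw [adj_elt_cos]; simp [(H i).one_mem]

theorem not_adj_elt_elt (g g' : G) : ¬ (Inc H).Adj (elt H g) (elt H g') := fun h => h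

theorem not_adj_cos_cos (i j : I) (u v : G) : ¬ (Inc H).Adj (cos H i u) (cos H j v) := fun h => h

theorem smul_elt (g h : G) : g • elt H h = elt H (g * h) := rfl

theorem smul_cos (g : G) (i : I) (u : G) : g • cos H i u = cos H i (g * u) := rfl

theorem inc_act (g : G) (v w : CV G H) (h : (Inc H).Adj v w) : (Inc H).Adj (g • v) (g • w) := by
  rcases cv_cases H v with ⟨a, rfl⟩ | ⟨i, a, rfl⟩ <;> rcases cv_cases H w with ⟨b, rfl⟩ | ⟨j, b, rfl⟩
  · exact (not_adj_elt_elt H _ _ h).elim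
  · rw [smul_elt, smul_cos, adj_elt_cos]
    rw [adj_elt_cos] at h
    simpa [mul_assoc] using h
  · rw [smul_elt, smul_cos, SimpleGraph.adj_comm, adj_elt_cos]
    rw [SimpleGraph.adj_comm, adj_elt_cos] at h
    simpa [mul_assoc] using h
  · exact (not_adj_cos_cos H _ _ _ _ h).elim

/-- The coset graph is connected and hyperbolic, and at the cosets of the subgroups `H i`, `i ∈ T`,
there are only finitely many small angles. -/
structure Good (H : I → Subgroup G) (T : Set I) : Prop where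
  conn : (Inc H).Connected
  slim : ∃ δ, Slim (Inc H) δ
  lf : ∀ i ∈ T, ∀ θ : ℕ, {a : G | a ∈ H i ∧ AngLE (Inc H) (cos H i 1) (elt H 1) (elt H a) θ}.Finite

/-- torsion free subgroup -/
def TF (K : Subgroup G) : Prop := ∀ a ∈ K, ∀ k : ℕ, 0 < k → a ^ k = 1 → a = 1

/-- `G'` is the free product of `G` and the infinite cyclic group generated by `x`; `γ z` is the
initial element of `G` of the normal form of `z`, and `St z` says that the normal form of `z`
starts with the letter `x`. -/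
structure FreeExt {G G' : Type} [Group G] [Group G'] (ι : G →* G') (x : G') (γ : G' → G)
    (St : G' → Prop) : Prop where
  lift : ∀ (K : Type) [Group K] (f : G →* K) (t : K), ∃ φ : G' →* K, (∀ g, φ (ι g) = f g) ∧
    φ x = t
  gen : ∀ K : Subgroup G', (∀ g, ι g ∈ K) → x ∈ K → K = ⊤
  gate_of : ∀ g, γ (ι g) = g
  gate_mul : ∀ g z, γ (ι g * z) = g * γ z
  gate_right : ∀ z g, z ∉ ι.range → γ (z * ι g) = γ z
  gate_x : ∀ z, γ (z * x) = γ z
  St_one : ¬ St 1
  St_x : St x
  St_right : ∀ z g, St (z * ι g) ↔ St z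
  St_mul_x : ∀ z, z ≠ 1 → (St (z * x) ↔ St z)

end Pool.Agent.Lib.MP_7e344a_al
end

section

/-!
# MP_7e344a_al: G04, properties of free extensions
-/

set_option autoImplicit false

namespace Pool.Agent.Lib.MP_7e344a_al

variable {G G' : Type} [Group G] [Group G'] {ι : G →* G'} {x : G'} {γ : G' → G} {St : G' → Prop}

theorem FreeExt.induct (hF : FreeExt ι x γ St) {p : G' → Prop} (h1 : p 1)
    (hr : ∀ z g, p z → p (z * ι g)) (hx : ∀ z, p z → p (z * x)) (hx' : ∀ z, p z → p (z * x⁻¹))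
    (z : G') : p z := by
  let K : Subgroup G' :=
    { carrier := {z | ∀ w, (p w → p (w * z)) ∧ (p w → p (w * z⁻¹))}
      one_mem' := by
        intro w
        simp
      mul_mem' := by
        intro a b ha hb w
        refine ⟨fun hw => ?_, fun hw => ?_⟩
        · have := (hb (w * a)).1 ((ha w).1 hw)
          rwa [mul_assoc] at this
        · have := (ha (w * b⁻¹)).2 ((hb w).2 hw)
          rwa [mul_assoc, ← mul_inv_rev] at this
      inv_mem' := by
        intro a ha w
        refine ⟨(ha w).2, fun hw => ?_⟩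
        have := (ha w).1 hw
        rwa [inv_inv] }
  have hK : K = ⊤ := by
    refine hF.gen K (fun g w => ⟨fun hw => hr w g hw, fun hw => ?_⟩)
      (fun w => ⟨fun hw => hx w hw, fun hw => hx' w hw⟩)
    rw [← map_inv]
    exact hr w g⁻¹ hw
  have hz : z ∈ K := by rw [hK]; trivial
  have := (hz 1).1 h1
  rwa [one_mul] at this

theorem FreeExt.inj (hF : FreeExt ι x γ St) : Function.Injective ι :=
  Function.LeftInverse.injective (g := γ) hF.gate_of

theorem FreeExt.gate_x_inv (hF : FreeExt ι x γ St) (z : G') : γ (z * x⁻¹) = γ z := by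
  have := hF.gate_x (z * x⁻¹)
  rw [inv_mul_cancel_right] at this
  exact this.symm

theorem FreeExt.St_x_inv (hF : FreeExt ι x γ St) (z : G') (h : z ≠ x) : St (z * x⁻¹) ↔ St z := by
  have := hF.St_mul_x (z * x⁻¹) (fun h1 => h (mul_inv_eq_one.1 h1))
  rw [inv_mul_cancel_right] at this
  exact this.symm

theorem FreeExt.not_St_of (hF : FreeExt ι x γ St) (g : G) : ¬ St (ι g) := by
  intro h
  have := (hF.St_right 1 g).1 (by rwa [one_mul])
  exact hF.St_one this

theorem FreeExt.mul_x_not_mem (hF : FreeExt ι x γ St) {z : G'} (h : z ∈ ι.range) :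
    z * x ∉ ι.range := by
  rintro ⟨k, hk⟩
  obtain ⟨g, rfl⟩ := h
  have hx : x = ι (g⁻¹ * k) := by
    rw [map_mul, hk, map_inv, inv_mul_cancel_left]
  exact hF.not_St_of (g⁻¹ * k) (hx ▸ hF.St_x)

theorem FreeExt.gate_one (hF : FreeExt ι x γ St) : γ 1 = 1 := by
  have := hF.gate_of 1
  rwa [map_one] at this

theorem FreeExt.one_mem_range : (1 : G') ∈ ι.range := ⟨1, map_one ι⟩

theorem FreeExt.St_gate (hF : FreeExt ι x γ St) {z : G'} (h : St z) : γ z = 1 := by
  revert h
  refine hF.induct (p := fun z => St z → γ z = 1) ?_ ?_ ?_ ?_ z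
  · intro h
    exact (hF.St_one h).elim
  · intro z g hz h
    have h1 : St z := (hF.St_right z g).1 h
    have h2 : z ∉ ι.range := by
      rintro ⟨k, rfl⟩
      exact hF.not_St_of k h1
    rw [hF.gate_right z g h2]
    exact hz h1
  · intro z hz h
    rw [hF.gate_x]
    by_cases h0 : z = 1
    · rw [h0]
      exact hF.gate_one
    · exact hz ((hF.St_mul_x z h0).1 h)
  · intro z hz h
    by_cases h0 : z = x
    · rw [h0, mul_inv_cancel] at h
      exact (hF.St_one h).elim
    · rw [hF.gate_x_inv]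
      exact hz ((hF.St_x_inv z h0).1 h)

theorem FreeExt.not_St_aux (hF : FreeExt ι x γ St) (z : G') :
    z ∈ ι.range ∨ γ z ≠ 1 ∨ St z ∨ ¬ St (x * z) := by
  refine hF.induct (p := fun z => z ∈ ι.range ∨ γ z ≠ 1 ∨ St z ∨ ¬ St (x * z)) ?_ ?_ ?_ ?_ z
  · exact Or.inl FreeExt.one_mem_range
  · intro z g hz
    by_cases h0 : z ∈ ι.range
    · exact Or.inl (mul_mem h0 ⟨g, rfl⟩)
    · rw [hF.gate_right z g h0, hF.St_right, ← mul_assoc, hF.St_right]
      exact Or.inr (hz.resolve_left h0)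
  · intro z hz
    by_cases h0 : z ∈ ι.range
    · obtain ⟨k, rfl⟩ := h0
      by_cases hk : k = 1
      · right; right; left
        rw [hk, map_one, one_mul]
        exact hF.St_x
      · right; left
        rw [hF.gate_x, hF.gate_of]
        exact hk
    · have h1 : z ≠ 1 := fun h => h0 (h ▸ FreeExt.one_mem_range)
      rw [hF.gate_x, hF.St_mul_x z h1, ← mul_assoc]
      by_cases h2 : x * z = 1
      · left
        have : z = x⁻¹ := eq_inv_of_mul_eq_one_right h2
        rw [this, inv_mul_cancel]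
        exact FreeExt.one_mem_range
      · rw [hF.St_mul_x _ h2]
        exact Or.inr (hz.resolve_left h0)
  · intro z hz
    by_cases h0 : z ∈ ι.range
    · obtain ⟨k, rfl⟩ := h0
      by_cases hk : k = 1
      · right; right; right
        rw [hk, map_one, one_mul, mul_inv_cancel]
        exact hF.St_one
      · right; left
        rw [hF.gate_x_inv, hF.gate_of]
        exact hk
    · by_cases h1 : z = x
      · left
        rw [h1, mul_inv_cancel]
        exact FreeExt.one_mem_range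
      · rw [hF.gate_x_inv, hF.St_x_inv z h1, ← mul_assoc]
        by_cases h2 : x * z = x
        · exact (h0 (by rw [mul_eq_left.1 h2]; exact FreeExt.one_mem_range)).elim
        · rw [hF.St_x_inv _ h2]
          exact Or.inr (hz.resolve_left h0)

theorem FreeExt.not_St (hF : FreeExt ι x γ St) {z : G'} (h : z ∉ ι.range) (h1 : γ z = 1)
    (h2 : ¬ St z) : ¬ St (x * z) := by
  rcases hF.not_St_aux z with h3 | h3 | h3 | h3
  · exact (h h3).elim
  · exact (h3 h1).elim
  · exact (h2 h3).elim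
  · exact h3

/-- the subgroup `⟨A, x⟩` -/
def sA (ι : G →* G') (x : G') (A : Subgroup G) : Subgroup G' :=
  Subgroup.closure (ι '' (A : Set G) ∪ {x})

/-- the subgroup `⟨B, x⁻¹ g⟩` -/
def sB (ι : G →* G') (x : G') (g : G) (B : Subgroup G) : Subgroup G' :=
  Subgroup.closure (ι '' (B : Set G) ∪ {x⁻¹ * ι g})

/-- right multiplication by an element of `A` -/
theorem gateA_step (hF : FreeExt ι x γ St) {A : Subgroup G} {c : G'} {a : G} (ha : a ∈ A)
    (hc : γ c ∈ A) : γ (c * ι a) ∈ A := by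
  by_cases h0 : c ∈ ι.range
  · obtain ⟨k, rfl⟩ := h0
    rw [← map_mul, hF.gate_of]
    rw [hF.gate_of] at hc
    exact A.mul_mem hc ha
  · rwa [hF.gate_right c a h0]

theorem gateA (hF : FreeExt ι x γ St) {A : Subgroup G} {c : G'} (hc : c ∈ sA ι x A) :
    γ c ∈ A := by
  refine Subgroup.closure_induction_right (p := fun c _ => γ c ∈ A) ?_ ?_ ?_ hc
  · rw [hF.gate_one]
    exact A.one_mem
  · rintro c _ y (⟨a, ha, rfl⟩ | rfl) h
    · exact gateA_step hF ha h
    · rwa [hF.gate_x]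
  · rintro c _ y (⟨a, ha, rfl⟩ | rfl) h
    · rw [← map_inv]
      exact gateA_step hF (A.inv_mem ha) h
    · rwa [hF.gate_x_inv]

/-- `s` is unchanged by right multiplication by an element of `G`, outside of `G` -/
theorem s_right (hF : FreeExt ι x γ St) {c : G'} (h0 : c ∉ ι.range) (h : G) :
    St ((ι (γ (c * ι h)))⁻¹ * (c * ι h)) ↔ St ((ι (γ c))⁻¹ * c) := by
  rw [hF.gate_right c h h0, ← mul_assoc, hF.St_right]

theorem s_of (hF : FreeExt ι x γ St) (h : G) : ¬ St ((ι (γ (ι h)))⁻¹ * ι h) := by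
  rw [hF.gate_of, inv_mul_cancel]
  exact hF.St_one

theorem s_of_x (hF : FreeExt ι x γ St) (h : G) : St ((ι (γ (ι h * x)))⁻¹ * (ι h * x)) := by
  rw [hF.gate_x, hF.gate_of, inv_mul_cancel_left]
  exact hF.St_x

theorem s_mul_x (hF : FreeExt ι x γ St) {c : G'} (h0 : c ∉ ι.range) :
    St ((ι (γ (c * x)))⁻¹ * (c * x)) ↔ St ((ι (γ c))⁻¹ * c) := by
  rw [hF.gate_x, ← mul_assoc]
  refine hF.St_mul_x _ (fun h => h0 ?_)
  rw [inv_mul_eq_one] at h
  exact ⟨γ c, h⟩

/-- the property of `gateB` -/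
def GB (ι : G →* G') (γ : G' → G) (St : G' → Prop) (B : Subgroup G) (g : G) (c : G') : Prop :=
  (¬ St ((ι (γ c))⁻¹ * c) ∧ γ c ∈ B) ∨ (St ((ι (γ c))⁻¹ * c) ∧ γ c * g ∈ B)

theorem GB_of (hF : FreeExt ι x γ St) {B : Subgroup G} {g h : G} :
    GB ι γ St B g (ι h) ↔ h ∈ B := by
  constructor
  · rintro (⟨_, h2⟩ | ⟨h1, _⟩)
    · rwa [hF.gate_of] at h2
    · exact (s_of hF h h1).elim
  · intro hh
    refine Or.inl ⟨s_of hF h, ?_⟩
    rwa [hF.gate_of]

theorem GB_of_x (hF : FreeExt ι x γ St) {B : Subgroup G} {g h : G} :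
    GB ι γ St B g (ι h * x) ↔ h * g ∈ B := by
  constructor
  · rintro (⟨h1, _⟩ | ⟨_, h2⟩)
    · exact (h1 (s_of_x hF h)).elim
    · rwa [hF.gate_x, hF.gate_of] at h2
  · intro hh
    refine Or.inr ⟨s_of_x hF h, ?_⟩
    rwa [hF.gate_x, hF.gate_of]

theorem GB_right (hF : FreeExt ι x γ St) {B : Subgroup G} {g : G} {c : G'} (h0 : c ∉ ι.range)
    (h : G) : GB ι γ St B g (c * ι h) ↔ GB ι γ St B g c := by
  unfold GB
  rw [s_right hF h0 h, hF.gate_right c h h0]

theorem GB_mul_x (hF : FreeExt ι x γ St) {B : Subgroup G} {g : G} {c : G'} (h0 : c ∉ ι.range) :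
    GB ι γ St B g (c * x) ↔ GB ι γ St B g c := by
  unfold GB
  rw [s_mul_x hF h0, hF.gate_x]

theorem GB_step (hF : FreeExt ι x γ St) {B : Subgroup G} {g : G} {c : G'} {b : G} (hb : b ∈ B)
    (hc : GB ι γ St B g c) : GB ι γ St B g (c * ι b) := by
  by_cases h0 : c ∈ ι.range
  · obtain ⟨k, rfl⟩ := h0
    rw [GB_of hF] at hc
    rw [← map_mul, GB_of hF]
    exact B.mul_mem hc hb
  · rwa [GB_right hF h0]

theorem GB_y (hF : FreeExt ι x γ St) {B : Subgroup G} {g : G} {c : G'} :
    GB ι γ St B g (c * (x⁻¹ * ι g)) ↔ GB ι γ St B g c := by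
  rw [← mul_assoc]
  obtain ⟨d, rfl⟩ : ∃ d, c = d * x := ⟨c * x⁻¹, by simp⟩
  rw [mul_inv_cancel_right]
  by_cases h0 : d ∈ ι.range
  · obtain ⟨k, rfl⟩ := h0
    rw [← map_mul, GB_of hF, GB_of_x hF]
  · rw [GB_right hF h0, GB_mul_x hF h0]

theorem gateB (hF : FreeExt ι x γ St) {B : Subgroup G} {g : G} {c : G'} (hc : c ∈ sB ι x g B) :
    (¬ St ((ι (γ c))⁻¹ * c) ∧ γ c ∈ B) ∨ (St ((ι (γ c))⁻¹ * c) ∧ γ c * g ∈ B) := by
  change GB ι γ St B g c
  refine Subgroup.closure_induction_right (p := fun c _ => GB ι γ St B g c) ?_ ?_ ?_ hc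
  · have := (GB_of (B := B) (g := g) (h := 1) hF).2 B.one_mem
    rwa [map_one] at this
  · rintro c _ y (⟨a, ha, rfl⟩ | rfl) h
    · exact GB_step hF ha h
    · rwa [GB_y hF]
  · rintro c _ y (⟨a, ha, rfl⟩ | rfl) h
    · rw [← map_inv]
      exact GB_step hF (B.inv_mem ha) h
    · rw [← GB_y hF]
      rwa [inv_mul_cancel_right]

theorem gateB_of (hF : FreeExt ι x γ St) {B : Subgroup G} {g h : G} (hc : ι h ∈ sB ι x g B) :
    h ∈ B := (GB_of hF).1 (gateB hF hc)

/-- `⟨A, x⟩ ∩ ⟨B, x⁻¹ g⟩ = 1` -/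
theorem inter (hF : FreeExt ι x γ St) {A B : Subgroup G} {g : G}
    (h1 : ∀ a ∈ A, a ∈ B → a = 1) (h2 : ∀ a ∈ A, g⁻¹ * a * g ∈ B → a = 1)
    (h3 : ∀ a ∈ A, ∀ b ∈ B, a * b ≠ g) {c : G'} (hc : c ∈ sA ι x A) (hc' : c ∈ sB ι x g B) :
    c = 1 := by
  have hxA : x ∈ sA ι x A := Subgroup.subset_closure (Or.inr rfl)
  have hyB : x⁻¹ * ι g ∈ sB ι x g B := Subgroup.subset_closure (Or.inr rfl)
  obtain ⟨v, rfl⟩ : ∃ v, c = v * x := ⟨c * x⁻¹, by simp⟩
  have hv : v ∈ sA ι x A := by
    have := (sA ι x A).mul_mem hc ((sA ι x A).inv_mem hxA)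
    rwa [mul_inv_cancel_right] at this
  have hB : GB ι γ St B g (v * x) := gateB hF hc'
  have hA : γ v ∈ A := gateA hF hv
  suffices hvx : v = x⁻¹ by rw [hvx, inv_mul_cancel]
  by_cases hS : St (x * v)
  · exfalso
    by_cases h0 : v ∈ ι.range
    · obtain ⟨k, rfl⟩ := h0
      rw [GB_of_x hF] at hB
      rw [hF.gate_of] at hA
      exact h3 k⁻¹ (A.inv_mem hA) _ hB (inv_mul_cancel_left k g)
    · rw [GB_mul_x hF h0] at hB
      rcases hB with ⟨hs, hb⟩ | ⟨hs, hb⟩
      · have hg : γ v = 1 := h1 _ hA hb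
        rw [hg, map_one, inv_one, one_mul] at hs
        exact hF.not_St h0 hg hs hS
      · exact h3 (γ v)⁻¹ (A.inv_mem hA) _ hb (inv_mul_cancel_left _ g)
  · obtain ⟨u, rfl⟩ : ∃ u, v = x⁻¹ * u := ⟨x * v, by simp⟩
    rw [mul_inv_cancel_left] at hS
    have hu : u ∈ sA ι x A := by
      have := (sA ι x A).mul_mem hxA hv
      rwa [mul_inv_cancel_left] at this
    have huA : γ u ∈ A := gateA hF hu
    have hw : ι g⁻¹ * u * x ∈ sB ι x g B := by
      have := (sB ι x g B).mul_mem ((sB ι x g B).inv_mem hyB) hc'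
      have he : (x⁻¹ * ι g)⁻¹ * (x⁻¹ * u * x) = ι g⁻¹ * u * x := by
        rw [map_inv]; group
      rwa [he] at this
    have hwB : GB ι γ St B g (ι g⁻¹ * u * x) := gateB hF hw
    by_cases h0 : u ∈ ι.range
    · obtain ⟨k, rfl⟩ := h0
      rw [← map_mul, GB_of_x hF] at hwB
      rw [hF.gate_of] at huA
      have := h2 k huA hwB
      rw [this, map_one, mul_one]
    · exfalso
      have h0' : ι g⁻¹ * u ∉ ι.range := by
        rintro ⟨k, hk⟩
        refine h0 ⟨g * k, ?_⟩
        rw [map_mul, hk, map_inv, mul_inv_cancel_left]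
      rw [GB_mul_x hF h0'] at hwB
      have hsu : (ι (γ (ι g⁻¹ * u)))⁻¹ * (ι g⁻¹ * u) = (ι (γ u))⁻¹ * u := by
        rw [hF.gate_mul, map_mul]; group
      unfold GB at hwB
      rw [hsu, hF.gate_mul] at hwB
      rcases hwB with ⟨hs, hb⟩ | ⟨hs, hb⟩
      · refine h3 (γ u) huA _ (B.inv_mem hb) ?_
        group
      · have hg : γ u = 1 := h2 _ huA hb
        rw [hg, map_one, inv_one, one_mul] at hs
        exact hS hs

end Pool.Agent.Lib.MP_7e344a_al
end

section

/-!
# MP_7e344a_al: G02, glueing slim graphs in a tree-like fashion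
-/

set_option autoImplicit false

namespace Pool.Agent.Lib.MP_7e344a_al

/-- the active part of a geodesic for a retraction -/
theorem glue_clamp {V : Type} {Γ : SimpleGraph V} {ρ : V → V}
    (h1 : ∀ v w, Γ.Adj v w → ρ v ≠ ρ w → ρ v = v ∧ ρ w = w) {p : ℕ → V} {n : ℕ} {x y : V}
    (hp : IsGeo Γ p n x y) {j : ℕ} (hj : j < n) (ha : ρ (p j) ≠ ρ (p (j + 1))) :
    ∃ s e, s ≤ j ∧ j + 1 ≤ e ∧ e ≤ n ∧ (∀ k, s ≤ k → k ≤ e → ρ (p k) = p k) ∧ p s = ρ x ∧
      p e = ρ y := by
  classical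
  -- the first active index
  have hex : ∃ s, s < n ∧ ρ (p s) ≠ ρ (p (s + 1)) := ⟨j, hj, ha⟩
  have hs1 := (Nat.find_spec hex).1
  have hs2 := (Nat.find_spec hex).2
  have hs3 : ∀ m < Nat.find hex, ρ (p m) = ρ (p (m + 1)) := by
    intro m hm
    by_contra hne
    exact Nat.find_min hex hm ⟨hm.trans hs1, hne⟩
  have hs4 : Nat.find hex ≤ j := Nat.find_min' hex ⟨hj, ha⟩
  generalize Nat.find hex = s at hs1 hs2 hs3 hs4
  -- the last active index
  have hex' : ∃ e, e < n ∧ ρ (p (n - 1 - e)) ≠ ρ (p (n - 1 - e + 1)) := by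
    refine ⟨n - 1 - j, by omega, ?_⟩
    rw [show n - 1 - (n - 1 - j) = j by omega]
    exact ha
  have he1 := (Nat.find_spec hex').1
  have he2 := (Nat.find_spec hex').2
  have he3 : ∀ m < Nat.find hex', ρ (p (n - 1 - m)) = ρ (p (n - 1 - m + 1)) := by
    intro m hm
    by_contra hne
    exact Nat.find_min hex' hm ⟨hm.trans he1, hne⟩
  have he4 : Nat.find hex' ≤ n - 1 - j := by
    refine Nat.find_min' hex' ⟨by omega, ?_⟩
    rw [show n - 1 - (n - 1 - j) = j by omega]
    exact ha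
  generalize Nat.find hex' = f at he1 he2 he3 he4
  have hps : ρ (p s) = p s := (h1 _ _ (hp.adj hs1) hs2).1
  have hpe : ρ (p (n - 1 - f + 1)) = p (n - 1 - f + 1) := (h1 _ _ (hp.adj (by omega)) he2).2
  have hconst1 : ∀ m ≤ s, ρ (p m) = ρ x := by
    intro m
    induction m with
    | zero => intro _; rw [hp.start]
    | succ m ih =>
      intro hm
      rw [← hs3 m (by omega)]
      exact ih (by omega)
  have hconst2 : ∀ m ≤ f, ρ (p (n - m)) = ρ y := by
    intro m
    induction m with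
    | zero => intro _; rw [Nat.sub_zero, hp.fin]
    | succ m ih =>
      intro hm
      have := he3 m (by omega)
      rw [show n - (m + 1) = n - 1 - m by omega, this, show n - 1 - m + 1 = n - m by omega]
      exact ih (by omega)
  -- all indices between are active
  have hall : ∀ k, s + k ≤ n - 1 - f → ρ (p (s + k)) = p (s + k) ∧
      ρ (p (s + k)) ≠ ρ (p (s + k + 1)) := by
    intro k
    induction k with
    | zero => intro _; exact ⟨hps, hs2⟩
    | succ k ih =>
      intro hk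
      obtain ⟨-, ih2⟩ := ih (by omega)
      have hfix : ρ (p (s + (k + 1))) = p (s + (k + 1)) :=
        (h1 _ _ (hp.adj (i := s + k) (by omega)) ih2).2
      refine ⟨hfix, ?_⟩
      intro hin
      -- the next active index
      have hex2 : ∃ b, s + (k + 1) < b ∧ b < n ∧ ρ (p b) ≠ ρ (p (b + 1)) := by
        refine ⟨n - 1 - f, ?_, by omega, he2⟩
        rcases lt_or_eq_of_le hk with h | h
        · exact h
        · exfalso
          rw [h] at hin
          exact he2 hin
      have hb := Nat.find_spec hex2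
      have hb' : ∀ b < Nat.find hex2, s + (k + 1) < b → ρ (p b) = ρ (p (b + 1)) := by
        intro b hb1 hb2
        by_contra hne
        exact Nat.find_min hex2 hb1 ⟨hb2, by omega, hne⟩
      generalize Nat.find hex2 = b at hb hb'
      obtain ⟨hb1, hb2, hb3⟩ := hb
      have hconst : ∀ t, s + (k + 1) + 1 + t ≤ b → ρ (p (s + (k + 1) + 1 + t)) =
          p (s + (k + 1)) := by
        intro t
        induction t with
        | zero => intro _; exact hin.symm.trans hfix
        | succ t iht =>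
          intro ht
          rw [← iht (by omega)]
          exact (hb' (s + (k + 1) + 1 + t) (by omega) (by omega)).symm
      have h3 := hconst (b - (s + (k + 1) + 1)) (by omega)
      rw [show s + (k + 1) + 1 + (b - (s + (k + 1) + 1)) = b by omega] at h3
      have h4 : ρ (p b) = p b := (h1 _ _ (hp.adj hb2) hb3).1
      have h5 := hp.inj (i := b) (j := s + (k + 1)) (by omega) (by omega) (h4.symm.trans h3)
      omega
  refine ⟨s, n - 1 - f + 1, hs4, by omega, by omega, ?_, ?_, ?_⟩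
  · intro k hk1 hk2
    rcases Nat.lt_or_ge (n - 1 - f) k with h | h
    · have : k = n - 1 - f + 1 := by omega
      rw [this]
      exact hpe
    · have := (hall (k - s) (by omega)).1
      rw [show s + (k - s) = k by omega] at this
      exact this
  · rw [← hps]
    exact hconst1 s le_rfl
  · rw [← hpe]
    have := hconst2 f le_rfl
    rw [show n - 1 - f + 1 = n - f by omega]
    exact this

/-- the image of a geodesic under a retraction -/
theorem glue_side {V : Type} {Γ : SimpleGraph V} {ρ : V → V}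
    (h1 : ∀ v w, Γ.Adj v w → ρ v ≠ ρ w → ρ v = v ∧ ρ w = w) {q : ℕ → V} {m : ℕ} {y z : V}
    (hq : IsGeo Γ q m y z) (hy : ρ (ρ y) = ρ y) :
    ∃ (Q : ℕ → V) (m' : ℕ), IsGeo Γ Q m' (ρ y) (ρ z) ∧ (∀ t ≤ m', ρ (Q t) = Q t) ∧
      ((∀ t ≤ m', ∃ j ≤ m, Q t = q j) ∨ (ρ y = ρ z ∧ m' = 0)) := by
  by_cases hact : ∃ j < m, ρ (q j) ≠ ρ (q (j + 1))
  · obtain ⟨j, hj, ha⟩ := hact
    obtain ⟨s, e, hsj, hje, hem, hfix, hs, he⟩ := glue_clamp h1 hq hj ha
    refine ⟨fun t => q (s + t), e - s, ?_, ?_, Or.inl ?_⟩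
    · have h2 := (hq.take hem).drop (i := s) (by omega)
      rw [hs, he] at h2
      exact h2
    · intro t ht
      exact hfix (s + t) (by omega) (by omega)
    · intro t ht
      exact ⟨s + t, by omega, rfl⟩
  · push Not at hact
    have hconst : ∀ t ≤ m, ρ (q t) = ρ y := by
      intro t
      induction t with
      | zero => intro _; rw [hq.start]
      | succ t ih =>
        intro ht
        rw [← hact t (by omega)]
        exact ih (by omega)
    have hyz : ρ y = ρ z := by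
      rw [← hconst m le_rfl, hq.fin]
    refine ⟨fun _ => ρ y, 0, ⟨?_, rfl, hyz⟩, fun _ _ => hy, Or.inr ⟨hyz, rfl⟩⟩
    intro i j hij hj
    have h2 : j - i = 0 := by omega
    rw [h2]
    exact SimpleGraph.dist_self

/-- The glueing lemma: the pieces are the fixed sets of the retractions `ρ k`. -/
theorem glue {V K : Type} {Γ : SimpleGraph V} (δ : ℕ) (ρ : K → V → V)
    (h1 : ∀ k v w, Γ.Adj v w → ρ k v ≠ ρ k w → ρ k v = v ∧ ρ k w = w)
    (h2 : ∀ v w, Γ.Adj v w → ∃ k, ρ k v = v ∧ ρ k w = w)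
    (h3 : ∀ (k : K) (p q r : ℕ → V) (l m n : ℕ) (x y z : V), IsGeo Γ p l x y → IsGeo Γ q m y z →
      IsGeo Γ r n x z → (∀ i ≤ l, ρ k (p i) = p i) → (∀ i ≤ m, ρ k (q i) = q i) →
      (∀ i ≤ n, ρ k (r i) = r i) →
      ∀ i ≤ l, (∃ j ≤ m, Γ.dist (p i) (q j) ≤ δ) ∨ ∃ j ≤ n, Γ.dist (p i) (r j) ≤ δ) :
    Slim Γ δ := by
  intro p q r l m n x y z hp hq hr i hi
  rcases Nat.eq_zero_or_pos l with hl | hl
  · left
    refine ⟨0, Nat.zero_le _, ?_⟩
    have : p i = p l := by
      rw [show i = l by omega]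
    rw [this, hp.fin, hq.start]
    simp
  obtain ⟨j, hj, hij1, hij2⟩ : ∃ j < l, j ≤ i ∧ i ≤ j + 1 := by
    rcases Nat.lt_or_ge i l with h | h
    · exact ⟨i, h, le_rfl, by omega⟩
    · exact ⟨l - 1, by omega, by omega, by omega⟩
  obtain ⟨k, hk1, hk2⟩ := h2 _ _ (hp.adj hj)
  have hact : ρ k (p j) ≠ ρ k (p (j + 1)) := by
    rw [hk1, hk2]
    exact (hp.adj hj).ne
  obtain ⟨s, e, hsj, hje, hel, hfix, hps, hpe⟩ := glue_clamp (h1 k) hp hj hact
  have hne : ρ k x ≠ ρ k y := by
    intro h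
    have := hp.inj (i := s) (j := e) (by omega) hel (by rw [hps, hpe, h])
    omega
  have hx : ρ k (ρ k x) = ρ k x := by
    rw [← hps]
    exact hfix s le_rfl (by omega)
  have hy : ρ k (ρ k y) = ρ k y := by
    rw [← hpe]
    exact hfix e (by omega) le_rfl
  have hP : IsGeo Γ (fun t => p (s + t)) (e - s) (ρ k x) (ρ k y) := by
    have h2 := (hp.take hel).drop (i := s) (by omega)
    rw [hps, hpe] at h2
    exact h2
  have hPf : ∀ t ≤ e - s, ρ k (p (s + t)) = p (s + t) := fun t ht =>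
    hfix (s + t) (by omega) (by omega)
  obtain ⟨Q, m', hQ, hQf, hQq⟩ := glue_side (h1 k) hq hy
  obtain ⟨R, n', hR, hRf, hRr⟩ := glue_side (h1 k) hr hx
  have hmain := h3 k (fun t => p (s + t)) Q R (e - s) m' n' _ _ _ hP hQ hR hPf hQf hRf (i - s)
    (by omega)
  have hidx : s + (i - s) = i := by omega
  simp only [hidx] at hmain
  rcases hmain with ⟨t, ht, hd⟩ | ⟨t, ht, hd⟩
  · rcases hQq with hQq | ⟨hyz, hm0⟩
    · obtain ⟨j', hj', hQj⟩ := hQq t ht
      exact Or.inl ⟨j', hj', by rw [← hQj]; exact hd⟩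
    · right
      rcases hRr with hRr | ⟨hxz, -⟩
      · obtain ⟨j', hj', hRj⟩ := hRr n' le_rfl
        refine ⟨j', hj', ?_⟩
        rw [← hRj, hR.fin, ← hyz, ← hQ.start]
        have : t = 0 := by omega
        rw [this] at hd
        exact hd
      · exact absurd (hxz.trans hyz.symm) hne
  · rcases hRr with hRr | ⟨hxz, hn0⟩
    · obtain ⟨j', hj', hRj⟩ := hRr t ht
      exact Or.inr ⟨j', hj', by rw [← hRj]; exact hd⟩
    · left
      rcases hQq with hQq | ⟨hyz, -⟩
      · obtain ⟨j', hj', hQj⟩ := hQq m' le_rfl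
        refine ⟨j', hj', ?_⟩
        rw [← hQj, hQ.fin, ← hxz, ← hR.start]
        have : t = 0 := by omega
        rw [this] at hd
        exact hd
      · exact absurd (hxz.trans hyz.symm) hne

end Pool.Agent.Lib.MP_7e344a_al
end

section

/-!
# MP_7e344a_al: G05, the bridge graph
-/

set_option autoImplicit false

namespace Pool.Agent.Lib.MP_7e344a_al

variable {G G' I : Type} [Group G] [Group G'] {ι : G →* G'} {x : G'} {γ : G' → G}
  {St : G' → Prop}

/-- the images of the subgroups -/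
abbrev HI (H : I → Subgroup G) (ι : G →* G') : I → Subgroup G' := fun i => (H i).map ι

/-- The bridge graph: copies `u X` of the coset graph `X` of `G`, `u ∈ G' / G`, and the edges
`z - z x`. -/
def Brid (H : I → Subgroup G) (ι : G →* G') (x : G') : SimpleGraph (CV G' (HI H ι)) :=
  Inc (HI H ι) ⊔ SimpleGraph.fromRel (fun v w => ∃ z, v = elt _ z ∧ w = elt _ (z * x))

/-- the base copy -/
def emb (H : I → Subgroup G) (ι : G →* G') : CV G H → CV G' (HI H ι)
  | Sum.inl g => elt _ (ι g)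
  | Sum.inr c => Sum.inr ⟨c.1, Quotient.map' ι (by
      intro a b h
      rw [QuotientGroup.leftRel_apply] at h ⊢
      exact ⟨_, h, by simp⟩) c.2⟩

theorem emb_elt (H : I → Subgroup G) (g : G) : emb H ι (elt H g) = elt _ (ι g) := rfl

theorem emb_cos (H : I → Subgroup G) (i : I) (g : G) : emb H ι (cos H i g) = cos _ i (ι g) := rfl

/-! ### general lemmas on retractions -/

section Retr

variable {V : Type} {Γ : SimpleGraph V}

/-- a retraction does not increase distances (walk version) -/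
theorem bridge_walk_retr {ρ : V → V}
    (h1 : ∀ v w, Γ.Adj v w → ρ v ≠ ρ w → ρ v = v ∧ ρ w = w) {v w : V} (p : Γ.Walk v w) :
    ∃ p' : Γ.Walk (ρ v) (ρ w), p'.length ≤ p.length := by
  induction p with
  | nil => exact ⟨SimpleGraph.Walk.nil, by simp⟩
  | @cons a b c h p ih =>
    obtain ⟨p', hp'⟩ := ih
    by_cases hab : ρ a = ρ b
    · rw [hab]
      refine ⟨p', ?_⟩
      rw [SimpleGraph.Walk.length_cons]
      omega
    · obtain ⟨ha, hb⟩ := h1 a b h hab
      have h' : Γ.Adj (ρ a) (ρ b) := by rw [ha, hb]; exact h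
      refine ⟨SimpleGraph.Walk.cons h' p', ?_⟩
      rw [SimpleGraph.Walk.length_cons, SimpleGraph.Walk.length_cons]
      omega

theorem bridge_dist_retr (hc : Γ.Connected) {ρ : V → V}
    (h1 : ∀ v w, Γ.Adj v w → ρ v ≠ ρ w → ρ v = v ∧ ρ w = w) (v w : V) :
    Γ.dist (ρ v) (ρ w) ≤ Γ.dist v w := by
  obtain ⟨p, hp⟩ := hc.exists_walk_length_eq_dist v w
  obtain ⟨p', hp'⟩ := bridge_walk_retr h1 p
  have := SimpleGraph.dist_le p'
  omega

/-- a geodesic between fixed points of a retraction consists of fixed points -/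
theorem bridge_collapse (hc : Γ.Connected) {ρ : V → V}
    (h1 : ∀ v w, Γ.Adj v w → ρ v ≠ ρ w → ρ v = v ∧ ρ w = w) {p : ℕ → V} {n : ℕ} {x y : V}
    (hp : IsGeo Γ p n x y) (hx : ρ x = x) (hy : ρ y = y) {i : ℕ} (hi : i ≤ n) :
    ρ (p i) = p i := by
  have key : ∀ j < n, ρ (p j) ≠ ρ (p (j + 1)) := by
    intro j hj he
    have e1 := bridge_dist_retr hc h1 (p 0) (p j)
    have e2 := bridge_dist_retr hc h1 (p (j + 1)) (p n)
    have e3 := hc.dist_triangle (u := ρ (p 0)) (v := ρ (p j)) (w := ρ (p n))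
    rw [hp.geo 0 j (Nat.zero_le _) hj.le] at e1
    rw [hp.geo (j + 1) n hj le_rfl, ← he] at e2
    rw [hp.start, hp.fin, hx, hy, hp.length] at e3
    rw [hp.start, hx] at e1
    rw [hp.fin, hy] at e2
    omega
  rcases Nat.lt_or_ge i n with h | h
  · exact (h1 _ _ (hp.adj h) (key i h)).1
  · have : i = n := le_antisymm hi h
    subst this
    rw [hp.fin]
    exact hy

/-- the active part of a geodesic -/
theorem bridge_clamp (hc : Γ.Connected) {ρ : V → V}
    (h1 : ∀ v w, Γ.Adj v w → ρ v ≠ ρ w → ρ v = v ∧ ρ w = w) {p : ℕ → V} {n : ℕ} {x y : V}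
    (hp : IsGeo Γ p n x y) {j : ℕ} (hj : j < n) (ha : ρ (p j) ≠ ρ (p (j + 1))) :
    ∃ s e, s ≤ j ∧ j + 1 ≤ e ∧ e ≤ n ∧ (∀ k, s ≤ k → k ≤ e → ρ (p k) = p k) ∧ p s = ρ x ∧
      p e = ρ y := by
  classical
  -- the first active index
  have hex : ∃ s, s < n ∧ ρ (p s) ≠ ρ (p (s + 1)) := ⟨j, hj, ha⟩
  have hs1 := (Nat.find_spec hex).1
  have hs2 := (Nat.find_spec hex).2
  have hs3 : ∀ m < Nat.find hex, ρ (p m) = ρ (p (m + 1)) := by
    intro m hm
    by_contra hne
    exact Nat.find_min hex hm ⟨hm.trans hs1, hne⟩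
  have hs4 : Nat.find hex ≤ j := Nat.find_min' hex ⟨hj, ha⟩
  generalize Nat.find hex = s at hs1 hs2 hs3 hs4
  -- the last active index
  have hex' : ∃ e, e < n ∧ ρ (p (n - 1 - e)) ≠ ρ (p (n - 1 - e + 1)) := by
    refine ⟨n - 1 - j, by omega, ?_⟩
    rw [show n - 1 - (n - 1 - j) = j by omega]
    exact ha
  have he1 := (Nat.find_spec hex').1
  have he2 := (Nat.find_spec hex').2
  have he3 : ∀ m < Nat.find hex', ρ (p (n - 1 - m)) = ρ (p (n - 1 - m + 1)) := by
    intro m hm
    by_contra hne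
    exact Nat.find_min hex' hm ⟨hm.trans he1, hne⟩
  have he4 : Nat.find hex' ≤ n - 1 - j := by
    refine Nat.find_min' hex' ⟨by omega, ?_⟩
    rw [show n - 1 - (n - 1 - j) = j by omega]
    exact ha
  generalize Nat.find hex' = f at he1 he2 he3 he4
  have hps : ρ (p s) = p s := (h1 _ _ (hp.adj hs1) hs2).1
  have hpe : ρ (p (n - 1 - f + 1)) = p (n - 1 - f + 1) := (h1 _ _ (hp.adj (by omega)) he2).2
  have hconst1 : ∀ m ≤ s, ρ (p m) = ρ x := by
    intro m
    induction m with
    | zero => intro _; rw [hp.start]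
    | succ m ih =>
      intro hm
      rw [← hs3 m (by omega)]
      exact ih (by omega)
  have hconst2 : ∀ m ≤ f, ρ (p (n - m)) = ρ y := by
    intro m
    induction m with
    | zero => intro _; rw [Nat.sub_zero, hp.fin]
    | succ m ih =>
      intro hm
      have := he3 m (by omega)
      rw [show n - (m + 1) = n - 1 - m by omega, this, show n - 1 - m + 1 = n - m by omega]
      exact ih (by omega)
  refine ⟨s, n - 1 - f + 1, hs4, by omega, by omega, ?_, ?_, ?_⟩
  · intro k hk1 hk2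
    have hg : IsGeo Γ (fun j => p (s + j)) (n - 1 - f + 1 - s) (p s) (p (n - 1 - f + 1)) := by
      have h2 := (hp.take (i := n - 1 - f + 1) (by omega)).drop (i := s) (by omega)
      exact h2
    have := bridge_collapse hc h1 hg hps hpe (i := k - s) (by omega)
    rw [show s + (k - s) = k by omega] at this
    exact this
  · rw [← hps]
    exact hconst1 s le_rfl
  · rw [← hpe]
    have := hconst2 f le_rfl
    rw [show n - 1 - f + 1 = n - f by omega]
    exact this

end Retr

/-! ### edges of the bridge graph -/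

theorem bridge_adj_cos (H : I → Subgroup G) (i : I) (z : G') :
    (Brid H ι x).Adj (elt _ z) (cos _ i z) := Or.inl (adj_self _ z i)

theorem bridge_adj_x (H : I → Subgroup G) (z : G') (h : x ≠ 1) :
    (Brid H ι x).Adj (elt _ z) (elt _ (z * x)) := by
  refine Or.inr ?_
  rw [SimpleGraph.fromRel_adj]
  refine ⟨?_, Or.inl ⟨z, rfl, rfl⟩⟩
  intro he
  rw [elt_inj] at he
  exact h (by simpa using he.symm)

theorem bridge_cases {H : I → Subgroup G} {P : CV G' (HI H ι) → CV G' (HI H ι) → Prop}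
    (hsymm : ∀ v w, P v w → P w v) (h1 : ∀ z i, P (elt _ z) (cos _ i z))
    (h2 : ∀ z, P (elt _ z) (elt _ (z * x))) {v w : CV G' (HI H ι)}
    (h : (Brid H ι x).Adj v w) : P v w := by
  rcases h with h | h
  · rcases cv_cases _ v with ⟨a, rfl⟩ | ⟨i, a, rfl⟩ <;>
      rcases cv_cases _ w with ⟨b, rfl⟩ | ⟨j, b, rfl⟩
    · exact (not_adj_elt_elt _ _ _ h).elim
    · rw [adj_elt_cos] at h
      have he : cos (HI H ι) j b = cos (HI H ι) j a := by
        rw [cos_eq_iff]
        refine ⟨rfl, ?_⟩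
        have := inv_mem h
        simpa using this
      rw [he]
      exact h1 a j
    · rw [SimpleGraph.adj_comm, adj_elt_cos] at h
      have he : cos (HI H ι) i a = cos (HI H ι) i b := by
        rw [cos_eq_iff]
        refine ⟨rfl, ?_⟩
        have := inv_mem h
        simpa using this
      rw [he]
      exact hsymm _ _ (h1 b i)
    · exact (not_adj_cos_cos _ _ _ _ _ h).elim
  · rw [SimpleGraph.fromRel_adj] at h
    rcases h.2 with ⟨z, rfl, rfl⟩ | ⟨z, rfl, rfl⟩
    · exact h2 z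
    · exact hsymm _ _ (h2 z)

theorem brid_act (H : I → Subgroup G) (g : G') (v w : CV G' (HI H ι)) (h : (Brid H ι x).Adj v w) :
    (Brid H ι x).Adj (g • v) (g • w) := by
  rcases h with h | h
  · exact Or.inl (inc_act _ g _ _ h)
  · rw [SimpleGraph.fromRel_adj] at h
    refine Or.inr ?_
    rw [SimpleGraph.fromRel_adj]
    refine ⟨fun he => h.1 (MulAction.injective g he), ?_⟩
    rcases h.2 with ⟨z, rfl, rfl⟩ | ⟨z, rfl, rfl⟩
    · exact Or.inl ⟨g * z, rfl, by rw [smul_elt, mul_assoc]⟩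
    · exact Or.inr ⟨g * z, rfl, by rw [smul_elt, mul_assoc]⟩

/-- a representative of a vertex -/
noncomputable def bridge_rep {H : I → Subgroup G} : CV G' (HI H ι) → G'
  | Sum.inl z => z
  | Sum.inr c => Quotient.out c.2

theorem bridge_rep_elt {H : I → Subgroup G} (z : G') :
    bridge_rep (elt (HI H ι) z) = z := rfl

theorem bridge_rep_cos {H : I → Subgroup G} (i : I) (z : G') :
    ∃ h : G, bridge_rep (cos (HI H ι) i z) = z * ι h := by
  have h1 : (QuotientGroup.mk (bridge_rep (cos (HI H ι) i z)) : G' ⧸ HI H ι i) =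
      QuotientGroup.mk z := Quotient.out_eq' _
  rw [eq_comm, QuotientGroup.eq] at h1
  obtain ⟨h, _, hh⟩ := h1
  refine ⟨h, ?_⟩
  rw [hh]
  group

theorem exists_retr (hF : FreeExt ι x γ St) (H : I → Subgroup G) :
    ∃ ρ : CV G' (HI H ι) → CV G' (HI H ι), (∀ v, ρ (emb H ι v) = emb H ι v) ∧
      (∀ v, ∃ w, ρ v = emb H ι w) ∧ (∀ z, ρ (elt _ z) = elt _ (ι (γ z))) ∧
      ∀ v w, (Brid H ι x).Adj v w → ρ v ≠ ρ w → ρ v = v ∧ ρ w = w := by
  classical
  let ρ : CV G' (HI H ι) → CV G' (HI H ι) := fun v =>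
    if bridge_rep v ∈ ι.range then v else elt _ (ι (γ (bridge_rep v)))
  have hmem : ∀ (z : G') (h : G), z * ι h ∈ ι.range ↔ z ∈ ι.range := by
    intro z h
    exact Subgroup.mul_mem_cancel_right _ ⟨h, rfl⟩
  have hrep : ∀ i (z : G'), bridge_rep (cos (HI H ι) i z) ∈ ι.range ↔ z ∈ ι.range := by
    intro i z
    obtain ⟨h, hh⟩ := bridge_rep_cos (H := H) i z
    rw [hh]
    exact hmem z h
  have helt : ∀ z, ρ (elt _ z) = elt _ (ι (γ z)) := by
    intro z
    by_cases hz : z ∈ ι.range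
    · have : ρ (elt _ z) = elt _ z := if_pos hz
      rw [this]
      obtain ⟨g, rfl⟩ := hz
      rw [hF.gate_of]
    · exact if_neg hz
  have hcos : ∀ i z, z ∉ ι.range → ρ (cos _ i z) = elt _ (ι (γ z)) := by
    intro i z hz
    have h1 : ρ (cos _ i z) = elt _ (ι (γ (bridge_rep (cos (HI H ι) i z)))) :=
      if_neg (by rw [hrep]; exact hz)
    rw [h1]
    obtain ⟨h, hh⟩ := bridge_rep_cos (H := H) i z
    rw [hh, hF.gate_right _ _ hz]
  have hcos' : ∀ i z, z ∈ ι.range → ρ (cos _ i z) = cos _ i z := by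
    intro i z hz
    exact if_pos ((hrep i z).2 hz)
  refine ⟨ρ, ?_, ?_, helt, ?_⟩
  · intro v
    rcases cv_cases _ v with ⟨a, rfl⟩ | ⟨i, a, rfl⟩
    · rw [emb_elt, helt, hF.gate_of]
    · rw [emb_cos, hcos' _ _ ⟨a, rfl⟩]
  · intro v
    rcases cv_cases _ v with ⟨a, rfl⟩ | ⟨i, a, rfl⟩
    · exact ⟨elt _ (γ a), helt a⟩
    · by_cases ha : a ∈ ι.range
      · rw [hcos' _ _ ha]
        obtain ⟨g, rfl⟩ := ha
        exact ⟨cos _ i g, rfl⟩
      · exact ⟨elt _ (γ a), hcos i a ha⟩
  · intro v w hvw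
    refine bridge_cases (P := fun v w => ρ v ≠ ρ w → ρ v = v ∧ ρ w = w) ?_ ?_ ?_ hvw
    · intro v w h hne
      exact (h hne.symm).symm
    · intro z i hne
      by_cases hz : z ∈ ι.range
      · refine ⟨?_, hcos' _ _ hz⟩
        obtain ⟨g, rfl⟩ := hz
        rw [helt, hF.gate_of]
      · exact absurd ((helt z).trans (hcos i z hz).symm) hne
    · intro z hne
      exact absurd (by rw [helt, helt, hF.gate_x]) hne

theorem bridge_x_ne (hF : FreeExt ι x γ St) : x ≠ 1 := by
  intro h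
  exact hF.St_one (h ▸ hF.St_x)

theorem bridge_emb_adj (H : I → Subgroup G) {v w : CV G H} (h : (Inc H).Adj v w) :
    (Brid H ι x).Adj (emb H ι v) (emb H ι w) := by
  refine Or.inl ?_
  rcases cv_cases _ v with ⟨a, rfl⟩ | ⟨i, a, rfl⟩ <;>
    rcases cv_cases _ w with ⟨b, rfl⟩ | ⟨j, b, rfl⟩
  · exact (not_adj_elt_elt _ _ _ h).elim
  · rw [adj_elt_cos] at h
    rw [emb_elt, emb_cos, adj_elt_cos]
    exact ⟨_, h, by simp⟩
  · rw [SimpleGraph.adj_comm, adj_elt_cos] at h
    rw [emb_elt, emb_cos, SimpleGraph.adj_comm, adj_elt_cos]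
    exact ⟨_, h, by simp⟩
  · exact (not_adj_cos_cos _ _ _ _ _ h).elim

theorem bridge_emb_adj' (hF : FreeExt ι x γ St) (H : I → Subgroup G) {v w : CV G H}
    (h : (Brid H ι x).Adj (emb H ι v) (emb H ι w)) : (Inc H).Adj v w := by
  have hmap : ∀ (i : I) (g : G), ι g ∈ (H i).map ι → g ∈ H i := by
    intro i g hg
    obtain ⟨k, hk, hk'⟩ := hg
    have := hF.inj hk'
    rw [← this]
    exact hk
  rcases h with h | h
  · rcases cv_cases _ v with ⟨a, rfl⟩ | ⟨i, a, rfl⟩ <;>
      rcases cv_cases _ w with ⟨b, rfl⟩ | ⟨j, b, rfl⟩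
    · exact (not_adj_elt_elt _ _ _ h).elim
    · rw [emb_elt, emb_cos, adj_elt_cos] at h
      rw [adj_elt_cos]
      refine hmap _ _ ?_
      rw [map_mul, map_inv]
      exact h
    · rw [emb_elt, emb_cos, SimpleGraph.adj_comm, adj_elt_cos] at h
      rw [SimpleGraph.adj_comm, adj_elt_cos]
      refine hmap _ _ ?_
      rw [map_mul, map_inv]
      exact h
    · exact (not_adj_cos_cos _ _ _ _ _ h).elim
  · rw [SimpleGraph.fromRel_adj] at h
    have key : ∀ (v w : CV G H) (z : G'), emb H ι v = elt _ z → emb H ι w = elt _ (z * x) →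
        False := by
      intro v w z hv hw
      rcases cv_cases _ v with ⟨a, rfl⟩ | ⟨i, a, rfl⟩
      · rcases cv_cases _ w with ⟨b, rfl⟩ | ⟨j, b, rfl⟩
        · rw [emb_elt, elt_inj] at hv hw
          exact hF.mul_x_not_mem (z := z) ⟨a, hv⟩ ⟨b, hw⟩
        · exact elt_ne_cos _ _ _ _ hw.symm
      · exact elt_ne_cos _ _ _ _ hv.symm
    rcases h.2 with ⟨z, h1, h2⟩ | ⟨z, h1, h2⟩
    · exact (key _ _ _ h1 h2).elim
    · exact (key _ _ _ h1 h2).elim

theorem bridge_emb_walk (H : I → Subgroup G) {v w : CV G H} (p : (Inc H).Walk v w) :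
    ∃ p' : (Brid H ι x).Walk (emb H ι v) (emb H ι w), p'.length = p.length := by
  induction p with
  | nil => exact ⟨SimpleGraph.Walk.nil, by simp⟩
  | cons h p ih =>
    obtain ⟨p', hp'⟩ := ih
    exact ⟨SimpleGraph.Walk.cons (bridge_emb_adj H h) p', by simp [hp']⟩

theorem brid_conn (hF : FreeExt ι x γ St) {H : I → Subgroup G} (hc : (Inc H).Connected) :
    (Brid H ι x).Connected := by
  have hreach : ∀ z : G', (Brid H ι x).Reachable (elt _ 1) (elt _ z) := by
    intro z
    have hx : ∀ z : G', (Brid H ι x).Reachable (elt _ z) (elt _ (z * x)) := fun z =>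
      (bridge_adj_x H z (bridge_x_ne hF)).reachable
    refine hF.induct (p := fun z => (Brid H ι x).Reachable (elt _ 1) (elt _ z)) ?_ ?_ ?_ ?_ z
    · exact SimpleGraph.Reachable.refl _
    · intro z g hz
      refine hz.trans ?_
      obtain ⟨p⟩ := hc.preconnected (elt H 1) (elt H g)
      obtain ⟨p', -⟩ := bridge_emb_walk (ι := ι) (x := x) H p
      have := basic_reach (brid_act H) z _ _ ⟨p'⟩
      rw [emb_elt, emb_elt, smul_elt, smul_elt, map_one, mul_one] at this
      exact this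
    · intro z hz
      exact hz.trans (hx z)
    · intro z hz
      refine hz.trans ?_
      have := hx (z * x⁻¹)
      rw [inv_mul_cancel_right] at this
      exact this.symm
  have hall : ∀ v, (Brid H ι x).Reachable (elt _ 1) v := by
    intro v
    rcases cv_cases _ v with ⟨a, rfl⟩ | ⟨i, a, rfl⟩
    · exact hreach a
    · exact (hreach a).trans (bridge_adj_cos H i a).reachable
  have : Nonempty (CV G' (HI H ι)) := ⟨elt _ 1⟩
  exact ⟨fun v w => (hall v).symm.trans (hall w)⟩

/-- distances in the base copy -/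
theorem bridge_emb_dist_le (H : I → Subgroup G) (hc : (Inc H).Connected) (v w : CV G H) :
    (Brid H ι x).dist (emb H ι v) (emb H ι w) ≤ (Inc H).dist v w := by
  obtain ⟨p, hp⟩ := hc.exists_walk_length_eq_dist v w
  obtain ⟨p', hp'⟩ := bridge_emb_walk (ι := ι) (x := x) H p
  have := SimpleGraph.dist_le p'
  omega

theorem bridge_emb_inj (hF : FreeExt ι x γ St) (H : I → Subgroup G) {v w : CV G H}
    (h : emb H ι v = emb H ι w) : v = w := by
  rcases cv_cases _ v with ⟨a, rfl⟩ | ⟨i, a, rfl⟩ <;>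
    rcases cv_cases _ w with ⟨b, rfl⟩ | ⟨j, b, rfl⟩
  · rw [emb_elt, emb_elt, elt_inj] at h
    rw [hF.inj h]
  · exact (elt_ne_cos _ _ _ _ h).elim
  · exact (elt_ne_cos _ _ _ _ h.symm).elim
  · rw [emb_cos, emb_cos, cos_eq_iff] at h
    rw [cos_eq_iff]
    refine ⟨h.1, ?_⟩
    obtain ⟨k, hk, hk'⟩ := h.2
    have : k = a⁻¹ * b := by
      apply hF.inj
      rw [hk', map_mul, map_inv]
    rw [← this]
    exact hk

/-- geodesics between points of a copy -/
theorem brid_geo (hF : FreeExt ι x γ St) {H : I → Subgroup G} (hc : (Inc H).Connected) (u : G')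
    {v w : CV G H} {p : ℕ → CV G' (HI H ι)} {n : ℕ}
    (hp : IsGeo (Brid H ι x) p n (u • emb H ι v) (u • emb H ι w)) :
    ∃ q : ℕ → CV G H, IsGeo (Inc H) q n v w ∧ ∀ i ≤ n, p i = u • emb H ι (q i) := by
  classical
  have hcb : (Brid H ι x).Connected := brid_conn hF hc
  have hp' := hp.smul (brid_act H) u⁻¹
  rw [inv_smul_smul, inv_smul_smul] at hp'
  obtain ⟨ρ, hρ1, hρ2, -, hρ4⟩ := exists_retr hF H
  have hfix : ∀ i ≤ n, ∃ a : CV G H, u⁻¹ • p i = emb H ι a := by
    intro i hi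
    have := bridge_collapse hcb hρ4 hp' (hρ1 v) (hρ1 w) hi
    obtain ⟨a, ha⟩ := hρ2 (u⁻¹ • p i)
    exact ⟨a, this.symm.trans ha⟩
  let q : ℕ → CV G H := fun i => if hi : i ≤ n then (hfix i hi).choose else v
  have hq : ∀ i ≤ n, u⁻¹ • p i = emb H ι (q i) := by
    intro i hi
    have : q i = (hfix i hi).choose := dif_pos hi
    rw [this]
    exact (hfix i hi).choose_spec
  refine ⟨q, ⟨?_, ?_, ?_⟩, ?_⟩
  · intro i j hij hj
    have h1 : (Brid H ι x).dist (emb H ι (q i)) (emb H ι (q j)) = j - i := by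
      rw [← hq i (hij.trans hj), ← hq j hj]
      exact hp'.geo i j hij hj
    have h2 := bridge_emb_dist_le (ι := ι) (x := x) H hc (q i) (q j)
    have h3 : (Inc H).dist (q i) (q j) ≤ j - i := by
      have := basic_dist_le_of_adj hc (p := q) (n := n) (fun k hk => by
        refine bridge_emb_adj' hF H (v := q k) (w := q (k + 1)) ?_
        rw [← hq k hk.le, ← hq (k + 1) hk]
        exact hp'.adj hk) i (j - i) (by omega)
      rwa [show i + (j - i) = j by omega] at this
    omega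
  · apply bridge_emb_inj hF H
    rw [← hq 0 (Nat.zero_le _)]
    exact hp'.start
  · apply bridge_emb_inj hF H
    rw [← hq n le_rfl]
    exact hp'.fin
  · intro i hi
    rw [← hq i hi, smul_inv_smul]

theorem brid_dist (hF : FreeExt ι x γ St) {H : I → Subgroup G} (hc : (Inc H).Connected) (u : G')
    (v w : CV G H) : (Brid H ι x).dist (u • emb H ι v) (u • emb H ι w) = (Inc H).dist v w := by
  obtain ⟨p, hp⟩ := IsGeo.exists (brid_conn (x := x) hF hc) (u • emb H ι v) (u • emb H ι w)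
  obtain ⟨q, hq, -⟩ := brid_geo hF hc u hp
  exact hq.length.symm

/-- the retractions to the pieces: copies (`inl u`) and bridge edges (`inr u`) -/
theorem bridge_pieces (hF : FreeExt ι x γ St) (H : I → Subgroup G) :
    ∃ ρ : G' ⊕ G' → CV G' (HI H ι) → CV G' (HI H ι),
      (∀ u v, ρ (Sum.inl u) (u • emb H ι v) = u • emb H ι v) ∧
      (∀ u v, ∃ w, ρ (Sum.inl u) v = u • emb H ι w) ∧
      (∀ u z, ρ (Sum.inl u) (elt _ z) = elt _ (u * ι (γ (u⁻¹ * z)))) ∧
      (∀ u v, ρ (Sum.inr u) v = elt _ u ∨ ρ (Sum.inr u) v = elt _ (u * x)) ∧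
      (∀ u z, St (u⁻¹ * z) → ρ (Sum.inr u) (elt _ z) = elt _ (u * x)) ∧
      (∀ u z, ¬ St (u⁻¹ * z) → ρ (Sum.inr u) (elt _ z) = elt _ u) ∧
      (∀ k v w, (Brid H ι x).Adj v w → ρ k v ≠ ρ k w → ρ k v = v ∧ ρ k w = w) ∧
      (∀ v w, (Brid H ι x).Adj v w → ∃ k, ρ k v = v ∧ ρ k w = w) := by
  classical
  obtain ⟨ρ0, h1, h2, h3, h4⟩ := exists_retr hF H
  let ρ : G' ⊕ G' → CV G' (HI H ι) → CV G' (HI H ι) := fun k v =>
    match k with
    | Sum.inl u => u • ρ0 (u⁻¹ • v)
    | Sum.inr u => if St (u⁻¹ * bridge_rep v) then elt _ (u * x) else elt _ u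
  have e1 : ∀ u v, ρ (Sum.inl u) (u • emb H ι v) = u • emb H ι v := by
    intro u v
    show u • ρ0 (u⁻¹ • u • emb H ι v) = _
    rw [inv_smul_smul, h1]
  have e5 : ∀ u z, St (u⁻¹ * z) → ρ (Sum.inr u) (elt _ z) = elt _ (u * x) := by
    intro u z h
    exact if_pos h
  have e6 : ∀ u z, ¬ St (u⁻¹ * z) → ρ (Sum.inr u) (elt _ z) = elt _ u := by
    intro u z h
    exact if_neg h
  have e7 : ∀ k v w, (Brid H ι x).Adj v w → ρ k v ≠ ρ k w → ρ k v = v ∧ ρ k w = w := by
    rintro (u | u) v w hvw hne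
    · have hvw' := brid_act H u⁻¹ v w hvw
      have hne' : ρ0 (u⁻¹ • v) ≠ ρ0 (u⁻¹ • w) := by
        intro h
        exact hne (by show u • ρ0 (u⁻¹ • v) = u • ρ0 (u⁻¹ • w); rw [h])
      obtain ⟨ha, hb⟩ := h4 _ _ hvw' hne'
      refine ⟨?_, ?_⟩
      · show u • ρ0 (u⁻¹ • v) = v
        rw [ha, smul_inv_smul]
      · show u • ρ0 (u⁻¹ • w) = w
        rw [hb, smul_inv_smul]
    · revert hne
      refine bridge_cases (P := fun v w => ρ (Sum.inr u) v ≠ ρ (Sum.inr u) w →
        ρ (Sum.inr u) v = v ∧ ρ (Sum.inr u) w = w) ?_ ?_ ?_ hvw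
      · intro v w h hne
        exact (h hne.symm).symm
      · intro z i hne
        exfalso
        apply hne
        obtain ⟨h, hh⟩ := bridge_rep_cos (H := H) (ι := ι) i z
        show (if St (u⁻¹ * z) then elt _ (u * x) else elt _ u) =
          (if St (u⁻¹ * bridge_rep (cos (HI H ι) i z)) then elt _ (u * x) else elt _ u)
        have : St (u⁻¹ * bridge_rep (cos (HI H ι) i z)) ↔ St (u⁻¹ * z) := by
          rw [hh, ← mul_assoc]
          exact hF.St_right _ _
        simp only [this]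
      · intro z hne
        by_cases hz : u⁻¹ * z = 1
        · have hzu : z = u := by
            rw [inv_mul_eq_one] at hz
            exact hz.symm
          subst hzu
          refine ⟨e6 _ _ (by rw [hz]; exact hF.St_one), e5 _ _ ?_⟩
          rw [inv_mul_cancel_left]
          exact hF.St_x
        · exfalso
          apply hne
          have := hF.St_mul_x _ hz
          rw [mul_assoc] at this
          by_cases hS : St (u⁻¹ * z)
          · rw [e5 _ _ hS, e5 _ _ (this.2 hS)]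
          · rw [e6 _ _ hS, e6 _ _ (fun h => hS (this.1 h))]
  refine ⟨ρ, e1, ?_, ?_, ?_, e5, e6, e7, ?_⟩
  · intro u v
    obtain ⟨w, hw⟩ := h2 (u⁻¹ • v)
    exact ⟨w, by show u • ρ0 (u⁻¹ • v) = _; rw [hw]⟩
  · intro u z
    show u • ρ0 (u⁻¹ • elt _ z) = _
    rw [smul_elt, h3, smul_elt]
  · intro u v
    by_cases h : St (u⁻¹ * bridge_rep v)
    · exact Or.inr (if_pos h)
    · exact Or.inl (if_neg h)
  · intro v w hvw
    refine bridge_cases (P := fun v w => ∃ k, ρ k v = v ∧ ρ k w = w) ?_ ?_ ?_ hvw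
    · rintro v w ⟨k, hk⟩
      exact ⟨k, hk.symm⟩
    · intro z i
      refine ⟨Sum.inl z, ?_, ?_⟩
      · have := e1 z (elt H 1)
        rw [emb_elt, map_one, smul_elt, mul_one] at this
        exact this
      · have := e1 z (cos H i 1)
        rw [emb_cos, map_one, smul_cos, mul_one] at this
        exact this
    · intro z
      refine ⟨Sum.inr z, e6 _ _ ?_, e5 _ _ ?_⟩
      · rw [inv_mul_cancel]
        exact hF.St_one
      · rw [inv_mul_cancel_left]
        exact hF.St_x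

theorem brid_slim (hF : FreeExt ι x γ St) {H : I → Subgroup G} (hc : (Inc H).Connected) {δ : ℕ}
    (hs : Slim (Inc H) δ) : Slim (Brid H ι x) δ := by
  obtain ⟨ρ, e1, e2, e3, e4, e5, e6, e7, e8⟩ := bridge_pieces hF H
  refine glue δ ρ e7 e8 ?_
  rintro (u | u) p q r l m n a b c hp hq hr fp fq fr i hi
  · have hpt : ∀ v, ρ (Sum.inl u) v = v → ∃ w, v = u • emb H ι w := by
      intro v hv
      obtain ⟨w, hw⟩ := e2 u v
      exact ⟨w, hv.symm.trans hw⟩
    have ha : ρ (Sum.inl u) a = a := by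
      rw [← hp.start]
      exact fp 0 (Nat.zero_le _)
    have hb : ρ (Sum.inl u) b = b := by
      rw [← hp.fin]
      exact fp l le_rfl
    have hc' : ρ (Sum.inl u) c = c := by
      rw [← hq.fin]
      exact fq m le_rfl
    obtain ⟨a', rfl⟩ := hpt a ha
    obtain ⟨b', rfl⟩ := hpt b hb
    obtain ⟨c', rfl⟩ := hpt c hc'
    obtain ⟨p', hp', hpp⟩ := brid_geo hF hc u hp
    obtain ⟨q', hq', hqq⟩ := brid_geo hF hc u hq
    obtain ⟨r', hr', hrr⟩ := brid_geo hF hc u hr
    rcases hs p' q' r' l m n a' b' c' hp' hq' hr' i hi with ⟨j, hj, hd⟩ | ⟨j, hj, hd⟩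
    · refine Or.inl ⟨j, hj, ?_⟩
      rw [hpp i hi, hqq j hj, brid_dist hF hc]
      exact hd
    · refine Or.inr ⟨j, hj, ?_⟩
      rw [hpp i hi, hrr j hj, brid_dist hF hc]
      exact hd
  · have hpt : ∀ j ≤ l, p j = elt _ u ∨ p j = elt _ (u * x) := by
      intro j hj
      rw [← fp j hj]
      exact e4 u (p j)
    by_cases h0 : p i = p 0
    · refine Or.inr ⟨0, Nat.zero_le _, ?_⟩
      rw [h0, hp.start, hr.start]
      simp
    · by_cases h1 : p i = p l
      · refine Or.inl ⟨0, Nat.zero_le _, ?_⟩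
        rw [h1, hp.fin, hq.start]
        simp
      · exfalso
        have h2 : p 0 = p l := by
          rcases hpt 0 (Nat.zero_le _) with h | h <;> rcases hpt l le_rfl with h' | h' <;>
            rcases hpt i hi with h'' | h''
          · rw [h, h']
          · rw [h, h']
          · exact absurd (h''.trans h.symm) h0
          · exact absurd (h''.trans h'.symm) h1
          · exact absurd (h''.trans h'.symm) h1
          · exact absurd (h''.trans h.symm) h0
          · rw [h, h']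
          · rw [h, h']
        have h3 := hp.inj (Nat.zero_le _) le_rfl h2
        have h4 : i = 0 := by omega
        exact h0 (by rw [h4])

/-- geodesics between points of a set `Y` which is connected under the moves `z ↦ z g`,
`z ↦ z x^±1` -/
theorem brid_near (hF : FreeExt ι x γ St) {H : I → Subgroup G} (hc : (Inc H).Connected)
    (Y : Set G') (hY : ∀ Z : Set G', Z ⊆ Y → Z.Nonempty →
      (∀ z ∈ Z, ∀ g, z * ι g ∈ Y → z * ι g ∈ Z) → (∀ z ∈ Z, z * x ∈ Y → z * x ∈ Z) →
      (∀ z ∈ Z, z * x⁻¹ ∈ Y → z * x⁻¹ ∈ Z) → Z = Y) (R : ℕ)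
    (hR : ∀ z ∈ Y, ∀ k : G, z * ι k ∈ Y → ∀ (p : ℕ → CV G H) (n : ℕ),
      IsGeo (Inc H) p n (elt H 1) (elt H k) → ∀ i ≤ n,
      (Inc H).dist (p i) (elt H 1) ≤ R ∨ (Inc H).dist (p i) (elt H k) ≤ R)
    {y₁ y₂ : G'} (h₁ : y₁ ∈ Y) (h₂ : y₂ ∈ Y) {p : ℕ → CV G' (HI H ι)} {n : ℕ}
    (hp : IsGeo (Brid H ι x) p n (elt _ y₁) (elt _ y₂)) {i : ℕ} (hi : i ≤ n) :
    ∃ y ∈ Y, (Brid H ι x).dist (p i) (elt _ y) ≤ R := by
  have hcb : (Brid H ι x).Connected := brid_conn hF hc
  obtain ⟨ρ, e1, e2, e3, e4, e5, e6, e7, e8⟩ := bridge_pieces hF H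
  rcases Nat.eq_zero_or_pos n with hn | hn
  · refine ⟨y₁, h₁, ?_⟩
    have : i = 0 := by omega
    rw [this, hp.start]
    simp
  -- an edge containing `p i`
  obtain ⟨j, hj, hij1, hij2⟩ : ∃ j < n, j ≤ i ∧ i ≤ j + 1 := by
    rcases Nat.lt_or_ge i n with h | h
    · exact ⟨i, h, le_rfl, by omega⟩
    · exact ⟨n - 1, by omega, by omega, by omega⟩
  obtain ⟨k, hk1, hk2⟩ := e8 _ _ (hp.adj hj)
  have hact : ρ k (p j) ≠ ρ k (p (j + 1)) := by
    rw [hk1, hk2]
    exact (hp.adj hj).ne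
  obtain ⟨s, e, hsj, hje, hen, hfix, hps, hpe⟩ := bridge_clamp hcb (e7 k) hp hj hact
  have hne : p s ≠ p e := by
    intro h
    have := hp.inj (by omega) hen h
    omega
  rcases k with u | u
  · -- a copy
    rw [e3] at hps hpe
    have hgne : γ (u⁻¹ * y₁) ≠ γ (u⁻¹ * y₂) := by
      intro h
      rw [h] at hps
      exact hne (hps.trans hpe.symm)
    have hex : ∃ z ∈ Y, u⁻¹ * z ∈ ι.range := by
      by_contra hno
      push Not at hno
      have hZ := hY {z | z ∈ Y ∧ γ (u⁻¹ * z) = γ (u⁻¹ * y₁)} (fun z hz => hz.1) ⟨y₁, h₁, rfl⟩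
        (fun z hz g hzg => by
          refine ⟨hzg, ?_⟩
          rw [← mul_assoc, hF.gate_right _ _ (hno z hz.1)]
          exact hz.2)
        (fun z hz hzg => by
          refine ⟨hzg, ?_⟩
          rw [← mul_assoc, hF.gate_x]
          exact hz.2)
        (fun z hz hzg => by
          refine ⟨hzg, ?_⟩
          rw [← mul_assoc, hF.gate_x_inv]
          exact hz.2)
      have : y₂ ∈ {z | z ∈ Y ∧ γ (u⁻¹ * z) = γ (u⁻¹ * y₁)} := by rw [hZ]; exact h₂
      exact hgne this.2.symm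
    have himg : ∀ z, u⁻¹ * z ∈ ι.range → u * ι (γ (u⁻¹ * z)) = z := by
      rintro z ⟨g, hg⟩
      rw [← hg, hF.gate_of, hg]
      group
    have hall : ∀ z ∈ Y, u * ι (γ (u⁻¹ * z)) ∈ Y := by
      obtain ⟨z0, hz0, hz0'⟩ := hex
      have hZ := hY {z | z ∈ Y ∧ u * ι (γ (u⁻¹ * z)) ∈ Y} (fun z hz => hz.1)
        ⟨z0, hz0, by rw [himg z0 hz0']; exact hz0⟩
        (fun z hz g hzg => by
          refine ⟨hzg, ?_⟩
          by_cases hr : u⁻¹ * z ∈ ι.range
          · rw [himg]
            · exact hzg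
            · rw [← mul_assoc]
              exact mul_mem hr ⟨g, rfl⟩
          · rw [← mul_assoc, hF.gate_right _ _ hr]
            exact hz.2)
        (fun z hz hzg => by
          refine ⟨hzg, ?_⟩
          rw [← mul_assoc, hF.gate_x]
          exact hz.2)
        (fun z hz hzg => by
          refine ⟨hzg, ?_⟩
          rw [← mul_assoc, hF.gate_x_inv]
          exact hz.2)
      intro z hz
      have : z ∈ {z | z ∈ Y ∧ u * ι (γ (u⁻¹ * z)) ∈ Y} := by rw [hZ]; exact hz
      exact this.2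
    have hz1 := hall y₁ h₁
    have hz2 := hall y₂ h₂
    set z₁ : G' := u * ι (γ (u⁻¹ * y₁)) with hz₁
    set z₂ : G' := u * ι (γ (u⁻¹ * y₂)) with hz₂
    set k : G := (γ (u⁻¹ * y₁))⁻¹ * γ (u⁻¹ * y₂) with hk
    have hz12 : z₁ * ι k = z₂ := by
      rw [hz₁, hz₂, hk, map_mul, map_inv]
      group
    have hgeo : IsGeo (Brid H ι x) (fun j => p (s + j)) (e - s) (z₁ • emb H ι (elt H 1))
        (z₁ • emb H ι (elt H k)) := by
      have h2 := (hp.take hen).drop (i := s) (by omega)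
      rw [hps, hpe, ← hz12] at h2
      rw [emb_elt, emb_elt, smul_elt, smul_elt, map_one, mul_one]
      exact h2
    obtain ⟨q, hq, hqp⟩ := brid_geo hF hc z₁ hgeo
    have hpi : p i = z₁ • emb H ι (q (i - s)) := by
      have := hqp (i - s) (by omega)
      rw [show s + (i - s) = i by omega] at this
      exact this
    rcases hR z₁ hz1 k (by rw [hz12]; exact hz2) q (e - s) hq (i - s) (by omega) with h | h
    · refine ⟨z₁, hz1, ?_⟩
      have h3 := brid_dist (x := x) hF hc z₁ (q (i - s)) (elt H 1)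
      rw [emb_elt, smul_elt, map_one, mul_one, ← hpi] at h3
      omega
    · refine ⟨z₂, hz2, ?_⟩
      have h3 := brid_dist (x := x) hF hc z₁ (q (i - s)) (elt H k)
      rw [emb_elt, smul_elt, hz12, ← hpi] at h3
      omega
  · -- a bridge edge
    have hSt : ¬ (St (u⁻¹ * y₁) ↔ St (u⁻¹ * y₂)) := by
      intro h
      apply hne
      by_cases hS : St (u⁻¹ * y₁)
      · rw [hps, hpe, e5 _ _ hS, e5 _ _ (h.1 hS)]
      · rw [hps, hpe, e6 _ _ hS, e6 _ _ (fun h' => hS (h.2 h'))]
    have huY : u ∈ Y ∧ u * x ∈ Y := by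
      by_contra hno
      have hZ := hY {z | z ∈ Y ∧ (St (u⁻¹ * y₁) ↔ St (u⁻¹ * z))} (fun z hz => hz.1)
        ⟨y₁, h₁, Iff.rfl⟩
        (fun z hz g hzg => by
          refine ⟨hzg, ?_⟩
          rw [← mul_assoc, hF.St_right]
          exact hz.2)
        (fun z hz hzg => by
          refine ⟨hzg, ?_⟩
          rw [← mul_assoc, hF.St_mul_x]
          · exact hz.2
          · intro h1
            rw [inv_mul_eq_one] at h1
            rw [← h1] at hz hzg
            exact hno ⟨hz.1, hzg⟩)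
        (fun z hz hzg => by
          refine ⟨hzg, ?_⟩
          rw [← mul_assoc, hF.St_x_inv]
          · exact hz.2
          · intro h1
            have h2 : z = u * x := by rw [← h1]; group
            rw [h2] at hz hzg
            rw [mul_inv_cancel_right] at hzg
            exact hno ⟨hzg, hz.1⟩)
      have : y₂ ∈ {z | z ∈ Y ∧ (St (u⁻¹ * y₁) ↔ St (u⁻¹ * z))} := by rw [hZ]; exact h₂
      exact hSt this.2
    have hpi : p i = elt _ u ∨ p i = elt _ (u * x) := by
      rw [← hfix i (by omega) (by omega)]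
      exact e4 u (p i)
    rcases hpi with h | h
    · exact ⟨u, huY.1, by rw [h]; simp⟩
    · exact ⟨u * x, huY.2, by rw [h]; simp⟩

end Pool.Agent.Lib.MP_7e344a_al
end

section

/-!
# MP_7e344a_al: G03, free extensions exist
-/

set_option autoImplicit false

namespace Pool.Agent.Lib.MP_7e344a_al

/-- reduced words, read from the end: the word `g₀ x^e₁ g₁ ⋯ x^eₙ gₙ` has `hd = gₙ` and
`tl = [(eₙ, gₙ₋₁), ⋯, (e₁, g₀)]` -/
@[ext]
structure FW (G : Type) [Group G] where
  hd : G
  tl : List (Bool × G)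
  ok : tl.IsChain (fun a b => a.2 = 1 → a.1 = b.1)

variable {G : Type} [Group G]

/-- multiplication on the right by a group element -/
def FW.mulG (w : FW G) (g : G) : FW G := ⟨w.hd * g, w.tl, w.ok⟩

open Classical in
/-- multiplication on the right by `x` (`u = true`) or `x⁻¹` (`u = false`) -/
noncomputable def FW.mulX (u : Bool) : FW G → FW G
  | ⟨h, [], _⟩ => ⟨1, [(u, h)], List.isChain_singleton _⟩
  | ⟨h, (v, g) :: l, ok⟩ =>
    if hc : h = 1 ∧ v = !u then ⟨g, l, ok.tail⟩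
    else ⟨1, (u, h) :: (v, g) :: l, by
      rw [List.isChain_cons_cons]
      refine ⟨fun h1 => ?_, ok⟩
      have h2 : v ≠ !u := fun h2 => hc ⟨h1, h2⟩
      change u = v
      cases u <;> cases v <;> simp_all⟩

theorem FW.mulX_nil (u : Bool) (h : G) (ok) :
    FW.mulX u ⟨h, [], ok⟩ = ⟨1, [(u, h)], List.isChain_singleton _⟩ := rfl

theorem FW.mulX_cancel (u : Bool) (g : G) (l) (ok) :
    FW.mulX u ⟨1, (!u, g) :: l, ok⟩ = ⟨g, l, ok.tail⟩ := by
  rw [FW.mulX, dif_pos ⟨rfl, rfl⟩]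

theorem FW.mulX_noncancel (u v : Bool) (h g : G) (l) (ok) (hc : ¬ (h = 1 ∧ v = !u)) (ok') :
    FW.mulX u ⟨h, (v, g) :: l, ok⟩ = ⟨1, (u, h) :: (v, g) :: l, ok'⟩ := by
  rw [FW.mulX, dif_neg hc]

theorem FW.mulX_mulX (u : Bool) (w : FW G) : FW.mulX (!u) (FW.mulX u w) = w := by
  rcases w with ⟨h, _ | ⟨⟨v, g⟩, l⟩, ok⟩
  · rw [FW.mulX_nil]
    rw [FW.mulX, dif_pos ⟨rfl, by simp⟩]
  · by_cases hc : h = 1 ∧ v = !u
    · obtain ⟨rfl, rfl⟩ := hc
      rw [FW.mulX_cancel]
      rcases l with _ | ⟨⟨v', g'⟩, l'⟩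
      · rfl
      · refine FW.mulX_noncancel (!u) v' g g' l' _ ?_ ok
        rintro ⟨h1, h2⟩
        rw [List.isChain_cons_cons] at ok
        have h3 := ok.1 h1
        change (!u) = v' at h3
        rw [h2] at h3
        cases u <;> simp at h3
    · have e : FW.mulX u ⟨h, (v, g) :: l, ok⟩ = ⟨1, (u, h) :: (v, g) :: l, by
          rw [List.isChain_cons_cons]
          refine ⟨fun h1 => ?_, ok⟩
          have h2 : v ≠ !u := fun h2 => hc ⟨h1, h2⟩
          change u = v
          cases u <;> cases v <;> simp_all⟩ := FW.mulX_noncancel _ _ _ _ _ _ hc _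
      rw [e, FW.mulX, dif_pos ⟨rfl, by simp⟩]

/-- the permutation of the words given by multiplication by `x` -/
noncomputable def FW.X : Equiv.Perm (FW G) where
  toFun := FW.mulX true
  invFun := FW.mulX false
  left_inv := fun w => FW.mulX_mulX true w
  right_inv := fun w => FW.mulX_mulX false w

/-- the permutation of the words given by the multiplication by the inverse of `g` -/
def FW.permG : G →* Equiv.Perm (FW G) where
  toFun g :=
    { toFun := fun w => w.mulG g⁻¹
      invFun := fun w => w.mulG g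
      left_inv := fun w => by simp [FW.mulG]
      right_inv := fun w => by simp [FW.mulG] }
  map_one' := by
    ext w : 1
    simp [FW.mulG]
  map_mul' g h := by
    ext w : 1
    simp [FW.mulG, mul_assoc]

/-- the initial group element of a word -/
def FW.gate : G → List (Bool × G) → G
  | h, [] => h
  | _, (_, g) :: l => FW.gate g l

/-- the word starts with `x` -/
def FW.starts : List (Bool × G) → Prop
  | [] => False
  | [(u, g)] => u = true ∧ g = 1
  | _ :: b :: l => FW.starts (b :: l)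

/-- the free product with the integers -/
abbrev FP' (G : Type) [Group G] : Type := Monoid.Coprod G (Multiplicative ℤ)

/-- the action -/
noncomputable def FW.act : FP' G →* Equiv.Perm (FW G) :=
  Monoid.Coprod.lift FW.permG (zpowersHom _ FW.X⁻¹)

/-- the generator -/
def FW.gx : FP' G := Monoid.Coprod.inr (Multiplicative.ofAdd 1)

/-- the normal form -/
noncomputable def FW.nf (z : FP' G) : FW G := FW.act z⁻¹ ⟨1, [], List.isChain_nil⟩

theorem FW.act_inl (g : G) : FW.act (Monoid.Coprod.inl g : FP' G) = FW.permG g := by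
  simp [FW.act]

theorem FW.act_gx : FW.act (FW.gx : FP' G) = FW.X⁻¹ := by
  simp [FW.act, FW.gx]

theorem FW.act_mul_inl (z : FP' G) (g : G) (w : FW G) :
    FW.act (z * Monoid.Coprod.inl g)⁻¹ w = (FW.act z⁻¹ w).mulG g := by
  rw [mul_inv_rev, map_mul, Equiv.Perm.mul_apply, map_inv, FW.act_inl]
  rfl

theorem FW.act_mul_gx (z : FP' G) (w : FW G) :
    FW.act (z * FW.gx)⁻¹ w = FW.mulX true (FW.act z⁻¹ w) := by
  rw [mul_inv_rev, map_mul, Equiv.Perm.mul_apply, map_inv, FW.act_gx, inv_inv]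
  rfl

theorem FW.nf_mul_inl (z : FP' G) (g : G) :
    FW.nf (z * Monoid.Coprod.inl g) = (FW.nf z).mulG g := FW.act_mul_inl z g _

theorem FW.nf_mul_gx (z : FP' G) : FW.nf (z * FW.gx) = FW.mulX true (FW.nf z) :=
  FW.act_mul_gx z _

theorem FW.nf_one : FW.nf (1 : FP' G) = ⟨1, [], List.isChain_nil⟩ := by
  simp [FW.nf]

theorem FW.nf_inl (g : G) : FW.nf (Monoid.Coprod.inl g : FP' G) = ⟨g, [], List.isChain_nil⟩ := by
  have := FW.nf_mul_inl (1 : FP' G) g
  rw [one_mul, FW.nf_one] at this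
  rw [this, FW.mulG]
  simp

/-- the product of a word -/
def FW.prd : G → List (Bool × G) → FP' G
  | h, [] => Monoid.Coprod.inl h
  | h, (u, g) :: l => FW.prd g l * (bif u then FW.gx else FW.gx⁻¹) * Monoid.Coprod.inl h

theorem FW.prd_mulG (h g : G) (l : List (Bool × G)) :
    FW.prd (h * g) l = FW.prd h l * Monoid.Coprod.inl g := by
  cases l with
  | nil => simp [FW.prd]
  | cons a l =>
    obtain ⟨u, g'⟩ := a
    simp [FW.prd, mul_assoc]

theorem FW.prd_mulX (w : FW G) :
    FW.prd (FW.mulX true w).hd (FW.mulX true w).tl = FW.prd w.hd w.tl * FW.gx := by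
  rcases w with ⟨h, _ | ⟨⟨v, g⟩, l⟩, ok⟩
  · rw [FW.mulX_nil]
    simp [FW.prd]
  · by_cases hc : h = 1 ∧ v = !true
    · obtain ⟨rfl, rfl⟩ := hc
      rw [FW.mulX_cancel]
      simp [FW.prd]
    · rw [FW.mulX, dif_neg hc]
      simp [FW.prd]

theorem FW.gen (K : Subgroup (FP' G)) (h1 : ∀ g : G, Monoid.Coprod.inl g ∈ K)
    (h2 : FW.gx ∈ K) : K = ⊤ := by
  rw [eq_top_iff, ← Monoid.Coprod.range_inl_sup_range_inr, sup_le_iff]
  constructor
  · rintro _ ⟨g, rfl⟩
    exact h1 g
  · rintro _ ⟨n, rfl⟩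
    have h3 : (Monoid.Coprod.inr n : FP' G) = FW.gx ^ (Multiplicative.toAdd n) := by
      rw [FW.gx, ← map_zpow]
      congr 1
      rw [← ofAdd_zsmul]
      simp
    rw [h3]
    exact K.zpow_mem h2 _

theorem FW.prd_act (z : FP' G) : ∀ w : FW G,
    FW.prd (FW.act z⁻¹ w).hd (FW.act z⁻¹ w).tl = FW.prd w.hd w.tl * z := by
  let K : Subgroup (FP' G) :=
    { carrier := {z | ∀ w : FW G,
        FW.prd (FW.act z⁻¹ w).hd (FW.act z⁻¹ w).tl = FW.prd w.hd w.tl * z}
      one_mem' := fun w => by simp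
      mul_mem' := fun {a b} ha hb w => by
        have h1 : FW.act (a * b)⁻¹ w = FW.act b⁻¹ (FW.act a⁻¹ w) := by
          rw [mul_inv_rev, map_mul, Equiv.Perm.mul_apply]
        rw [h1, hb, ha, mul_assoc]
      inv_mem' := fun {a} ha w => by
        have h1 := ha (FW.act a⁻¹⁻¹ w)
        have h2 : FW.act a⁻¹ (FW.act a⁻¹⁻¹ w) = w := by
          rw [← Equiv.Perm.mul_apply, ← map_mul]
          simp
        rw [h2] at h1
        rw [h1]
        simp }
  have hK : K = ⊤ := by
    apply FW.gen K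
    · intro g w
      have h1 := FW.act_mul_inl 1 g w
      rw [one_mul] at h1
      rw [h1]
      simp only [inv_one, map_one, Equiv.Perm.coe_one, id_eq]
      exact FW.prd_mulG _ _ _
    · intro w
      have h1 := FW.act_mul_gx 1 w
      rw [one_mul] at h1
      rw [h1]
      simp only [inv_one, map_one, Equiv.Perm.coe_one, id_eq]
      exact FW.prd_mulX _
  have hz : z ∈ K := by rw [hK]; exact Subgroup.mem_top z
  exact hz

theorem FW.prd_nf (z : FP' G) : FW.prd (FW.nf z).hd (FW.nf z).tl = z := by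
  have := FW.prd_act z ⟨1, [], List.isChain_nil⟩
  simpa [FW.prd, FW.nf] using this

theorem FW.gate_mulX (w : FW G) :
    FW.gate (FW.mulX true w).hd (FW.mulX true w).tl = FW.gate w.hd w.tl := by
  rcases w with ⟨h, _ | ⟨⟨v, g⟩, l⟩, ok⟩
  · rfl
  · by_cases hc : h = 1 ∧ v = !true
    · rw [FW.mulX, dif_pos hc]
      rfl
    · rw [FW.mulX, dif_neg hc]
      rfl

theorem FW.gate_range {z : FP' G} (hz : z ∉ (Monoid.Coprod.inl : G →* FP' G).range) :
    ∃ a l, (FW.nf z).tl = a :: l := by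
  cases h : (FW.nf z).tl with
  | nil =>
    exfalso
    apply hz
    have := FW.prd_nf z
    rw [h] at this
    exact ⟨_, this⟩
  | cons a l => exact ⟨a, l, rfl⟩

theorem FW.starts_mulX (w : FW G) (hw : ¬ (w.hd = 1 ∧ w.tl = [])) :
    FW.starts (FW.mulX true w).tl ↔ FW.starts w.tl := by
  rcases w with ⟨h, _ | ⟨⟨v, g⟩, l⟩, ok⟩
  · rw [FW.mulX_nil]
    have h1 : h ≠ 1 := fun h1 => hw ⟨h1, rfl⟩
    simp [FW.starts, h1]
  · by_cases hc : h = 1 ∧ v = !true
    · rw [FW.mulX, dif_pos hc]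
      cases l with
      | nil => simp [FW.starts, hc.2]
      | cons b l => rfl
    · rw [FW.mulX, dif_neg hc]
      rfl

theorem FW.freeExt : FreeExt (Monoid.Coprod.inl : G →* FP' G) FW.gx
    (fun z => FW.gate (FW.nf z).hd (FW.nf z).tl) (fun z => FW.starts (FW.nf z).tl) := by
  have hr : ∀ (z : FP' G) (g : G), z ∉ (Monoid.Coprod.inl : G →* FP' G).range →
      FW.gate (FW.nf (z * Monoid.Coprod.inl g)).hd (FW.nf (z * Monoid.Coprod.inl g)).tl =
        FW.gate (FW.nf z).hd (FW.nf z).tl := by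
    intro z g hz
    obtain ⟨⟨u, g'⟩, l, h⟩ := FW.gate_range hz
    rw [FW.nf_mul_inl, FW.mulG]
    simp only [h]
    rfl
  have hx : ∀ z : FP' G, FW.gate (FW.nf (z * FW.gx)).hd (FW.nf (z * FW.gx)).tl =
        FW.gate (FW.nf z).hd (FW.nf z).tl := by
    intro z
    rw [FW.nf_mul_gx]
    exact FW.gate_mulX _
  have ho : ∀ g : G, FW.gate (FW.nf (Monoid.Coprod.inl g : FP' G)).hd
      (FW.nf (Monoid.Coprod.inl g : FP' G)).tl = g := by
    intro g
    rw [FW.nf_inl]
    rfl
  refine ⟨?_, ?_, ho, ?_, hr, hx, ?_, ?_, ?_, ?_⟩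
  · intro K _ f t
    refine ⟨Monoid.Coprod.lift f (zpowersHom K t), ?_, ?_⟩
    · intro g
      simp
    · simp [FW.gx]
  · exact FW.gen
  · -- gate_mul by induction
    intro g z
    let K : Subgroup (FP' G) :=
      { carrier := {z | ∀ w : FP' G,
          (FW.gate (FW.nf (Monoid.Coprod.inl g * w)).hd (FW.nf (Monoid.Coprod.inl g * w)).tl =
            g * FW.gate (FW.nf w).hd (FW.nf w).tl) ↔
          (FW.gate (FW.nf (Monoid.Coprod.inl g * (w * z))).hd
            (FW.nf (Monoid.Coprod.inl g * (w * z))).tl =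
            g * FW.gate (FW.nf (w * z)).hd (FW.nf (w * z)).tl)}
        one_mem' := fun w => by simp
        mul_mem' := fun {a b} ha hb w => by
          rw [ha w, hb (w * a), mul_assoc w a b]
        inv_mem' := fun {a} ha w => by
          have := ha (w * a⁻¹)
          rw [inv_mul_cancel_right] at this
          exact this.symm }
    have hK : K = ⊤ := by
      apply FW.gen K
      · intro g' w
        by_cases hw : w ∈ (Monoid.Coprod.inl : G →* FP' G).range
        · obtain ⟨h, rfl⟩ := hw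
          rw [← map_mul, ← map_mul, ← map_mul, ho, ho, ho, ho]
          exact iff_of_true rfl rfl
        · rw [← mul_assoc, hr w g' hw, hr (Monoid.Coprod.inl g * w) g']
          intro hw'
          apply hw
          have h3 := (Monoid.Coprod.inl : G →* FP' G).range.mul_mem
            ((Monoid.Coprod.inl : G →* FP' G).range.inv_mem ⟨g, rfl⟩) hw'
          rwa [inv_mul_cancel_left] at h3
      · intro w
        rw [← mul_assoc, hx w, hx (Monoid.Coprod.inl g * w)]
    have hz : z ∈ K := by rw [hK]; exact Subgroup.mem_top z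
    have h1 := (hz 1).1 (by
      rw [mul_one, ho]
      have := ho 1
      rw [map_one] at this
      rw [this, mul_one])
    rwa [one_mul] at h1
  · intro h
    rw [FW.nf_one] at h
    exact h
  · have h1 := FW.nf_mul_gx (1 : FP' G)
    rw [one_mul, FW.nf_one] at h1
    change FW.starts (FW.nf (FW.gx : FP' G)).tl
    rw [h1, FW.mulX_nil]
    exact ⟨rfl, rfl⟩
  · intro z g
    change FW.starts (FW.nf (z * Monoid.Coprod.inl g)).tl ↔ FW.starts (FW.nf z).tl
    rw [FW.nf_mul_inl]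
    rfl
  · intro z hz
    change FW.starts (FW.nf (z * FW.gx)).tl ↔ FW.starts (FW.nf z).tl
    rw [FW.nf_mul_gx]
    apply FW.starts_mulX
    rintro ⟨h1, h2⟩
    apply hz
    have := FW.prd_nf z
    rw [h1, h2] at this
    rw [← this, FW.prd, map_one]

theorem exists_freeExt (G : Type) [Group G] : ∃ (G' : Type) (_ : Group G') (ι : G →* G') (x : G')
    (γ : G' → G) (St : G' → Prop), FreeExt ι x γ St :=
  ⟨FP' G, inferInstance, Monoid.Coprod.inl, FW.gx, _, _, FW.freeExt⟩

theorem FreeExt.swap {G G' : Type} [Group G] [Group G'] {ι : G →* G'} {x : G'} {γ : G' → G}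
    {St : G' → Prop} (hF : FreeExt ι x γ St) (g : G) : ∃ (γ' : G' → G) (St' : G' → Prop),
    FreeExt ι (ι g * x) γ' St' := by
  obtain ⟨φ, hφ1, hφ2⟩ := hF.lift G' ι (ι g * x)
  obtain ⟨ψ, hψ1, hψ2⟩ := hF.lift G' ι ((ι g)⁻¹ * x)
  have hφψ : ∀ z, φ (ψ z) = z := by
    have h1 : (φ.comp ψ).eqLocus (MonoidHom.id G') = ⊤ := by
      apply hF.gen
      · intro g'
        change φ (ψ (ι g')) = ι g'
        rw [hψ1, hφ1]
      · change φ (ψ x) = x
        rw [hψ2, map_mul, map_inv, hφ1, hφ2, inv_mul_cancel_left]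
    intro z
    have h2 : z ∈ (φ.comp ψ).eqLocus (MonoidHom.id G') := by rw [h1]; exact Subgroup.mem_top z
    exact h2
  have hψx : ψ (ι g * x) = x := by
    rw [map_mul, hψ1, hψ2, mul_inv_cancel_left]
  refine ⟨fun z => γ (ψ z), fun z => St (ψ z), ?_⟩
  refine ⟨?_, ?_, ?_, ?_, ?_, ?_, ?_, ?_, ?_, ?_⟩
  · intro K _ f t
    obtain ⟨χ, hχ1, hχ2⟩ := hF.lift K f ((f g)⁻¹ * t)
    exact ⟨χ, hχ1, by rw [map_mul, hχ1, hχ2, mul_inv_cancel_left]⟩
  · intro K hK1 hK2
    apply hF.gen K hK1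
    have := K.mul_mem (K.inv_mem (hK1 g)) hK2
    rwa [inv_mul_cancel_left] at this
  · intro g'
    change γ (ψ (ι g')) = g'
    rw [hψ1, hF.gate_of]
  · intro g' z
    change γ (ψ (ι g' * z)) = g' * γ (ψ z)
    rw [map_mul, hψ1, hF.gate_mul]
  · intro z g' hz
    change γ (ψ (z * ι g')) = γ (ψ z)
    rw [map_mul, hψ1, hF.gate_right]
    rintro ⟨h, hh⟩
    apply hz
    refine ⟨h, ?_⟩
    rw [← hφψ z, ← hh, hφ1]
  · intro z
    change γ (ψ (z * (ι g * x))) = γ (ψ z)
    rw [map_mul, hψx, hF.gate_x]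
  · change ¬ St (ψ 1)
    rw [map_one]
    exact hF.St_one
  · change St (ψ (ι g * x))
    rw [hψx]
    exact hF.St_x
  · intro z g'
    change St (ψ (z * ι g')) ↔ St (ψ z)
    rw [map_mul, hψ1]
    exact hF.St_right _ _
  · intro z hz
    change St (ψ (z * (ι g * x))) ↔ St (ψ z)
    rw [map_mul, hψx]
    apply hF.St_mul_x
    intro h
    apply hz
    rw [← hφψ z, h, map_one]

end Pool.Agent.Lib.MP_7e344a_al
end
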