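import Pool.Agent.Lib.MP_7e344a_al.Mg.G001
import Pool.Agent.Lib.MP_7e344a_al.Mg.G003

section

/-!
# MP_7e344a_al: G06, the coset graph of the free extension is slim
-/

set_option autoImplicit false

namespace Pool.Agent.Lib.MP_7e344a_al

/-- the index type for three subgroups -/
inductive Ix : Type
  | a : Ix
  | b : Ix
  | c : Ix

variable {G G' I : Type} [Group G] [Group G'] {ι : G →* G'} {x : G'} {γ : G' → G}
  {St : G' → Prop}

/-- the family of three subgroups -/
def fam (A B C : Subgroup G) : Ix → Subgroup G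
  | Ix.a => A
  | Ix.b => B
  | Ix.c => C

/-- The family of subgroups of the free extension. -/
abbrev famX (ι : G →* G') (x : G') (g : G) (A B C : Subgroup G) : Ix → Subgroup G' :=
  fam (sA ι x A) (sB ι x g B) (C.map ι)

/-- the map of coset graphs for larger subgroups -/
def coarsen {H₁ H₂ : I → Subgroup G} (h : ∀ i, H₁ i ≤ H₂ i) : CV G H₁ → CV G H₂
  | Sum.inl g => Sum.inl g
  | Sum.inr c => Sum.inr ⟨c.1, Quotient.map' id (by
      intro a b hab
      rw [QuotientGroup.leftRel_apply] at hab ⊢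
      exact h _ hab) c.2⟩

theorem coarsen_elt {H₁ H₂ : I → Subgroup G} (h : ∀ i, H₁ i ≤ H₂ i) (g : G) :
    coarsen h (elt H₁ g) = elt H₂ g := rfl

theorem coarsen_cos {H₁ H₂ : I → Subgroup G} (h : ∀ i, H₁ i ≤ H₂ i) (i : I) (g : G) :
    coarsen h (cos H₁ i g) = cos H₂ i g := rfl

theorem GExt_memA (ι : G →* G') (x : G') {A : Subgroup G} {a : G} (ha : a ∈ A) :
    ι a ∈ sA ι x A :=
  Subgroup.subset_closure (Or.inl ⟨a, ha, rfl⟩)

theorem GExt_xmem (ι : G →* G') (x : G') (A : Subgroup G) : x ∈ sA ι x A :=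
  Subgroup.subset_closure (Or.inr rfl)

theorem GExt_memB (ι : G →* G') (x : G') (g : G) {B : Subgroup G} {b : G} (hb : b ∈ B) :
    ι b ∈ sB ι x g B :=
  Subgroup.subset_closure (Or.inl ⟨b, hb, rfl⟩)

theorem GExt_ymem (ι : G →* G') (x : G') (g : G) (B : Subgroup G) : x⁻¹ * ι g ∈ sB ι x g B :=
  Subgroup.subset_closure (Or.inr rfl)

theorem GExt_yinv_mem (ι : G →* G') (x : G') (g : G) (B : Subgroup G) :
    ι g⁻¹ * x ∈ sB ι x g B := by
  have h := (sB ι x g B).inv_mem (GExt_ymem ι x g B)
  rwa [mul_inv_rev, inv_inv, ← map_inv] at h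

theorem ext_le (ι : G →* G') (x : G') (g : G) (A B C : Subgroup G) (i : Ix) :
    HI (fam A B C) ι i ≤ famX ι x g A B C i := by
  cases i with
  | a =>
    rintro _ ⟨a, ha, rfl⟩
    exact GExt_memA ι x ha
  | b =>
    rintro _ ⟨b, hb, rfl⟩
    exact GExt_memB ι x g hb
  | c => exact le_rfl

theorem GExt_coarsen_adj {H₁ H₂ : I → Subgroup G} (h : ∀ i, H₁ i ≤ H₂ i) {v w : CV G H₁}
    (hvw : (Inc H₁).Adj v w) : (Inc H₂).Adj (coarsen h v) (coarsen h w) := by
  rcases cv_cases H₁ v with ⟨a, rfl⟩ | ⟨i, a, rfl⟩ <;>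
    rcases cv_cases H₁ w with ⟨b, rfl⟩ | ⟨j, b, rfl⟩
  · exact (not_adj_elt_elt H₁ _ _ hvw).elim
  · rw [coarsen_elt, coarsen_cos, adj_elt_cos]
    rw [adj_elt_cos] at hvw
    exact h _ hvw
  · rw [SimpleGraph.adj_comm, coarsen_elt, coarsen_cos, adj_elt_cos]
    rw [SimpleGraph.adj_comm, adj_elt_cos] at hvw
    exact h _ hvw
  · exact (not_adj_cos_cos H₁ _ _ _ _ hvw).elim

theorem GExt_coarsen_surj {H₁ H₂ : I → Subgroup G} (h : ∀ i, H₁ i ≤ H₂ i) (w : CV G H₂) :
    ∃ v, coarsen h v = w := by
  rcases cv_cases H₂ w with ⟨a, rfl⟩ | ⟨i, a, rfl⟩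
  · exact ⟨elt H₁ a, rfl⟩
  · exact ⟨cos H₁ i a, rfl⟩

/-- two elements in the same coset are joined by a walk of length two -/
theorem GExt_walk2 (H : I → Subgroup G) {z z' : G} {i : I} (h : z⁻¹ * z' ∈ H i) :
    ∃ W : (Inc H).Walk (elt H z) (elt H z'), W.length ≤ 2 := by
  have h1 : (Inc H).Adj (elt H z) (cos H i z) := adj_self H z i
  have h2 : (Inc H).Adj (cos H i z) (elt H z') := by
    rw [SimpleGraph.adj_comm, adj_elt_cos]
    have := (H i).inv_mem h
    simpa using this
  exact ⟨SimpleGraph.Walk.cons h1 (SimpleGraph.Walk.cons h2 SimpleGraph.Walk.nil), by simp⟩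

theorem GExt_dist2 (H : I → Subgroup G) {z z' : G} {i : I} (h : z⁻¹ * z' ∈ H i) :
    (Inc H).dist (elt H z) (elt H z') ≤ 2 := by
  obtain ⟨W, hW⟩ := GExt_walk2 H h
  exact (SimpleGraph.dist_le W).trans hW

/-- the images of adjacent vertices of the bridge graph have distance at most two -/
theorem GExt_edge (x : G') (g : G) (A B C : Subgroup G) {v w : CV G' (HI (fam A B C) ι)}
    (h : (Brid (fam A B C) ι x).Adj v w) :
    ∃ W : (Inc (famX ι x g A B C)).Walk (coarsen (ext_le ι x g A B C) v)
      (coarsen (ext_le ι x g A B C) w), W.length ≤ 2 := by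
  have key : ∀ z : G', ∃ W : (Inc (famX ι x g A B C)).Walk (elt (famX ι x g A B C) z)
      (elt (famX ι x g A B C) (z * x)), W.length ≤ 2 := by
    intro z
    refine GExt_walk2 (famX ι x g A B C) (i := Ix.a) ?_
    rw [inv_mul_cancel_left]
    exact GExt_xmem ι x A
  rw [Brid, SimpleGraph.sup_adj, SimpleGraph.fromRel_adj] at h
  rcases h with h | ⟨_, ⟨z, rfl, rfl⟩ | ⟨z, rfl, rfl⟩⟩
  · have h' := GExt_coarsen_adj (ext_le ι x g A B C) h
    exact ⟨SimpleGraph.Walk.cons h' SimpleGraph.Walk.nil, by simp⟩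
  · exact key z
  · obtain ⟨W, hW⟩ := key z
    exact ⟨W.reverse, (SimpleGraph.Walk.length_reverse W).le.trans hW⟩

theorem ext_conn (hF : FreeExt ι x γ St) {A B C : Subgroup G}
    (hc : (Inc (fam A B C)).Connected) (g : G) : (Inc (famX ι x g A B C)).Connected := by
  have hb := brid_conn hF hc
  have key : ∀ (v w : CV G' (HI (fam A B C) ι)), (Brid (fam A B C) ι x).Walk v w →
      (Inc (famX ι x g A B C)).Reachable (coarsen (ext_le ι x g A B C) v)
        (coarsen (ext_le ι x g A B C) w) := by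
    intro v w W
    induction W with
    | nil => exact SimpleGraph.Reachable.refl _
    | cons h _ ih =>
      obtain ⟨W', _⟩ := GExt_edge x g A B C h
      exact W'.reachable.trans ih
  rw [SimpleGraph.connected_iff]
  refine ⟨?_, ⟨elt _ 1⟩⟩
  intro v w
  obtain ⟨v', rfl⟩ := GExt_coarsen_surj (ext_le ι x g A B C) v
  obtain ⟨w', rfl⟩ := GExt_coarsen_surj (ext_le ι x g A B C) w
  obtain ⟨W⟩ := hb.preconnected v' w'
  exact key _ _ W

/-- geodesics of the bridge graph between points of `z ⟨A, x⟩` -/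
theorem ext_nearA (hF : FreeExt ι x γ St) {A B C : Subgroup G}
    (hc : (Inc (fam A B C)).Connected) {z z' : G'} (hz : z⁻¹ * z' ∈ sA ι x A)
    {p : ℕ → CV G' (HI (fam A B C) ι)} {n : ℕ}
    (hp : IsGeo (Brid (fam A B C) ι x) p n (elt _ z) (elt _ z')) {i : ℕ} (hi : i ≤ n) :
    ∃ c ∈ sA ι x A, (Brid (fam A B C) ι x).dist (p i) (elt _ (z * c)) ≤ 2 := by
  have hact : ∀ (g : G') (v w : CV G' (HI (fam A B C) ι)), (Brid (fam A B C) ι x).Adj v w →
      (Brid (fam A B C) ι x).Adj (g • v) (g • w) := fun g v w h => brid_act (fam A B C) g v w h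
  have hp1 := hp.smul hact z⁻¹
  rw [smul_elt, smul_elt, inv_mul_cancel] at hp1
  obtain ⟨y, hy, hd⟩ := brid_near hF hc (sA ι x A : Set G') (by
    intro Z hZY hZ hm1 hm2 hm3
    refine Set.Subset.antisymm hZY ?_
    obtain ⟨z0, hz0⟩ := hZ
    have key : ∀ c ∈ sA ι x A, z0 * c ∈ Z := by
      intro c hc'
      refine Subgroup.closure_induction_right (p := fun c _ => z0 * c ∈ Z) ?_ ?_ ?_ hc'
      · rw [mul_one]; exact hz0
      · rintro c hcm y (⟨a, ha, rfl⟩ | hy) ih
        · rw [← mul_assoc]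
          apply hm1 _ ih
          exact (sA ι x A).mul_mem (hZY ih) (GExt_memA ι x ha)
        · rw [Set.mem_singleton_iff.1 hy, ← mul_assoc]
          apply hm2 _ ih
          exact (sA ι x A).mul_mem (hZY ih) (GExt_xmem ι x A)
      · rintro c hcm y (⟨a, ha, rfl⟩ | hy) ih
        · rw [← mul_assoc, ← map_inv]
          apply hm1 _ ih
          exact (sA ι x A).mul_mem (hZY ih) (GExt_memA ι x (A.inv_mem ha))
        · rw [Set.mem_singleton_iff.1 hy, ← mul_assoc]
          apply hm3 _ ih
          exact (sA ι x A).mul_mem (hZY ih) ((sA ι x A).inv_mem (GExt_xmem ι x A))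
    intro y hy
    have := key (z0⁻¹ * y) ((sA ι x A).mul_mem ((sA ι x A).inv_mem (hZY hz0)) hy)
    rwa [mul_inv_cancel_left] at this) 2 (by
    intro z hz k hk p n hp i hi
    left
    have h1 : ι k ∈ sA ι x A := by
      have := (sA ι x A).mul_mem ((sA ι x A).inv_mem hz) hk
      rwa [inv_mul_cancel_left] at this
    have h2 : k ∈ A := by
      have := gateA hF h1
      rwa [hF.gate_of] at this
    have h3 : (Inc (fam A B C)).dist (elt _ 1) (elt _ k) ≤ 2 :=
      GExt_dist2 (fam A B C) (i := Ix.a) (by simpa [fam] using h2)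
    rw [hp.length] at h3
    have h4 := hp.geo 0 i (Nat.zero_le _) hi
    rw [hp.start] at h4
    rw [SimpleGraph.dist_comm]
    omega) (sA ι x A).one_mem hz hp1 hi
  refine ⟨y, hy, ?_⟩
  have h5 := dist_smul hact z (z⁻¹ • p i) (elt _ y)
  rw [smul_inv_smul, smul_elt] at h5
  rw [h5]
  exact hd

/-- geodesics of the bridge graph between points of `z ⟨B, x⁻¹ g⟩` -/
theorem ext_nearB (hF : FreeExt ι x γ St) {A B C : Subgroup G} {δ : ℕ}
    (hc : (Inc (fam A B C)).Connected) (hs : Slim (Inc (fam A B C)) δ) (g : G) {z z' : G'}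
    (hz : z⁻¹ * z' ∈ sB ι x g B) {p : ℕ → CV G' (HI (fam A B C) ι)} {n : ℕ}
    (hp : IsGeo (Brid (fam A B C) ι x) p n (elt _ z) (elt _ z')) {i : ℕ} (hi : i ≤ n) :
    ∃ c ∈ sB ι x g B, (Brid (fam A B C) ι x).dist (p i) (elt _ (z * c)) ≤
      2 * δ + (Inc (fam A B C)).dist (elt _ 1) (elt _ g) + 3 := by
  have hb := brid_conn hF hc
  have hact : ∀ (g : G') (v w : CV G' (HI (fam A B C) ι)), (Brid (fam A B C) ι x).Adj v w →
      (Brid (fam A B C) ι x).Adj (g • v) (g • w) := fun g v w h => brid_act (fam A B C) g v w h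
  have hactX : ∀ (g : G) (v w : CV G (fam A B C)), (Inc (fam A B C)).Adj v w →
      (Inc (fam A B C)).Adj (g • v) (g • w) := fun g v w h => inc_act (fam A B C) g v w h
  have hp1 := hp.smul hact z⁻¹
  rw [smul_elt, smul_elt, inv_mul_cancel] at hp1
  obtain ⟨ℓ, hℓ⟩ : ∃ ℓ, (Inc (fam A B C)).dist (elt _ 1) (elt _ g) = ℓ := ⟨_, rfl⟩
  rw [hℓ]
  have hB' : ∀ {u v : G'}, u ∈ sB ι x g B → v ∈ sB ι x g B → u⁻¹ * v ∈ sB ι x g B :=
    fun hu hv => (sB ι x g B).mul_mem ((sB ι x g B).inv_mem hu) hv
  -- the special elements have small distance from `1`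
  have hsp : ∀ e : G, e = 1 ∨ e = g → (Inc (fam A B C)).dist (elt _ 1) (elt _ e) ≤ ℓ := by
    rintro e (rfl | rfl)
    · rw [SimpleGraph.dist_self]; exact Nat.zero_le _
    · exact hℓ.le
  obtain ⟨y, hy, hd⟩ := brid_near hF hc {u : G' | u ∈ sB ι x g B ∨ u * x ∈ sB ι x g B} (by
    intro Z hZY hZ hm1 hm2 hm3
    refine Set.Subset.antisymm hZY ?_
    obtain ⟨z0, hz0, hz0B⟩ : ∃ z0 ∈ Z, z0 ∈ sB ι x g B := by
      obtain ⟨z0, hz0⟩ := hZ
      rcases hZY hz0 with h | h
      · exact ⟨z0, hz0, h⟩
      · exact ⟨z0 * x, hm2 z0 hz0 (Or.inl h), h⟩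
    have key : ∀ c ∈ sB ι x g B, z0 * c ∈ Z := by
      intro c hc'
      refine Subgroup.closure_induction_right (p := fun c _ => z0 * c ∈ Z) ?_ ?_ ?_ hc'
      · rw [mul_one]; exact hz0
      · rintro c hcm y (⟨a, ha, rfl⟩ | hy) ih
        · rw [← mul_assoc]
          apply hm1 _ ih
          exact Or.inl ((sB ι x g B).mul_mem ((sB ι x g B).mul_mem hz0B hcm) (GExt_memB ι x g ha))
        · rw [Set.mem_singleton_iff.1 hy, ← mul_assoc, ← mul_assoc]
          have e1 : z0 * c * x⁻¹ ∈ Z := by
            apply hm3 _ ih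
            right
            rw [inv_mul_cancel_right]
            exact (sB ι x g B).mul_mem hz0B hcm
          apply hm1 _ e1
          left
          rw [mul_assoc]
          exact (sB ι x g B).mul_mem ((sB ι x g B).mul_mem hz0B hcm) (GExt_ymem ι x g B)
      · rintro c hcm y (⟨a, ha, rfl⟩ | hy) ih
        · rw [← mul_assoc, ← map_inv]
          apply hm1 _ ih
          exact Or.inl ((sB ι x g B).mul_mem ((sB ι x g B).mul_mem hz0B hcm)
            (GExt_memB ι x g (B.inv_mem ha)))
        · rw [Set.mem_singleton_iff.1 hy, mul_inv_rev, inv_inv, ← map_inv, ← mul_assoc,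
            ← mul_assoc]
          have e2 : z0 * c * ι g⁻¹ * x ∈ sB ι x g B := by
            rw [mul_assoc]
            exact (sB ι x g B).mul_mem ((sB ι x g B).mul_mem hz0B hcm) (GExt_yinv_mem ι x g B)
          have e1 : z0 * c * ι g⁻¹ ∈ Z := hm1 _ ih _ (Or.inr e2)
          exact hm2 _ e1 (Or.inl e2)
    have key2 : ∀ y ∈ sB ι x g B, y ∈ Z := by
      intro y hy
      have := key (z0⁻¹ * y) (hB' hz0B hy)
      rwa [mul_inv_cancel_left] at this
    rintro y (hy | hy)
    · exact key2 y hy
    · have h1 := hm3 _ (key2 _ hy)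
      rw [mul_inv_cancel_right] at h1
      exact h1 (Or.inr hy)) (2 * δ + ℓ + 2) (by
    intro z hz k hk p n hp i hi
    -- find the special elements
    obtain ⟨e₁, he₁, e₂, he₂, hk'⟩ : ∃ e₁ : G, (e₁ = 1 ∨ e₁ = g) ∧ ∃ e₂ : G, (e₂ = 1 ∨ e₂ = g) ∧
        e₁⁻¹ * k * e₂ ∈ B := by
      rcases hz with hz | hz <;> rcases hk with hk | hk
      · refine ⟨1, Or.inl rfl, 1, Or.inl rfl, ?_⟩
        apply gateB_of hF (g := g)
        have := hB' hz hk
        simpa using this
      · refine ⟨1, Or.inl rfl, g, Or.inr rfl, ?_⟩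
        apply gateB_of hF (g := g)
        have := (sB ι x g B).mul_mem (hB' hz hk) (GExt_ymem ι x g B)
        simpa [mul_assoc] using this
      · refine ⟨g, Or.inr rfl, 1, Or.inl rfl, ?_⟩
        apply gateB_of hF (g := g)
        have := (sB ι x g B).mul_mem (GExt_yinv_mem ι x g B) (hB' hz hk)
        simpa [mul_assoc] using this
      · refine ⟨g, Or.inr rfl, g, Or.inr rfl, ?_⟩
        apply gateB_of hF (g := g)
        have := (sB ι x g B).mul_mem ((sB ι x g B).mul_mem (GExt_yinv_mem ι x g B) (hB' hz hk))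
          (GExt_ymem ι x g B)
        simpa [mul_assoc] using this
    obtain ⟨b, hb'⟩ : ∃ b, b = e₁⁻¹ * k * e₂ := ⟨_, rfl⟩
    rw [← hb'] at hk'
    have hk2 : k = e₁ * b * e₂⁻¹ := by rw [hb']; group
    obtain ⟨q, hq⟩ := IsGeo.exists hc (elt (fam A B C) 1) (elt (fam A B C) e₁)
    obtain ⟨r, hr⟩ := IsGeo.exists hc (elt (fam A B C) e₁) (elt (fam A B C) (e₁ * b))
    obtain ⟨t, ht⟩ := IsGeo.exists hc (elt (fam A B C) (e₁ * b)) (elt (fam A B C) k)
    have d1 := hsp e₁ he₁
    have d2 : (Inc (fam A B C)).dist (elt (fam A B C) e₁) (elt (fam A B C) (e₁ * b)) ≤ 2 :=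
      GExt_dist2 (fam A B C) (i := Ix.b) (by simpa [fam] using hk')
    have d3 : (Inc (fam A B C)).dist (elt (fam A B C) (e₁ * b)) (elt (fam A B C) k) ≤ ℓ := by
      have h1 := dist_smul hactX (e₁ * b * e₂⁻¹) (elt (fam A B C) e₂) (elt (fam A B C) 1)
      rw [smul_elt, smul_elt, inv_mul_cancel_right, mul_one, ← hk2] at h1
      rw [h1, SimpleGraph.dist_comm]
      exact hsp e₂ he₂
    rcases slim_quad hc hs hp hq hr ht hi with ⟨j, hj, hj'⟩ | ⟨j, hj, hj'⟩ | ⟨j, hj, hj'⟩
    · left
      have h3 := hq.geo 0 j (Nat.zero_le _) hj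
      rw [hq.start, SimpleGraph.dist_comm] at h3
      have h4 := hc.dist_triangle (u := p i) (v := q j) (w := elt _ 1)
      omega
    · left
      have h3 := hr.geo 0 j (Nat.zero_le _) hj
      rw [hr.start, SimpleGraph.dist_comm] at h3
      have h4 := hc.dist_triangle (u := p i) (v := r j) (w := elt _ 1)
      have h5 := hc.dist_triangle (u := r j) (v := elt _ e₁) (w := elt _ 1)
      have h6 := SimpleGraph.dist_comm (G := Inc (fam A B C)) (u := elt _ e₁) (v := elt _ 1)
      omega
    · right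
      have h3 := ht.geo j _ hj le_rfl
      rw [ht.fin] at h3
      have h4 := hc.dist_triangle (u := p i) (v := t j) (w := elt _ k)
      omega) (Or.inl (sB ι x g B).one_mem) (Or.inl hz) hp1 hi
  have hfin : ∀ c : G', (Brid (fam A B C) ι x).dist (p i) (elt _ (z * c)) =
      (Brid (fam A B C) ι x).dist (z⁻¹ • p i) (elt _ c) := by
    intro c
    have h5 := dist_smul hact z (z⁻¹ • p i) (elt _ c)
    rw [smul_inv_smul, smul_elt] at h5
    exact h5
  rcases hy with hy | hy
  · refine ⟨y, hy, ?_⟩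
    rw [hfin]
    omega
  · refine ⟨y * x, hy, ?_⟩
    rw [hfin]
    have h6 : (Brid (fam A B C) ι x).dist (elt _ y) (elt _ (y * x)) ≤ 1 := by
      by_cases hxy : elt (HI (fam A B C) ι) y = elt _ (y * x)
      · rw [hxy, SimpleGraph.dist_self]; exact Nat.zero_le _
      · have hadj : (Brid (fam A B C) ι x).Adj (elt _ y) (elt _ (y * x)) := by
          rw [Brid, SimpleGraph.sup_adj, SimpleGraph.fromRel_adj]
          exact Or.inr ⟨hxy, Or.inl ⟨y, rfl, rfl⟩⟩
        exact (SimpleGraph.dist_eq_one_iff_adj.2 hadj).le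
    have h7 := hb.dist_triangle (u := z⁻¹ • p i) (v := elt _ y) (w := elt _ (y * x))
    omega

/-- points of geodesics of the bridge graph between points of a coset -/
theorem GExt_base (hF : FreeExt ι x γ St) {A B C : Subgroup G} {δ : ℕ}
    (hc : (Inc (fam A B C)).Connected) (hs : Slim (Inc (fam A B C)) δ) (g : G) {z z' : G'}
    {j : Ix} (hz : z⁻¹ * z' ∈ famX ι x g A B C j) {p : ℕ → CV G' (HI (fam A B C) ι)} {n : ℕ}
    (hp : IsGeo (Brid (fam A B C) ι x) p n (elt _ z) (elt _ z')) {i : ℕ} (hi : i ≤ n) :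
    (Inc (famX ι x g A B C)).dist (elt _ z) (coarsen (ext_le ι x g A B C) (p i)) ≤
      2 * (2 * δ + (Inc (fam A B C)).dist (elt _ 1) (elt _ g) + 3) + 2 := by
  obtain ⟨ℓ, hℓ⟩ : ∃ ℓ, (Inc (fam A B C)).dist (elt _ 1) (elt _ g) = ℓ := ⟨_, rfl⟩
  rw [hℓ]
  have hb := brid_conn hF hc
  have hx := ext_conn hF hc g
  have hlip := fun v w => coarse_lip (f := coarsen (ext_le ι x g A B C)) (K := 2) hb hx
    (fun v w h => by
      obtain ⟨W, hW⟩ := GExt_edge x g A B C h
      exact (SimpleGraph.dist_le W).trans hW) v w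
  have hmain : ∀ c ∈ famX ι x g A B C j, (Brid (fam A B C) ι x).dist (p i) (elt _ (z * c)) ≤
      2 * δ + ℓ + 3 → (Inc (famX ι x g A B C)).dist (elt _ z)
        (coarsen (ext_le ι x g A B C) (p i)) ≤ 2 * (2 * δ + ℓ + 3) + 2 := by
    intro c hcm hd
    have h1 := hlip (p i) (elt _ (z * c))
    rw [coarsen_elt, SimpleGraph.dist_comm] at h1
    have h2 : (Inc (famX ι x g A B C)).dist (elt _ z) (elt _ (z * c)) ≤ 2 :=
      GExt_dist2 (famX ι x g A B C) (i := j) (by rwa [inv_mul_cancel_left])
    have h3 := hx.dist_triangle (u := elt _ z) (v := elt _ (z * c))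
      (w := coarsen (ext_le ι x g A B C) (p i))
    omega
  cases j with
  | a =>
    obtain ⟨c, hc', hd⟩ := ext_nearA hF hc hz hp hi
    exact hmain c hc' (by omega)
  | b =>
    obtain ⟨c, hc', hd⟩ := ext_nearB hF hc hs g hz hp hi
    exact hmain c hc' (by omega)
  | c =>
    have h1 : (Inc (HI (fam A B C) ι)).Adj (elt _ z) (cos _ Ix.c z) := adj_self _ z Ix.c
    have h2 : (Inc (HI (fam A B C) ι)).Adj (cos _ Ix.c z) (elt _ z') := by
      rw [SimpleGraph.adj_comm, adj_elt_cos]
      have := (HI (fam A B C) ι Ix.c).inv_mem (show z⁻¹ * z' ∈ HI (fam A B C) ι Ix.c from hz)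
      simpa using this
    have h3 : (Brid (fam A B C) ι x).dist (elt _ z) (elt _ z') ≤ 2 := by
      have a1 : (Brid (fam A B C) ι x).Adj (elt _ z) (cos _ Ix.c z) := Or.inl h1
      have a2 : (Brid (fam A B C) ι x).Adj (cos _ Ix.c z) (elt _ z') := Or.inl h2
      have := SimpleGraph.dist_le
        (SimpleGraph.Walk.cons a1 (SimpleGraph.Walk.cons a2 SimpleGraph.Walk.nil))
      simpa using this
    rw [hp.length] at h3
    have h4 := hp.geo 0 i (Nat.zero_le _) hi
    rw [hp.start, SimpleGraph.dist_comm] at h4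
    refine hmain 1 (Subgroup.one_mem _) ?_
    rw [mul_one]
    omega

/-- geodesics of the bridge graph between group elements joined by short walks in the coset graph
of the extension -/
theorem GExt_chain (hF : FreeExt ι x γ St) {A B C : Subgroup G} {δ M : ℕ}
    (hc : (Inc (fam A B C)).Connected) (hs : Slim (Inc (fam A B C)) δ) (g : G)
    (hM : M = 2 * (2 * δ + (Inc (fam A B C)).dist (elt _ 1) (elt _ g) + 3) + 2) (m : ℕ) :
    ∀ (z z' : G') (W : (Inc (famX ι x g A B C)).Walk (elt _ z) (elt _ z')),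
    W.length ≤ 2 * m + 1 → ∀ (p : ℕ → CV G' (HI (fam A B C) ι)) (n : ℕ),
    IsGeo (Brid (fam A B C) ι x) p n (elt _ z) (elt _ z') → ∀ i ≤ n,
    (Inc (famX ι x g A B C)).dist (elt _ z) (coarsen (ext_le ι x g A B C) (p i)) ≤
      (m + 1) * (M + 2 * δ + 2) := by
  have hb := brid_conn hF hc
  have hbs := brid_slim hF hc hs
  have hx := ext_conn hF hc g
  have hlip := fun v w => coarse_lip (f := coarsen (ext_le ι x g A B C)) (K := 2) hb hx
    (fun v w h => by
      obtain ⟨W, hW⟩ := GExt_edge x g A B C h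
      exact (SimpleGraph.dist_le W).trans hW) v w
  induction m with
  | zero =>
    intro z z' W hW p n hp i hi
    cases W with
    | nil =>
      have h1 := hp.length
      rw [SimpleGraph.dist_self] at h1
      have h2 : i = 0 := by omega
      rw [h2, hp.start, coarsen_elt, SimpleGraph.dist_self]
      exact Nat.zero_le _
    | cons h W' =>
      cases W' with
      | nil => exact (not_adj_elt_elt _ _ _ h).elim
      | cons h' W'' => simp at hW
  | succ m ih =>
    intro z z' W hW p n hp i hi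
    cases W with
    | nil =>
      have h1 := hp.length
      rw [SimpleGraph.dist_self] at h1
      have h2 : i = 0 := by omega
      rw [h2, hp.start, coarsen_elt, SimpleGraph.dist_self]
      exact Nat.zero_le _
    | @cons _ v _ h W' =>
      obtain ⟨j, u, rfl⟩ : ∃ j u, v = cos _ j u := by
        rcases cv_cases _ v with ⟨a, rfl⟩ | h'
        · exact (not_adj_elt_elt _ _ _ h).elim
        · exact h'
      rw [adj_elt_cos] at h
      cases W' with
      | @cons _ v' _ h' W'' =>
        obtain ⟨z₁, rfl⟩ : ∃ z₁, v' = elt _ z₁ := by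
          rcases cv_cases _ v' with h'' | ⟨k, a, rfl⟩
          · exact h''
          · exact (not_adj_cos_cos _ _ _ _ _ h').elim
        rw [SimpleGraph.adj_comm, adj_elt_cos] at h'
        have hz : z⁻¹ * z₁ ∈ famX ι x g A B C j := by
          have := (famX ι x g A B C j).mul_mem h ((famX ι x g A B C j).inv_mem h')
          simpa using this
        have hW'' : W''.length ≤ 2 * m + 1 := by
          simp at hW
          omega
        obtain ⟨q, hq⟩ := IsGeo.exists hb (elt (HI (fam A B C) ι) z) (elt _ z₁)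
        obtain ⟨r, hr⟩ := IsGeo.exists hb (elt (HI (fam A B C) ι) z₁) (elt _ z')
        have hzz : (Inc (famX ι x g A B C)).dist (elt _ z) (elt _ z₁) ≤ 2 := GExt_dist2 _ hz
        rcases hbs p (fun i => r (_ - i)) q n _ _ _ _ _ hp hr.symm hq i hi with
          ⟨k, hk, hd⟩ | ⟨k, hk, hd⟩
        · have e1 := ih z₁ z' W'' hW'' r _ hr
            ((Brid (fam A B C) ι x).dist (elt _ z₁) (elt _ z') - k) (Nat.sub_le _ _)
          have e2 := hlip (p i) (r ((Brid (fam A B C) ι x).dist (elt _ z₁) (elt _ z') - k))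
          have e3 := hx.dist_triangle (u := elt _ z) (v := elt _ z₁)
            (w := coarsen (ext_le ι x g A B C) (p i))
          have e4 := hx.dist_triangle (u := elt _ z₁) (v := coarsen (ext_le ι x g A B C)
            (r ((Brid (fam A B C) ι x).dist (elt _ z₁) (elt _ z') - k)))
            (w := coarsen (ext_le ι x g A B C) (p i))
          rw [SimpleGraph.dist_comm (u := coarsen (ext_le ι x g A B C) (r _))] at e4
          have e5 : (m + 1 + 1) * (M + 2 * δ + 2) = (m + 1) * (M + 2 * δ + 2) +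
            (M + 2 * δ + 2) := by ring
          rw [e5]
          omega
        · have e1 := GExt_base hF hc hs g hz hq hk
          have e2 := hlip (p i) (q k)
          have e4 := hx.dist_triangle (u := elt _ z) (v := coarsen (ext_le ι x g A B C) (q k))
            (w := coarsen (ext_le ι x g A B C) (p i))
          rw [SimpleGraph.dist_comm (u := coarsen (ext_le ι x g A B C) (q k))] at e4
          have e5 : (m + 1 + 1) * (M + 2 * δ + 2) = (m + 1) * (M + 2 * δ + 2) +
            (M + 2 * δ + 2) := by ring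
          rw [← hM] at e1
          rw [e5]
          omega

theorem ext_slim (hF : FreeExt ι x γ St) {A B C : Subgroup G}
    (hc : (Inc (fam A B C)).Connected) (hs : ∃ δ, Slim (Inc (fam A B C)) δ) (g : G) :
    ∃ δ', Slim (Inc (famX ι x g A B C)) δ' := by
  obtain ⟨δ, hs⟩ := hs
  have hb := brid_conn hF hc
  have hbs := brid_slim hF hc hs
  have hx := ext_conn hF hc g
  obtain ⟨M, hM⟩ : ∃ M, M = 2 * (2 * δ + (Inc (fam A B C)).dist (elt _ 1) (elt _ g) + 3) + 2 :=
    ⟨_, rfl⟩
  have hedge : ∀ v w, (Brid (fam A B C) ι x).Adj v w → (Inc (famX ι x g A B C)).dist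
      (coarsen (ext_le ι x g A B C) v) (coarsen (ext_le ι x g A B C) w) ≤ 2 := by
    intro v w h
    obtain ⟨W, hW⟩ := GExt_edge x g A B C h
    exact (SimpleGraph.dist_le W).trans hW
  have hlip := fun v w => coarse_lip (f := coarsen (ext_le ι x g A B C)) (K := 2) hb hx hedge v w
  -- every vertex is near a group element
  have hnear : ∀ v : CV G' (HI (fam A B C) ι), ∃ z : G', (Brid (fam A B C) ι x).dist v (elt _ z) ≤ 1
      ∧ (Inc (famX ι x g A B C)).dist (coarsen (ext_le ι x g A B C) v) (elt _ z) ≤ 1 := by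
    intro v
    rcases cv_cases _ v with ⟨a, rfl⟩ | ⟨i, a, rfl⟩
    · refine ⟨a, ?_, ?_⟩
      · rw [SimpleGraph.dist_self]; exact Nat.zero_le _
      · rw [coarsen_elt, SimpleGraph.dist_self]; exact Nat.zero_le _
    · have h1 : (Inc (HI (fam A B C) ι)).Adj (cos _ i a) (elt _ a) := (adj_self _ a i).symm
      refine ⟨a, ?_, ?_⟩
      · have h2 : (Brid (fam A B C) ι x).Adj (cos _ i a) (elt _ a) := Or.inl h1
        exact (SimpleGraph.dist_eq_one_iff_adj.2 h2).le
      · have h2 := GExt_coarsen_adj (ext_le ι x g A B C) h1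
        exact (SimpleGraph.dist_eq_one_iff_adj.2 h2).le
  obtain ⟨δ', hδ'⟩ := slim_coarse δ 2 (4 * δ + 3 * (M + 2 * δ + 2) + 5)
  refine ⟨δ', hδ' _ _ (Brid (fam A B C) ι x) (Inc (famX ι x g A B C))
    (coarsen (ext_le ι x g A B C)) hb hbs hx ?_ hedge ?_⟩
  · intro w
    obtain ⟨v, rfl⟩ := GExt_coarsen_surj (ext_le ι x g A B C) w
    exact ⟨v, by rw [SimpleGraph.dist_self]; exact Nat.zero_le _⟩
  · intro v w p n hvw hp i hi
    obtain ⟨z, hz1, hz2⟩ := hnear v
    obtain ⟨z', hz1', hz2'⟩ := hnear w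
    obtain ⟨q, hq⟩ := IsGeo.exists hb v (elt _ z)
    obtain ⟨r, hr⟩ := IsGeo.exists hb (elt (HI (fam A B C) ι) z) (elt _ z')
    obtain ⟨t, ht⟩ := IsGeo.exists hb (elt _ z') w
    have hzz' : (Inc (famX ι x g A B C)).dist (elt _ z) (elt _ z') ≤ 5 := by
      have h1 := hx.dist_triangle (u := elt _ z) (v := coarsen (ext_le ι x g A B C) v)
        (w := elt _ z')
      have h2 := hx.dist_triangle (u := coarsen (ext_le ι x g A B C) v)
        (v := coarsen (ext_le ι x g A B C) w) (w := elt _ z')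
      rw [SimpleGraph.dist_comm (u := elt _ z) (v := coarsen (ext_le ι x g A B C) v)] at h1
      omega
    obtain ⟨W, hW⟩ := hx.exists_walk_length_eq_dist (elt (famX ι x g A B C) z) (elt _ z')
    rcases slim_quad hb hbs hp hq hr ht hi with ⟨j, hj, hj'⟩ | ⟨j, hj, hj'⟩ | ⟨j, hj, hj'⟩
    · have h3 := hq.geo 0 j (Nat.zero_le _) hj
      rw [hq.start] at h3
      have h4 := hlip (p i) (q j)
      have h5 := hlip v (q j)
      have h6 := hx.dist_triangle (u := coarsen (ext_le ι x g A B C) v)
        (v := coarsen (ext_le ι x g A B C) (q j)) (w := coarsen (ext_le ι x g A B C) (p i))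
      rw [SimpleGraph.dist_comm (u := coarsen (ext_le ι x g A B C) (q j))] at h6
      omega
    · have h3 := GExt_chain hF hc hs g hM 2 z z' W (by omega) r _ hr j hj
      have h4 := hlip (p i) (r j)
      have h5 := hx.dist_triangle (u := coarsen (ext_le ι x g A B C) v)
        (v := elt _ z) (w := coarsen (ext_le ι x g A B C) (p i))
      have h6 := hx.dist_triangle (u := elt _ z)
        (v := coarsen (ext_le ι x g A B C) (r j)) (w := coarsen (ext_le ι x g A B C) (p i))
      rw [SimpleGraph.dist_comm (u := coarsen (ext_le ι x g A B C) (r j))] at h6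
      omega
    · have h3 := ht.geo j _ hj le_rfl
      rw [ht.fin] at h3
      have hd : (Brid (fam A B C) ι x).dist (elt _ z') w ≤ 1 := by
        rw [SimpleGraph.dist_comm]; exact hz1'
      have h4 := hlip (p i) (t j)
      have h5 := hlip (t j) w
      have h6 := hx.dist_triangle (u := coarsen (ext_le ι x g A B C) v)
        (v := coarsen (ext_le ι x g A B C) w) (w := coarsen (ext_le ι x g A B C) (p i))
      have h7 := hx.dist_triangle (u := coarsen (ext_le ι x g A B C) w)
        (v := coarsen (ext_le ι x g A B C) (t j)) (w := coarsen (ext_le ι x g A B C) (p i))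
      rw [SimpleGraph.dist_comm (u := coarsen (ext_le ι x g A B C) (t j))
          (v := coarsen (ext_le ι x g A B C) (p i)),
        SimpleGraph.dist_comm (u := coarsen (ext_le ι x g A B C) w)
          (v := coarsen (ext_le ι x g A B C) (t j))] at h7
      omega

end Pool.Agent.Lib.MP_7e344a_al
end

section

/-!
# MP_7e344a_al: G12, the free product of three groups
-/

set_option autoImplicit false

namespace Pool.Agent.Lib.MP_7e344a_al

open Monoid

section gate
variable {κ : Type} {M : κ → Type} [∀ k, Group (M k)]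

open Classical in
/-- the last letter of a word if it is in the factor `i` -/
noncomputable def startLst (i : κ) (l : List (Σ k, M k)) : M i :=
  match l.getLast? with
  | none => 1
  | some p => if h : p.1 = i then h ▸ p.2 else 1

theorem startLst_nil (i : κ) : startLst i ([] : List (Σ k, M k)) = 1 := rfl

theorem startLst_same (i : κ) (m : M i) : startLst i [⟨i, m⟩] = m := by
  simp [startLst]

theorem startLst_other {i j : κ} (h : j ≠ i) (m : M j) : startLst i [⟨j, m⟩] = 1 := by
  simp [startLst, h]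

theorem startLst_cons (i : κ) (p : Σ k, M k) {l : List (Σ k, M k)} (h : l ≠ []) :
    startLst i (p :: l) = startLst i l := by
  obtain ⟨q, l', rfl⟩ := List.exists_cons_of_ne_nil h
  simp only [startLst, List.getLast?_cons_cons]

open Classical in
theorem startLst_rcons_ne {i j : κ} (p : CoprodI.Word.Pair M j) (h : p.tail.toList ≠ []) :
    startLst i (CoprodI.Word.rcons p).toList = startLst i p.tail.toList := by
  unfold CoprodI.Word.rcons
  split_ifs with h1
  · rfl
  · exact startLst_cons i _ h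

open Classical in
theorem startLst_rcons_nil {i j : κ} (hj : j ≠ i) (p : CoprodI.Word.Pair M j)
    (h : p.tail.toList = []) : startLst i (CoprodI.Word.rcons p).toList = 1 := by
  unfold CoprodI.Word.rcons
  split_ifs with h1
  · rw [h, startLst_nil]
  · rw [CoprodI.Word.cons_toList, h]
    exact startLst_other hj _

open Classical in
theorem startLst_smul_ne {i j : κ} (hj : j ≠ i) (a : M j) (w : CoprodI.Word M) :
    startLst i (CoprodI.of a • w).toList = startLst i w.toList := by
  have e : w = CoprodI.Word.rcons (CoprodI.Word.equivPair j w) := by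
    rw [← CoprodI.Word.equivPair_symm, Equiv.symm_apply_apply]
  rw [CoprodI.Word.of_smul_def]
  conv_rhs => rw [e]
  by_cases h : (CoprodI.Word.equivPair j w).tail.toList = []
  · exact (startLst_rcons_nil hj (⟨a * (CoprodI.Word.equivPair j w).head,
      (CoprodI.Word.equivPair j w).tail, (CoprodI.Word.equivPair j w).fstIdx_ne⟩) h).trans
      (startLst_rcons_nil hj _ h).symm
  · exact (startLst_rcons_ne (⟨a * (CoprodI.Word.equivPair j w).head,
      (CoprodI.Word.equivPair j w).tail, (CoprodI.Word.equivPair j w).fstIdx_ne⟩) h).trans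
      (startLst_rcons_ne _ h).symm

open Classical in
theorem startLst_smul_same {i : κ} (a : M i) (w : CoprodI.Word M)
    (hw : w.prod ∉ (CoprodI.of : M i →* CoprodI M).range) :
    startLst i (CoprodI.of a • w).toList = startLst i w.toList := by
  have e : w = CoprodI.Word.rcons (CoprodI.Word.equivPair i w) := by
    rw [← CoprodI.Word.equivPair_symm, Equiv.symm_apply_apply]
  rw [CoprodI.Word.of_smul_def]
  conv_rhs => rw [e]
  have h : (CoprodI.Word.equivPair i w).tail.toList ≠ [] := by
    intro h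
    refine hw ⟨(CoprodI.Word.equivPair i w).head, ?_⟩
    conv_rhs => rw [e]
    rw [CoprodI.Word.prod_rcons]
    have : (CoprodI.Word.equivPair i w).tail = CoprodI.Word.empty := CoprodI.Word.ext h
    rw [this, CoprodI.Word.prod_empty, mul_one]
  exact (startLst_rcons_ne (⟨a * (CoprodI.Word.equivPair i w).head,
      (CoprodI.Word.equivPair i w).tail, (CoprodI.Word.equivPair i w).fstIdx_ne⟩) h).trans
      (startLst_rcons_ne _ h).symm

open Classical in
/-- last letter of an element -/
noncomputable def startL (i : κ) (z : CoprodI M) : M i :=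
  startLst i (z • (CoprodI.Word.empty : CoprodI.Word M)).toList

theorem startL_ne {i j : κ} (hj : j ≠ i) (a : M j) (z : CoprodI M) :
    startL i (CoprodI.of a * z) = startL i z := by
  classical
  unfold startL
  rw [mul_smul]
  exact startLst_smul_ne hj a _

theorem startL_same {i : κ} (a : M i) (z : CoprodI M)
    (hz : z ∉ (CoprodI.of : M i →* CoprodI M).range) :
    startL i (CoprodI.of a * z) = startL i z := by
  classical
  unfold startL
  rw [mul_smul]
  refine startLst_smul_same a _ ?_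
  rw [CoprodI.Word.prod_smul, CoprodI.Word.prod_empty, mul_one]
  exact hz

theorem startL_of {i : κ} (a : M i) : startL i (CoprodI.of a) = a := by
  classical
  unfold startL
  rw [CoprodI.Word.of_smul_def]
  have h0 : (CoprodI.Word.empty : CoprodI.Word M).fstIdx ≠ some i := by
    simp [CoprodI.Word.fstIdx, CoprodI.Word.empty]
  rw [CoprodI.Word.equivPair_eq_of_fstIdx_ne h0]
  unfold CoprodI.Word.rcons
  split_ifs with h1
  · have h1' : a = 1 := by simpa using h1
    rw [h1']
    exact startLst_nil i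
  · rw [CoprodI.Word.cons_toList]
    have : startLst i [(⟨i, a * 1⟩ : Σ k, M k)] = a * 1 := startLst_same i _
    rw [mul_one] at this
    convert this using 2
    simp

theorem startL_mul {i : κ} (m : M i) (z : CoprodI M) :
    startL i (z * CoprodI.of m) = startL i z * m := by
  induction z using CoprodI.induction_left with
  | one =>
    have : startL i (1 : CoprodI M) = 1 := by
      have := startL_of (M := M) (1 : M i)
      rwa [map_one] at this
    rw [one_mul, startL_of, this, one_mul]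
  | mul a z ih =>
    rename_i j
    rw [mul_assoc]
    by_cases hj : j = i
    · subst hj
      by_cases hz : z ∈ (CoprodI.of : M j →* CoprodI M).range
      · obtain ⟨b, rfl⟩ := hz
        rw [← map_mul, ← map_mul, ← map_mul, startL_of, startL_of, mul_assoc]
      · rw [startL_same a z hz, startL_same, ih]
        intro h
        apply hz
        have h2 := mul_mem h (inv_mem (MonoidHom.mem_range.2 ⟨m, rfl⟩ :
          CoprodI.of m ∈ (CoprodI.of : M j →* CoprodI M).range))
        rwa [mul_inv_cancel_right] at h2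
    · rw [startL_ne hj, startL_ne hj, ih]

end gate

/-- gates of the factors of a free product -/
theorem coprod_gate {κ : Type} (M : κ → Type) [∀ k, Group (M k)] (i : κ) :
    ∃ hd : CoprodI M → M i, (∀ m, hd (CoprodI.of m) = m) ∧
      (∀ (m : M i) z, hd (CoprodI.of m * z) = m * hd z) ∧
      (∀ z (j : κ) (m : M j), j ≠ i → hd (z * CoprodI.of m) = hd z) ∧
      ∀ z (m : M i), z ∉ (CoprodI.of : M i →* CoprodI M).range →
        hd (z * CoprodI.of m) = hd z := by
  refine ⟨fun z => (startL i z⁻¹)⁻¹, ?_, ?_, ?_, ?_⟩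
  · intro m
    simp only
    rw [← map_inv, startL_of, inv_inv]
  · intro m z
    simp only
    rw [mul_inv_rev, ← map_inv, startL_mul, mul_inv_rev, inv_inv]
  · intro z j m hj
    simp only
    rw [mul_inv_rev, ← map_inv, startL_ne hj]
  · intro z m hz
    simp only
    rw [mul_inv_rev, ← map_inv, startL_same]
    intro h
    exact hz (by simpa using inv_mem h)

section good
variable {κ : Type} (M : κ → Type) [∀ k, Group (M k)]

/-- the family of the factors -/
abbrev startH : κ → Subgroup (CoprodI M) := fun i => (CoprodI.of : M i →* CoprodI M).range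

/-- the gate function chosen once and for all -/
noncomputable def startHd (i : κ) : CoprodI M → M i := Classical.choose (coprod_gate M i)

theorem startHd_of (i : κ) (m : M i) : startHd M i (CoprodI.of m) = m :=
  (Classical.choose_spec (coprod_gate M i)).1 m

theorem startHd_ne (i : κ) (z : CoprodI M) {j : κ} (m : M j) (h : j ≠ i) :
    startHd M i (z * CoprodI.of m) = startHd M i z :=
  (Classical.choose_spec (coprod_gate M i)).2.2.1 z j m h

theorem startHd_same (i : κ) (z : CoprodI M) (m : M i)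
    (h : z ∉ (CoprodI.of : M i →* CoprodI M).range) :
    startHd M i (z * CoprodI.of m) = startHd M i z :=
  (Classical.choose_spec (coprod_gate M i)).2.2.2 z m h

open Classical in
/-- retraction to the star of `cos i 1` -/
noncomputable def startR (i : κ) : CV (CoprodI M) (startH M) → CV (CoprodI M) (startH M)
  | Sum.inl z => elt _ (CoprodI.of (startHd M i z))
  | Sum.inr c => if c.1 = i ∧ c.2.out ∈ startH M i then cos _ i 1
      else elt _ (CoprodI.of (startHd M i c.2.out))

theorem startR_elt (i : κ) (z : CoprodI M) :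
    startR M i (elt _ z) = elt _ (CoprodI.of (startHd M i z)) := rfl

theorem startR_cos_in (i : κ) (z : CoprodI M) (hz : z ∈ startH M i) :
    startR M i (cos _ i z) = cos _ i 1 := by
  have h : (QuotientGroup.mk z : CoprodI M ⧸ startH M i).out ∈ startH M i := by
    obtain ⟨h, hh⟩ := QuotientGroup.mk_out_eq_mul (startH M i) z
    rw [hh]
    exact mul_mem hz h.2
  exact if_pos ⟨rfl, h⟩

theorem startR_cos_ne (i j : κ) (z : CoprodI M) (hz : ¬ (j = i ∧ z ∈ startH M i)) :
    startR M i (cos _ j z) = elt _ (CoprodI.of (startHd M i z)) := by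
  obtain ⟨h, hh⟩ := QuotientGroup.mk_out_eq_mul (startH M j) z
  obtain ⟨m, hm⟩ := h.2
  have h1 : ¬ (j = i ∧ (QuotientGroup.mk z : CoprodI M ⧸ startH M j).out ∈ startH M i) := by
    rintro ⟨rfl, h2⟩
    apply hz
    refine ⟨rfl, ?_⟩
    rw [hh] at h2
    have := mul_mem h2 (inv_mem h.2)
    rwa [mul_inv_cancel_right] at this
  have h2 : startHd M i (QuotientGroup.mk z : CoprodI M ⧸ startH M j).out = startHd M i z := by
    rw [hh, ← hm]
    by_cases hj : j = i
    · subst hj
      exact startHd_same M j z m (fun h => hz ⟨rfl, h⟩)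
    · exact startHd_ne M i z m hj
  refine (if_neg h1).trans ?_
  exact congrArg (fun t => elt (startH M) (CoprodI.of t)) h2

/-- edges moved by the retraction -/
theorem startR_adj (i : κ) (v w : CV (CoprodI M) (startH M)) (h : (Inc (startH M)).Adj v w)
    (hne : startR M i v ≠ startR M i w) :
    (startR M i v = v ∧ startR M i w = w) ∧ (v = cos _ i 1 ∨ w = cos _ i 1) := by
  have key : ∀ (z : CoprodI M) (j : κ), startR M i (elt _ z) ≠ startR M i (cos _ j z) →
      (startR M i (elt _ z) = elt _ z ∧ startR M i (cos _ j z) = cos _ j z) ∧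
      cos (startH M) j z = cos _ i 1 := by
    intro z j hne
    by_cases hz : j = i ∧ z ∈ startH M i
    · obtain ⟨rfl, hz⟩ := hz
      have e : cos (startH M) j z = cos _ j 1 := by
        rw [cos_eq_iff]
        exact ⟨rfl, by simpa using inv_mem hz⟩
      refine ⟨⟨?_, ?_⟩, e⟩
      · obtain ⟨m, rfl⟩ := hz
        rw [startR_elt, startHd_of]
      · rw [startR_cos_in M j z hz, e]
    · exact absurd ((startR_elt M i z).trans (startR_cos_ne M i j z hz).symm) hne
  have key2 : ∀ (z : CoprodI M) (j : κ) (u : CoprodI M),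
      (Inc (startH M)).Adj (elt _ z) (cos _ j u) → cos (startH M) j u = cos _ j z := by
    intro z j u h
    rw [adj_elt_cos] at h
    rw [cos_eq_iff]
    exact ⟨rfl, by simpa using inv_mem h⟩
  rcases cv_cases _ v with ⟨a, rfl⟩ | ⟨j, a, rfl⟩ <;> rcases cv_cases _ w with ⟨b, rfl⟩ | ⟨k, b, rfl⟩
  · exact (not_adj_elt_elt _ _ _ h).elim
  · have e := key2 a k b h
    rw [e] at hne ⊢
    obtain ⟨h1, h2⟩ := key a k hne
    exact ⟨h1, Or.inr h2⟩
  · have e := key2 b j a h.symm
    rw [e] at hne ⊢
    obtain ⟨h1, h2⟩ := key b j hne.symm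
    exact ⟨h1.symm, Or.inl h2⟩
  · exact (not_adj_cos_cos _ _ _ _ _ h).elim

theorem startR_val (i : κ) (v : CV (CoprodI M) (startH M)) :
    (Inc (startH M)).Reachable (startR M i v) (cos _ i 1) ∧
      (Inc (startH M)).dist (startR M i v) (cos _ i 1) ≤ 1 := by
  have h1 : ∀ m : M i, (Inc (startH M)).Adj (elt _ (CoprodI.of m)) (cos _ i 1) := by
    intro m
    rw [adj_elt_cos]
    exact ⟨m⁻¹, by simp⟩
  have h2 : (∃ m : M i, startR M i v = elt _ (CoprodI.of m)) ∨ startR M i v = cos _ i 1 := by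
    rcases cv_cases _ v with ⟨a, rfl⟩ | ⟨j, a, rfl⟩
    · exact Or.inl ⟨_, startR_elt M i a⟩
    · by_cases hz : j = i ∧ a ∈ startH M i
      · obtain ⟨rfl, hz⟩ := hz
        exact Or.inr (startR_cos_in M j a hz)
      · exact Or.inl ⟨_, startR_cos_ne M i j a hz⟩
  rcases h2 with ⟨m, h⟩ | h
  · rw [h]
    exact ⟨(h1 m).reachable, (SimpleGraph.dist_eq_one_iff_adj.2 (h1 m)).le⟩
  · rw [h, SimpleGraph.dist_self]
    exact ⟨SimpleGraph.Reachable.refl _, Nat.zero_le _⟩

theorem start_conn [Nonempty κ] : (Inc (startH M)).Connected := by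
  have h1 : ∀ z : CoprodI M, (Inc (startH M)).Reachable (elt _ 1) (elt _ z) := by
    intro z
    induction z using CoprodI.induction_left with
    | one => exact SimpleGraph.Reachable.refl _
    | mul a z ih =>
      rename_i j
      have h2 : (Inc (startH M)).Reachable (elt _ 1) (elt _ (CoprodI.of a)) := by
        have e1 : (Inc (startH M)).Adj (elt _ 1) (cos _ j 1) := adj_self _ _ _
        have e2 : (Inc (startH M)).Adj (elt _ (CoprodI.of a)) (cos _ j 1) := by
          rw [adj_elt_cos]
          exact ⟨a⁻¹, by simp⟩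
        exact e1.reachable.trans e2.symm.reachable
      have h3 := basic_reach (inc_act (startH M)) (CoprodI.of a) _ _ ih
      rw [smul_elt, smul_elt, mul_one] at h3
      exact h2.trans h3
  have h2 : ∀ v : CV (CoprodI M) (startH M), (Inc (startH M)).Reachable (elt _ 1) v := by
    intro v
    rcases cv_cases _ v with ⟨a, rfl⟩ | ⟨j, a, rfl⟩
    · exact h1 a
    · exact (h1 a).trans (adj_self _ a j).reachable
  have : Nonempty (CV (CoprodI M) (startH M)) := ⟨elt _ 1⟩
  exact ⟨fun v w => (h2 v).symm.trans (h2 w)⟩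

theorem start_slim [Nonempty κ] : Slim (Inc (startH M)) 2 := by
  have hc := start_conn M
  refine glue (K := CoprodI M × κ) 2 (fun k v => k.1 • startR M k.2 (k.1⁻¹ • v)) ?_ ?_ ?_
  · rintro ⟨u, i⟩ v w h hne
    have h1 := inc_act _ u⁻¹ v w h
    have h2 : startR M i (u⁻¹ • v) ≠ startR M i (u⁻¹ • w) := fun e => hne (by simp only [e])
    obtain ⟨⟨h3, h4⟩, -⟩ := startR_adj M i _ _ h1 h2
    simp only [h3, h4, smul_inv_smul, and_self]
  · intro v w h
    have key : ∀ (z : CoprodI M) (j : κ), z • startR M j (z⁻¹ • elt (startH M) z) = elt _ z ∧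
        z • startR M j (z⁻¹ • cos (startH M) j z) = cos _ j z := by
      intro z j
      rw [smul_elt, smul_cos, inv_mul_cancel, startR_cos_in M j 1 (one_mem _), startR_elt]
      have : startHd M j 1 = 1 := by
        have := startHd_of M j 1
        rwa [map_one] at this
      rw [this, map_one, smul_elt, smul_cos, mul_one]
      exact ⟨rfl, rfl⟩
    have key2 : ∀ (z : CoprodI M) (j : κ) (u : CoprodI M),
        (Inc (startH M)).Adj (elt _ z) (cos _ j u) → cos (startH M) j u = cos _ j z := by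
      intro z j u h
      rw [adj_elt_cos] at h
      rw [cos_eq_iff]
      exact ⟨rfl, by simpa using inv_mem h⟩
    rcases cv_cases _ v with ⟨a, rfl⟩ | ⟨j, a, rfl⟩ <;>
      rcases cv_cases _ w with ⟨b, rfl⟩ | ⟨k, b, rfl⟩
    · exact (not_adj_elt_elt _ _ _ h).elim
    · have e := key2 a k b h
      rw [e]
      exact ⟨(a, k), (key a k).1, (key a k).2⟩
    · have e := key2 b j a h.symm
      rw [e]
      exact ⟨(b, j), (key b j).2, (key b j).1⟩
    · exact (not_adj_cos_cos _ _ _ _ _ h).elim
  · rintro ⟨u, i⟩ p q r l m n x y z hp hq hr hpf hqf hrf t ht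
    refine Or.inl ⟨0, Nat.zero_le _, ?_⟩
    have h1 := hpf t ht
    have h2 := hqf 0 (Nat.zero_le _)
    simp only at h1 h2
    rw [← h1, ← h2, dist_smul (inc_act _)]
    obtain ⟨-, a2⟩ := startR_val M i (u⁻¹ • p t)
    obtain ⟨-, b2⟩ := startR_val M i (u⁻¹ • q 0)
    have h3 : (Inc (startH M)).dist (startR M i (u⁻¹ • p t)) (startR M i (u⁻¹ • q 0)) ≤
      (Inc (startH M)).dist (startR M i (u⁻¹ • p t)) (cos _ i 1) +
      (Inc (startH M)).dist (cos _ i 1) (startR M i (u⁻¹ • q 0)) := hc.dist_triangle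
    rw [SimpleGraph.dist_comm (u := cos _ i 1)] at h3
    omega

theorem start_walk (i : κ) {v w : CV (CoprodI M) (startH M)} (p : (Inc (startH M)).Walk v w)
    (hp : cos _ i 1 ∉ p.support) : startR M i v = startR M i w := by
  induction p with
  | nil => rfl
  | cons h p ih =>
    rename_i a b c
    rw [SimpleGraph.Walk.support_cons, List.mem_cons, not_or] at hp
    rw [← ih hp.2]
    by_contra hne
    rcases (startR_adj M i _ _ h hne).2 with h1 | h1
    · exact hp.1 h1.symm
    · exact hp.2 (h1 ▸ p.start_mem_support)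

end good

theorem coprod_good {κ : Type} [Nonempty κ] (M : κ → Type) [∀ k, Group (M k)] :
    Good (fun i => (CoprodI.of : M i →* CoprodI M).range) Set.univ := by
  refine ⟨start_conn M, ⟨2, start_slim M⟩, ?_⟩
  intro i _ θ
  refine (Set.finite_singleton (1 : CoprodI M)).subset ?_
  rintro a ⟨⟨m, rfl⟩, w, -, hw⟩
  have h := start_walk M i w hw
  rw [startR_elt, startR_elt, elt_inj, startHd_of] at h
  have h1 : startHd M i 1 = 1 := by
    have := startHd_of M i 1
    rwa [map_one] at this
  rw [h1, map_one] at h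
  exact h.symm

/-- the family of three groups -/
def startF (A B C : Type) : Ix → Type
  | Ix.a => A
  | Ix.b => B
  | Ix.c => C

instance startFG (A B C : Type) [Group A] [Group B] [Group C] : ∀ k, Group (startF A B C k)
  | Ix.a => inferInstanceAs (Group A)
  | Ix.b => inferInstanceAs (Group B)
  | Ix.c => inferInstanceAs (Group C)

instance startFC (A B C : Type) [Countable A] [Countable B] [Countable C] :
    ∀ k, Countable (startF A B C k)
  | Ix.a => inferInstanceAs (Countable A)
  | Ix.b => inferInstanceAs (Countable B)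
  | Ix.c => inferInstanceAs (Countable C)

instance startIx : Nonempty Ix := ⟨Ix.a⟩

instance startIxC : Countable Ix := by
  refine Function.Injective.countable (f := fun i : Ix => (match i with
    | Ix.a => 0 | Ix.b => 1 | Ix.c => 2 : ℕ)) ?_
  rintro (_ | _ | _) (_ | _ | _) h <;> simp_all

theorem start (A B C : Type) [Group A] [Group B] [Group C] [Countable A] [Countable B]
    [Countable C] : ∃ (G : Type) (_ : Group G) (i : A →* G) (j : B →* G) (k : C →* G),
      Countable G ∧ Function.Injective i ∧ Function.Injective j ∧ Function.Injective k ∧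
      Good (fam i.range j.range k.range) {Ix.a, Ix.b} := by
  have hg := coprod_good (startF A B C)
  refine ⟨CoprodI (startF A B C), inferInstance,
    (CoprodI.of : startF A B C Ix.a →* CoprodI (startF A B C)),
    (CoprodI.of : startF A B C Ix.b →* CoprodI (startF A B C)),
    (CoprodI.of : startF A B C Ix.c →* CoprodI (startF A B C)), ?_,
    CoprodI.of_injective _, CoprodI.of_injective _, CoprodI.of_injective _, ?_⟩
  · have : Function.Surjective (fun l : List (Σ k, startF A B C k) =>
        (l.map (fun p => CoprodI.of p.2)).prod) := by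
      intro z
      induction z using CoprodI.induction_left with
      | one => exact ⟨[], rfl⟩
      | mul a z ih =>
        rename_i j
        obtain ⟨l, rfl⟩ := ih
        exact ⟨⟨j, a⟩ :: l, by simp⟩
    exact this.countable
  · have e : fam (CoprodI.of : startF A B C Ix.a →* CoprodI (startF A B C)).range
        (CoprodI.of : startF A B C Ix.b →* CoprodI (startF A B C)).range
        (CoprodI.of : startF A B C Ix.c →* CoprodI (startF A B C)).range =
        fun i => (CoprodI.of : startF A B C i →* CoprodI (startF A B C)).range := by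
      funext i
      cases i <;> rfl
    have h2 : Good (fam (CoprodI.of : startF A B C Ix.a →* CoprodI (startF A B C)).range
        (CoprodI.of : startF A B C Ix.b →* CoprodI (startF A B C)).range
        (CoprodI.of : startF A B C Ix.c →* CoprodI (startF A B C)).range) {Ix.a, Ix.b} := by
      rw [e]
      exact ⟨hg.conn, hg.slim, fun i _ θ => hg.lf i (Set.mem_univ _) θ⟩
    exact h2

end Pool.Agent.Lib.MP_7e344a_al
end

section

/-!
# MP_7e344a_al: G07, small angles at `⟨A, x⟩` : the syllables are in a finite set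
-/

set_option autoImplicit false

namespace Pool.Agent.Lib.MP_7e344a_al

variable {G G' : Type} [Group G] [Group G'] {ι : G →* G'} {x : G'} {γ : G' → G} {St : G' → Prop}

/-- The position of `z` as seen from the base copy. -/
noncomputable def phi (ι : G →* G') (γ : G' → G) (St : G' → Prop) (g : G) (z : G') : G :=
  open Classical in if St ((ι (γ z))⁻¹ * z) then γ z * g else γ z

theorem phi_congr {g : G} {z z' : G'} (h1 : γ z = γ z')
    (h2 : St ((ι (γ z))⁻¹ * z) ↔ St ((ι (γ z'))⁻¹ * z')) :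
    phi ι γ St g z = phi ι γ St g z' := by
  unfold phi
  by_cases h : St ((ι (γ z'))⁻¹ * z')
  · rw [if_pos h, if_pos (h2.2 h), h1]
  · rw [if_neg h, if_neg (fun h' => h (h2.1 h')), h1]

theorem phi_cases (g : G) (z : G') : phi ι γ St g z = γ z ∨ phi ι γ St g z = γ z * g := by
  unfold phi
  split_ifs
  · exact Or.inr rfl
  · exact Or.inl rfl

theorem phi_of (hF : FreeExt ι x γ St) (g h : G) : phi ι γ St g (ι h) = h := by
  unfold phi
  rw [if_neg (by rw [hF.gate_of, inv_mul_cancel]; exact hF.St_one), hF.gate_of]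

theorem phi_of_x (hF : FreeExt ι x γ St) (g h : G) : phi ι γ St g (ι h * x) = h * g := by
  unfold phi
  rw [if_pos (by rw [hF.gate_x, hF.gate_of, inv_mul_cancel_left]; exact hF.St_x), hF.gate_x,
    hF.gate_of]

theorem phi_right (hF : FreeExt ι x γ St) (g : G) {z : G'} (hz : z ∉ ι.range) (h : G) :
    phi ι γ St g (z * ι h) = phi ι γ St g z := by
  refine phi_congr (hF.gate_right z h hz) ?_
  rw [hF.gate_right z h hz, ← mul_assoc, hF.St_right]

theorem phi_mul_x (hF : FreeExt ι x γ St) (g : G) {z : G'} (hz : z ∉ ι.range) :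
    phi ι γ St g (z * x) = phi ι γ St g z := by
  refine phi_congr (hF.gate_x z) ?_
  rw [hF.gate_x, ← mul_assoc]
  refine hF.St_mul_x _ (fun h => hz ?_)
  rw [inv_mul_eq_one] at h
  exact ⟨γ z, h⟩

theorem phi_y (hF : FreeExt ι x γ St) (g : G) (z : G') :
    phi ι γ St g (z * (x⁻¹ * ι g)) = phi ι γ St g z := by
  rw [← mul_assoc]
  obtain ⟨d, rfl⟩ : ∃ d, z = d * x := ⟨z * x⁻¹, by simp⟩
  rw [mul_inv_cancel_right]
  by_cases h0 : d ∈ ι.range
  · obtain ⟨k, rfl⟩ := h0
    rw [← map_mul, phi_of hF, phi_of_x hF]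
  · rw [phi_right hF g h0, phi_mul_x hF g h0]

/-- one letter of a subgroup -/
theorem phi_mul_of (hF : FreeExt ι x γ St) (g : G) {K : Subgroup G} (z : G') {k : G} (hk : k ∈ K) :
    (phi ι γ St g z)⁻¹ * phi ι γ St g (z * ι k) ∈ K := by
  by_cases h0 : z ∈ ι.range
  · obtain ⟨h, rfl⟩ := h0
    rw [← map_mul, phi_of hF, phi_of hF, inv_mul_cancel_left]
    exact hk
  · rw [phi_right hF g h0, inv_mul_cancel]
    exact K.one_mem

theorem phi_B (hF : FreeExt ι x γ St) (g : G) {B : Subgroup G} (z : G') {c : G'}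
    (hc : c ∈ sB ι x g B) : (phi ι γ St g z)⁻¹ * phi ι γ St g (z * c) ∈ B := by
  have key : ∀ (d e : G'), (phi ι γ St g z)⁻¹ * phi ι γ St g d ∈ B →
      (phi ι γ St g d)⁻¹ * phi ι γ St g e ∈ B → (phi ι γ St g z)⁻¹ * phi ι γ St g e ∈ B := by
    intro d e h1 h2
    have := B.mul_mem h1 h2
    rwa [mul_assoc, mul_inv_cancel_left] at this
  refine Subgroup.closure_induction_right
    (p := fun c _ => (phi ι γ St g z)⁻¹ * phi ι γ St g (z * c) ∈ B) ?_ ?_ ?_ hc
  · rw [mul_one, inv_mul_cancel]
    exact B.one_mem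
  · rintro c _ y (⟨a, ha, rfl⟩ | rfl) h
    · rw [← mul_assoc]
      exact key _ _ h (phi_mul_of hF g _ ha)
    · rwa [← mul_assoc, phi_y hF]
  · rintro c _ y (⟨a, ha, rfl⟩ | rfl) h
    · rw [← map_inv, ← mul_assoc]
      exact key _ _ h (phi_mul_of hF g _ (B.inv_mem ha))
    · rw [← mul_assoc]
      rw [← phi_y hF g (z * c * _), inv_mul_cancel_right]
      exact h

theorem gamma_A (hF : FreeExt ι x γ St) {A : Subgroup G} (z : G') {c : G'}
    (hc : c ∈ sA ι x A) : (γ z)⁻¹ * γ (z * c) ∈ A := by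
  have key : ∀ (d : G') (a : G), a ∈ A → (γ z)⁻¹ * γ d ∈ A → (γ z)⁻¹ * γ (d * ι a) ∈ A := by
    intro d a ha h
    by_cases h0 : d ∈ ι.range
    · obtain ⟨k, rfl⟩ := h0
      rw [← map_mul, hF.gate_of, ← mul_assoc]
      rw [hF.gate_of] at h
      exact A.mul_mem h ha
    · rwa [hF.gate_right d a h0]
  refine Subgroup.closure_induction_right
    (p := fun c _ => (γ z)⁻¹ * γ (z * c) ∈ A) ?_ ?_ ?_ hc
  · rw [mul_one, inv_mul_cancel]
    exact A.one_mem
  · rintro c _ y (⟨a, ha, rfl⟩ | rfl) h
    · rw [← mul_assoc]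
      exact key _ _ ha h
    · rwa [← mul_assoc, hF.gate_x]
  · rintro c _ y (⟨a, ha, rfl⟩ | rfl) h
    · rw [← map_inv, ← mul_assoc]
      exact key _ _ (A.inv_mem ha) h
    · rwa [← mul_assoc, hF.gate_x_inv]

theorem phi_A_const (hF : FreeExt ι x γ St) (g : G) {A : Subgroup G} (z : G') {c : G'}
    (hz : ∀ c ∈ sA ι x A, z * c ∉ ι.range) (hc : c ∈ sA ι x A) :
    phi ι γ St g (z * c) = phi ι γ St g z := by
  refine Subgroup.closure_induction_right
    (p := fun c _ => phi ι γ St g (z * c) = phi ι γ St g z) ?_ ?_ ?_ hc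
  · rw [mul_one]
  · rintro c hc y (⟨a, ha, rfl⟩ | rfl) h
    · rw [← mul_assoc, phi_right hF g (hz c hc)]
      exact h
    · rw [← mul_assoc, phi_mul_x hF g (hz c hc)]
      exact h
  · rintro c hc y (⟨a, ha, rfl⟩ | rfl) h
    · rw [← map_inv, ← mul_assoc, phi_right hF g (hz c hc)]
      exact h
    · have h1 : z * (c * y⁻¹) ∉ ι.range :=
        hz _ (mul_mem hc (inv_mem (Subgroup.subset_closure (Or.inr rfl))))
      rw [← phi_mul_x hF g h1, mul_assoc, inv_mul_cancel_right]
      exact h

/-- a step through a coset -/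
theorem coset_step {A B C : Subgroup G} (J : Set G) (i : Ix) {h h' : G}
    (hh : h⁻¹ * h' ∈ fam A B C i) (hi : i = Ix.a → h ∉ A) :
    AngLE (Aug (fam A B C) Ix.a J) (cos _ Ix.a 1) (elt _ h) (elt _ h') 2 := by
  have e1 : (Aug (fam A B C) Ix.a J).Adj (elt _ h) (cos _ i h) :=
    Or.inl (adj_self _ h i)
  have e2 : (Aug (fam A B C) Ix.a J).Adj (cos _ i h) (elt _ h') := by
    refine Or.inl (SimpleGraph.Adj.symm ?_)
    rw [adj_elt_cos]
    have := (fam A B C i).inv_mem hh
    rwa [mul_inv_rev, inv_inv] at this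
  refine ⟨SimpleGraph.Walk.cons e1 (SimpleGraph.Walk.cons e2 SimpleGraph.Walk.nil), by simp, ?_⟩
  intro hs
  simp only [SimpleGraph.Walk.support_cons, SimpleGraph.Walk.support_nil, List.mem_cons,
    List.not_mem_nil, or_false] at hs
  rcases hs with hs | hs | hs
  · exact elt_ne_cos _ _ _ _ hs.symm
  · rw [cos_eq_iff] at hs
    obtain ⟨rfl, h2⟩ := hs
    refine hi rfl ?_
    rw [inv_one, one_mul] at h2
    exact h2
  · exact elt_ne_cos _ _ _ _ hs.symm

/-- neighbours in the coset graph of the free extension -/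
theorem phi_step (hF : FreeExt ι x γ St) {A B C : Subgroup G}
    (hc : (Inc (fam A B C)).Connected) (g : G) : ∃ (J : Set G) (L : ℕ), J.Finite ∧ J ⊆ A ∧
      (∀ h : G, AngLE (Aug (fam A B C) Ix.a J) (cos _ Ix.a 1) (elt _ h) (elt _ (h * g)) L) ∧
      ∀ (i : Ix) (z z' : G'), z⁻¹ * z' ∈ famX ι x g A B C i → (i = Ix.a → z ∉ sA ι x A) →
      AngLE (Aug (fam A B C) Ix.a J) (cos _ Ix.a 1) (elt _ (phi ι γ St g z))
        (elt _ (phi ι γ St g z')) L := by
  obtain ⟨J, hJ, hJA, hj⟩ := aug_jump (fam A B C) hc Ix.a g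
  set L₀ := (Inc (fam A B C)).dist (elt _ 1) (elt _ g) with hL₀
  refine ⟨J, 2 * L₀ + 2, hJ, hJA, fun h => (hj h).mono (by omega), ?_⟩
  intro i z z' hzz hi
  obtain ⟨c, rfl⟩ : ∃ c, z' = z * c := ⟨z⁻¹ * z', by simp⟩
  rw [inv_mul_cancel_left] at hzz
  cases i with
  | a =>
    have hz := hi rfl
    have hcA : c ∈ sA ι x A := hzz
    by_cases h0 : ∀ c ∈ sA ι x A, z * c ∉ ι.range
    · rw [phi_A_const hF g z h0 hcA]
      exact (AngLE.refl (elt_ne_cos _ _ _ _)).mono (by omega)
    · push Not at h0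
      obtain ⟨d, hd, h, hh⟩ := h0
      have hγ : γ z ∉ A := by
        intro hγz
        have h1 := gamma_A hF z hd
        rw [← hh, hF.gate_of] at h1
        have h2 : h ∈ A := by
          have := A.mul_mem hγz h1
          rwa [mul_inv_cancel_left] at this
        apply hz
        have h3 : ι h ∈ sA ι x A := Subgroup.subset_closure (Or.inl ⟨h, h2, rfl⟩)
        rw [hh] at h3
        have h4 := (sA ι x A).mul_mem h3 ((sA ι x A).inv_mem hd)
        rwa [mul_inv_cancel_right] at h4
      have s1 : ∀ y : G', AngLE (Aug (fam A B C) Ix.a J) (cos _ Ix.a 1) (elt _ (γ y))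
          (elt _ (phi ι γ St g y)) L₀ := by
        intro y
        rcases phi_cases (ι := ι) (γ := γ) (St := St) g y with h1 | h1
        · rw [h1]
          exact (AngLE.refl (elt_ne_cos _ _ _ _)).mono (by omega)
        · rw [h1]
          exact hj _
      have s2 := coset_step (A := A) (B := B) (C := C) J Ix.a (h := γ z) (h' := γ (z * c))
        (gamma_A hF z hcA) (fun _ => hγ)
      exact (((s1 z).symm.trans s2).trans (s1 (z * c))).mono (by omega)
  | b =>
    exact (coset_step J Ix.b (phi_B hF g z hzz) (by intro h; cases h)).mono (by omega)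
  | c =>
    obtain ⟨k, hk, rfl⟩ := hzz
    exact (coset_step J Ix.c (phi_mul_of hF g z hk) (by intro h; cases h)).mono (by omega)

theorem gate_walk {A B C : Subgroup G} {g : G} {J : Set G} {L : ℕ}
    (hs : ∀ (i : Ix) (z z' : G'), z⁻¹ * z' ∈ famX ι x g A B C i → (i = Ix.a → z ∉ sA ι x A) →
      AngLE (Aug (fam A B C) Ix.a J) (cos _ Ix.a 1) (elt _ (phi ι γ St g z))
        (elt _ (phi ι γ St g z')) L) (n : ℕ) :
    ∀ (u v : CV G' (famX ι x g A B C)) (w : (Inc (famX ι x g A B C)).Walk u v) (z z' : G'),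
      u = elt _ z → v = elt _ z' → w.length ≤ n → cos _ Ix.a 1 ∉ w.support →
      AngLE (Aug (fam A B C) Ix.a J) (cos _ Ix.a 1) (elt _ (phi ι γ St g z))
        (elt _ (phi ι γ St g z')) (L * n) := by
  induction n using Nat.strong_induction_on with
  | _ n ih =>
    intro u v w z z' hu hv hw hc
    cases w with
    | nil =>
      have : z = z' := (elt_inj _).1 (hu.symm.trans hv)
      rw [this]
      exact (AngLE.refl (elt_ne_cos _ _ _ _)).mono (by omega)
    | @cons _ v₁ _ h₁ p =>
      subst hu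
      rcases cv_cases _ v₁ with ⟨k, rfl⟩ | ⟨i, k, rfl⟩
      · exact (not_adj_elt_elt _ _ _ h₁).elim
      · cases p with
        | nil => exact (elt_ne_cos _ _ _ _ hv.symm).elim
        | @cons _ v₂ _ h₂ q =>
          rcases cv_cases _ v₂ with ⟨z₂, rfl⟩ | ⟨j, k', rfl⟩
          · rw [adj_elt_cos] at h₁
            rw [SimpleGraph.adj_comm, adj_elt_cos] at h₂
            simp only [SimpleGraph.Walk.length_cons] at hw
            simp only [SimpleGraph.Walk.support_cons, List.mem_cons, not_or] at hc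
            have h3 : z⁻¹ * z₂ ∈ famX ι x g A B C i := by
              have := (famX ι x g A B C i).mul_mem h₁ ((famX ι x g A B C i).inv_mem h₂)
              rwa [mul_inv_rev, inv_inv, mul_assoc, mul_inv_cancel_left] at this
            have h4 : i = Ix.a → z ∉ sA ι x A := by
              rintro rfl hz
              refine hc.2.1 ?_
              rw [cos_eq_iff]
              refine ⟨rfl, ?_⟩
              rw [inv_one, one_mul]
              have := (sA ι x A).mul_mem hz h₁
              rwa [mul_inv_cancel_left] at this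
            have h5 := hs i z z₂ h3 h4
            have h6 := ih (n - 2) (by omega) _ _ q z₂ z' rfl hv (by omega) hc.2.2
            refine (h5.trans h6).mono ?_
            have : n = (n - 2) + 2 := by omega
            calc L + L * (n - 2) ≤ L * (n - 2) + L * 2 := by omega
              _ = L * ((n - 2) + 2) := by ring
              _ = L * n := by rw [← this]
          · exact (not_adj_cos_cos _ _ _ _ _ h₂).elim

theorem gate_fin (hF : FreeExt ι x γ St) {A B C : Subgroup G}
    (hG : Good (fam A B C) {Ix.a, Ix.b}) (g : G) (θ : ℕ) : ∃ F : Set G, F.Finite ∧ ∀ c₁ ∈ sA ι x A, ∀ c₂ ∈ sA ι x A,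
      AngLE (Inc (famX ι x g A B C)) (cos _ Ix.a 1) (elt _ c₁) (elt _ c₂) θ →
      (γ c₁)⁻¹ * γ c₂ ∈ F := by
  obtain ⟨J, L, hJ, hJA, hj, hs⟩ := phi_step (C := C) (B := B) (A := A) hF hG.conn g
  refine ⟨_, aug_lf hG (i := Ix.a) (Or.inl rfl) J hJ hJA (L + L * θ + L), ?_⟩
  intro c₁ h₁ c₂ h₂ hang
  obtain ⟨w, hw, hcw⟩ := hang
  have hwalk := gate_walk hs θ _ _ w c₁ c₂ rfl rfl hw hcw
  have s1 : ∀ y : G', AngLE (Aug (fam A B C) Ix.a J) (cos _ Ix.a 1) (elt _ (γ y))
      (elt _ (phi ι γ St g y)) L := by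
    intro y
    rcases phi_cases (ι := ι) (γ := γ) (St := St) g y with h1 | h1
    · rw [h1]
      exact (AngLE.refl (elt_ne_cos _ _ _ _)).mono (by omega)
    · rw [h1]
      exact hj _
  have h3 := ((s1 c₁).trans hwalk).trans (s1 c₂).symm
  have hA₁ : γ c₁ ∈ A := gateA hF h₁
  have hA₂ : γ c₂ ∈ A := gateA hF h₂
  have h4 := aug_smul J (i := Ix.a) ((fam A B C Ix.a).inv_mem hA₁) h3
  rw [smul_elt, smul_elt, inv_mul_cancel] at h4
  exact ⟨A.mul_mem (A.inv_mem hA₁) hA₂, h4⟩

end Pool.Agent.Lib.MP_7e344a_al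
end

section

/-!
# MP_7e344a_al: G08, small angles at `⟨A, x⟩` : the number of syllables is bounded
-/

set_option autoImplicit false

namespace Pool.Agent.Lib.MP_7e344a_al

variable {G G' : Type} [Group G] [Group G'] {ι : G →* G'} {x : G'} {γ : G' → G} {St : G' → Prop}

/-- induction along walks of the coset graph between group elements -/
theorem sep_walk_ind {K I : Type} [Group K] {H : I → Subgroup K} {S : Set (CV K H)} {Q : K → Prop}
    (hstep : ∀ i z z', z⁻¹ * z' ∈ H i → cos H i z ∈ S → Q z → Q z') {c₂ : K}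
    {v v' : CV K H} (w : (Inc H).Walk v v') :
    v' = elt H c₂ → (∀ u ∈ w.support, (∃ i g, u = cos H i g) → u ∈ S) →
      (∀ c, v = elt H c → Q c → Q c₂) ∧
      (∀ i u, v = cos H i u → ∀ z, z⁻¹ * u ∈ H i → Q z → Q c₂) := by
  induction w with
  | nil =>
    intro hv' _
    refine ⟨?_, ?_⟩
    · intro c hc hQ
      rw [hc, elt_inj] at hv'
      rwa [← hv']
    · intro i u hu
      rw [hu] at hv'
      exact absurd hv'.symm (elt_ne_cos H _ _ _)
  | @cons v m v' hadj w ih =>
    intro hv' hS
    obtain ⟨ih1, ih2⟩ := ih hv' (fun u hu h => hS u (by simp [hu]) h)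
    refine ⟨?_, ?_⟩
    · intro c hc hQ
      rw [hc] at hadj
      rcases cv_cases H m with ⟨g, rfl⟩ | ⟨i, g, rfl⟩
      · exact absurd hadj (not_adj_elt_elt H _ _)
      · rw [adj_elt_cos] at hadj
        exact ih2 i g rfl c hadj hQ
    · intro i u hu z hz hQ
      have hvS : v ∈ S := hS v (by simp) ⟨i, u, hu⟩
      rw [hu] at hadj
      rcases cv_cases H m with ⟨g, rfl⟩ | ⟨j, g, rfl⟩
      · rw [SimpleGraph.adj_comm, adj_elt_cos] at hadj
        have h1 : z⁻¹ * g ∈ H i := by
          have := (H i).mul_mem hz ((H i).inv_mem hadj)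
          simpa [mul_assoc] using this
        have h2 : cos H i z = v := by
          rw [hu, cos_eq_iff]
          exact ⟨rfl, hz⟩
        exact ih1 g rfl (hstep i z g h1 (by rw [h2]; exact hvS) hQ)
      · exact absurd hadj (not_adj_cos_cos H _ _ _ _)

theorem sep_x_mem (A : Subgroup G) : x ∈ sA ι x A :=
  Subgroup.subset_closure (Or.inr rfl)

theorem sep_of_mem {A : Subgroup G} {a : G} (ha : a ∈ A) : ι a ∈ sA ι x A :=
  Subgroup.subset_closure (Or.inl ⟨a, ha, rfl⟩)

theorem sep_y_mem (g : G) (B : Subgroup G) : x⁻¹ * ι g ∈ sB ι x g B :=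
  Subgroup.subset_closure (Or.inr rfl)

theorem sep_coset_a (hF : FreeExt ι x γ St) {A : Subgroup G} {v z : G'}
    (hv : v ∈ sA ι x A) (hz : z ∉ sA ι x A) {w : G'} (hw : w ∈ sA ι x A) :
    St (v⁻¹ * (z * w)) ↔ St (v⁻¹ * z) := by
  unfold sA at hw
  induction hw using Subgroup.closure_induction_right with
  | one => simp
  | mul_right w hw y hy ih =>
    rcases hy with ⟨a, ha, rfl⟩ | hy
    · rw [← ih]
      have := hF.St_right (v⁻¹ * (z * w)) a
      simpa [mul_assoc] using this
    · rw [Set.mem_singleton_iff] at hy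
      subst hy
      rw [← ih]
      have hne : v⁻¹ * (z * w) ≠ 1 := by
        intro h
        apply hz
        have h1 : z = v * w⁻¹ := by
          have : z * w = v := by
            have := congrArg (fun t => v * t) h
            simpa using this
          rw [← this]; group
        rw [h1]
        exact Subgroup.mul_mem _ hv (Subgroup.inv_mem _ hw)
      have := hF.St_mul_x _ hne
      simpa [mul_assoc] using this
  | mul_inv_cancel w hw y hy ih =>
    rcases hy with ⟨a, ha, rfl⟩ | hy
    · rw [← ih]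
      have := hF.St_right (v⁻¹ * (z * w)) a⁻¹
      simpa [mul_assoc] using this
    · rw [Set.mem_singleton_iff] at hy
      subst hy
      rw [← ih]
      have hne : v⁻¹ * (z * w) ≠ y := by
        intro h
        apply hz
        have h1 : z = v * y * w⁻¹ := by
          have : z * w = v * y := by
            have := congrArg (fun t => v * t) h
            simpa using this
          rw [← this]; group
        rw [h1]
        exact Subgroup.mul_mem _ (Subgroup.mul_mem _ hv (sep_x_mem A)) (Subgroup.inv_mem _ hw)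
      have := hF.St_x_inv _ hne
      simpa [mul_assoc] using this

theorem sep_coset_b (hF : FreeExt ι x γ St) {B : Subgroup G} {g : G} {v z : G'}
    (hz : (v * x)⁻¹ * z ∉ sB ι x g B) {w : G'} (hw : w ∈ sB ι x g B) :
    St (v⁻¹ * (z * w)) ↔ St (v⁻¹ * z) := by
  unfold sB at hw
  induction hw using Subgroup.closure_induction_right with
  | one => simp
  | mul_right w hw y hy ih =>
    rcases hy with ⟨a, ha, rfl⟩ | hy
    · rw [← ih]
      have := hF.St_right (v⁻¹ * (z * w)) a
      simpa [mul_assoc] using this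
    · rw [Set.mem_singleton_iff] at hy
      subst hy
      rw [← ih]
      have hne : v⁻¹ * (z * w) ≠ x := by
        intro h
        apply hz
        have h1 : (v * x)⁻¹ * z = w⁻¹ := by
          have : z * w = v * x := by
            have := congrArg (fun t => v * t) h
            simpa using this
          rw [← this]; group
        rw [h1]
        exact Subgroup.inv_mem _ hw
      have h2 := hF.St_x_inv _ hne
      have h3 := hF.St_right (v⁻¹ * (z * w) * x⁻¹) g
      rw [h2] at h3
      simpa [mul_assoc] using h3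
  | mul_inv_cancel w hw y hy ih =>
    rcases hy with ⟨a, ha, rfl⟩ | hy
    · rw [← ih]
      have := hF.St_right (v⁻¹ * (z * w)) a⁻¹
      simpa [mul_assoc] using this
    · rw [Set.mem_singleton_iff] at hy
      subst hy
      rw [← ih]
      have hne : v⁻¹ * (z * w) * ι g⁻¹ ≠ 1 := by
        intro h
        apply hz
        have h1 : (v * x)⁻¹ * z = (x⁻¹ * ι g) * w⁻¹ := by
          have h0 : v⁻¹ * (z * w) = ι g := by
            have := congrArg (fun t => t * ι g) h
            simpa using this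
          have : z * w = v * ι g := by
            rw [← h0]; group
          have h2 : z = v * ι g * w⁻¹ := by rw [← this]; group
          rw [h2]; group
        rw [h1]
        exact Subgroup.mul_mem _ (sep_y_mem g B) (Subgroup.inv_mem _ hw)
      have h2 := hF.St_mul_x _ hne
      have h3 := hF.St_right (v⁻¹ * (z * w)) g⁻¹
      rw [h3] at h2
      simpa [mul_assoc] using h2

/-- a walk crossing the edge `v - v x` but avoiding the vertex `⟨A, x⟩` passes the vertex
`v x ⟨B, x⁻¹ g⟩` -/
theorem sep_pass (hF : FreeExt ι x γ St) {A B C : Subgroup G} (g : G) {v c₁ c₂ : G'}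
    (hv : v ∈ sA ι x A) (w : (Inc (famX ι x g A B C)).Walk (elt _ c₁) (elt _ c₂))
    (hw : cos _ Ix.a 1 ∉ w.support) (h : ¬ (St (v⁻¹ * c₁) ↔ St (v⁻¹ * c₂))) :
    cos _ Ix.b (v * x) ∈ w.support := by
  by_contra hcon
  apply h
  have key := sep_walk_ind (H := famX ι x g A B C) (S := {u | u ≠ cos _ Ix.a 1 ∧
    u ≠ cos _ Ix.b (v * x)}) (Q := fun z => St (v⁻¹ * c₁) ↔ St (v⁻¹ * z)) (c₂ := c₂) (by
    intro i z z' hzz hS hQ
    have hw' : z' = z * (z⁻¹ * z') := by group
    obtain ⟨hS1, hS2⟩ := hS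
    rw [hQ]
    cases i with
    | a =>
      have hz : z ∉ sA ι x A := by
        intro hz
        apply hS1
        rw [cos_eq_iff]
        refine ⟨rfl, ?_⟩
        show z⁻¹ * 1 ∈ sA ι x A
        rw [mul_one]
        exact Subgroup.inv_mem _ hz
      have := sep_coset_a hF hv hz (w := z⁻¹ * z') hzz
      rw [← hw'] at this
      exact this.symm
    | b =>
      have hz : (v * x)⁻¹ * z ∉ sB ι x g B := by
        intro hz
        apply hS2
        rw [cos_eq_iff]
        refine ⟨rfl, ?_⟩
        show z⁻¹ * (v * x) ∈ sB ι x g B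
        have := Subgroup.inv_mem _ hz
        simpa [mul_assoc] using this
      have := sep_coset_b hF hz (w := z⁻¹ * z') hzz
      rw [← hw'] at this
      exact this.symm
    | c =>
      obtain ⟨k, _, hk⟩ : z⁻¹ * z' ∈ C.map ι := hzz
      have h1 := hF.St_right (v⁻¹ * z) k
      rw [hk] at h1
      rw [← h1]
      have : v⁻¹ * z * (z⁻¹ * z') = v⁻¹ * z' := by group
      rw [this]) w rfl (by
    intro u hu _
    exact ⟨fun e => hw (e ▸ hu), fun e => hcon (e ▸ hu)⟩)
  exact key.1 c₁ rfl Iff.rfl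

/-- The edges separating `1` from `c`. -/
def Sep (ι : G →* G') (x : G') (St : G' → Prop) (A : Subgroup G) (c : G') : Set G' :=
  {v | v ∈ sA ι x A ∧ ¬ (St v⁻¹ ↔ St (v⁻¹ * c))}

theorem sep_card (hF : FreeExt ι x γ St) {A B C : Subgroup G} {g : G}
    (hAB : ∀ c ∈ sA ι x A, c ∈ sB ι x g B → c = 1) {c : G'} {θ : ℕ}
    (h : AngLE (Inc (famX ι x g A B C)) (cos _ Ix.a 1) (elt _ 1) (elt _ c) θ) :
    (Sep ι x St A c).encard ≤ θ + 1 := by
  classical
  obtain ⟨w, hwl, hw⟩ := h
  have h1 : (Sep ι x St A c).encard ≤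
      (w.support.toFinset : Set (CV G' (famX ι x g A B C))).encard := by
    apply Set.encard_le_encard_of_injOn (f := fun v => cos (famX ι x g A B C) Ix.b (v * x))
    · intro v hv
      obtain ⟨hvA, hv2⟩ := hv
      have := sep_pass hF (B := B) (C := C) g hvA w hw (by rw [mul_one]; exact hv2)
      simpa using this
    · intro v hv v' hv' he
      have he' : cos (famX ι x g A B C) Ix.b (v * x) = cos (famX ι x g A B C) Ix.b (v' * x) := he
      rw [cos_eq_iff] at he'
      have h2 : (v * x)⁻¹ * (v' * x) ∈ sB ι x g B := he'.2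
      have h3 : (v * x)⁻¹ * (v' * x) ∈ sA ι x A :=
        Subgroup.mul_mem _ (Subgroup.inv_mem _ (Subgroup.mul_mem _ hv.1 (sep_x_mem A)))
          (Subgroup.mul_mem _ hv'.1 (sep_x_mem A))
      have h4 := hAB _ h3 h2
      have h5 : v * x = v' * x := inv_mul_eq_one.1 h4
      exact mul_right_cancel h5
  refine h1.trans ?_
  rw [Set.encard_coe_eq_coe_finsetCard]
  have h2 : w.support.toFinset.card ≤ θ + 1 := by
    refine (List.toFinset_card_le _).trans ?_
    rw [SimpleGraph.Walk.length_support]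
    omega
  exact_mod_cast h2

theorem sep_shift {X : Type} [Group X] {S T : Set X} {v₀ w : X} (h0 : v₀ ∈ T)
    (h1 : ∀ v ∈ S, w * v ∈ T) (h2 : ∀ v ∈ S, w * v ≠ v₀) : S.encard + 1 ≤ T.encard := by
  have h3 : ((fun v => w * v) '' S).encard = S.encard :=
    Function.Injective.encard_image (mul_right_injective w) S
  have h4 : v₀ ∉ (fun v => w * v) '' S := by
    rintro ⟨v, hv, h⟩
    exact h2 v hv h
  rw [← h3, ← Set.encard_insert_of_notMem h4]
  apply Set.encard_le_encard
  intro u hu
  rcases hu with rfl | ⟨v, hv, rfl⟩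
  · exact h0
  · exact h1 v hv

/-- finitely many elements of `⟨A, x⟩` have a bounded number of syllables from a finite set -/
theorem words_fin (hF : FreeExt ι x γ St) (A : Subgroup G) (F : Set G) (hF' : F.Finite)
    (h1 : (1 : G) ∈ F) (n : ℕ) :
    {c : G' | c ∈ sA ι x A ∧ (∀ u ∈ sA ι x A, (γ u⁻¹)⁻¹ * γ (u⁻¹ * c) ∈ F) ∧
      (Sep ι x St A c).encard ≤ n}.Finite := by
  have hγ1 : γ 1 = 1 := by
    have := hF.gate_of 1
    simpa using this
  -- the main step
  have step : ∀ c : G', c ∈ sA ι x A → (∀ u ∈ sA ι x A, (γ u⁻¹)⁻¹ * γ (u⁻¹ * c) ∈ F) →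
      (∃ a ∈ F, c = ι a) ∨ ∃ a ∈ F, ∃ e : G', (e = x ∨ e = x⁻¹) ∧ ∃ c₂, c = ι a * e * c₂ ∧
        c₂ ∈ sA ι x A ∧ (∀ u ∈ sA ι x A, (γ u⁻¹)⁻¹ * γ (u⁻¹ * c₂) ∈ F) ∧
        (Sep ι x St A c₂).encard + 1 ≤ (Sep ι x St A c).encard := by
    intro c hc hγ
    have haA : γ c ∈ A := gateA hF hc
    have haF : γ c ∈ F := by
      have := hγ 1 (Subgroup.one_mem _)
      simpa [hγ1] using this
    by_cases hr : c ∈ ι.range
    · left
      obtain ⟨h, rfl⟩ := hr
      rw [hF.gate_of] at haF
      exact ⟨h, haF, rfl⟩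
    right
    set a := γ c with ha
    set c₁ := ι a⁻¹ * c with hc₁
    have hγc₁ : γ c₁ = 1 := by rw [hc₁, hF.gate_mul, ← ha]; simp
    have hr₁ : c₁ ∉ ι.range := by
      rintro ⟨h, hh⟩
      apply hr
      refine ⟨a * h, ?_⟩
      rw [map_mul, hh, hc₁]
      simp
    have hιa : ι a ∈ sA ι x A := sep_of_mem haA
    have hx : x ∈ sA ι x A := sep_x_mem A
    have hcc : c = ι a * c₁ := by rw [hc₁]; simp
    -- the gate condition
    have gcond : ∀ e : G', (∀ z, γ (z * e) = γ z) → (∀ z, γ (z * e⁻¹) = γ z) → e ∈ sA ι x A →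
        ∀ u ∈ sA ι x A, (γ u⁻¹)⁻¹ * γ (u⁻¹ * (e⁻¹ * c₁)) ∈ F := by
      intro e he he' heA u hu
      have hu' : ι a * e * u ∈ sA ι x A := Subgroup.mul_mem _ (Subgroup.mul_mem _ hιa heA) hu
      have h2 := hγ _ hu'
      have e1 : (ι a * e * u)⁻¹ * c = u⁻¹ * (e⁻¹ * c₁) := by rw [hcc]; group
      have e2 : (ι a * e * u)⁻¹ = u⁻¹ * e⁻¹ * ι a⁻¹ := by rw [map_inv]; group
      by_cases hre : u⁻¹ * e⁻¹ ∈ ι.range
      · obtain ⟨h, hh⟩ := hre
        have e3 : u⁻¹ = ι h * e := by rw [hh]; group
        have e4 : γ u⁻¹ = h := by rw [e3, he, hF.gate_of]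
        have e5 : γ (u⁻¹ * (e⁻¹ * c₁)) = h := by
          have : u⁻¹ * (e⁻¹ * c₁) = ι h * c₁ := by rw [hh]; group
          rw [this, hF.gate_mul, hγc₁, mul_one]
        rw [e4, e5]
        simpa using h1
      · rw [e1] at h2
        rw [e2, hF.gate_right _ _ hre, he'] at h2
        exact h2
    by_cases hSt : St c₁
    · refine ⟨a, haF, x, Or.inl rfl, x⁻¹ * c₁, by rw [hcc]; group,
        ?_, gcond x hF.gate_x hF.gate_x_inv hx, ?_⟩
      · have : x⁻¹ * c₁ = (ι a * x)⁻¹ * c := by rw [hcc]; group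
        rw [this]
        exact Subgroup.mul_mem _ (Subgroup.inv_mem _ (Subgroup.mul_mem _ hιa hx)) hc
      · apply sep_shift (v₀ := ι a) (w := ι a * x)
        · refine ⟨hιa, ?_⟩
          have e1 : ¬ St (ι a)⁻¹ := by rw [← map_inv]; exact hF.not_St_of _
          have e2 : (ι a)⁻¹ * c = c₁ := by rw [hcc]; group
          rw [e2]
          exact fun h => e1 (h.2 hSt)
        · rintro v ⟨hv, hv2⟩
          refine ⟨Subgroup.mul_mem _ (Subgroup.mul_mem _ hιa hx) hv, ?_⟩
          have hvx : v⁻¹ ≠ x := by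
            intro h
            apply hv2
            rw [h]
            have : x * (x⁻¹ * c₁) = c₁ := by group
            rw [this]
            exact ⟨fun _ => hSt, fun _ => hF.St_x⟩
          have e1 : St (ι a * x * v)⁻¹ ↔ St v⁻¹ := by
            have h2 := hF.St_right (v⁻¹ * x⁻¹) a⁻¹
            have h3 := hF.St_x_inv v⁻¹ hvx
            rw [h3] at h2
            have : (ι a * x * v)⁻¹ = v⁻¹ * x⁻¹ * ι a⁻¹ := by rw [map_inv]; group
            rw [this]; exact h2
          have e2 : (ι a * x * v)⁻¹ * c = v⁻¹ * (x⁻¹ * c₁) := by rw [hcc]; group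
          rw [e1, e2]
          exact hv2
        · rintro v ⟨hv, hv2⟩ h
          apply hv2
          have : v = x⁻¹ := by
            have h2 : x * v = 1 := by
              have := congrArg (fun t => (ι a)⁻¹ * t) h
              simpa [mul_assoc] using this
            exact eq_inv_of_mul_eq_one_right h2
          rw [this, inv_inv]
          have e1 : x * (x⁻¹ * c₁) = c₁ := by group
          rw [e1]
          exact ⟨fun _ => hSt, fun _ => hF.St_x⟩
    · have hnot := hF.not_St hr₁ hγc₁ hSt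
      refine ⟨a, haF, x⁻¹, Or.inr rfl, x * c₁, by rw [hcc]; group,
        ?_, ?_, ?_⟩
      · have : x * c₁ = (ι a * x⁻¹)⁻¹ * c := by rw [hcc]; group
        rw [this]
        exact Subgroup.mul_mem _ (Subgroup.inv_mem _ (Subgroup.mul_mem _ hιa
          (Subgroup.inv_mem _ hx))) hc
      · have := gcond x⁻¹ hF.gate_x_inv (by intro z; rw [inv_inv]; exact hF.gate_x z)
          (Subgroup.inv_mem _ hx)
        simpa using this
      · apply sep_shift (v₀ := ι a * x⁻¹) (w := ι a * x⁻¹)
        · refine ⟨Subgroup.mul_mem _ hιa (Subgroup.inv_mem _ hx), ?_⟩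
          have e1 : St (ι a * x⁻¹)⁻¹ := by
            have h2 := hF.St_right x a⁻¹
            have : (ι a * x⁻¹)⁻¹ = x * ι a⁻¹ := by rw [map_inv]; group
            rw [this, h2]
            exact hF.St_x
          have e2 : (ι a * x⁻¹)⁻¹ * c = x * c₁ := by rw [hcc]; group
          rw [e2]
          exact fun h => hnot (h.1 e1)
        · rintro v ⟨hv, hv2⟩
          refine ⟨Subgroup.mul_mem _ (Subgroup.mul_mem _ hιa (Subgroup.inv_mem _ hx)) hv, ?_⟩
          have hv1 : v⁻¹ ≠ 1 := by
            intro h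
            apply hv2
            rw [h, one_mul]
            exact ⟨fun h' => absurd h' hF.St_one, fun h' => absurd h' hnot⟩
          have e1 : St (ι a * x⁻¹ * v)⁻¹ ↔ St v⁻¹ := by
            have h2 := hF.St_right (v⁻¹ * x) a⁻¹
            have h3 := hF.St_mul_x v⁻¹ hv1
            rw [h3] at h2
            have : (ι a * x⁻¹ * v)⁻¹ = v⁻¹ * x * ι a⁻¹ := by rw [map_inv]; group
            rw [this]; exact h2
          have e2 : (ι a * x⁻¹ * v)⁻¹ * c = v⁻¹ * (x * c₁) := by rw [hcc]; group
          rw [e1, e2]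
          exact hv2
        · rintro v ⟨hv, hv2⟩ h
          apply hv2
          have : v = 1 := by
            have := congrArg (fun t => (ι a * x⁻¹)⁻¹ * t) h
            simpa [mul_assoc] using this
          rw [this, inv_one, one_mul]
          exact ⟨fun h' => absurd h' hF.St_one, fun h' => absurd h' hnot⟩
  induction n with
  | zero =>
    apply (hF'.image ι).subset
    rintro c ⟨hc, hγ, hn⟩
    rcases step c hc hγ with ⟨a, ha, rfl⟩ | ⟨a, _, e, _, c₂, _, _, _, h⟩
    · exact ⟨a, ha, rfl⟩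
    · exfalso
      have h2 := h.trans hn
      simp at h2
  | succ n ih =>
    have hfin : ((ι '' F) ∪ ((fun p : G × G' => ι p.1 * x * p.2) '' (F ×ˢ
      {c : G' | c ∈ sA ι x A ∧ (∀ u ∈ sA ι x A, (γ u⁻¹)⁻¹ * γ (u⁻¹ * c) ∈ F) ∧
      (Sep ι x St A c).encard ≤ n}) ∪ (fun p : G × G' => ι p.1 * x⁻¹ * p.2) '' (F ×ˢ
      {c : G' | c ∈ sA ι x A ∧ (∀ u ∈ sA ι x A, (γ u⁻¹)⁻¹ * γ (u⁻¹ * c) ∈ F) ∧
      (Sep ι x St A c).encard ≤ n}))).Finite :=
      (hF'.image ι).union (((hF'.prod ih).image _).union ((hF'.prod ih).image _))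
    apply hfin.subset
    rintro c ⟨hc, hγ, hn⟩
    rcases step c hc hγ with ⟨a, ha, rfl⟩ | ⟨a, ha, e, he, c₂, hcc, hc₂, hγ₂, h⟩
    · exact Or.inl ⟨a, ha, rfl⟩
    · right
      have h2 : (Sep ι x St A c₂).encard ≤ n := by
        have h3 := h.trans hn
        push_cast at h3
        exact (ENat.add_le_add_iff_right (by simp)).1 h3
      rcases he with rfl | rfl
      · left
        exact ⟨(a, c₂), ⟨ha, hc₂, hγ₂, h2⟩, hcc.symm⟩
      · right
        exact ⟨(a, c₂), ⟨ha, hc₂, hγ₂, h2⟩, hcc.symm⟩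

end Pool.Agent.Lib.MP_7e344a_al
end
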