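import Pool.Agent.Lib.MP_7e344a_al.Mg.G002
import Pool.Agent.Lib.MP_7e344a_al.Mg.G001
import Pool.Agent.Lib.MP_7e344a_al.Mg.G003
import Pool.Agent.Lib.MP_7e344a_al.Mg.G006

section

/-!
# MP_7e344a_al: G09, the free extension is good
-/

set_option autoImplicit false

namespace Pool.Agent.Lib.MP_7e344a_al

variable {G G' : Type} [Group G] [Group G'] {ι : G →* G'} {x : G'} {γ : G' → G} {St : G' → Prop}

/-- exchange of the indices `a` and `b`, on vertices -/
def swV (A B C : Subgroup G) : CV G (fam A B C) → CV G (fam B A C)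
  | Sum.inl g => Sum.inl g
  | Sum.inr ⟨Ix.a, q⟩ => Sum.inr ⟨Ix.b, q⟩
  | Sum.inr ⟨Ix.b, q⟩ => Sum.inr ⟨Ix.a, q⟩
  | Sum.inr ⟨Ix.c, q⟩ => Sum.inr ⟨Ix.c, q⟩

theorem swV_elt (A B C : Subgroup G) (g : G) : swV A B C (elt _ g) = elt _ g := rfl

theorem swV_cos (A B C : Subgroup G) (i : Ix) (u : G) : swV A B C (cos _ i u) =
    cos _ (match i with | Ix.a => Ix.b | Ix.b => Ix.a | Ix.c => Ix.c) u := by
  cases i <;> rfl

theorem swV_swV (A B C : Subgroup G) (v : CV G (fam A B C)) :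
    swV B A C (swV A B C v) = v := by
  rcases v with g | ⟨i, q⟩
  · rfl
  · cases i <;> rfl

theorem swV_inj (A B C : Subgroup G) : Function.Injective (swV A B C) :=
  Function.LeftInverse.injective (g := swV B A C) (swV_swV A B C)

theorem swV_adj (A B C : Subgroup G) {v w : CV G (fam A B C)} (h : (Inc (fam A B C)).Adj v w) :
    (Inc (fam B A C)).Adj (swV A B C v) (swV A B C w) := by
  rcases cv_cases _ v with ⟨a, rfl⟩ | ⟨i, a, rfl⟩ <;> rcases cv_cases _ w with ⟨b, rfl⟩ | ⟨j, b, rfl⟩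
  · exact (not_adj_elt_elt _ _ _ h).elim
  · rw [adj_elt_cos] at h
    rw [swV_elt, swV_cos, adj_elt_cos]
    cases j <;> exact h
  · rw [SimpleGraph.adj_comm, adj_elt_cos] at h
    rw [SimpleGraph.adj_comm, swV_elt, swV_cos, adj_elt_cos]
    cases i <;> exact h
  · exact (not_adj_cos_cos _ _ _ _ _ h).elim

/-- the homomorphism of graphs -/
def swHom (A B C : Subgroup G) : Inc (fam A B C) →g Inc (fam B A C) :=
  ⟨swV A B C, fun h => swV_adj A B C h⟩

theorem swV_walk (A B C : Subgroup G) {v w : CV G (fam A B C)} (p : (Inc (fam A B C)).Walk v w) :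
    ∃ q : (Inc (fam B A C)).Walk (swV A B C v) (swV A B C w), q.length = p.length ∧
      q.support = p.support.map (swV A B C) :=
  ⟨p.map (swHom A B C), SimpleGraph.Walk.length_map _ _, SimpleGraph.Walk.support_map _ _⟩

theorem angle_swV (A B C : Subgroup G) (c : CV G (fam A B C)) (v w : G) (θ : ℕ)
    (h : AngLE (Inc (fam A B C)) c (elt _ v) (elt _ w) θ) :
    AngLE (Inc (fam B A C)) (swV A B C c) (elt _ v) (elt _ w) θ := by
  obtain ⟨p, hp, hc⟩ := h
  obtain ⟨q, hq1, hq2⟩ := swV_walk A B C p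
  rw [← swV_elt A B C v, ← swV_elt A B C w]
  refine ⟨q, by rw [hq1]; exact hp, ?_⟩
  rw [hq2, List.mem_map]
  rintro ⟨a, ha, hac⟩
  exact hc (swV_inj A B C hac ▸ ha)

theorem angle_swap (A B C : Subgroup G) (i : Ix) (u v w : G) (θ : ℕ)
    (h : AngLE (Inc (fam A B C)) (cos _ i u) (elt _ v) (elt _ w) θ) :
    AngLE (Inc (fam B A C)) (cos _ (match i with | Ix.a => Ix.b | Ix.b => Ix.a | Ix.c => Ix.c) u)
      (elt _ v) (elt _ w) θ := by
  have key := angle_swV A B C _ v w θ h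
  cases i <;> exact key

theorem swV_dist_le (A B C : Subgroup G) (hc : (Inc (fam A B C)).Connected)
    (v w : CV G (fam A B C)) :
    (Inc (fam B A C)).dist (swV A B C v) (swV A B C w) ≤ (Inc (fam A B C)).dist v w := by
  obtain ⟨p, hp⟩ := hc.exists_walk_length_eq_dist v w
  obtain ⟨q, hq, _⟩ := swV_walk A B C p
  rw [← hp, ← hq]
  exact SimpleGraph.dist_le q

theorem swV_conn (A B C : Subgroup G) (hc : (Inc (fam A B C)).Connected) :
    (Inc (fam B A C)).Connected := by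
  have : Nonempty (CV G (fam B A C)) := ⟨elt _ 1⟩
  refine ⟨fun v w => ?_⟩
  obtain ⟨p, _⟩ := hc.exists_walk_length_eq_dist (swV B A C v) (swV B A C w)
  have h1 : (Inc (fam B A C)).Reachable (swV A B C (swV B A C v)) (swV A B C (swV B A C w)) :=
    ⟨(swV_walk A B C p).choose⟩
  rwa [swV_swV, swV_swV] at h1

theorem swV_dist (A B C : Subgroup G) (hc : (Inc (fam A B C)).Connected)
    (v w : CV G (fam A B C)) :
    (Inc (fam B A C)).dist (swV A B C v) (swV A B C w) = (Inc (fam A B C)).dist v w := by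
  refine le_antisymm (swV_dist_le A B C hc v w) ?_
  have := swV_dist_le B A C (swV_conn A B C hc) (swV A B C v) (swV A B C w)
  rwa [swV_swV, swV_swV] at this

theorem swV_geo (A B C : Subgroup G) (hc : (Inc (fam A B C)).Connected)
    {p : ℕ → CV G (fam A B C)} {n : ℕ} {v w : CV G (fam A B C)}
    (h : IsGeo (Inc (fam A B C)) p n v w) :
    IsGeo (Inc (fam B A C)) (fun i => swV A B C (p i)) n (swV A B C v) (swV A B C w) := by
  refine ⟨?_, ?_, ?_⟩
  · intro i j hij hj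
    show (Inc (fam B A C)).dist (swV A B C (p i)) (swV A B C (p j)) = j - i
    rw [swV_dist A B C hc]
    exact h.geo i j hij hj
  · show swV A B C (p 0) = _
    rw [h.start]
  · show swV A B C (p n) = _
    rw [h.fin]

theorem swV_slim (A B C : Subgroup G) (hc : (Inc (fam A B C)).Connected) {δ : ℕ}
    (hs : Slim (Inc (fam A B C)) δ) : Slim (Inc (fam B A C)) δ := by
  intro p q r l m n x y z hp hq hr i hi
  have hc' := swV_conn A B C hc
  have h1 := hs _ _ _ l m n _ _ _ (swV_geo B A C hc' hp) (swV_geo B A C hc' hq)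
    (swV_geo B A C hc' hr) i hi
  simp only [swV_dist B A C hc'] at h1
  exact h1

theorem Good.swap {A B C : Subgroup G} (h : Good (fam A B C) {Ix.a, Ix.b}) :
    Good (fam B A C) {Ix.a, Ix.b} := by
  refine ⟨swV_conn A B C h.conn, ?_, ?_⟩
  · obtain ⟨δ, hδ⟩ := h.slim
    exact ⟨δ, swV_slim A B C h.conn hδ⟩
  · intro i hi θ
    rcases hi with rfl | hi
    · refine (h.lf Ix.b (Or.inr rfl) θ).subset ?_
      rintro a ⟨ha, ha'⟩
      exact ⟨ha, angle_swap B A C Ix.a 1 1 a θ ha'⟩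
    · have hi' : i = Ix.b := hi
      subst hi'
      refine (h.lf Ix.a (Or.inl rfl) θ).subset ?_
      rintro a ⟨ha, ha'⟩
      exact ⟨ha, angle_swap B A C Ix.b 1 1 a θ ha'⟩

theorem closure_inv_gen (S : Set G') (y : G') :
    Subgroup.closure (S ∪ {y}) = Subgroup.closure (S ∪ {y⁻¹}) := by
  apply le_antisymm
  · rw [Subgroup.closure_le]
    rintro z (hz | rfl)
    · exact Subgroup.subset_closure (Or.inl hz)
    · have : z⁻¹ ∈ Subgroup.closure (S ∪ {z⁻¹}) := Subgroup.subset_closure (Or.inr rfl)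
      have := Subgroup.inv_mem _ this
      rwa [inv_inv] at this
  · rw [Subgroup.closure_le]
    rintro z (hz | rfl)
    · exact Subgroup.subset_closure (Or.inl hz)
    · exact Subgroup.inv_mem _ (Subgroup.subset_closure (Or.inr rfl))

theorem sB_eq (ι : G →* G') (x : G') (g : G) (B : Subgroup G) :
    sB ι x g B = sA ι (ι g⁻¹ * x) B := by
  unfold sB sA
  rw [closure_inv_gen]
  have : (x⁻¹ * ι g)⁻¹ = ι g⁻¹ * x := by
    rw [map_inv, mul_inv_rev, inv_inv]
  rw [this]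

theorem sA_eq (ι : G →* G') (x : G') (g : G) (A : Subgroup G) :
    sA ι x A = sB ι (ι g⁻¹ * x) g⁻¹ A := by
  unfold sB sA
  rw [closure_inv_gen]
  have : (ι g⁻¹ * x)⁻¹ * ι g⁻¹ = x⁻¹ := by
    rw [mul_inv_rev, inv_mul_cancel_right]
  rw [this]

/-- finiteness of small angles at `⟨A, x⟩` -/
theorem ext_lfA (hF : FreeExt ι x γ St) {A B C : Subgroup G}
    (hG : Good (fam A B C) {Ix.a, Ix.b}) (hA : TF A) (hB : TF B) {g : G}
    (hg : ∀ a ∈ A, ∀ b ∈ B, a * b ≠ g) (θ : ℕ) :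
    {c : G' | c ∈ sA ι x A ∧ AngLE (Inc (famX ι x g A B C)) (cos _ Ix.a 1) (elt _ 1)
      (elt _ c) θ}.Finite := by
  have _ := hB
  have h1 : ∀ a ∈ A, a ∈ B → a = 1 := by
    intro a ha hb
    refine mal (i := Ix.a) (j := Ix.b) (u := 1) hG (Or.inl rfl) hA
      (Or.inl (by intro h; cases h)) ha ?_
    rw [inv_one, one_mul, mul_one]
    exact hb
  have h2 : ∀ a ∈ A, g⁻¹ * a * g ∈ B → a = 1 := by
    intro a ha hb
    exact mal (i := Ix.a) (j := Ix.b) (u := g) hG (Or.inl rfl) hA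
      (Or.inl (by intro h; cases h)) ha hb
  have hAB : ∀ c ∈ sA ι x A, c ∈ sB ι x g B → c = 1 := fun c hc hc' =>
    inter hF h1 h2 hg hc hc'
  obtain ⟨F, hF', hF1⟩ := gate_fin hF hG g θ
  refine (words_fin hF A (F ∪ {1}) (hF'.union (Set.finite_singleton 1)) (Or.inr rfl)
    (θ + 1)).subset ?_
  rintro c ⟨hc, hang⟩
  refine ⟨hc, ?_, ?_⟩
  · intro u hu
    left
    refine hF1 _ (inv_mem hu) _ (mul_mem (inv_mem hu) hc) ?_
    have h3 := hang.smul (inc_act _) u⁻¹
    rw [smul_cos, smul_elt, smul_elt, mul_one] at h3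
    have h4 : cos (famX ι x g A B C) Ix.a u⁻¹ = cos _ Ix.a 1 := by
      rw [cos_eq_iff]
      refine ⟨rfl, ?_⟩
      rw [inv_inv, mul_one]
      exact hu
    rwa [h4] at h3
  · have := sep_card hF hAB hang
    push_cast
    exact this

theorem ext_good (hF : FreeExt ι x γ St) {A B C : Subgroup G}
    (hG : Good (fam A B C) {Ix.a, Ix.b}) (hA : TF A) (hB : TF B) {g : G}
    (hg : ∀ a ∈ A, ∀ b ∈ B, a * b ≠ g) : Good (famX ι x g A B C) {Ix.a, Ix.b} := by
  refine ⟨ext_conn hF hG.conn g, ext_slim hF hG.conn hG.slim g, ?_⟩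
  intro i hi θ
  rcases hi with rfl | hi
  · exact ext_lfA hF hG hA hB hg θ
  · have hi' : i = Ix.b := hi
    subst hi'
    obtain ⟨γ', St', hF'⟩ := hF.swap g⁻¹
    have hg' : ∀ b ∈ B, ∀ a ∈ A, b * a ≠ g⁻¹ := by
      intro b hb a ha h
      refine hg a⁻¹ (A.inv_mem ha) b⁻¹ (B.inv_mem hb) ?_
      rw [← mul_inv_rev, h, inv_inv]
    have h1 := ext_lfA (g := g⁻¹) hF' hG.swap hB hA hg' θ
    refine h1.subset ?_
    rintro c ⟨hc, hang⟩
    have hc' : c ∈ sB ι x g B := hc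
    have h2 := angle_swap (sA ι x A) (sB ι x g B) (C.map ι) Ix.b 1 1 c θ hang
    refine ⟨?_, ?_⟩
    · rwa [← sB_eq]
    · change AngLE (Inc (fam (sA ι (ι g⁻¹ * x) B) (sB ι (ι g⁻¹ * x) g⁻¹ A) (C.map ι)))
        (cos _ Ix.a 1) (elt _ 1) (elt _ c) θ
      rw [← sB_eq, ← sA_eq]
      exact h2

end Pool.Agent.Lib.MP_7e344a_al
end

section

/-!
# MP_7e344a_al: G10, filling
-/

set_option autoImplicit false

namespace Pool.Agent.Lib.MP_7e344a_al

variable {G G₂ I : Type} [Group G] [Group G₂]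

/-- the rotations of a filling -/
noncomputable def fillN (H : I → Subgroup G) (N : I → Subgroup G) : CV G H → Subgroup G
  | Sum.inl _ => ⊥
  | Sum.inr c => (N c.1).map (MulAut.conj (Quotient.out c.2)).toMonoidHom

theorem fillN_cos (H N : I → Subgroup G) (hN : ∀ i, N i ≤ H i)
    (hn : ∀ i, ∀ h ∈ H i, ∀ n ∈ N i, h * n * h⁻¹ ∈ N i) (i : I) (u n : G) :
    n ∈ fillN H N (cos H i u) ↔ u⁻¹ * n * u ∈ N i := by
  have ho : (QuotientGroup.mk (Quotient.out (QuotientGroup.mk u : G ⧸ H i)) : G ⧸ H i) =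
      QuotientGroup.mk u := Quotient.out_eq _
  have ho' : (Quotient.out (QuotientGroup.mk u : G ⧸ H i))⁻¹ * u ∈ H i := QuotientGroup.eq.1 ho
  obtain ⟨v, hv⟩ : ∃ v, Quotient.out (QuotientGroup.mk u : G ⧸ H i) = v := ⟨_, rfl⟩
  rw [hv] at ho'
  change n ∈ (N i).map (MulAut.conj (Quotient.out (QuotientGroup.mk u : G ⧸ H i))).toMonoidHom ↔ _
  rw [hv, Subgroup.mem_map]
  constructor
  · rintro ⟨m, hm, rfl⟩
    have : u⁻¹ * (v * m * v⁻¹) * u = (v⁻¹ * u)⁻¹ * m * ((v⁻¹ * u)⁻¹)⁻¹ := by group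
    change u⁻¹ * (v * m * v⁻¹) * u ∈ N i
    rw [this]
    exact hn i _ ((H i).inv_mem ho') _ hm
  · intro h
    refine ⟨(v⁻¹ * u) * (u⁻¹ * n * u) * (v⁻¹ * u)⁻¹, hn i _ ho' _ h, ?_⟩
    change v * ((v⁻¹ * u) * (u⁻¹ * n * u) * (v⁻¹ * u)⁻¹) * v⁻¹ = n
    group

theorem fillN_elt (H N : I → Subgroup G) (g n : G) : n ∈ fillN H N (elt H g) ↔ n = 1 :=
  Subgroup.mem_bot

theorem fill_rot (H N : I → Subgroup G) (hN : ∀ i, N i ≤ H i)
    (hn : ∀ i, ∀ h ∈ H i, ∀ n ∈ N i, h * n * h⁻¹ ∈ N i) (s : ℕ)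
    (hd : ∀ i, ∀ n ∈ N i, n ≠ 1 → ¬ AngLE (Inc H) (cos H i 1) (elt H 1) (elt H n) s) :
    Rot (Inc H) (fillN H N) s where
  act := inc_act H
  fix := by
    intro c ρ hρ
    rcases cv_cases H c with ⟨g, rfl⟩ | ⟨i, u, rfl⟩
    · rw [fillN_elt] at hρ
      rw [hρ, one_smul]
    · rw [fillN_cos H N hN hn] at hρ
      rw [smul_cos, cos_eq_iff]
      refine ⟨rfl, ?_⟩
      have : (ρ * u)⁻¹ * u = (u⁻¹ * ρ * u)⁻¹ := by group
      rw [this]
      exact (H i).inv_mem (hN i hρ)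
  conj := by
    intro g c ρ hρ
    rcases cv_cases H c with ⟨a, rfl⟩ | ⟨i, u, rfl⟩
    · rw [fillN_elt] at hρ
      rw [hρ, smul_elt, fillN_elt]
      group
    · rw [fillN_cos H N hN hn] at hρ
      rw [smul_cos, fillN_cos H N hN hn]
      have : (g * u)⁻¹ * (g * ρ * g⁻¹) * (g * u) = u⁻¹ * ρ * u := by group
      rwa [this]
  deep := by
    intro c ρ hρ h1 q hq hang
    rcases cv_cases H c with ⟨a, rfl⟩ | ⟨i, u, rfl⟩
    · rw [fillN_elt] at hρ
      exact h1 hρ
    · rcases cv_cases H q with ⟨v, rfl⟩ | ⟨j, v, rfl⟩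
      · rw [SimpleGraph.adj_comm, adj_elt_cos] at hq
        have hc : cos H i u = cos H i v := by
          rw [cos_eq_iff]
          refine ⟨rfl, ?_⟩
          have : u⁻¹ * v = (v⁻¹ * u)⁻¹ := by group
          rw [this]
          exact (H i).inv_mem hq
        rw [hc] at hρ hang
        rw [fillN_cos H N hN hn] at hρ
        have h2 := hang.smul (inc_act H) v⁻¹
        rw [smul_cos, smul_elt, smul_elt, smul_elt] at h2
        have e1 : v⁻¹ * v = 1 := by group
        have e2 : v⁻¹ * (ρ * v) = v⁻¹ * ρ * v := by group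
        rw [e1, e2] at h2
        refine hd i _ hρ ?_ h2
        intro h3
        apply h1
        have : ρ = v * (v⁻¹ * ρ * v) * v⁻¹ := by group
        rw [this, h3]
        group
      · exact not_adj_cos_cos H _ _ _ _ hq

theorem fill_NN (H N : I → Subgroup G) (hN : ∀ i, N i ≤ H i)
    (hn : ∀ i, ∀ h ∈ H i, ∀ n ∈ N i, h * n * h⁻¹ ∈ N i) :
    NN (fillN H N) = Subgroup.normalClosure (⋃ i, (N i : Set G)) := by
  apply le_antisymm
  · apply iSup_le
    intro c n hnc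
    rcases cv_cases H c with ⟨g, rfl⟩ | ⟨i, u, rfl⟩
    · rw [fillN_elt] at hnc
      rw [hnc]
      exact Subgroup.one_mem _
    · rw [fillN_cos H N hN hn] at hnc
      have h1 : u⁻¹ * n * u ∈ Subgroup.normalClosure (⋃ i, (N i : Set G)) :=
        Subgroup.subset_normalClosure (Set.mem_iUnion.2 ⟨i, hnc⟩)
      have h2 := Subgroup.normalClosure_normal.conj_mem _ h1 u
      have : u * (u⁻¹ * n * u) * u⁻¹ = n := by group
      rwa [this] at h2
  · have hnorm : (NN (fillN H N)).Normal := by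
      constructor
      intro n hn' g
      unfold NN at hn' ⊢
      induction hn' using Subgroup.iSup_induction' with
      | hp c x hx =>
        rcases cv_cases H c with ⟨a, rfl⟩ | ⟨i, u, rfl⟩
        · rw [fillN_elt] at hx
          rw [hx]
          simp
        · refine Subgroup.mem_iSup_of_mem (cos H i (g * u)) ?_
          rw [fillN_cos H N hN hn] at hx ⊢
          have : (g * u)⁻¹ * (g * x * g⁻¹) * (g * u) = u⁻¹ * x * u := by group
          rwa [this]
      | h1 => simp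
      | hmul x y hx hy h1 h2 =>
        have : g * (x * y) * g⁻¹ = (g * x * g⁻¹) * (g * y * g⁻¹) := by group
        rw [this]
        exact Subgroup.mul_mem _ h1 h2
    apply Subgroup.normalClosure_le_normal
    intro n hn'
    obtain ⟨i, hi⟩ := Set.mem_iUnion.1 hn'
    refine Subgroup.mem_iSup_of_mem (cos H i 1) ?_
    rw [fillN_cos H N hN hn]
    simpa using hi

/-- the map of coset graphs induced by a homomorphism -/
def push (H : I → Subgroup G) (π : G →* G₂) : CV G H → CV G₂ (fun i => (H i).map π)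
  | Sum.inl g => Sum.inl (π g)
  | Sum.inr c => Sum.inr ⟨c.1, Quotient.map' π (by
      intro a b h
      rw [QuotientGroup.leftRel_apply] at h ⊢
      exact ⟨_, h, by simp⟩) c.2⟩

theorem push_elt (H : I → Subgroup G) (π : G →* G₂) (g : G) :
    push H π (elt H g) = elt _ (π g) := rfl

theorem push_cos (H : I → Subgroup G) (π : G →* G₂) (i : I) (g : G) :
    push H π (cos H i g) = cos _ i (π g) := rfl

theorem push_quot (H : I → Subgroup G) (π : G →* G₂) (hπ : Function.Surjective π) :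
    IsQuot (Inc H) π.ker (Inc (fun i => (H i).map π)) (push H π) where
  surj := by
    intro w
    rcases cv_cases _ w with ⟨g, rfl⟩ | ⟨i, u, rfl⟩
    · obtain ⟨g, rfl⟩ := hπ g
      exact ⟨elt H g, rfl⟩
    · obtain ⟨u, rfl⟩ := hπ u
      exact ⟨cos H i u, rfl⟩
  fib := by
    intro v w
    constructor
    · intro h
      rcases cv_cases H v with ⟨g, rfl⟩ | ⟨i, u, rfl⟩ <;>
        rcases cv_cases H w with ⟨g', rfl⟩ | ⟨j, u', rfl⟩
      · rw [push_elt, push_elt, elt_inj] at h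
        refine ⟨g' * g⁻¹, ?_, ?_⟩
        · rw [MonoidHom.mem_ker]; simp [h]
        · rw [smul_elt]; simp
      · rw [push_elt, push_cos] at h
        exact absurd h (elt_ne_cos _ _ _ _)
      · rw [push_elt, push_cos] at h
        exact absurd h.symm (elt_ne_cos _ _ _ _)
      · rw [push_cos, push_cos, cos_eq_iff] at h
        obtain ⟨rfl, k, hk, hk'⟩ := h
        refine ⟨u' * k⁻¹ * u⁻¹, ?_, ?_⟩
        · rw [MonoidHom.mem_ker]
          simp [hk']
        · rw [smul_cos, cos_eq_iff]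
          refine ⟨rfl, ?_⟩
          have : (u' * k⁻¹ * u⁻¹ * u)⁻¹ * u' = k := by group
          rw [this]
          exact hk
    · rintro ⟨n, hn, rfl⟩
      rw [MonoidHom.mem_ker] at hn
      rcases cv_cases H v with ⟨g, rfl⟩ | ⟨i, u, rfl⟩
      · rw [smul_elt, push_elt, push_elt, map_mul, hn, one_mul]
      · rw [smul_cos, push_cos, push_cos, map_mul, hn, one_mul]
  adj := by
    intro v w h
    rcases cv_cases H v with ⟨g, rfl⟩ | ⟨i, u, rfl⟩ <;>
      rcases cv_cases H w with ⟨g', rfl⟩ | ⟨j, u', rfl⟩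
    · exact (not_adj_elt_elt H _ _ h).elim
    · rw [adj_elt_cos] at h
      rw [push_elt, push_cos, adj_elt_cos]
      exact ⟨_, h, by simp⟩
    · rw [SimpleGraph.adj_comm, adj_elt_cos] at h
      rw [push_elt, push_cos, SimpleGraph.adj_comm, adj_elt_cos]
      exact ⟨_, h, by simp⟩
    · exact (not_adj_cos_cos H _ _ _ _ h).elim
  lift := by
    intro v a h
    rcases cv_cases H v with ⟨g, rfl⟩ | ⟨i, u, rfl⟩ <;>
      rcases cv_cases _ a with ⟨g', rfl⟩ | ⟨j, u', rfl⟩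
    · exact (not_adj_elt_elt _ _ _ h).elim
    · rw [push_elt, adj_elt_cos] at h
      refine ⟨cos H j g, adj_self H g j, ?_⟩
      rw [push_cos, cos_eq_iff]
      exact ⟨rfl, h⟩
    · rw [push_cos, SimpleGraph.adj_comm, adj_elt_cos] at h
      obtain ⟨k, hk, hk'⟩ := h
      refine ⟨elt H (u * k⁻¹), ?_, ?_⟩
      · rw [SimpleGraph.adj_comm, adj_elt_cos]
        have : (u * k⁻¹)⁻¹ * u = k := by group
        rwa [this]
      · rw [push_elt, elt_inj, map_mul, map_inv, hk']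
        group
    · exact (not_adj_cos_cos _ _ _ _ _ h).elim

theorem fill {H : I → Subgroup G} {T : Set I} (hG : Good H T) : ∃ s : ℕ, ∀ N : I → Subgroup G,
    (∀ i, N i ≤ H i) → (∀ i, ∀ h ∈ H i, ∀ n ∈ N i, h * n * h⁻¹ ∈ N i) →
    (∀ i, ∀ n ∈ N i, n ≠ 1 → ¬ AngLE (Inc H) (cos H i 1) (elt H 1) (elt H n) s) →
    (∀ i, ∀ h ∈ H i, h ∈ Subgroup.normalClosure (⋃ i, (N i : Set G)) → h ∈ N i) ∧
    ∀ (G₂ : Type) [Group G₂] (π : G →* G₂), Function.Surjective π →
      π.ker = Subgroup.normalClosure (⋃ i, (N i : Set G)) → Good (fun i => (H i).map π) T := by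
  obtain ⟨δ, hs⟩ := hG.slim
  refine ⟨D0 δ * (D0 δ + 8), fun N hN hn hd => ?_⟩
  have hR := fill_rot H N hN hn _ hd
  have h6 : D0 δ * 6 ≤ D0 δ * (D0 δ + 8) := Nat.mul_le_mul_left _ (by omega)
  have h7 : D0 δ * (D0 δ + 7) ≤ D0 δ * (D0 δ + 8) := Nat.mul_le_mul_left _ (by omega)
  have h8 : D0 δ * 8 ≤ D0 δ * (D0 δ + 8) := Nat.mul_le_mul_left _ (by omega)
  have hNN := fill_NN H N hN hn
  constructor
  · intro i h hh hcl
    rw [← hNN] at hcl
    have hfix : h • cos H i 1 = cos H i 1 := by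
      rw [smul_cos, cos_eq_iff]
      refine ⟨rfl, ?_⟩
      simpa using (H i).inv_mem hh
    have := rot_stab hG.conn hs hR h6 hcl hfix
    rw [fillN_cos H N hN hn] at this
    simpa using this
  · intro G₂ _ π hπ hker
    rw [← hNN] at hker
    have hQ := push_quot H π hπ
    rw [hker] at hQ
    have hconn := hQ.connected hG.conn
    have hslim := slim_quot hG.conn hs hR h8 hQ
    refine ⟨hconn, ⟨δ, hslim⟩, ?_⟩
    intro i hi θ
    apply lf_all _ hconn hslim
    refine Set.Finite.subset ((hG.lf i hi (D0 δ)).image π) ?_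
    rintro a'' ⟨⟨a, ha, rfl⟩, hang⟩
    have hP : cos (fun i => (H i).map π) i 1 = push H π (cos H i 1) := by
      rw [push_cos, map_one]
    have h1 : elt (fun i => (H i).map π) 1 = push H π (elt H 1) := by
      rw [push_elt, map_one]
    have h2 : elt (fun i => (H i).map π) (π a) = push H π (elt H a) := rfl
    rw [hP, h1, h2] at hang
    have hadj1 : (Inc H).Adj (cos H i 1) (elt H 1) := (adj_self H 1 i).symm
    have hadj2 : (Inc H).Adj (cos H i 1) (elt H a) := by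
      rw [SimpleGraph.adj_comm, adj_elt_cos]
      simpa using (H i).inv_mem ha
    obtain ⟨ρ, hρ, hang'⟩ := angle_lift hG.conn hs hR h6 h7 hQ hadj1 hadj2 hang
    rw [fillN_cos H N hN hn] at hρ
    have hρ' : ρ ∈ N i := by simpa using hρ
    refine ⟨ρ * a, ⟨(H i).mul_mem (hN i hρ') ha, hang'⟩, ?_⟩
    have : ρ ∈ π.ker := by
      rw [hker, hNN]
      exact Subgroup.subset_normalClosure (Set.mem_iUnion.2 ⟨i, hρ'⟩)
    rw [MonoidHom.mem_ker] at this
    rw [map_mul, this, one_mul]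

end Pool.Agent.Lib.MP_7e344a_al
end

section

/-!
# MP_7e344a_al: M04, elementary subgroups of torsion free hyperbolic groups
-/

set_option autoImplicit false

namespace Pool.Agent.Lib.MP_7e344a_al

variable {A V : Type} [Group A] [MulAction A V] {Γ : SimpleGraph V} {δ : ℕ}

/-- `El h` is contained in a neighbourhood of `⟨h⟩` -/
theorem El_near (hA : Act A V Γ δ) {h : A} {y : V} {C l : ℕ} (hL : Lox Γ h y C l) :
    ∃ R : ℕ, ∀ g ∈ El h, ∃ m : ℤ, Γ.dist (g • y) (h ^ m • y) ≤ R := by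
  have hF := fp_of_slim hA.conn hA.slim
  have hc := hA.conn
  obtain ⟨c2, hc2⟩ : ∃ c2, c2 = 4 * (C + Γ.dist y (h • y) + (6 * δ + 2)) + (6 * δ + 2) + 2 :=
    ⟨_, rfl⟩
  refine ⟨C + 2 * c2, ?_⟩
  intro g hg
  have near : ∀ u : V, ∃ m : ℤ, ∀ k : ℤ, Γ.dist u (h ^ m • y) ≤ Γ.dist u (h ^ k • y) := by
    intro u
    exact ⟨Function.argmin (fun k : ℤ => Γ.dist u (h ^ k • y)),
      fun k => Function.argmin_le (fun k : ℤ => Γ.dist u (h ^ k • y)) k⟩
  obtain ⟨p, q, hp, hpq⟩ : ∃ p q : ℤ, 0 < p ∧ g * h ^ p * g⁻¹ = h ^ q := by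
    obtain ⟨p, q, hp, hq, hpq⟩ := hg
    rcases lt_or_gt_of_ne hp with h0 | h0
    · refine ⟨-p, -q, by omega, ?_⟩
      rw [zpow_neg, zpow_neg, ← hpq]
      group
    · exact ⟨p, q, h0, hpq⟩
  have key : ∀ s : ℤ, g * h ^ (p * s) = h ^ (q * s) * g := by
    intro s
    have h1 : (g * h ^ p * g⁻¹) ^ s = h ^ (q * s) := by rw [hpq, zpow_mul]
    rw [conj_zpow, ← zpow_mul] at h1
    rw [← h1]
    group
  obtain ⟨m, hm⟩ := near (g • y)
  refine ⟨m, ?_⟩
  have main : ∀ s : ℤ, l * (c2 + Γ.dist (g • y) (h ^ m • y) + Γ.dist (g • y) y + 1) + 1 ≤ s.natAbs →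
      Γ.dist (g • y) (h ^ m • y) + Γ.dist (h ^ m • y) ((g * h ^ (p * s)) • y) ≤
        Γ.dist (g • y) ((g * h ^ (p * s)) • y) + c2 := by
    intro s hs
    obtain ⟨m', hm'⟩ := near ((g * h ^ (p * s)) • y)
    have d1 : Γ.dist (g • y) ((g * h ^ (p * s)) • y) = Γ.dist y (h ^ (p * s) • y) := by
      rw [mul_smul, dist_smul hA.act]
    have d2 := hL.grow_int hA (p * s)
    rw [← d1, Int.natAbs_mul] at d2
    have d3 : s.natAbs ≤ p.natAbs * s.natAbs :=
      Nat.le_mul_of_pos_left _ (Int.natAbs_pos.2 hp.ne')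
    have d4 : l * (c2 + Γ.dist (g • y) (h ^ m • y) + Γ.dist (g • y) y + 1) <
        l * (Γ.dist (g • y) ((g * h ^ (p * s)) • y) + 1) := by omega
    have d5 := lt_of_mul_lt_mul_left d4 (Nat.zero_le l)
    have d6 : Γ.dist ((g * h ^ (p * s)) • y) (h ^ m' • y) ≤ Γ.dist (g • y) y := by
      have e1 := hm' (q * s)
      rw [key, mul_smul, dist_smul hA.act, ← mul_smul, ← key] at e1
      exact e1
    have t1 : Γ.dist (g • y) ((g * h ^ (p * s)) • y) ≤ Γ.dist (g • y) (h ^ m • y) +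
        Γ.dist (h ^ m • y) ((g * h ^ (p * s)) • y) := hc.dist_triangle
    have t2 : Γ.dist (h ^ m • y) ((g * h ^ (p * s)) • y) ≤ Γ.dist (h ^ m • y) (h ^ m' • y) +
        Γ.dist (h ^ m' • y) ((g * h ^ (p * s)) • y) := hc.dist_triangle
    have t3 : Γ.dist (h ^ m' • y) ((g * h ^ (p * s)) • y) =
        Γ.dist ((g * h ^ (p * s)) • y) (h ^ m' • y) := SimpleGraph.dist_comm
    have h2 := proj2 hc hF (fun a b => hL.addOn a b) (fun a b => Act.stepOn hA h y a b) hm hm'
      (by omega)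
    omega
  obtain ⟨s, hs⟩ : ∃ s : ℕ, s = l * (c2 + Γ.dist (g • y) (h ^ m • y) + Γ.dist (g • y) y + 1) + 1 :=
    ⟨_, rfl⟩
  have h1 := main s (by rw [Int.natAbs_natCast, hs])
  have h2 := main (-s) (by rw [Int.natAbs_neg, Int.natAbs_natCast, hs])
  have hps : 0 ≤ p * (s : ℤ) := mul_nonneg hp.le (by positivity)
  have h3 := hL.add (p * (-s)) 0 (p * s) (by rw [mul_neg]; omega) hps
  have h4 : Γ.dist ((g * h ^ (p * (-s : ℤ))) • y) (g • y) + Γ.dist (g • y) ((g * h ^ (p * (s : ℤ))) • y) ≤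
      Γ.dist ((g * h ^ (p * (-s : ℤ))) • y) ((g * h ^ (p * (s : ℤ))) • y) + C := by
    rw [mul_smul, mul_smul, dist_smul hA.act, dist_smul hA.act, dist_smul hA.act]
    simpa using h3
  have h5 : Γ.dist ((g * h ^ (p * (-s : ℤ))) • y) ((g * h ^ (p * (s : ℤ))) • y) ≤
      Γ.dist ((g * h ^ (p * (-s : ℤ))) • y) (h ^ m • y) +
      Γ.dist (h ^ m • y) ((g * h ^ (p * (s : ℤ))) • y) := hc.dist_triangle
  rw [SimpleGraph.dist_comm (u := (g * h ^ (p * (-s : ℤ))) • y) (v := h ^ m • y)] at h5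
  rw [SimpleGraph.dist_comm (u := (g * h ^ (p * (-s : ℤ))) • y) (v := g • y)] at h4
  omega

/-- every element of `El h` has a power in `⟨h⟩` -/
theorem El_pow (hA : Act A V Γ δ) {h : A} (h1 : h ≠ 1) :
    ∃ n : ℕ, 0 < n ∧ ∀ g ∈ El h, ∃ j : ℤ, g ^ n = h ^ j := by
  classical
  obtain ⟨y⟩ := hA.conn.nonempty
  obtain ⟨C, l, hL⟩ := hA.exists_lox h1 y
  obtain ⟨R, hR⟩ := El_near hA hL
  have hfin := hA.finite_set y y R
  refine ⟨(Nat.factorial hfin.toFinset.card), Nat.factorial_pos _, ?_⟩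
  intro g hg
  have h2 : ∀ i : ℕ, ∃ m : ℤ, Γ.dist (g ^ i • y) (h ^ m • y) ≤ R := fun i =>
    hR _ (Subgroup.pow_mem _ hg i)
  choose m hm using h2
  have h3 : ∀ i ∈ Finset.range (hfin.toFinset.card + 1), (h ^ (m i))⁻¹ * g ^ i ∈ hfin.toFinset := by
    intro i _
    rw [Set.Finite.mem_toFinset, Set.mem_ofPred_eq]
    have h4 := hm i
    rw [← dist_smul hA.act (h ^ (m i))⁻¹, inv_smul_smul, SimpleGraph.dist_comm, ← mul_smul] at h4
    exact h4
  obtain ⟨i, hi, j, hj, hij, he⟩ := Finset.exists_ne_map_eq_of_card_lt_of_maps_to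
    (by rw [Finset.card_range]; omega) h3
  rw [Finset.mem_range] at hi hj
  have gen : ∀ i j : ℕ, i < j → j < hfin.toFinset.card + 1 →
      (h ^ (m i))⁻¹ * g ^ i = (h ^ (m j))⁻¹ * g ^ j → ∃ j' : ℤ, g ^ (Nat.factorial hfin.toFinset.card) = h ^ j' := by
    intro i j hij hj he
    have h5 : g ^ (j - i) = h ^ (m j - m i) := by
      have e1 : g ^ j = g ^ (j - i) * g ^ i := by rw [← pow_add]; congr 1; omega
      have e2 : g ^ j = h ^ (m j) * ((h ^ (m i))⁻¹ * g ^ i) := by rw [he]; group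
      rw [e1, ← mul_assoc] at e2
      rw [mul_right_cancel e2, zpow_sub]
    obtain ⟨r, hr⟩ : (j - i) ∣ (Nat.factorial hfin.toFinset.card) := Nat.dvd_factorial (by omega) (by omega)
    refine ⟨(m j - m i) * r, ?_⟩
    rw [hr, pow_mul, h5, zpow_mul, zpow_natCast]
  rcases lt_or_gt_of_ne hij with h6 | h6
  · exact gen i j h6 hj he
  · exact gen j i h6 hi he.symm

end Pool.Agent.Lib.MP_7e344a_al
end

section

/-!
# MP_7e344a_al: M04b, elementary subgroups, algebraic part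
-/

set_option autoImplicit false

open scoped Pointwise

namespace Pool.Agent.Lib.MP_7e344a_al

section Elem2abs
variable {B : Type} [Group B]

theorem Elem2_inj (tf : ∀ (g : B) (k : ℕ), 0 < k → g ^ k = 1 → g = 1) {h : B} (h1 : h ≠ 1)
    {a b : ℤ} (hab : h ^ a = h ^ b) : a = b := by
  by_contra hne
  have h2 : h ^ (a - b) = 1 := by rw [zpow_sub, hab, mul_inv_cancel]
  exact h1 (tf h _ (Int.natAbs_pos.mpr (sub_ne_zero.mpr hne)) (pow_natAbs_eq_one.mpr h2))

/-- `h ^ n` is central -/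
theorem Elem2_central (tf : ∀ (g : B) (k : ℕ), 0 < k → g ^ k = 1 → g = 1) {h : B} (h1 : h ≠ 1)
    {n : ℕ} (hn : 0 < n) {g : B} {i j : ℤ} (hj : g * h ^ n * g⁻¹ = h ^ j) (hi : g ^ n = h ^ i) :
    g * h ^ n = h ^ n * g := by
  have hk : ∀ k : ℕ, g ^ k * h ^ (n ^ k) * (g ^ k)⁻¹ = h ^ (j ^ k) := by
    intro k
    induction k with
    | zero => simp
    | succ k ih =>
      have e1 : g * h ^ (n ^ (k + 1)) * g⁻¹ = h ^ ((n ^ k : ℕ) * j) := by
        rw [pow_succ' n k, pow_mul, ← conj_pow, hj, ← zpow_natCast, ← zpow_mul, mul_comm]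
      calc g ^ (k + 1) * h ^ (n ^ (k + 1)) * (g ^ (k + 1))⁻¹
          = g ^ k * (g * h ^ (n ^ (k + 1)) * g⁻¹) * (g ^ k)⁻¹ := by
            rw [pow_succ]; group
        _ = g ^ k * (h ^ (n ^ k)) ^ j * (g ^ k)⁻¹ := by
            rw [e1, zpow_mul, zpow_natCast]
        _ = (g ^ k * h ^ (n ^ k) * (g ^ k)⁻¹) ^ j := (conj_zpow).symm
        _ = h ^ (j ^ (k + 1)) := by rw [ih, ← zpow_mul, pow_succ]
  have h2 : ((n : ℤ)) ^ n = j ^ n := by
    apply Elem2_inj tf h1
    rw [← hk n, hi]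
    have : h ^ ((n : ℤ) ^ n) = h ^ (n ^ n) := by
      rw [← zpow_natCast]; push_cast; rfl
    rw [this]
    have hc : Commute (h ^ i) (h ^ (n ^ n)) := (Commute.refl h).zpow_left i |>.pow_right _
    rw [hc.eq, mul_inv_cancel_right]
  have h3 : j.natAbs = n := by
    have h4 : j.natAbs ^ n = n ^ n := by
      rw [← Int.natAbs_pow, ← h2, Int.natAbs_pow, Int.natAbs_natCast]
    exact Nat.pow_left_injective hn.ne' h4
  rcases Int.natAbs_eq j with h5 | h5
  · rw [h3] at h5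
    rw [h5, zpow_natCast, mul_inv_eq_iff_eq_mul] at hj
    exact hj
  · rw [h3] at h5
    exfalso
    have e1 : g * h ^ ((n : ℤ) * i) * g⁻¹ = h ^ (j * i) := by
      rw [zpow_mul, zpow_natCast, ← conj_zpow, hj, zpow_mul]
    have e2 : g * h ^ ((n : ℤ) * i) * g⁻¹ = h ^ ((n : ℤ) * i) := by
      have e3 : g * h ^ i * g⁻¹ = h ^ i := by
        rw [← hi]
        have : Commute g (g ^ n) := (Commute.refl g).pow_right n
        rw [this.eq, mul_inv_cancel_right]
      rw [mul_comm, zpow_mul, zpow_natCast, ← conj_pow, e3]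
    have e4 : j * i = n * i := Elem2_inj tf h1 (e1.symm.trans e2)
    have hn' : (0 : ℤ) < n := by exact_mod_cast hn
    have hi0 : i = 0 := by
      rw [h5] at e4
      have : (n : ℤ) * i = 0 := by linarith
      rcases mul_eq_zero.mp this with h6 | h6
      · omega
      · exact h6
    rw [hi0, zpow_zero] at hi
    have hg := tf g n hn hi
    rw [hg, one_mul, inv_one, mul_one, ← zpow_natCast] at hj
    have := Elem2_inj tf h1 hj
    omega

/-- Schur: a torsion free group with a center of finite index is commutative -/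
theorem Elem2_schur (tf : ∀ (g : B) (k : ℕ), 0 < k → g ^ k = 1 → g = 1)
    [(Subgroup.center B).FiniteIndex] (g g' : B) : g * g' = g' * g := by
  have h1 : MonoidHom.transferCenterPow B (g * g' * g⁻¹ * g'⁻¹) = 1 := by
    rw [map_mul, map_mul, map_mul, map_inv, map_inv]
    generalize MonoidHom.transferCenterPow B g = x
    generalize MonoidHom.transferCenterPow B g' = y
    have : x * y = y * x := by
      apply Subtype.ext
      exact (Subgroup.mem_center_iff.mp y.2 x)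
    rw [this]; group
  have h2 : (g * g' * g⁻¹ * g'⁻¹) ^ (Subgroup.center B).index = 1 := by
    rw [← MonoidHom.transferCenterPow_apply, h1]; rfl
  have h3 := tf _ _ (Nat.pos_of_ne_zero Subgroup.FiniteIndex.index_ne_zero) h2
  have h4 : g * g' * g⁻¹ = g' := by
    rw [mul_inv_eq_one] at h3; exact h3
  rw [mul_inv_eq_iff_eq_mul] at h4
  exact h4

end Elem2abs

variable {A V : Type} [Group A] [MulAction A V] {Γ : SimpleGraph V} {δ : ℕ}

theorem self_mem_El (h : A) : h ∈ El h := ⟨1, 1, one_ne_zero, one_ne_zero, by group⟩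

theorem El_comm (hA : Act A V Γ δ) {h : A} (h1 : h ≠ 1) {g g' : A} (hg : g ∈ El h)
    (hg' : g' ∈ El h) : g * g' = g' * g := by
  obtain ⟨n, hn, hpow⟩ := El_pow hA h1
  have hne : Nonempty V := hA.conn.nonempty
  obtain ⟨y⟩ := hne
  obtain ⟨C, l, hL⟩ := hA.exists_lox h1 y
  obtain ⟨R, hR⟩ := El_near hA hL
  have tfB : ∀ (g : El h) (k : ℕ), 0 < k → g ^ k = 1 → g = 1 := by
    intro g k hk h2
    apply Subtype.ext
    apply hA.tf g.1 k hk
    have := congrArg Subtype.val h2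
    simpa using this
  set hB : El h := ⟨h, self_mem_El h⟩ with hhB
  have hB1 : hB ≠ 1 := fun h2 => h1 (congrArg Subtype.val h2)
  -- powers in B
  have hpowB : ∀ b : El h, ∃ j : ℤ, b ^ n = hB ^ j := by
    intro b
    obtain ⟨j, hj⟩ := hpow b.1 b.2
    refine ⟨j, Subtype.ext ?_⟩
    push_cast
    exact hj
  have hcen : ∀ b : El h, b * hB ^ n = hB ^ n * b := by
    intro b
    obtain ⟨i, hi⟩ := hpowB b
    obtain ⟨j, hj⟩ := hpowB (b * hB * b⁻¹)
    rw [conj_pow] at hj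
    exact Elem2_central tfB hB1 hn hj hi
  have hcenZ : ∀ q : ℤ, hB ^ ((n : ℤ) * q) ∈ Subgroup.center (El h) := by
    intro q
    rw [zpow_mul, zpow_natCast]
    apply Subgroup.zpow_mem
    rw [Subgroup.mem_center_iff]
    exact hcen
  -- finite index
  have hfin : Finite (El h ⧸ Subgroup.center (El h)) := by
    have hF := hA.finite_set y y R
    set T' : Set A := Set.image2 (fun (r : ℕ) (e : A) => h ^ r * e) (Set.Iio n)
      {g : A | Γ.dist y (g • y) ≤ R} with hT'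
    have hT'f : T'.Finite := Set.Finite.image2 _ (Set.finite_Iio n) hF
    have hTf : ((Subtype.val : El h → A) ⁻¹' T').Finite :=
      hT'f.preimage Subtype.val_injective.injOn
    rw [← Set.finite_univ_iff]
    refine (hTf.image (QuotientGroup.mk : El h → El h ⧸ Subgroup.center (El h))).subset ?_
    intro x _
    obtain ⟨b, rfl⟩ := QuotientGroup.mk_surjective x
    obtain ⟨m, hm⟩ := hR b.1 b.2
    set q : ℤ := m / n with hq
    set r : ℕ := (m % n).toNat with hr
    have hn' : (0 : ℤ) < n := by exact_mod_cast hn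
    have hr0 : 0 ≤ m % n := Int.emod_nonneg m hn'.ne'
    have hrn : m % n < n := Int.emod_lt_of_pos m hn'
    have hrr : (r : ℤ) = m % n := Int.toNat_of_nonneg hr0
    have hmq : m = n * q + r := by
      rw [hrr, hq]; exact (Int.mul_ediv_add_emod m n).symm
    refine ⟨hB ^ (-((n : ℤ) * q)) * b, ?_, ?_⟩
    · rw [Set.mem_preimage, hT', Set.mem_image2]
      refine ⟨r, by rw [Set.mem_Iio]; omega, h ^ (-m) * b.1, ?_, ?_⟩
      · change Γ.dist y ((h ^ (-m) * b.1) • y) ≤ R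
        rw [← dist_smul hA.act (h ^ m), smul_smul, SimpleGraph.dist_comm]
        have : h ^ m * (h ^ (-m) * b.1) = b.1 := by group
        rw [this]
        exact hm
      · push_cast
        rw [← mul_assoc]
        congr 1
        change h ^ r * h ^ (-m) = h ^ (-((n : ℤ) * q))
        rw [← zpow_natCast, ← zpow_add]
        congr 1
        omega
    · rw [QuotientGroup.eq]
      have : (hB ^ (-((n : ℤ) * q)) * b)⁻¹ * b = hB ^ ((n : ℤ) * q) := by
        have h2 := Subgroup.mem_center_iff.mp (hcenZ q) b⁻¹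
        calc (hB ^ (-((n : ℤ) * q)) * b)⁻¹ * b = b⁻¹ * hB ^ ((n : ℤ) * q) * b := by group
          _ = hB ^ ((n : ℤ) * q) := by rw [h2]; group
      rw [this]
      exact hcenZ q
  have : (Subgroup.center (El h)).FiniteIndex := Subgroup.finiteIndex_of_finite_quotient
  have := Elem2_schur tfB ⟨g, hg⟩ ⟨g', hg'⟩
  simpa using congrArg Subtype.val this

theorem El_cyclic (hA : Act A V Γ δ) {h : A} (h1 : h ≠ 1) : IsCyclic (El h) := by
  obtain ⟨n, hn, hpow⟩ := El_pow hA h1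
  let f : El h →* Subgroup.zpowers h :=
    { toFun := fun g => ⟨g.1 ^ n, by
        obtain ⟨j, hj⟩ := hpow g.1 g.2
        rw [hj]
        exact Subgroup.zpow_mem _ (Subgroup.mem_zpowers h) j⟩
      map_one' := Subtype.ext (one_pow n)
      map_mul' := fun g g' => Subtype.ext (by
        have hc : Commute g.1 g'.1 := El_comm hA h1 g.2 g'.2
        exact hc.mul_pow n) }
  have hf : Function.Injective f := by
    rw [injective_iff_map_eq_one]
    intro g hg
    apply Subtype.ext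
    apply hA.tf g.1 n hn
    exact congrArg Subtype.val hg
  exact isCyclic_of_injective f hf

theorem Elem2_pow_ne (hA : Act A V Γ δ) {h : A} {x : A} (hx1 : x ≠ 1) {n : ℕ}
    (hn : 0 < n) {j : ℤ} (hj : x ^ n = h ^ j) : j ≠ 0 := by
  rintro rfl
  rw [zpow_zero] at hj
  exact hx1 (hA.tf x n hn hj)

theorem El_conj (hA : Act A V Γ δ) {h : A} (h1 : h ≠ 1) {x u : A} (hx : x ∈ El h) (hx1 : x ≠ 1)
    (hu : u⁻¹ * x * u ∈ El h) : u ∈ El h := by
  obtain ⟨n, hn, hpow⟩ := El_pow hA h1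
  obtain ⟨j, hj⟩ := hpow x hx
  obtain ⟨j', hj'⟩ := hpow _ hu
  have hj0 := Elem2_pow_ne hA hx1 hn hj
  have hu1 : u⁻¹ * x * u ≠ 1 := by
    intro h2
    apply hx1
    have : x = u * (u⁻¹ * x * u) * u⁻¹ := by group
    rw [this, h2]; group
  have hj0' := Elem2_pow_ne hA hu1 hn hj'
  rw [← inv_mem_iff]
  refine ⟨j, j', hj0, hj0', ?_⟩
  rw [← hj, ← hj']
  have : u⁻¹ * x * u = u⁻¹ * x * u⁻¹⁻¹ := by rw [inv_inv]
  rw [this, conj_pow]

theorem El_eq (hA : Act A V Γ δ) {h x : A} (h1 : h ≠ 1) (hx : x ∈ El h) (hx1 : x ≠ 1) :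
    El x = El h := by
  obtain ⟨n, hn, hpow⟩ := El_pow hA h1
  obtain ⟨j, hj⟩ := hpow x hx
  have hj0 := Elem2_pow_ne hA hx1 hn hj
  have hn0 : (n : ℤ) ≠ 0 := by exact_mod_cast hn.ne'
  have hxj : ∀ p : ℤ, x ^ ((n : ℤ) * p) = h ^ (j * p) := by
    intro p
    rw [zpow_mul, zpow_natCast, hj, zpow_mul]
  ext g
  constructor
  · rintro ⟨p, q, hp, hq, hg⟩
    refine ⟨j * p, j * q, mul_ne_zero hj0 hp, mul_ne_zero hj0 hq, ?_⟩
    rw [← hxj, ← hxj, mul_comm (n : ℤ) p, mul_comm (n : ℤ) q, zpow_mul, ← conj_zpow, hg, zpow_mul]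
  · rintro ⟨p, q, hp, hq, hg⟩
    refine ⟨n * p, n * q, mul_ne_zero hn0 hp, mul_ne_zero hn0 hq, ?_⟩
    rw [hxj, hxj, mul_comm j p, mul_comm j q, zpow_mul, ← conj_zpow, hg, zpow_mul]

/-- in a torsion free hyperbolic group commuting elements generate cyclic groups -/
theorem comm_cyclic (hA : Act A V Γ δ) (S : Set A) (hS : ∀ a ∈ S, ∀ b ∈ S, a * b = b * a) :
    ∃ z : A, Subgroup.closure S = Subgroup.zpowers z := by
  by_cases h : ∃ h ∈ S, h ≠ 1
  · obtain ⟨h, hhS, h1⟩ := h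
    have hle : Subgroup.closure S ≤ El h := by
      rw [Subgroup.closure_le]
      intro s hs
      refine ⟨1, 1, one_ne_zero, one_ne_zero, ?_⟩
      rw [zpow_one, hS s hs h hhS]; group
    have hc := El_cyclic hA h1
    have hc' : IsCyclic (Subgroup.closure S) :=
      isCyclic_of_injective (Subgroup.inclusion hle) (Subgroup.inclusion_injective hle)
    obtain ⟨z, hz⟩ := (Subgroup.isCyclic_iff_exists_zpowers_eq_top _).mp hc'
    exact ⟨z, hz.symm⟩
  · push Not at h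
    refine ⟨1, ?_⟩
    rw [Subgroup.zpowers_one_eq_bot, Subgroup.closure_eq_bot_iff]
    intro s hs
    exact h s hs

/-- a nonabelian torsion free hyperbolic group is not a finite union of elementary subgroups -/
theorem exists_avoid (hA : Act A V Γ δ) {a b : A} (hab : a * b ≠ b * a) (F : Set A)
    (hF : F.Finite) (h1 : 1 ∉ F) : ∃ h : A, h ≠ 1 ∧ ∀ f ∈ F, f ∉ El h := by
  rcases F.eq_empty_or_nonempty with hF0 | ⟨f0, hf0⟩
  · refine ⟨a, ?_, ?_⟩
    · rintro rfl
      exact hab (by simp)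
    · rw [hF0]; simp
  · by_cases hcov : ∃ h : A, ∀ f ∈ F, h ∉ El f
    · obtain ⟨h, hh⟩ := hcov
      have hh1 : h ≠ 1 := by
        rintro rfl
        exact hh f0 hf0 (one_mem _)
      refine ⟨h, hh1, fun f hf hfh => ?_⟩
      have hf1 : f ≠ 1 := fun h2 => h1 (h2 ▸ hf)
      have := El_eq hA hh1 hfh hf1
      exact hh f hf (this ▸ self_mem_El h)
    · exfalso
      push Not at hcov
      have hc : ⋃ f ∈ hF.toFinset, (fun _ : A => (1 : A)) f • ((El f : Subgroup A) : Set A)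
          = Set.univ := by
        apply Set.eq_univ_of_forall
        intro x
        obtain ⟨f, hf, hx⟩ := hcov x
        simp only [Set.mem_iUnion]
        refine ⟨f, hF.mem_toFinset.mpr hf, ?_⟩
        simpa using hx
      obtain ⟨f, hf, hfi⟩ := Subgroup.exists_finiteIndex_of_leftCoset_cover
        (H := fun f : A => El f) hc
      have hfF : f ∈ F := hF.mem_toFinset.mp hf
      have hf1 : f ≠ 1 := fun h2 => h1 (h2 ▸ hfF)
      have hall : ∀ u : A, u ∈ El f := by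
        intro u
        obtain ⟨k, hk, -, hmem⟩ := Subgroup.exists_pow_mem_of_index_ne_zero hfi.index_ne_zero
          (u⁻¹ * f * u)
        have e1 : (u⁻¹ * f * u) ^ k = u⁻¹ * f ^ k * u := by
          have : u⁻¹ * f * u = u⁻¹ * f * u⁻¹⁻¹ := by rw [inv_inv]
          rw [this, conj_pow, inv_inv]
        rw [e1] at hmem
        refine El_conj hA hf1 (Subgroup.pow_mem _ (self_mem_El f) k) ?_ hmem
        intro h2
        exact hf1 (hA.tf f k hk h2)
      exact hab (El_comm hA hf1 (hall a) (hall b))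

end Pool.Agent.Lib.MP_7e344a_al
end

section

/-!
# MP_7e344a_al: M03, overlaps of lines
-/

set_option autoImplicit false

namespace Pool.Agent.Lib.MP_7e344a_al

variable {A V : Type} [Group A] [MulAction A V] {Γ : SimpleGraph V} {δ : ℕ}

theorem MLine_dist (hA : Act A V Γ δ) (h g : A) (y : V) (a b : ℤ) :
    Γ.dist ((g * h ^ a) • y) ((g * h ^ b) • y) = Γ.dist (h ^ a • y) (h ^ b • y) := by
  rw [mul_smul, mul_smul, dist_smul hA.act]

/-- a point between `g z_a'` and `g z_b'` is near the line -/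
theorem MLine_near (hA : Act A V Γ δ) {κ : ℕ} (hF : FP Γ κ) {h : A} {y : V} {C l : ℕ}
    (hL : Lox Γ h y C l) {E : ℕ} (g : A) (a' b' : ℤ) {v : V}
    (hv : Γ.dist ((g * h ^ a') • y) v + Γ.dist v ((g * h ^ b') • y) ≤
      Γ.dist ((g * h ^ a') • y) ((g * h ^ b') • y) + E) :
    ∃ i' : ℤ, Γ.dist v ((g * h ^ i') • y) ≤ C + E + Γ.dist y (h • y) + κ := by
  have hadd : ∀ a b : ℤ, AddOn Γ (fun i : ℤ => (g * h ^ i) • y) a b C := by
    intro a b i j k _ hij hjk _
    have := hL.add i j k hij hjk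
    simp only [MLine_dist hA]
    exact this
  have hstep : ∀ a b : ℤ, StepOn Γ (fun i : ℤ => (g * h ^ i) • y) a b (Γ.dist y (h • y)) := by
    intro a b i h1 h2
    have := hA.stepOn h y a b i h1 h2
    simp only [MLine_dist hA]
    exact this
  rcases le_total a' b' with hab | hab
  · obtain ⟨i, _, _, hi⟩ := AddOn.near hA.conn hF (hadd a' b') (hstep a' b') hab hv
    exact ⟨i, hi⟩
  · have hv' : Γ.dist ((g * h ^ b') • y) v + Γ.dist v ((g * h ^ a') • y) ≤
      Γ.dist ((g * h ^ b') • y) ((g * h ^ a') • y) + E := by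
      rw [SimpleGraph.dist_comm (u := (g * h ^ b') • y) (v := v),
        SimpleGraph.dist_comm (u := v) (v := (g * h ^ a') • y),
        SimpleGraph.dist_comm (u := (g * h ^ b') • y) (v := (g * h ^ a') • y)]
      omega
    obtain ⟨i, _, _, hi⟩ := AddOn.near hA.conn hF (hadd b' a') (hstep b' a') hab hv'
    exact ⟨i, hi⟩

theorem MLine_ordered (hA : Act A V Γ δ) {h : A} {y : V} {C l : ℕ} (hL : Lox Γ h y C l) (E : ℕ) :
    ∃ B : ℕ, ∀ (g : A) (a b a' b' : ℤ), Γ.dist (h ^ a • y) ((g * h ^ a') • y) ≤ E →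
      Γ.dist (h ^ b • y) ((g * h ^ b') • y) ≤ E → a ≤ b → B ≤ (b - a).natAbs → g ∈ El h := by
  classical
  have hF := fp_of_slim hA.conn hA.slim
  obtain ⟨κ, hκ⟩ : ∃ κ, κ = 6 * δ + 2 := ⟨_, rfl⟩
  rw [← hκ] at hF
  obtain ⟨D1, hD1⟩ : ∃ D1, D1 = C + (C + 4 * E) + Γ.dist y (h • y) + κ := ⟨_, rfl⟩
  have hfin := hA.finite_set y y D1
  refine ⟨hfin.toFinset.card + 1, ?_⟩
  intro g a b a' b' h1 h2 hab hB
  have hnear : ∀ i : ℤ, a ≤ i → i ≤ b → ∃ i' : ℤ, Γ.dist (h ^ i • y) ((g * h ^ i') • y) ≤ D1 := by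
    intro i hi hi'
    rw [hD1]
    apply MLine_near hA hF hL g a' b'
    have h3 := hL.add a i b hi hi'
    have t1 : Γ.dist ((g * h ^ a') • y) (h ^ i • y) ≤ Γ.dist ((g * h ^ a') • y) (h ^ a • y) +
      Γ.dist (h ^ a • y) (h ^ i • y) := hA.conn.dist_triangle
    have t2 : Γ.dist (h ^ i • y) ((g * h ^ b') • y) ≤ Γ.dist (h ^ i • y) (h ^ b • y) +
      Γ.dist (h ^ b • y) ((g * h ^ b') • y) := hA.conn.dist_triangle
    have t3 : Γ.dist (h ^ a • y) (h ^ b • y) ≤ Γ.dist (h ^ a • y) ((g * h ^ a') • y) +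
      Γ.dist ((g * h ^ a') • y) (h ^ b • y) := hA.conn.dist_triangle
    have t4 : Γ.dist ((g * h ^ a') • y) (h ^ b • y) ≤
      Γ.dist ((g * h ^ a') • y) ((g * h ^ b') • y) +
      Γ.dist ((g * h ^ b') • y) (h ^ b • y) := hA.conn.dist_triangle
    rw [SimpleGraph.dist_comm (u := (g * h ^ a') • y) (v := h ^ a • y)] at t1
    rw [SimpleGraph.dist_comm (u := (g * h ^ b') • y) (v := h ^ b • y)] at t4
    omega
  choose! i' hi' using hnear
  -- the elements `e i`
  have he : ∀ i : ℤ, a ≤ i → i ≤ b → h ^ (-i) * g * h ^ (i' i) ∈ hfin.toFinset := by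
    intro i h3 h4
    rw [hfin.mem_toFinset]
    change Γ.dist y ((h ^ (-i) * g * h ^ (i' i)) • y) ≤ D1
    have h5 := hi' i h3 h4
    rw [← dist_smul hA.act (h ^ (-i)), smul_smul, smul_smul, ← zpow_add, neg_add_cancel, zpow_zero,
      one_smul, ← mul_assoc] at h5
    exact h5
  -- pigeonhole
  have hcard : hfin.toFinset.card < (Finset.range (hfin.toFinset.card + 1)).card := by simp
  obtain ⟨u, hu, w, hw, huw, heq⟩ := Finset.exists_ne_map_eq_of_card_lt_of_maps_to hcard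
    (f := fun k : ℕ => h ^ (-(a + k)) * g * h ^ (i' (a + k))) (by
      intro k hk
      have hk' : k < hfin.toFinset.card + 1 := by simpa using hk
      exact he (a + k) (by omega) (by omega))
  have h1' : h ≠ 1 := hL.ne_one hA
  have hpow : ∀ m : ℤ, m ≠ 0 → h ^ m ≠ 1 := by
    intro m hm hm'
    apply h1'
    rcases Int.natAbs_eq m with h3 | h3
    · rw [h3, zpow_natCast] at hm'
      exact hA.tf h m.natAbs (by omega) hm'
    · rw [h3, zpow_neg, zpow_natCast, inv_eq_one] at hm'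
      exact hA.tf h m.natAbs (by omega) hm'
  have hkey : g * h ^ (i' (a + w) - i' (a + u)) * g⁻¹ = h ^ ((w : ℤ) - u) := by
    have heq' : h ^ (-(a + (u : ℤ))) * g * h ^ (i' (a + u)) =
      h ^ (-(a + (w : ℤ))) * g * h ^ (i' (a + w)) := heq
    have h3 : g * h ^ (i' (a + w)) = h ^ ((w : ℤ) - u) * g * h ^ (i' (a + u)) := by
      have h4 : h ^ (a + (w : ℤ)) * (h ^ (-(a + (u : ℤ))) * g * h ^ (i' (a + u))) =
          h ^ (a + (w : ℤ)) * (h ^ (-(a + (w : ℤ))) * g * h ^ (i' (a + w))) := by rw [heq']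
      rw [← mul_assoc, ← mul_assoc, ← mul_assoc, ← mul_assoc, ← zpow_add, ← zpow_add,
        add_neg_cancel, zpow_zero, one_mul] at h4
      rw [← h4]
      congr 3
      ring
    rw [zpow_sub, ← mul_assoc, h3]
    group
  refine ⟨i' (a + w) - i' (a + u), (w : ℤ) - u, ?_, ?_, hkey⟩
  · intro h0
    rw [h0, zpow_zero, mul_one, mul_inv_cancel] at hkey
    exact hpow _ (by omega) hkey.symm
  · omega

/-- long overlaps of the orbits of `⟨h⟩` and `g⟨h⟩` -/
theorem overlap_line (hA : Act A V Γ δ) {h : A} {y : V} {C l : ℕ} (hL : Lox Γ h y C l) (E : ℕ) :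
    ∃ B : ℕ, ∀ (g : A) (a b a' b' : ℤ), Γ.dist (h ^ a • y) ((g * h ^ a') • y) ≤ E →
      Γ.dist (h ^ b • y) ((g * h ^ b') • y) ≤ E → B ≤ (b - a).natAbs → g ∈ El h := by
  obtain ⟨B, hB⟩ := MLine_ordered hA hL E
  refine ⟨B, ?_⟩
  intro g a b a' b' h1 h2 h3
  rcases le_total a b with hab | hab
  · exact hB g a b a' b' h1 h2 hab h3
  · exact hB g b a b' a' h2 h1 hab (by omega)

end Pool.Agent.Lib.MP_7e344a_al
end

section

/-!
# MP_7e344a_al: M03b, Gromov products
-/

set_option autoImplicit false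

namespace Pool.Agent.Lib.MP_7e344a_al

variable {A V : Type} [Group A] [MulAction A V] {Γ : SimpleGraph V} {δ : ℕ}

/-- intermediate value theorem on an interval with the end `0` -/
theorem gromov_ivt (hc : Γ.Connected) {z : ℤ → V} {S T : ℕ} (h : ∀ a b, StepOn Γ z a b S) (m : ℤ)
    (hT : T ≤ Γ.dist (z 0) (z m)) :
    ∃ i, ((0 ≤ i ∧ i ≤ m) ∨ (m ≤ i ∧ i ≤ 0)) ∧ T ≤ Γ.dist (z 0) (z i) ∧
      Γ.dist (z 0) (z i) ≤ T + S := by
  rcases le_total 0 m with hm | hm
  · obtain ⟨i, h1, h2, h3, h4⟩ := StepOn.ivt hc (h 0 m) hm hT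
    exact ⟨i, Or.inl ⟨h1, h2⟩, h3, h4⟩
  · have h1 := (h m 0).neg
    rw [neg_zero] at h1
    obtain ⟨i, h2, h3, h4, h5⟩ := StepOn.ivt (T := T) hc h1 (by omega) (by
      simp only [neg_zero, neg_neg]
      exact hT)
    simp only [neg_zero] at h4 h5
    exact ⟨-i, Or.inr ⟨by omega, by omega⟩, h4, h5⟩

/-- points coarsely between `z 0` and `z n` are near the sequence -/
theorem gromov_near (hc : Γ.Connected) {κ : ℕ} (hF : FP Γ κ) {z : ℤ → V} {C S E : ℕ}
    (h : ∀ a b, AddOn Γ z a b C) (hS : ∀ a b, StepOn Γ z a b S) (n : ℤ) {v : V}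
    (hv : Γ.dist (z 0) v + Γ.dist v (z n) ≤ Γ.dist (z 0) (z n) + E) :
    ∃ i, Γ.dist v (z i) ≤ C + E + S + κ := by
  rcases le_total 0 n with hn | hn
  · obtain ⟨i, h1, h2, h3⟩ := AddOn.near hc hF (h 0 n) (hS 0 n) hn hv
    exact ⟨i, h3⟩
  · have h1 := (h n 0).neg
    have h2 := (hS n 0).neg
    rw [neg_zero] at h1 h2
    obtain ⟨i, h3, h4, h5⟩ := AddOn.near (v := v) (E := E) hc hF h1 h2 (by omega) (by
      simp only [neg_zero, neg_neg]
      exact hv)
    exact ⟨-i, h5⟩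

/-- the Gromov product of the directions `⟨h⟩ y` and `u ⟨h⟩ y` is bounded if `u` is not in the
elementary closure of `h` -/
theorem gp_bounded (hA : Act A V Γ δ) {h : A} {y : V} {C l : ℕ} (hL : Lox Γ h y C l) {u : A}
    (hu : u ∉ El h) : ∃ Cu : ℕ, ∀ m n : ℤ,
      Γ.dist y (h ^ m • y) + Γ.dist y ((u * h ^ n) • y) ≤
        Γ.dist (h ^ m • y) ((u * h ^ n) • y) + Cu := by
  have hc := hA.conn
  have hF := fp_of_slim hc hA.slim
  set κ := 6 * δ + 2 with hκ
  set S := Γ.dist y (h • y) with hS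
  set Du := Γ.dist y (u • y) with hDu
  set E := 2 * Du + C + 2 * S + κ with hE
  obtain ⟨B, hB⟩ := overlap_line hA hL (max Du (C + E + S + κ))
  refine ⟨2 * (B * S) + 1, fun m n => ?_⟩
  by_contra hcon
  push Not at hcon
  set z : ℤ → V := fun i => h ^ i • y with hz
  set w : ℤ → V := fun i => (u * h ^ i) • y with hw
  have hz0 : z 0 = y := by simp [hz]
  have hw0 : w 0 = u • y := by simp [hw]
  have hww : ∀ i j, Γ.dist (w i) (w j) = Γ.dist (z i) (z j) := by
    intro i j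
    simp only [hw, hz, mul_smul]
    exact dist_smul hA.act u _ _
  have haz : ∀ a b, AddOn Γ z a b C := fun a b => hL.addOn a b
  have hsz : ∀ a b, StepOn Γ z a b S := fun a b => Act.stepOn hA h y a b
  have haw : ∀ a b, AddOn Γ w a b C := by
    intro a b i j k hi hij hjk hk
    rw [hww, hww, hww]
    exact haz a b i j k hi hij hjk hk
  have hsw : ∀ a b, StepOn Γ w a b S := by
    intro a b i hi hi'
    rw [hww]
    exact hsz a b i hi hi'
  have hcon' : Γ.dist (z m) (w n) + (2 * (B * S) + 1) < Γ.dist y (z m) + Γ.dist y (w n) := hcon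
  set T := (Γ.dist y (z m) + Γ.dist y (w n) - Γ.dist (z m) (w n)) / 2 with hT
  have t1 : Γ.dist y (w n) ≤ Γ.dist y (z m) + Γ.dist (z m) (w n) := hc.dist_triangle
  have hTle : T ≤ Γ.dist (z 0) (z m) := by
    rw [hz0]
    omega
  obtain ⟨i, hi, hi1, hi2⟩ := gromov_ivt hc hsz m hTle
  rw [hz0] at hi1 hi2
  -- additivity at `i`
  have h3 : Γ.dist y (z i) + Γ.dist (z i) (z m) ≤ Γ.dist y (z m) + C := by
    rcases hi with ⟨h1, h2⟩ | ⟨h1, h2⟩
    · have := haz 0 m 0 i m le_rfl h1 h2 le_rfl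
      rw [hz0] at this
      exact this
    · have := haz m 0 m i 0 le_rfl h1 h2 le_rfl
      rw [hz0] at this
      rw [SimpleGraph.dist_comm (u := y) (v := z i), SimpleGraph.dist_comm (u := z i) (v := z m),
        SimpleGraph.dist_comm (u := y) (v := z m)]
      omega
  have h4 := hF (z i) (w n) y (z m)
  rw [SimpleGraph.dist_comm (u := z i) (v := y), SimpleGraph.dist_comm (u := w n) (v := z m),
    SimpleGraph.dist_comm (u := w n) (v := y)] at h4
  have h5 : Γ.dist y (z i) + Γ.dist (z i) (w n) ≤ Γ.dist y (w n) + (C + 2 * S + κ) := by omega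
  have t2 : Γ.dist (w 0) (z i) ≤ Γ.dist (w 0) y + Γ.dist y (z i) := hc.dist_triangle
  have t3 : Γ.dist y (w n) ≤ Γ.dist y (w 0) + Γ.dist (w 0) (w n) := hc.dist_triangle
  have e1 : Γ.dist (w 0) y = Du := by rw [hw0, SimpleGraph.dist_comm]
  have e2 : Γ.dist y (w 0) = Du := by rw [hw0]
  have h6 : Γ.dist (w 0) (z i) + Γ.dist (z i) (w n) ≤ Γ.dist (w 0) (w n) + E := by
    rw [e1] at t2
    rw [e2] at t3
    omega
  obtain ⟨i', hi'⟩ := gromov_near hc hF haw hsw n h6
  have h7 : ¬ B ≤ i.natAbs := by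
    intro h8
    apply hu
    apply hB u 0 i 0 i'
    · show Γ.dist (z 0) (w 0) ≤ _
      rw [hz0, e2]
      exact le_max_left _ _
    · exact hi'.trans (le_max_right _ _)
    · rw [sub_zero]
      exact h8
  have h8 : Γ.dist y (z i) ≤ i.natAbs * S := Act.dist_zpow_le hA h y i
  have h9 : i.natAbs * S ≤ B * S := Nat.mul_le_mul_right _ (by omega)
  omega

end Pool.Agent.Lib.MP_7e344a_al
end

section

/-!
# MP_7e344a_al: M05, paths of relators: additivity
-/

set_option autoImplicit false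

namespace Pool.Agent.Lib.MP_7e344a_al

variable {A V : Type} [Group A] [MulAction A V] {Γ : SimpleGraph V} {δ : ℕ}

/-- a uniform bound over a finite set -/
theorem rel_exists_bound {U : Set A} (hU : U.Finite) (p : A → ℕ → Prop)
    (hmono : ∀ u m n, m ≤ n → p u m → p u n) (h : ∀ u ∈ U, ∃ n, p u n) :
    ∃ N, ∀ u ∈ U, p u N := by
  classical
  choose! f hf using h
  obtain ⟨N, hN⟩ := (hU.image f).bddAbove
  exact ⟨N, fun u hu => hmono u _ _ (hN ⟨u, hu, rfl⟩) (hf u hu)⟩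

/-- The break points of a path of a relator form an additive sequence. -/
theorem rel_break (hA : Act A V Γ δ) {h : A} {y : V} {C l : ℕ} (hL : Lox Γ h y C l) {U : Set A}
    (hU : U.Finite) (hUE : ∀ u ∈ U, u ∉ El h) :
    ∃ C₂ M₀ : ℕ, ∀ (P : ℤ → A) (α : ℤ → ℕ) (υ : ℤ → A), RelSeq h P α υ → (∀ i, υ i ∈ U) →
      (∀ i, M₀ ≤ α i) → ∀ a b : ℤ, AddOn Γ (fun i => P i • y) a b C₂ := by
  classical
  have hF := fp_of_slim hA.conn hA.slim
  obtain ⟨DU, hDU⟩ := rel_exists_bound hU (fun u n => Γ.dist y (u • y) ≤ n)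
    (fun u m n hmn hm => hm.trans hmn) (fun u _ => ⟨_, le_rfl⟩)
  obtain ⟨Cu, hCu⟩ := rel_exists_bound hU (fun u n => ∀ m k : ℤ,
      Γ.dist y (h ^ m • y) + Γ.dist y ((u⁻¹ * h ^ k) • y) ≤
        Γ.dist (h ^ m • y) ((u⁻¹ * h ^ k) • y) + n)
    (fun u m n hmn hm i k => (hm i k).trans (by omega))
    (fun u hu => gp_bounded hA hL (fun hu' => hUE u hu (by simpa using inv_mem hu')))
  refine ⟨Cu + 2 * DU + 2 * (6 * δ + 2), l * (Cu + 2 * DU + 2 * (6 * δ + 2) + 1 + DU + 1) + 1, ?_⟩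
  intro P α υ hP hυ hα a b
  -- the step
  have hstep : ∀ i, Γ.dist y (h ^ (α i) • y) ≤ Γ.dist (P i • y) (P (i + 1) • y) + DU ∧
      Γ.dist (P i • y) (P (i + 1) • y) ≤ Γ.dist y (h ^ (α i) • y) + DU := by
    intro i
    have e1 : Γ.dist (P i • y) (P (i + 1) • y) = Γ.dist y ((h ^ (α i) * υ i) • y) := by
      rw [hP.step i, mul_assoc, mul_smul, dist_smul hA.act]
    have e2 : Γ.dist (h ^ (α i) • y) ((h ^ (α i) * υ i) • y) ≤ DU := by
      rw [mul_smul, dist_smul hA.act]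
      exact hDU _ (hυ i)
    have t1 := hA.conn.dist_triangle (u := y) (v := (h ^ (α i) * υ i) • y) (w := h ^ (α i) • y)
    have t2 := hA.conn.dist_triangle (u := y) (v := h ^ (α i) • y) (w := (h ^ (α i) * υ i) • y)
    rw [SimpleGraph.dist_comm (u := (h ^ (α i) * υ i) • y) (v := h ^ (α i) • y)] at t1
    rw [e1]
    constructor <;> omega
  apply AddOn.of_local hA.conn hF
  · intro i _ _
    have hi : P i = P (i - 1) * h ^ (α (i - 1)) * υ (i - 1) := by
      have := hP.step (i - 1)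
      rwa [sub_add_cancel] at this
    have hprev : P (i - 1) = P i * ((υ (i - 1))⁻¹ * h ^ (-(α (i - 1) : ℤ))) := by
      rw [hi, zpow_neg, zpow_natCast]
      group
    have hg := hCu _ (hυ (i - 1)) (α i) (-(α (i - 1) : ℤ))
    rw [zpow_natCast] at hg
    set w := ((υ (i - 1))⁻¹ * h ^ (-(α (i - 1) : ℤ))) • y with hw
    have e0 : P (i - 1) • y = P i • w := by
      conv_lhs => rw [hprev]
      rw [mul_smul]
    have e1 : Γ.dist (P (i - 1) • y) (P i • y) = Γ.dist y w := by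
      rw [e0, dist_smul hA.act, SimpleGraph.dist_comm]
    have e2 : P (i + 1) • y = P i • ((h ^ (α i) * υ i) • y) := by
      rw [hP.step i, mul_assoc, mul_smul]
    have e3 : Γ.dist (P (i - 1) • y) (P (i + 1) • y) = Γ.dist w ((h ^ (α i) * υ i) • y) := by
      rw [e0, e2, dist_smul hA.act]
    have e4 : Γ.dist (h ^ (α i) • y) ((h ^ (α i) * υ i) • y) ≤ DU := by
      rw [mul_smul, dist_smul hA.act]
      exact hDU _ (hυ i)
    have t1 := hA.conn.dist_triangle (u := h ^ (α i) • y) (v := (h ^ (α i) * υ i) • y) (w := w)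
    rw [SimpleGraph.dist_comm (u := (h ^ (α i) * υ i) • y) (v := w)] at t1
    have t2 := (hstep i).2
    rw [e1, e3]
    omega
  · intro i _ _
    have h1 := (hstep i).1
    have h2 := hL.grow (α i)
    have h3 := hα i
    by_contra hcon
    push Not at hcon
    have h4 : Γ.dist y (h ^ (α i) • y) + 1 ≤ Cu + 2 * DU + 2 * (6 * δ + 2) + 1 + DU + 1 := by
      omega
    have h5 := Nat.mul_le_mul_left l h4
    omega

end Pool.Agent.Lib.MP_7e344a_al
end
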