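import Pool.Agent.Lib.MP_7e344a_al.Mg.G004
import Pool.Agent.Lib.MP_7e344a_al.M_Words
import Pool.Agent.Lib.MP_7e344a_al.Mg.G002
import Pool.Agent.Lib.MP_7e344a_al.Mg.G006

section

/-!
# MP_7e344a_al: G11, the step
-/

set_option autoImplicit false

namespace Pool.Agent.Lib.MP_7e344a_al

variable {G : Type} [Group G]

/-- the elements of `⟨A, x⟩` are values of words -/
theorem sA_word {G' : Type} [Group G'] (ι : G →* G') (x : G') (A : Subgroup G) {c : G'}
    (hc : c ∈ sA ι x A) : ∃ f : Monoid.Coprod A (Multiplicative ℤ),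
      Monoid.Coprod.lift (ι.comp A.subtype) (zpowersHom G' x) f = c := by
  have h : sA ι x A ≤ (Monoid.Coprod.lift (ι.comp A.subtype) (zpowersHom G' x)).range := by
    unfold sA
    rw [Subgroup.closure_le]
    rintro z (⟨a, ha, rfl⟩ | hz)
    · exact ⟨Monoid.Coprod.inl ⟨a, ha⟩, by simp⟩
    · rw [Set.mem_singleton_iff] at hz
      subst hz
      exact ⟨Monoid.Coprod.inr (Multiplicative.ofAdd 1), by simp⟩
  obtain ⟨f, hf⟩ := h hc
  exact ⟨f, hf⟩

/-- retractions evaluate words -/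
theorem retr_word {G' : Type} [Group G'] (ι : G →* G') (x : G') (A : Subgroup G) (t : A)
    (φ : G' →* G) (h1 : ∀ g, φ (ι g) = g) (h2 : φ x = t)
    (f : Monoid.Coprod A (Multiplicative ℤ)) :
    φ (Monoid.Coprod.lift (ι.comp A.subtype) (zpowersHom G' x) f) = (retr t f : A) := by
  have h : φ.comp (Monoid.Coprod.lift (ι.comp A.subtype) (zpowersHom G' x)) =
      A.subtype.comp (retr t) := by
    apply Monoid.Coprod.hom_ext
    · ext a
      simp [retr, h1]
    · ext
      simp [retr, h2]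
  exact DFunLike.congr_fun h f

/-- deep retractions of `⟨A, x⟩` -/
theorem mif_retr {G' : Type} [Group G'] {ι : G →* G'} {x : G'} {γ : G' → G} {St : G' → Prop}
    (hF : FreeExt ι x γ St) {A : Subgroup G} (hA : MIF A) (F : Set G') (hF' : F.Finite)
    (h1 : 1 ∉ F) (hFA : ∀ c ∈ F, c ∈ sA ι x A) : ∃ t ∈ A, ∀ φ : G' →* G, (∀ g, φ (ι g) = g) →
      φ x = t → ∀ c ∈ F, φ c ≠ 1 := by
  classical
  let Ψ := Monoid.Coprod.lift (ι.comp A.subtype) (zpowersHom G' x)
  have hw : ∀ c : G', ∃ f : Monoid.Coprod A (Multiplicative ℤ), c ∈ F → Ψ f = c := by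
    intro c
    by_cases hc : c ∈ F
    · obtain ⟨f, hf⟩ := sA_word ι x A (hFA c hc)
      exact ⟨f, fun _ => hf⟩
    · exact ⟨1, fun h => absurd h hc⟩
  choose w hw using hw
  obtain ⟨t, ht⟩ := hA (hF'.toFinset.image w) (by
    intro h
    obtain ⟨c, hc, hc1⟩ := Finset.mem_image.1 h
    rw [Set.Finite.mem_toFinset] at hc
    have h2 := hw c hc
    rw [hc1, map_one] at h2
    exact h1 (h2 ▸ hc))
  refine ⟨t, t.2, ?_⟩
  intro φ hφ hφx c hc hc1
  refine ht (w c) (Finset.mem_image_of_mem w (hF'.mem_toFinset.2 hc)) ?_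
  have h3 := retr_word ι x A t φ hφ hφx (w c)
  have h4 : Monoid.Coprod.lift (ι.comp A.subtype) (zpowersHom G' x) (w c) = c := hw c hc
  rw [h4, hc1] at h3
  exact Subtype.ext h3.symm

theorem fam_map {G₂ : Type} [Group G₂] (A B C : Subgroup G) (π : G →* G₂) :
    (fun i => (fam A B C i).map π) = fam (A.map π) (B.map π) (C.map π) := by
  funext i
  cases i <;> rfl

theorem sA_mem_of {G' : Type} [Group G'] (ι : G →* G') (x : G') {A : Subgroup G} {a : G}
    (ha : a ∈ A) : ι a ∈ sA ι x A :=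
  Subgroup.subset_closure (Or.inl ⟨a, ha, rfl⟩)

theorem sA_mem_x {G' : Type} [Group G'] (ι : G →* G') (x : G') (A : Subgroup G) :
    x ∈ sA ι x A :=
  Subgroup.subset_closure (Or.inr rfl)

theorem sA_map {G' G₂ : Type} [Group G'] [Group G₂] (ι : G →* G') (x : G') (A : Subgroup G)
    (φ : G' →* G) (hφ : ∀ g, φ (ι g) = g) (hx : φ x ∈ A) (π : G →* G₂) :
    (sA ι x A).map (π.comp φ) = A.map π := by
  apply le_antisymm
  · rw [Subgroup.map_le_iff_le_comap]
    unfold sA
    rw [Subgroup.closure_le]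
    rintro z (⟨a, ha, rfl⟩ | hz)
    · rw [SetLike.mem_coe, Subgroup.mem_comap]
      exact ⟨a, ha, by simp [hφ]⟩
    · rw [Set.mem_singleton_iff] at hz
      subst hz
      rw [SetLike.mem_coe, Subgroup.mem_comap]
      exact ⟨φ z, hx, rfl⟩
  · rintro _ ⟨a, ha, rfl⟩
    exact ⟨ι a, sA_mem_of ι x ha, by simp [hφ]⟩

/-- two homomorphisms agree if they agree on the generators -/
theorem FreeExt.hom_extG {G' K : Type} [Group G'] [Group K] {ι : G →* G'} {x : G'} {γ : G' → G}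
    {St : G' → Prop} (hF : FreeExt ι x γ St) {f f' : G' →* K} (h : ∀ g, f (ι g) = f' (ι g))
    (hx : f x = f' x) : f = f' := by
  have h1 : f.eqLocus f' = ⊤ := hF.gen _ (fun g => h g) hx
  ext z
  have h2 : z ∈ f.eqLocus f' := by rw [h1]; exact Subgroup.mem_top z
  exact h2

theorem step {A B C : Subgroup G} (hG : Good (fam A B C) {Ix.a, Ix.b}) (hA : TF A) (hB : TF B)
    (mA : MIF A) (mB : MIF B) (g : G) : ∃ (M : Subgroup G) (_ : M.Normal),
      (∃ a ∈ A, ∃ b ∈ B, (a * b)⁻¹ * g ∈ M) ∧ (∀ h ∈ A, h ∈ M → h = 1) ∧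
      (∀ h ∈ B, h ∈ M → h = 1) ∧ (∀ h ∈ C, h ∈ M → h = 1) ∧
      ∀ (G₂ : Type) [Group G₂] (π : G →* G₂), Function.Surjective π → π.ker = M →
        Good (fam (A.map π) (B.map π) (C.map π)) {Ix.a, Ix.b} := by
  by_cases hg : ∀ a ∈ A, ∀ b ∈ B, a * b ≠ g
  swap
  · push Not at hg
    obtain ⟨a, ha, b, hb, hab⟩ := hg
    refine ⟨⊥, inferInstance, ⟨a, ha, b, hb, by simp [hab]⟩, fun h _ hh => by simpa using hh,
      fun h _ hh => by simpa using hh, fun h _ hh => by simpa using hh, ?_⟩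
    intro G₂ _ π hπ hker
    obtain ⟨s, hs⟩ := fill hG
    obtain ⟨-, h2⟩ := hs (fun _ => ⊥) (fun i => bot_le) (by
      intro i h hh n hn
      have : n = 1 := by simpa using hn
      subst this
      simp) (by
      intro i n hn hn1
      exact absurd (by simpa using hn) hn1)
    have h3 : Subgroup.normalClosure (⋃ i : Ix, (((⊥ : Subgroup G)) : Set G)) = ⊥ := by
      rw [eq_bot_iff]
      apply Subgroup.normalClosure_le_normal
      intro z hz
      obtain ⟨i, hi⟩ := Set.mem_iUnion.1 hz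
      exact hi
    have h4 := h2 G₂ π hπ (by rw [hker]; exact h3.symm)
    rw [fam_map] at h4
    exact h4
  · obtain ⟨G', _, ι, x, γ, St, hF⟩ := exists_freeExt G
    have hG' := ext_good hF hG hA hB hg
    obtain ⟨s, hs⟩ := fill hG'
    -- the retraction of `⟨A, x⟩`
    obtain ⟨t, htA, ht⟩ := mif_retr hF mA
      ({c : G' | c ∈ famX ι x g A B C Ix.a ∧ AngLE (Inc (famX ι x g A B C))
        (cos (famX ι x g A B C) Ix.a 1) (elt (famX ι x g A B C) 1)
        (elt (famX ι x g A B C) c) s} \ {1})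
      ((hG'.lf Ix.a (by simp) s).subset Set.sdiff_subset) (by simp) (fun c hc => hc.1.1)
    obtain ⟨φA, hφA, hφAx⟩ := hF.lift G (MonoidHom.id G) t
    have hφA' : ∀ g, φA (ι g) = g := fun g => by rw [hφA]; rfl
    -- the retraction of `⟨B, g⁻¹ x⟩`
    obtain ⟨γ', St', hF'⟩ := hF.swap g⁻¹
    obtain ⟨u, huB, hu⟩ := mif_retr hF' mB
      ({c : G' | c ∈ famX ι x g A B C Ix.b ∧ AngLE (Inc (famX ι x g A B C))
        (cos (famX ι x g A B C) Ix.b 1) (elt (famX ι x g A B C) 1)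
        (elt (famX ι x g A B C) c) s} \ {1})
      ((hG'.lf Ix.b (by simp) s).subset Set.sdiff_subset) (by simp)
      (fun c hc => by
        have h := hc.1.1
        rw [← sB_eq]
        exact h)
    obtain ⟨φB, hφB, hφBx⟩ := hF'.lift G (MonoidHom.id G) u
    have hφB' : ∀ g, φB (ι g) = g := fun g => by rw [hφB]; rfl
    -- the rotations
    let N : Ix → Subgroup G' := fam (sA ι x A ⊓ φA.ker) (sB ι x g B ⊓ φB.ker) ⊥
    have hNle : ∀ i, N i ≤ famX ι x g A B C i := by
      intro i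
      cases i
      · exact inf_le_left
      · exact inf_le_left
      · exact bot_le
    obtain ⟨h1, h2⟩ := hs N hNle (by
      intro i h hh n hn
      cases i
      · refine Subgroup.mem_inf.2 ⟨Subgroup.mul_mem _ (Subgroup.mul_mem _ hh hn.1)
          (Subgroup.inv_mem _ hh), ?_⟩
        have : φA n = 1 := hn.2
        change φA (h * n * h⁻¹) = 1
        rw [map_mul, map_mul, this, map_inv]
        simp
      · refine Subgroup.mem_inf.2 ⟨Subgroup.mul_mem _ (Subgroup.mul_mem _ hh hn.1)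
          (Subgroup.inv_mem _ hh), ?_⟩
        have : φB n = 1 := hn.2
        change φB (h * n * h⁻¹) = 1
        rw [map_mul, map_mul, this, map_inv]
        simp
      · have : n = 1 := by simpa [N, fam] using hn
        subst this
        simp [N, fam]) (by
      intro i n hn hn1 hang
      cases i
      · exact ht φA hφA' hφAx n ⟨⟨hn.1, hang⟩, hn1⟩ hn.2
      · exact hu φB hφB' hφBx n ⟨⟨hn.1, hang⟩, hn1⟩ hn.2
      · exact hn1 (by simpa [N, fam] using hn))
    set K : Subgroup G' := Subgroup.normalClosure (⋃ i, (N i : Set G')) with hK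
    have hNK : ∀ i, ∀ n ∈ N i, n ∈ K := fun i n hn =>
      Subgroup.subset_normalClosure (Set.mem_iUnion.2 ⟨i, hn⟩)
    have hKn : K.Normal := Subgroup.normalClosure_normal
    -- `x ≡ t`
    have hxt : x * (ι t)⁻¹ ∈ K := by
      refine hNK Ix.a _ (Subgroup.mem_inf.2 ⟨Subgroup.mul_mem _ (sA_mem_x ι x A)
        (Subgroup.inv_mem _ (sA_mem_of ι x htA)), ?_⟩)
      change φA (x * (ι t)⁻¹) = 1
      rw [map_mul, map_inv, hφAx, hφA', mul_inv_cancel]
    have hxu : ι g⁻¹ * x * (ι u)⁻¹ ∈ K := by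
      refine hNK Ix.b _ (Subgroup.mem_inf.2 ⟨?_, ?_⟩)
      · rw [sB_eq]
        exact Subgroup.mul_mem _ (sA_mem_x ι _ B) (Subgroup.inv_mem _ (sA_mem_of ι _ huB))
      · change φB (ι g⁻¹ * x * (ι u)⁻¹) = 1
        rw [map_mul φB (ι g⁻¹ * x), map_inv φB, hφBx, hφB', mul_inv_cancel]
    have hab : (t * u⁻¹)⁻¹ * g ∈ K.comap ι := by
      rw [Subgroup.mem_comap]
      have e : ι ((t * u⁻¹)⁻¹ * g) = (ι g⁻¹ * x * (ι u)⁻¹)⁻¹ *
          (ι g⁻¹ * (x * (ι t)⁻¹) * (ι g⁻¹)⁻¹) := by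
        simp only [map_mul, map_inv, mul_inv_rev, inv_inv]
        group
      rw [e]
      exact mul_mem (inv_mem hxu) (hKn.conj_mem _ hxt _)
    refine ⟨K.comap ι, inferInstance, ⟨t, htA, u⁻¹, inv_mem huB, hab⟩, ?_, ?_, ?_, ?_⟩
    · intro h hh hM
      have h3 : ι h ∈ N Ix.a := h1 Ix.a (ι h) (sA_mem_of ι x hh) hM
      have h4 : φA (ι h) = 1 := h3.2
      rwa [hφA'] at h4
    · intro h hh hM
      have h3 : ι h ∈ N Ix.b := h1 Ix.b (ι h) (by
        change ι h ∈ sB ι x g B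
        rw [sB_eq]
        exact sA_mem_of ι _ hh) hM
      have h4 : φB (ι h) = 1 := h3.2
      rwa [hφB'] at h4
    · intro h hh hM
      have h3 : ι h ∈ N Ix.c := h1 Ix.c (ι h) ⟨h, hh, rfl⟩ hM
      have h4 : ι h = 1 := by simpa [N, fam] using h3
      exact hF.inj (by rw [h4, map_one])
    · intro G₂ _ π hπ hker
      have hKi : ∀ z, ι z ∈ K ↔ π z = 1 := by
        intro z
        rw [← Subgroup.mem_comap, ← hker, MonoidHom.mem_ker]
      have hAB : π.comp φA = π.comp φB := by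
        apply hF.hom_extG
        · intro z
          simp [hφA', hφB']
        · change π (φA x) = π (φB x)
          have h3 : φB x = g * u := by
            have h4 := hφBx
            rw [map_mul, hφB'] at h4
            rw [← h4]
            group
          rw [hφAx, h3]
          have h5 : π ((t * u⁻¹)⁻¹ * g) = 1 := (hKi _).1 hab
          have h6 : (t * u⁻¹)⁻¹ * g = (u * t⁻¹) * g := by group
          rw [h6, map_mul, map_mul, map_inv] at h5
          rw [map_mul]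
          have h7 : π g * (π u * (π t)⁻¹) = 1 := by
            rw [mul_eq_one_iff_eq_inv] at h5 ⊢
            rw [h5, inv_inv]
          rw [← mul_assoc, mul_inv_eq_one] at h7
          exact h7.symm
      have hmk : (QuotientGroup.mk' K) = ((QuotientGroup.mk' K).comp ι).comp φA := by
        apply hF.hom_extG
        · intro z
          simp [hφA']
        · change QuotientGroup.mk' K x = QuotientGroup.mk' K (ι (φA x))
          rw [hφAx, ← mul_inv_eq_one, ← map_inv, ← map_mul, ← MonoidHom.mem_ker,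
            QuotientGroup.ker_mk']
          exact hxt
      have hkerK : (π.comp φA).ker = K := by
        apply le_antisymm
        · intro z hz
          have h3 : π (φA z) = 1 := hz
          have h4 : ι (φA z) ∈ K := (hKi _).2 h3
          have h5 := DFunLike.congr_fun hmk z
          have h6 : QuotientGroup.mk' K z = 1 := by
            rw [h5]
            change QuotientGroup.mk' K (ι (φA z)) = 1
            rw [← MonoidHom.mem_ker, QuotientGroup.ker_mk']
            exact h4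
          rw [← MonoidHom.mem_ker, QuotientGroup.ker_mk'] at h6
          exact h6
        · apply Subgroup.normalClosure_le_normal
          intro z hz
          obtain ⟨i, hi⟩ := Set.mem_iUnion.1 hz
          cases i
          · have h3 : φA z = 1 := hi.2
            change π (φA z) = 1
            rw [h3, map_one]
          · have h3 : φB z = 1 := hi.2
            rw [hAB]
            change π (φB z) = 1
            rw [h3, map_one]
          · have h3 : z = 1 := by simpa [N, fam] using hi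
            rw [h3]
            exact one_mem _
      have hsurj : Function.Surjective (π.comp φA) := by
        intro y
        obtain ⟨z, rfl⟩ := hπ y
        exact ⟨ι z, by simp [hφA']⟩
      have h3 := h2 G₂ (π.comp φA) hsurj hkerK
      have h4 : (fun i => (famX ι x g A B C i).map (π.comp φA)) =
          fam (A.map π) (B.map π) (C.map π) := by
        rw [fam_map]
        have e1 : (sA ι x A).map (π.comp φA) = A.map π :=
          sA_map ι x A φA hφA' (by rw [hφAx]; exact htA) π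
        have e2 : (sB ι x g B).map (π.comp φA) = B.map π := by
          rw [hAB, sB_eq]
          exact sA_map ι _ B φB hφB' (by rw [hφBx]; exact huB) π
        have e3 : (C.map ι).map (π.comp φA) = C.map π := by
          rw [Subgroup.map_map]
          congr 1
          ext z
          simp [hφA']
        rw [e1, e2, e3]
      rw [h4] at h3
      exact h3

end Pool.Agent.Lib.MP_7e344a_al
end

section

/-!
# MP_7e344a_al: G13, the limit group
-/

set_option autoImplicit false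

namespace Pool.Agent.Lib.MP_7e344a_al

theorem lim_fam_map {G G₂ : Type} [Group G] [Group G₂] (A B C : Subgroup G) (π : G →* G₂) :
    (fun i => (fam A B C i).map π) = fam (A.map π) (B.map π) (C.map π) := by
  funext i
  cases i <;> rfl

/-- A stage of the construction: a normal subgroup `N` of `G₀` that meets the three factors
trivially, such that the quotient is good. -/
structure LimState {A B C G₀ : Type} [Group A] [Group B] [Group C] [Group G₀] (i : A →* G₀)
    (j : B →* G₀) (k : C →* G₀) where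
  N : Subgroup G₀
  normal : N.Normal
  inA : ∀ a, i a ∈ N → a = 1
  inB : ∀ b, j b ∈ N → b = 1
  inC : ∀ c, k c ∈ N → c = 1
  good : ∀ (G₂ : Type) [Group G₂] (π : G₀ →* G₂), Function.Surjective π → π.ker = N →
    Good (fam (i.range.map π) (j.range.map π) (k.range.map π)) {Ix.a, Ix.b}

section

variable {A B C G₀ : Type} [Group A] [Group B] [Group C] [Group G₀] {i : A →* G₀}
    {j : B →* G₀} {k : C →* G₀}

theorem lim_init (hi : Function.Injective i) (hj : Function.Injective j)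
    (hk : Function.Injective k) (hG : Good (fam i.range j.range k.range) {Ix.a, Ix.b}) :
    ∃ σ : LimState i j k, σ.N = ⊥ := by
  obtain ⟨s, hs⟩ := fill hG
  have hcl : Subgroup.normalClosure (⋃ _ : Ix, ((⊥ : Subgroup G₀) : Set G₀)) = ⊥ := by
    rw [eq_bot_iff]
    refine Subgroup.normalClosure_le_normal ?_
    rintro x hx
    obtain ⟨_, hx⟩ := Set.mem_iUnion.1 hx
    exact hx
  obtain ⟨_, h2⟩ := hs (fun _ => ⊥) (fun _ => bot_le) (fun _ h _ n hn => by
      rw [Subgroup.mem_bot] at hn ⊢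
      rw [hn]; group) (fun _ n hn h1 => absurd (Subgroup.mem_bot.1 hn) h1)
  refine ⟨⟨⊥, inferInstance, fun a ha => hi (by rw [Subgroup.mem_bot.1 ha, map_one]),
    fun a ha => hj (by rw [Subgroup.mem_bot.1 ha, map_one]),
    fun a ha => hk (by rw [Subgroup.mem_bot.1 ha, map_one]), ?_⟩, rfl⟩
  intro G₂ _ π hπ hker
  have := h2 G₂ π hπ (by rw [hker]; exact hcl.symm)
  rw [lim_fam_map] at this
  exact this

/-- the image of a factor in a quotient is isomorphic to the factor -/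
theorem lim_iso (N : Subgroup G₀) [N.Normal] (hN : ∀ a, i a ∈ N → a = 1) :
    Nonempty (A ≃* ↥(i.range.map (QuotientGroup.mk' N))) := by
  have hinj : Function.Injective ((QuotientGroup.mk' N).comp i) := by
    rw [injective_iff_map_eq_one]
    intro a ha
    refine hN a ?_
    have : QuotientGroup.mk' N (i a) = 1 := ha
    exact (QuotientGroup.eq_one_iff (i a)).1 this
  have e1 := MonoidHom.ofInjective hinj
  have h2 : ((QuotientGroup.mk' N).comp i).range = i.range.map (QuotientGroup.mk' N) := by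
    rw [MonoidHom.range_eq_map, MonoidHom.range_eq_map, Subgroup.map_map]
  exact ⟨e1.trans (MulEquiv.subgroupCongr h2)⟩

theorem lim_tf (tA : ∀ (a : A) (k : ℕ), 0 < k → a ^ k = 1 → a = 1)
    (N : Subgroup G₀) [N.Normal] (hN : ∀ a, i a ∈ N → a = 1) :
    TF (i.range.map (QuotientGroup.mk' N)) := by
  rintro _ ⟨_, ⟨a, rfl⟩, rfl⟩ m hm h
  have h1 : a ^ m = 1 := by
    apply hN
    have : QuotientGroup.mk' N (i (a ^ m)) = 1 := by
      rw [map_pow, map_pow]; exact h
    exact (QuotientGroup.eq_one_iff (i (a ^ m))).1 this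
  rw [tA a m hm h1, map_one, map_one]

theorem LimState.next (tA : ∀ (a : A) (k : ℕ), 0 < k → a ^ k = 1 → a = 1)
    (tB : ∀ (a : B) (k : ℕ), 0 < k → a ^ k = 1 → a = 1) (mA : MIF A) (mB : MIF B)
    (σ : LimState i j k) (g : G₀) :
    ∃ τ : LimState i j k, σ.N ≤ τ.N ∧ ∃ a b, (i a * j b)⁻¹ * g ∈ τ.N := by
  have hn := σ.normal
  set π₀ := QuotientGroup.mk' σ.N with hπ₀
  have hs0 : Function.Surjective π₀ := QuotientGroup.mk'_surjective σ.N
  have hk0 : π₀.ker = σ.N := QuotientGroup.ker_mk' σ.N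
  obtain ⟨eA⟩ := lim_iso (i := i) σ.N σ.inA
  obtain ⟨eB⟩ := lim_iso (i := j) σ.N σ.inB
  obtain ⟨M, hM, ⟨a, ha, b, hb, hab⟩, h1, h2, h3, h4⟩ := step (σ.good _ π₀ hs0 hk0)
    (lim_tf tA σ.N σ.inA) (lim_tf tB σ.N σ.inB) (MIF.congr eA mA) (MIF.congr eB mB) (π₀ g)
  have hle : σ.N ≤ M.comap π₀ := by
    intro x hx
    have h5 : π₀ x = 1 := (QuotientGroup.eq_one_iff x).2 hx
    rw [Subgroup.mem_comap, h5]
    exact M.one_mem
  have hone : ∀ x, π₀ x = 1 → x ∈ σ.N := fun x hx => (QuotientGroup.eq_one_iff x).1 hx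
  refine ⟨⟨M.comap π₀, inferInstance, ?_, ?_, ?_, ?_⟩, hle, ?_⟩
  · intro a ha
    exact σ.inA a (hone _ (h1 _ ⟨i a, ⟨a, rfl⟩, rfl⟩ ha))
  · intro a ha
    exact σ.inB a (hone _ (h2 _ ⟨j a, ⟨a, rfl⟩, rfl⟩ ha))
  · intro a ha
    exact σ.inC a (hone _ (h3 _ ⟨k a, ⟨a, rfl⟩, rfl⟩ ha))
  · intro G₂ _ π hπ hker
    let π₂ : G₀ ⧸ σ.N →* G₂ := QuotientGroup.lift σ.N π (fun x hx => by
      have : x ∈ π.ker := by rw [hker]; exact hle hx
      exact this)
    have hcomp : π₂.comp π₀ = π := by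
      ext x; rfl
    have hs2 : Function.Surjective π₂ := by
      intro y
      obtain ⟨x, rfl⟩ := hπ y
      exact ⟨π₀ x, rfl⟩
    have hker2 : π₂.ker = M := by
      ext y
      obtain ⟨x, rfl⟩ := hs0 y
      have e1 : π₀ x ∈ π₂.ker ↔ x ∈ π.ker := Iff.rfl
      rw [e1, hker, Subgroup.mem_comap]
    have := h4 G₂ π₂ hs2 hker2
    rw [Subgroup.map_map, Subgroup.map_map, Subgroup.map_map, hcomp] at this
    exact this
  · obtain ⟨_, ⟨a, rfl⟩, rfl⟩ := ha
    obtain ⟨_, ⟨b, rfl⟩, rfl⟩ := hb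
    refine ⟨a, b, ?_⟩
    show π₀ ((i a * j b)⁻¹ * g) ∈ M
    rw [map_mul, map_inv, map_mul]
    exact hab

end

theorem product_group (A B C : Type) [Group A] [Group B] [Group C] [Countable A] [Countable B]
    [Countable C] (tA : ∀ (a : A) (k : ℕ), 0 < k → a ^ k = 1 → a = 1)
    (tB : ∀ (a : B) (k : ℕ), 0 < k → a ^ k = 1 → a = 1) (mA : MIF A) (mB : MIF B) :
    ∃ (G : Type) (_ : Group G) (i : A →* G) (j : B →* G) (k : C →* G),
      Function.Injective i ∧ Function.Injective j ∧ Function.Injective k ∧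
      ∀ g, ∃ a b, i a * j b = g := by
  obtain ⟨G₀, _, i, j, k, hc, hi, hj, hk, hG⟩ := start A B C
  obtain ⟨f, hf⟩ := exists_surjective_nat G₀
  obtain ⟨σ₀, _⟩ := lim_init hi hj hk hG
  choose nx hnx1 hnx2 using fun (σ : LimState i j k) (g : G₀) => LimState.next tA tB mA mB σ g
  let S : ℕ → LimState i j k := fun n => Nat.rec σ₀ (fun n σ => nx σ (f n)) n
  have hS : ∀ n, S (n + 1) = nx (S n) (f n) := fun n => rfl
  have hmono : Monotone fun n => (S n).N := by
    refine monotone_nat_of_le_succ fun n => ?_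
    show (S n).N ≤ (S (n + 1)).N
    rw [hS]
    exact hnx1 _ _
  set N : Subgroup G₀ := ⨆ n, (S n).N with hN
  have hmem : ∀ x, x ∈ N ↔ ∃ n, x ∈ (S n).N := fun x =>
    Subgroup.mem_iSup_of_directed hmono.directed_le
  have hnorm : N.Normal := by
    constructor
    intro x hx g
    obtain ⟨n, hn⟩ := (hmem x).1 hx
    exact (hmem _).2 ⟨n, (S n).normal.conj_mem x hn g⟩
  have hq : ∀ x, QuotientGroup.mk' N x = 1 → ∃ n, x ∈ (S n).N := fun x hx =>
    (hmem x).1 ((QuotientGroup.eq_one_iff x).1 hx)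
  refine ⟨G₀ ⧸ N, inferInstance, (QuotientGroup.mk' N).comp i, (QuotientGroup.mk' N).comp j,
    (QuotientGroup.mk' N).comp k, ?_, ?_, ?_, ?_⟩
  · rw [injective_iff_map_eq_one]
    intro a ha
    obtain ⟨n, hn⟩ := hq _ ha
    exact (S n).inA a hn
  · rw [injective_iff_map_eq_one]
    intro a ha
    obtain ⟨n, hn⟩ := hq _ ha
    exact (S n).inB a hn
  · rw [injective_iff_map_eq_one]
    intro a ha
    obtain ⟨n, hn⟩ := hq _ ha
    exact (S n).inC a hn
  · intro y
    obtain ⟨g, rfl⟩ := QuotientGroup.mk'_surjective N y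
    obtain ⟨n, rfl⟩ := hf g
    obtain ⟨a, b, hab⟩ := hnx2 (S n) (f n)
    refine ⟨a, b, ?_⟩
    have h1 : (i a * j b)⁻¹ * f n ∈ N := (hmem _).2 ⟨n + 1, by rw [hS]; exact hab⟩
    have h2 : QuotientGroup.mk' N (i a * j b) = QuotientGroup.mk' N (f n) :=
      QuotientGroup.eq.2 h1
    rw [← h2, map_mul]
    rfl

end Pool.Agent.Lib.MP_7e344a_al
end

section

/-!
# MP_7e344a_al: M05b, geometry of the paths of relators
-/

set_option autoImplicit false

namespace Pool.Agent.Lib.MP_7e344a_al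

variable {A V : Type} [Group A] [MulAction A V] {Γ : SimpleGraph V} {δ : ℕ}

/-- Geometry of the path of a relator: additivity, length, small gaps between the blocks, points
after (before) the block `i` project to the line `P i ⟨h⟩ y` near the end (start) of the block. -/
structure RelGeom (Γ : SimpleGraph V) (h : A) (P : ℤ → A) (α : ℤ → ℕ) (y : V) (C : ℕ) : Prop where
  add : PathAdd Γ h P α y C
  len : ∀ (i : ℤ) (k : ℕ), ∑ l ∈ Finset.range k, Γ.dist y (h ^ (α (i + l)) • y) ≤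
    Γ.dist (P i • y) (P (i + k) • y) + k * C
  step : ∀ i, Γ.dist (pt h P y i (α i)) (pt h P y (i + 1) 0) ≤ C
  after : ∀ (i k : ℤ) (j : ℕ) (m : ℤ), i < k → j ≤ α k →
    Γ.dist (pt h P y k j) (pt h P y i (α i)) + Γ.dist (pt h P y i (α i)) ((P i * h ^ m) • y) ≤
      Γ.dist (pt h P y k j) ((P i * h ^ m) • y) + C
  before : ∀ (i k : ℤ) (j : ℕ) (m : ℤ), k < i → j ≤ α k →
    Γ.dist (pt h P y k j) (pt h P y i 0) + Γ.dist (pt h P y i 0) ((P i * h ^ m) • y) ≤
      Γ.dist (pt h P y k j) ((P i * h ^ m) • y) + C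

theorem rel2_pt_eq (h : A) (P : ℤ → A) (y : V) (i : ℤ) (j : ℕ) :
    pt h P y i j = P i • (h ^ (j : ℤ) • y) := by
  rw [pt, mul_smul, zpow_natCast]

theorem rel2_pt_zero (h : A) (P : ℤ → A) (y : V) (i : ℤ) : pt h P y i 0 = P i • y := by
  rw [pt, pow_zero, mul_one]

/-- the junctions are short -/
theorem rel2_junc (hA : Act A V Γ δ) {h : A} {P : ℤ → A} {α : ℤ → ℕ} {υ : ℤ → A}
    (hR : RelSeq h P α υ) {y : V} {DU : ℕ} (hD : ∀ i, Γ.dist y (υ i • y) ≤ DU) (i : ℤ) :
    Γ.dist (pt h P y i (α i)) (P (i + 1) • y) ≤ DU := by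
  rw [hR.step i, pt, mul_smul (P i * h ^ α i), dist_smul hA.act]
  exact hD i

/-- additivity inside a block -/
theorem rel2_block (hA : Act A V Γ δ) {h : A} {P : ℤ → A} {α : ℤ → ℕ} {υ : ℤ → A}
    (hR : RelSeq h P α υ) {y : V} {C l : ℕ} (hL : Lox Γ h y C l) {DU : ℕ}
    (hD : ∀ i, Γ.dist y (υ i • y) ≤ DU) (i : ℤ) (j j' : ℕ) (h1 : j ≤ j') (h2 : j' ≤ α i) :
    Γ.dist (P i • y) (pt h P y i j) + Γ.dist (pt h P y i j) (pt h P y i j') +
      Γ.dist (pt h P y i j') (P (i + 1) • y) ≤ Γ.dist (P i • y) (P (i + 1) • y) + 2 * C + 2 * DU := by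
  have e0 : P i • y = P i • (h ^ (0 : ℤ) • y) := by rw [zpow_zero, one_smul]
  have a1 := hL.add 0 j j' (by omega) (by omega)
  have a2 := hL.add 0 j' (α i) (by omega) (by omega)
  have b1 : Γ.dist (P i • y) (pt h P y i j) = Γ.dist (h ^ (0 : ℤ) • y) (h ^ (j : ℤ) • y) := by
    rw [e0, rel2_pt_eq, dist_smul hA.act]
  have b2 : Γ.dist (pt h P y i j) (pt h P y i j') = Γ.dist (h ^ (j : ℤ) • y) (h ^ (j' : ℤ) • y) := by
    rw [rel2_pt_eq, rel2_pt_eq, dist_smul hA.act]
  have b3 : Γ.dist (pt h P y i j') (pt h P y i (α i)) =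
      Γ.dist (h ^ (j' : ℤ) • y) (h ^ (α i : ℤ) • y) := by
    rw [rel2_pt_eq, rel2_pt_eq, dist_smul hA.act]
  have b4 : Γ.dist (P i • y) (pt h P y i (α i)) =
      Γ.dist (h ^ (0 : ℤ) • y) (h ^ (α i : ℤ) • y) := by
    rw [e0, rel2_pt_eq, dist_smul hA.act]
  have c1 := rel2_junc hA hR hD i
  have c2 : Γ.dist (pt h P y i j') (P (i + 1) • y) ≤ Γ.dist (pt h P y i j') (pt h P y i (α i)) +
    Γ.dist (pt h P y i (α i)) (P (i + 1) • y) := hA.conn.dist_triangle
  have c3 : Γ.dist (P i • y) (pt h P y i (α i)) ≤ Γ.dist (P i • y) (P (i + 1) • y) +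
    Γ.dist (P (i + 1) • y) (pt h P y i (α i)) := hA.conn.dist_triangle
  rw [SimpleGraph.dist_comm (u := P (i + 1) • y)] at c3
  omega

/-- the reference distance, two points -/
theorem rel2_pair (hA : Act A V Γ δ) {h : A} {P : ℤ → A} {α : ℤ → ℕ} {υ : ℤ → A}
    (hR : RelSeq h P α υ) {y : V} {C l : ℕ} (hL : Lox Γ h y C l) {DU C₂ : ℕ}
    (hD : ∀ i, Γ.dist y (υ i • y) ≤ DU) (hadd : ∀ a b : ℤ, AddOn Γ (fun i => P i • y) a b C₂)
    {a b i i' : ℤ} {j j' : ℕ} (hj : j ≤ α i) (hj' : j' ≤ α i') (hle : LexLE i j i' j')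
    (ha : a ≤ i) (hb : i' < b) :
    Γ.dist (P a • y) (pt h P y i j) + Γ.dist (pt h P y i j) (pt h P y i' j') +
      Γ.dist (pt h P y i' j') (P b • y) ≤
        Γ.dist (P a • y) (P b • y) + (4 * C₂ + 4 * C + 4 * DU) := by
  rcases hle with hlt | ⟨rfl, hjj⟩
  · -- different blocks
    have a1 := rel2_block hA hR hL hD i j j le_rfl hj
    have a2 := rel2_block hA hR hL hD i' j' j' le_rfl hj'
    rw [SimpleGraph.dist_self] at a1 a2
    have t1 : Γ.dist (P a • y) (pt h P y i j) ≤ Γ.dist (P a • y) (P i • y) +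
      Γ.dist (P i • y) (pt h P y i j) := hA.conn.dist_triangle
    have t2 : Γ.dist (pt h P y i j) (pt h P y i' j') ≤ Γ.dist (pt h P y i j) (P (i + 1) • y) +
      Γ.dist (P (i + 1) • y) (pt h P y i' j') := hA.conn.dist_triangle
    have t3 : Γ.dist (P (i + 1) • y) (pt h P y i' j') ≤ Γ.dist (P (i + 1) • y) (P i' • y) +
      Γ.dist (P i' • y) (pt h P y i' j') := hA.conn.dist_triangle
    have t4 : Γ.dist (pt h P y i' j') (P b • y) ≤ Γ.dist (pt h P y i' j') (P (i' + 1) • y) +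
      Γ.dist (P (i' + 1) • y) (P b • y) := hA.conn.dist_triangle
    have s1 := hadd a b a i b le_rfl ha (by omega) le_rfl
    have s2 := hadd a b i (i + 1) b ha (by omega) (by omega) le_rfl
    have s3 := hadd a b (i + 1) i' b (by omega) (by omega) (by omega) le_rfl
    have s4 := hadd a b i' (i' + 1) b (by omega) (by omega) (by omega) le_rfl
    simp only at s1 s2 s3 s4
    omega
  · have a1 := rel2_block hA hR hL hD i j j' hjj hj'
    have t1 : Γ.dist (P a • y) (pt h P y i j) ≤ Γ.dist (P a • y) (P i • y) +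
      Γ.dist (P i • y) (pt h P y i j) := hA.conn.dist_triangle
    have t4 : Γ.dist (pt h P y i j') (P b • y) ≤ Γ.dist (pt h P y i j') (P (i + 1) • y) +
      Γ.dist (P (i + 1) • y) (P b • y) := hA.conn.dist_triangle
    have s1 := hadd a b a i b le_rfl ha (by omega) le_rfl
    have s2 := hadd a b i (i + 1) b ha (by omega) (by omega) le_rfl
    simp only at s1 s2
    omega

/-- additivity of the path -/
theorem rel2_pathAdd (hA : Act A V Γ δ) {h : A} {P : ℤ → A} {α : ℤ → ℕ} {υ : ℤ → A}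
    (hR : RelSeq h P α υ) {y : V} {C l : ℕ} (hL : Lox Γ h y C l) {DU C₂ : ℕ}
    (hD : ∀ i, Γ.dist y (υ i • y) ≤ DU) (hadd : ∀ a b : ℤ, AddOn Γ (fun i => P i • y) a b C₂) :
    PathAdd Γ h P α y (8 * C₂ + 8 * C + 8 * DU) := by
  intro i₁ i₂ i₃ j₁ j₂ j₃ hj₁ hj₂ hj₃ h12 h23
  have hle12 : i₁ ≤ i₂ := by
    rcases h12 with h | ⟨h, -⟩ <;> omega
  have hle23 : i₂ ≤ i₃ := by
    rcases h23 with h | ⟨h, -⟩ <;> omega
  have p1 := rel2_pair hA hR hL hD hadd (a := i₁) (b := i₃ + 1) hj₁ hj₂ h12 le_rfl (by omega)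
  have p2 := rel2_pair hA hR hL hD hadd (a := i₁) (b := i₃ + 1) hj₂ hj₃ h23 hle12 (by omega)
  have t1 : Γ.dist (P i₁ • y) (P (i₃ + 1) • y) ≤ Γ.dist (P i₁ • y) (pt h P y i₂ j₂) +
    Γ.dist (pt h P y i₂ j₂) (P (i₃ + 1) • y) := hA.conn.dist_triangle
  have t2 : Γ.dist (P i₁ • y) (P (i₃ + 1) • y) ≤ Γ.dist (P i₁ • y) (pt h P y i₁ j₁) +
    Γ.dist (pt h P y i₁ j₁) (P (i₃ + 1) • y) := hA.conn.dist_triangle
  have t3 : Γ.dist (pt h P y i₁ j₁) (P (i₃ + 1) • y) ≤ Γ.dist (pt h P y i₁ j₁) (pt h P y i₃ j₃) +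
    Γ.dist (pt h P y i₃ j₃) (P (i₃ + 1) • y) := hA.conn.dist_triangle
  omega

theorem exists_relGeom (hA : Act A V Γ δ) {h : A} {y : V} {C l : ℕ} (hL : Lox Γ h y C l)
    {U : Set A} (hU : U.Finite) (hUE : ∀ u ∈ U, u ∉ El h) :
    ∃ C' M₀ : ℕ, ∀ (P : ℤ → A) (α : ℤ → ℕ) (υ : ℤ → A), RelSeq h P α υ → (∀ i, υ i ∈ U) →
      (∀ i, M₀ ≤ α i) → RelGeom Γ h P α y C' := by
  classical
  have hc := hA.conn
  have hF : FP Γ (6 * δ + 2) := fp_of_slim hA.conn hA.slim
  obtain ⟨C₂, M₁, hrel⟩ := rel_break hA hL hU hUE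
  -- constants
  obtain ⟨DU, hDU⟩ : ∃ DU : ℕ, ∀ u ∈ U, Γ.dist y (u • y) ≤ DU := by
    refine ⟨hU.toFinset.sup (fun u => Γ.dist y (u • y)), fun u hu => ?_⟩
    exact Finset.le_sup (f := fun u => Γ.dist y (u • y)) (by simpa using hu)
  obtain ⟨Cu, hCu⟩ : ∃ Cu : ℕ, ∀ u ∈ U, ∀ m n : ℤ,
      Γ.dist y (h ^ m • y) + Γ.dist y ((u⁻¹ * h ^ n) • y) ≤
        Γ.dist (h ^ m • y) ((u⁻¹ * h ^ n) • y) + Cu := by
    have h1 : ∀ u ∈ U, ∃ Cu : ℕ, ∀ m n : ℤ,
      Γ.dist y (h ^ m • y) + Γ.dist y ((u⁻¹ * h ^ n) • y) ≤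
        Γ.dist (h ^ m • y) ((u⁻¹ * h ^ n) • y) + Cu := by
      intro u hu
      exact gp_bounded hA hL (u := u⁻¹) (fun hcon => hUE u hu (by simpa using (El h).inv_mem hcon))
    choose! g hg using h1
    refine ⟨hU.toFinset.sup g, fun u hu m n => ?_⟩
    have h2 := hg u hu m n
    have h3 : g u ≤ hU.toFinset.sup g := Finset.le_sup (f := g) (by simpa using hu)
    omega
  obtain ⟨C₁, hC₁⟩ : ∃ C₁ : ℕ, C₁ = Cu + 2 * DU + C₂ := ⟨_, rfl⟩
  obtain ⟨N, hN⟩ : ∃ N : ℕ, N = C₁ + 2 * (6 * δ + 2) + 1 + DU := ⟨_, rfl⟩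
  refine ⟨8 * C₂ + 8 * C + 8 * DU + 2 * (C₁ + 2 * (6 * δ + 2) + 1 + DU), max M₁ (l * N + 1), ?_⟩
  intro P α υ hR hυ hα
  have hD : ∀ i, Γ.dist y (υ i • y) ≤ DU := fun i => hDU _ (hυ i)
  have hadd : ∀ a b : ℤ, AddOn Γ (fun i => P i • y) a b C₂ :=
    hrel P α υ hR hυ (fun i => le_trans (le_max_left _ _) (hα i))
  have hf : ∀ i, N ≤ Γ.dist y (h ^ (α i) • y) := by
    intro i
    by_contra hcon
    have h1 := hL.grow (α i)
    have h2 : l * (Γ.dist y (h ^ (α i) • y) + 1) ≤ l * N := Nat.mul_le_mul_left _ (by omega)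
    have h3 := le_trans (le_max_right M₁ (l * N + 1)) (hα i)
    omega
  have hpa := rel2_pathAdd hA hR hL hD hadd
  -- distances of consecutive break points
  have hfx : ∀ i, Γ.dist y (h ^ (α i) • y) ≤ Γ.dist (P i • y) (P (i + 1) • y) + DU := by
    intro i
    have h1 := rel2_junc hA hR hD i
    have h2 : Γ.dist (P i • y) (pt h P y i (α i)) ≤ Γ.dist (P i • y) (P (i + 1) • y) +
      Γ.dist (P (i + 1) • y) (pt h P y i (α i)) := hc.dist_triangle
    have h3 : Γ.dist (P i • y) (pt h P y i (α i)) = Γ.dist y (h ^ (α i) • y) := by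
      rw [pt, mul_smul, dist_smul hA.act]
    rw [SimpleGraph.dist_comm (u := P (i + 1) • y)] at h2
    omega
  refine ⟨?_, ?_, ?_, ?_, ?_⟩
  · -- additivity
    intro i₁ i₂ i₃ j₁ j₂ j₃ hj₁ hj₂ hj₃ h12 h23
    have := hpa i₁ i₂ i₃ j₁ j₂ j₃ hj₁ hj₂ hj₃ h12 h23
    omega
  · -- length
    intro i k
    have h1 := (hadd i (i + k)).sum_le
    have h2 : ∑ l ∈ Finset.range k, Γ.dist y (h ^ (α (i + l)) • y) ≤
        ∑ l ∈ Finset.range k, (Γ.dist (P (i + l) • y) (P (i + l + 1) • y) + DU) :=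
      Finset.sum_le_sum (fun l _ => hfx (i + l))
    rw [Finset.sum_add_distrib, Finset.sum_const, Finset.card_range, smul_eq_mul] at h2
    have h3 : k * C₂ + k * DU ≤
        k * (8 * C₂ + 8 * C + 8 * DU + 2 * (C₁ + 2 * (6 * δ + 2) + 1 + DU)) := by
      rw [← Nat.mul_add]
      exact Nat.mul_le_mul_left _ (by omega)
    omega
  · -- steps
    intro i
    have h1 := rel2_junc hA hR hD i
    rw [rel2_pt_zero]
    omega
  · -- points after the block
    intro i k j m hik hjk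
    obtain ⟨v, hv⟩ : ∃ v, v = pt h P y k j := ⟨_, rfl⟩
    obtain ⟨w, hw⟩ : ∃ w, w = (P i * h ^ m) • y := ⟨_, rfl⟩
    obtain ⟨e, he⟩ : ∃ e, e = pt h P y i (α i) := ⟨_, rfl⟩
    have hj1 := rel2_junc hA hR hD i
    rw [← hv, ← hw, ← he]
    rw [← he] at hj1
    by_cases hsmall : Γ.dist w (P (i + 1) • y) < C₁ + 2 * (6 * δ + 2) + 1
    · have t1 : Γ.dist v e ≤ Γ.dist v w + Γ.dist w e := hc.dist_triangle
      have t2 : Γ.dist w e ≤ Γ.dist w (P (i + 1) • y) + Γ.dist (P (i + 1) • y) e :=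
        hc.dist_triangle
      rw [SimpleGraph.dist_comm (u := P (i + 1) • y) (v := e)] at t2
      rw [SimpleGraph.dist_comm (u := e) (v := w)]
      omega
    · push Not at hsmall
      -- the sequence w, x (i+1), x (i+2), ...
      have hs : AddOn Γ (fun t : ℤ => if t ≤ i then w else P t • y) i (k + 1)
          (C₁ + 2 * (6 * δ + 2)) := by
        apply AddOn.of_local hc hF
        · intro t ht1 ht2
          have c1 : ¬ t ≤ i := by omega
          have c2 : ¬ t + 1 ≤ i := by omega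
          simp only [if_neg c1, if_neg c2]
          by_cases hti : t - 1 ≤ i
          · rw [if_pos hti]
            have hti' : t = i + 1 := by omega
            subst hti'
            -- local estimate at x (i+1)
            have g1 := hCu (υ i) (hυ i) (α (i + 1)) (m - α i)
            have e1 : w = P (i + 1) • ((υ i)⁻¹ * h ^ (m - (α i : ℤ))) • y := by
              rw [hw, hR.step i, ← mul_smul]
              congr 1
              rw [zpow_sub, zpow_natCast]
              group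
            have e2 : P (i + 1 + 1) • y = P (i + 1) • (h ^ (α (i + 1)) * υ (i + 1)) • y := by
              rw [hR.step (i + 1), ← mul_smul]
              congr 1
              group
            have f1 : Γ.dist w (P (i + 1) • y) =
                Γ.dist y (((υ i)⁻¹ * h ^ (m - (α i : ℤ))) • y) := by
              rw [e1, dist_smul hA.act, SimpleGraph.dist_comm]
            have f2 : Γ.dist (P (i + 1) • y) (P (i + 1 + 1) • y) =
                Γ.dist y ((h ^ (α (i + 1)) * υ (i + 1)) • y) := by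
              rw [e2, dist_smul hA.act]
            have f3 : Γ.dist w (P (i + 1 + 1) • y) =
                Γ.dist (((υ i)⁻¹ * h ^ (m - (α i : ℤ))) • y)
                  ((h ^ (α (i + 1)) * υ (i + 1)) • y) := by
              rw [e1, e2, dist_smul hA.act]
            have f4 : Γ.dist (h ^ (α (i + 1)) • y) ((h ^ (α (i + 1)) * υ (i + 1)) • y) ≤ DU := by
              rw [mul_smul, dist_smul hA.act]
              exact hD (i + 1)
            have t1 : Γ.dist y ((h ^ (α (i + 1)) * υ (i + 1)) • y) ≤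
              Γ.dist y (h ^ (α (i + 1)) • y) +
                Γ.dist (h ^ (α (i + 1)) • y) ((h ^ (α (i + 1)) * υ (i + 1)) • y) :=
              hc.dist_triangle
            have t2 : Γ.dist (((υ i)⁻¹ * h ^ (m - (α i : ℤ))) • y) (h ^ (α (i + 1)) • y) ≤
              Γ.dist (((υ i)⁻¹ * h ^ (m - (α i : ℤ))) • y)
                ((h ^ (α (i + 1)) * υ (i + 1)) • y) +
                Γ.dist ((h ^ (α (i + 1)) * υ (i + 1)) • y) (h ^ (α (i + 1)) • y) :=
              hc.dist_triangle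
            rw [SimpleGraph.dist_comm (u := (h ^ (α (i + 1)) * υ (i + 1)) • y)
              (v := h ^ (α (i + 1)) • y)] at t2
            rw [zpow_natCast, SimpleGraph.dist_comm (u := h ^ (α (i + 1)) • y)
              (v := ((υ i)⁻¹ * h ^ (m - (α i : ℤ))) • y)] at g1
            rw [f1, f2, f3]
            omega
          · rw [if_neg hti]
            have h1 := hadd (t - 1) (t + 1) (t - 1) t (t + 1) le_rfl (by omega) (by omega) le_rfl
            simp only at h1
            omega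
        · intro t ht1 ht2
          have c2 : ¬ t + 1 ≤ i := by omega
          simp only [if_neg c2]
          by_cases hti : t ≤ i
          · rw [if_pos hti]
            have : t = i := by omega
            subst this
            exact hsmall
          · rw [if_neg hti]
            have h1 := hfx t
            have h2 := hf t
            omega
      have h1 := hs i (i + 1) (k + 1) le_rfl (by omega) (by omega) le_rfl
      have c1 : ¬ i + 1 ≤ i := by omega
      have c2 : ¬ k + 1 ≤ i := by omega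
      simp only [if_neg c1, if_neg c2, le_refl, if_true] at h1
      -- v is between x (i+1) and x (k+1)
      have h2 := hpa (i + 1) k (k + 1) 0 j 0 (Nat.zero_le _) hjk (Nat.zero_le _)
        (by
          rcases lt_or_eq_of_le (show i + 1 ≤ k by omega) with h | h
          · exact Or.inl h
          · exact Or.inr ⟨h, Nat.zero_le _⟩) (Or.inl (by omega))
      rw [rel2_pt_zero, rel2_pt_zero, ← hv] at h2
      have t1 : Γ.dist w (P (k + 1) • y) ≤ Γ.dist w v + Γ.dist v (P (k + 1) • y) :=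
        hc.dist_triangle
      have t2 : Γ.dist v e ≤ Γ.dist v (P (i + 1) • y) + Γ.dist (P (i + 1) • y) e :=
        hc.dist_triangle
      have t3 : Γ.dist w e ≤ Γ.dist w (P (i + 1) • y) + Γ.dist (P (i + 1) • y) e :=
        hc.dist_triangle
      rw [SimpleGraph.dist_comm (u := P (i + 1) • y) (v := e)] at t2 t3
      rw [SimpleGraph.dist_comm (u := w) (v := v)] at t1
      rw [SimpleGraph.dist_comm (u := v) (v := P (i + 1) • y)] at t2
      rw [SimpleGraph.dist_comm (u := e) (v := w)]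
      omega
  · -- points before the block
    intro i k j m hki hjk
    obtain ⟨v, hv⟩ : ∃ v, v = pt h P y k j := ⟨_, rfl⟩
    obtain ⟨w, hw⟩ : ∃ w, w = (P i * h ^ m) • y := ⟨_, rfl⟩
    rw [← hv, ← hw, rel2_pt_zero]
    by_cases hsmall : Γ.dist (P i • y) w < C₁ + 2 * (6 * δ + 2) + 1
    · have t1 : Γ.dist v (P i • y) ≤ Γ.dist v w + Γ.dist w (P i • y) := hc.dist_triangle
      rw [SimpleGraph.dist_comm (u := w) (v := P i • y)] at t1
      omega
    · push Not at hsmall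
      have hs : AddOn Γ (fun t : ℤ => if i < t then w else P t • y) k (i + 1)
          (C₁ + 2 * (6 * δ + 2)) := by
        apply AddOn.of_local hc hF
        · intro t ht1 ht2
          have c1 : ¬ i < t := by omega
          have c2 : ¬ i < t - 1 := by omega
          simp only [if_neg c1, if_neg c2]
          by_cases hti : i < t + 1
          · rw [if_pos hti]
            have hti' : t = i := by omega
            subst hti'
            have g1 := hCu (υ (t - 1)) (hυ (t - 1)) m (-(α (t - 1) : ℤ))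
            have hst := hR.step (t - 1)
            rw [sub_add_cancel] at hst
            have e1 : P (t - 1) • y = P t • ((υ (t - 1))⁻¹ * h ^ (-(α (t - 1) : ℤ))) • y := by
              rw [hst, ← mul_smul]
              congr 1
              rw [zpow_neg, zpow_natCast]
              group
            have f1 : Γ.dist (P (t - 1) • y) (P t • y) =
                Γ.dist y (((υ (t - 1))⁻¹ * h ^ (-(α (t - 1) : ℤ))) • y) := by
              rw [e1, dist_smul hA.act, SimpleGraph.dist_comm]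
            have f2 : Γ.dist (P t • y) w = Γ.dist y (h ^ m • y) := by
              rw [hw, mul_smul (P t) (h ^ m), dist_smul hA.act]
            have f3 : Γ.dist (P (t - 1) • y) w =
                Γ.dist (h ^ m • y) (((υ (t - 1))⁻¹ * h ^ (-(α (t - 1) : ℤ))) • y) := by
              rw [e1, hw, mul_smul (P t) (h ^ m), dist_smul hA.act, SimpleGraph.dist_comm]
            rw [f1, f2, f3]
            omega
          · rw [if_neg hti]
            have h1 := hadd (t - 1) (t + 1) (t - 1) t (t + 1) le_rfl (by omega) (by omega) le_rfl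
            simp only at h1
            omega
        · intro t ht1 ht2
          have c2 : ¬ i < t := by omega
          simp only [if_neg c2]
          by_cases hti : i < t + 1
          · rw [if_pos hti]
            have : t = i := by omega
            subst this
            exact hsmall
          · rw [if_neg hti]
            have h1 := hfx t
            have h2 := hf t
            omega
      have h1 := hs k i (i + 1) le_rfl (by omega) (by omega) le_rfl
      have c1 : ¬ i < k := by omega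
      have c2 : i < i + 1 := by omega
      simp only [if_neg c1, if_pos c2, lt_irrefl, if_false] at h1
      have h2 := hpa k k i 0 j 0 (Nat.zero_le _) hjk (Nat.zero_le _)
        (Or.inr ⟨rfl, Nat.zero_le _⟩) (Or.inl hki)
      rw [rel2_pt_zero, rel2_pt_zero, ← hv] at h2
      have t1 : Γ.dist (P k • y) w ≤ Γ.dist (P k • y) v + Γ.dist v w := hc.dist_triangle
      omega

end Pool.Agent.Lib.MP_7e344a_al
end

section

/-!
# MP_7e344a_al: M06, linear indexing of the path of a relator and consequences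
-/

set_option autoImplicit false

namespace Pool.Agent.Lib.MP_7e344a_al

variable {A V : Type} [Group A] [MulAction A V] {Γ : SimpleGraph V} {δ : ℕ}

/-- partial sums -/
theorem MLin_sums (α : ℤ → ℕ) : ∃ st : ℤ → ℤ, ∀ i, st (i + 1) = st i + α i + 1 := by
  refine ⟨fun i => if 0 ≤ i then ∑ l ∈ Finset.range i.toNat, ((α (l : ℤ) : ℤ) + 1)
    else -∑ l ∈ Finset.range (-i).toNat, ((α (-((l : ℤ) + 1)) : ℤ) + 1), ?_⟩
  intro i
  by_cases hi : 0 ≤ i
  · have h1 : 0 ≤ i + 1 := by omega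
    have h2 : (i + 1).toNat = i.toNat + 1 := by omega
    have h3 : ((i.toNat : ℕ) : ℤ) = i := by omega
    simp only [hi, h1, if_true]
    rw [h2, Finset.sum_range_succ, h3]
    ring
  · have h0 : i < 0 := by omega
    obtain ⟨n, hn⟩ : ∃ n : ℕ, i = -((n : ℤ) + 1) := ⟨(-i - 1).toNat, by omega⟩
    have h3 : (-i).toNat = n + 1 := by omega
    simp only [hi, if_false]
    rw [h3, Finset.sum_range_succ]
    by_cases h1 : 0 ≤ i + 1
    · have h4 : n = 0 := by omega
      have h5 : i + 1 = 0 := by omega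
      subst h4
      simp only [h1, if_true]
      rw [h5]
      have h6 : i = -(((0 : ℕ) : ℤ) + 1) := hn
      rw [← h6]
      simp
    · simp only [h1, if_false]
      have h4 : (-(i + 1)).toNat = n := by omega
      rw [h4, ← hn]
      ring

theorem MLin_mono {α : ℤ → ℕ} {st : ℤ → ℤ} (hst : ∀ i, st (i + 1) = st i + α i + 1) (i : ℤ)
    (k : ℕ) : st i + k ≤ st (i + k) := by
  induction k with
  | zero => simp
  | succ k ih =>
    have h1 := hst (i + k)
    have h2 : i + ((k + 1 : ℕ) : ℤ) = i + k + 1 := by push_cast; ring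
    rw [h2, h1]
    push_cast
    have : (0 : ℤ) ≤ α (i + k) := by positivity
    omega

theorem MLin_mono' {α : ℤ → ℕ} {st : ℤ → ℤ} (hst : ∀ i, st (i + 1) = st i + α i + 1) {i j : ℤ}
    (hij : i ≤ j) : st i + (j - i) ≤ st j := by
  have h1 := MLin_mono hst i (j - i).toNat
  have h2 : ((j - i).toNat : ℤ) = j - i := by omega
  rw [h2] at h1
  have h3 : i + (j - i) = j := by ring
  rw [h3] at h1
  exact h1

/-- start indices of the blocks -/
theorem exists_st (α : ℤ → ℕ) : ∃ st blk : ℤ → ℤ, (∀ i, st (i + 1) = st i + α i + 1) ∧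
    (∀ n, st (blk n) ≤ n ∧ n < st (blk n + 1)) ∧ (∀ n m, n ≤ m → blk n ≤ blk m) ∧
    ∀ i (j : ℕ), j ≤ α i → blk (st i + j) = i := by
  obtain ⟨st, hst⟩ := MLin_sums α
  have hex : ∀ n : ℤ, ∃ b : ℤ, st b ≤ n ∧ ∀ i, st i ≤ n → i ≤ b := by
    intro n
    have h1 := Int.exists_greatest_of_bdd (P := fun i => st i ≤ n)
      ⟨max 0 (n - st 0), by
        intro z hz
        by_cases h0 : 0 ≤ z
        · have := MLin_mono' hst h0
          have h2 : z ≤ n - st 0 := by omega
          exact h2.trans (le_max_right _ _)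
        · have h2 : z ≤ 0 := by omega
          exact h2.trans (le_max_left _ _)⟩
      ⟨-((st 0 - n).toNat : ℤ), by
        have h2 := MLin_mono hst (-((st 0 - n).toNat : ℤ)) (st 0 - n).toNat
        have h3 : -((st 0 - n).toNat : ℤ) + (st 0 - n).toNat = 0 := by ring
        rw [h3] at h2
        omega⟩
    obtain ⟨b, hb, hb'⟩ := h1
    exact ⟨b, hb, hb'⟩
  choose blk hblk hmax using hex
  have hlt : ∀ n, n < st (blk n + 1) := by
    intro n
    by_contra hcon
    have := hmax n (blk n + 1) (by omega)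
    omega
  refine ⟨st, blk, hst, fun n => ⟨hblk n, hlt n⟩, ?_, ?_⟩
  · intro n m hnm
    exact hmax m (blk n) ((hblk n).trans hnm)
  · intro i j hj
    have h1 : i ≤ blk (st i + j) := hmax _ i (by omega)
    by_contra hne
    have h2 : i + 1 ≤ blk (st i + j) := by omega
    have h3 := MLin_mono' hst h2
    have h4 := hblk (st i + j)
    have h5 := hst i
    omega

/-- linear indexing -/
theorem RelGeom.lin (hA : Act A V Γ δ) {h : A} {P : ℤ → A} {α : ℤ → ℕ} {y : V} {C : ℕ}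
    (hG : RelGeom Γ h P α y C) : ∃ (st blk : ℤ → ℤ) (z : ℤ → V),
      (∀ i, st (i + 1) = st i + α i + 1) ∧ (∀ n, st (blk n) ≤ n ∧ n < st (blk n + 1)) ∧
      (∀ n m, n ≤ m → blk n ≤ blk m) ∧ (∀ i (j : ℕ), j ≤ α i → blk (st i + j) = i) ∧
      (∀ i (j : ℕ), j ≤ α i → z (st i + j) = pt h P y i j) ∧
      (∀ a b, AddOn Γ z a b C) ∧ (∀ a b, StepOn Γ z a b (C + Γ.dist y (h • y))) := by
  obtain ⟨st, blk, hst, hb, hmono, hblk⟩ := exists_st α
  have hz : ∀ i (j : ℕ), j ≤ α i →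
      pt h P y (blk (st i + j)) (st i + j - st (blk (st i + j))).toNat = pt h P y i j := by
    intro i j hj
    rw [hblk i j hj]
    have : (st i + j - st i).toNat = j := by omega
    rw [this]
  have hα : ∀ n, (n - st (blk n)).toNat ≤ α (blk n) := by
    intro n
    have h1 := hb n
    have h2 := hst (blk n)
    omega
  have hlex : ∀ n m, n ≤ m →
      LexLE (blk n) (n - st (blk n)).toNat (blk m) (m - st (blk m)).toNat := by
    intro n m hnm
    have h1 := hmono n m hnm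
    rcases lt_or_eq_of_le h1 with h2 | h2
    · exact Or.inl h2
    · right
      refine ⟨h2, ?_⟩
      rw [h2]
      omega
  refine ⟨st, blk, fun n => pt h P y (blk n) (n - st (blk n)).toNat, hst, hb, hmono, hblk, hz,
    ?_, ?_⟩
  · intro a b i j k _ hij hjk _
    exact hG.add _ _ _ _ _ _ (hα i) (hα j) (hα k) (hlex i j hij) (hlex j k hjk)
  · intro a b n _ _
    obtain ⟨i, hi⟩ : ∃ i, i = blk n := ⟨_, rfl⟩
    obtain ⟨j, hj⟩ : ∃ j, j = (n - st i).toNat := ⟨_, rfl⟩
    have h1 := hb n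
    have h2 := hst (blk n)
    rw [← hi] at h1 h2
    have hjα : j ≤ α i := by omega
    have hn : n = st i + j := by omega
    change Γ.dist (pt h P y (blk n) (n - st (blk n)).toNat)
      (pt h P y (blk (n + 1)) (n + 1 - st (blk (n + 1))).toNat) ≤ _
    by_cases hlt : j < α i
    · have e1 := hz i j hjα
      have e2 := hz i (j + 1) hlt
      rw [← hn] at e1
      have hn1 : n + 1 = st i + ((j + 1 : ℕ) : ℤ) := by push_cast; omega
      rw [← hn1] at e2
      rw [e1, e2]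
      have e3 : pt h P y i (j + 1) = (P i * h ^ j) • (h • y) := by
        unfold pt
        rw [smul_smul, pow_succ, mul_assoc]
      rw [e3]
      unfold pt
      rw [dist_smul hA.act]
      omega
    · have hjα' : j = α i := by omega
      have e1 := hz i j hjα
      have e2 := hz (i + 1) 0 (Nat.zero_le _)
      rw [← hn] at e1
      have hn1 : n + 1 = st (i + 1) + ((0 : ℕ) : ℤ) := by push_cast; omega
      rw [← hn1] at e2
      rw [e1, e2, hjα']
      have := hG.step i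
      omega

/-- points coarsely between two path points are near the path between them -/
theorem RelGeom.near (hA : Act A V Γ δ) {κ : ℕ} (hF : FP Γ κ) {h : A} {P : ℤ → A} {α : ℤ → ℕ}
    {y : V} {C : ℕ} (hG : RelGeom Γ h P α y C) {i₁ i₂ : ℤ} {j₁ j₂ : ℕ} (h₁ : j₁ ≤ α i₁)
    (h₂ : j₂ ≤ α i₂) (hle : LexLE i₁ j₁ i₂ j₂) {v : V} {E : ℕ}
    (hv : Γ.dist (pt h P y i₁ j₁) v + Γ.dist v (pt h P y i₂ j₂) ≤
      Γ.dist (pt h P y i₁ j₁) (pt h P y i₂ j₂) + E) :
    ∃ (i : ℤ) (j : ℕ), j ≤ α i ∧ LexLE i₁ j₁ i j ∧ LexLE i j i₂ j₂ ∧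
      Γ.dist v (pt h P y i j) ≤ 2 * C + E + Γ.dist y (h • y) + κ := by
  obtain ⟨st, blk, z, hst, hb, hmono, hblk, hz, hadd, hstep⟩ := hG.lin hA
  have hab : st i₁ + j₁ ≤ st i₂ + j₂ := by
    rcases hle with hlt | ⟨heq, hj⟩
    · have h3 : i₁ + 1 ≤ i₂ := by omega
      have h4 := MLin_mono' hst h3
      have h5 := hst i₁
      omega
    · subst heq
      omega
  rw [← hz i₁ j₁ h₁, ← hz i₂ j₂ h₂] at hv
  obtain ⟨n, hn1, hn2, hn3⟩ := AddOn.near hA.conn hF (hadd _ _) (hstep _ _) hab hv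
  have h3 := hb n
  have h4 := hst (blk n)
  have h5 : n = st (blk n) + ((n - st (blk n)).toNat : ℤ) := by omega
  have h6 : (n - st (blk n)).toNat ≤ α (blk n) := by omega
  have hb1 := hmono _ _ hn1
  have hb2 := hmono _ _ hn2
  rw [hblk i₁ j₁ h₁] at hb1
  rw [hblk i₂ j₂ h₂] at hb2
  refine ⟨blk n, (n - st (blk n)).toNat, h6, ?_, ?_, ?_⟩
  · rcases lt_or_eq_of_le hb1 with h7 | h7
    · exact Or.inl h7
    · right
      refine ⟨h7, ?_⟩
      rw [← h7]
      omega
  · rcases lt_or_eq_of_le hb2 with h7 | h7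
    · exact Or.inl h7
    · right
      refine ⟨h7, ?_⟩
      rw [h7]
      omega
  · have h8 := hz (blk n) (n - st (blk n)).toNat h6
    rw [← h5] at h8
    rw [← h8]
    omega

theorem MLin_qc_aux (hA : Act A V Γ δ) {κ : ℕ} (hF : FP Γ κ) {h : A} {P : ℤ → A} {α : ℤ → ℕ}
    {y : V} {C : ℕ} (hG : RelGeom Γ h P α y C) {i₁ i₂ : ℤ} {j₁ j₂ : ℕ} (h₁ : j₁ ≤ α i₁)
    (h₂ : j₂ ≤ α i₂) (hle : LexLE i₁ j₁ i₂ j₂) {p : ℕ → V} {n : ℕ}
    (hp : IsGeo Γ p n (pt h P y i₁ j₁) (pt h P y i₂ j₂)) {t : ℕ} (ht : t ≤ n) :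
    ∃ q ∈ PtSet h P α y, Γ.dist (p t) q ≤ 2 * C + Γ.dist y (h • y) + κ := by
  obtain ⟨h3, h4, h5⟩ := FourPt_split hp ht
  obtain ⟨i, j, h6, _, _, h7⟩ := hG.near hA hF h₁ h₂ hle (v := p t) (E := 0) (by omega)
  exact ⟨pt h P y i j, ⟨i, j, h6, rfl⟩, by omega⟩

theorem RelGeom.qc (hA : Act A V Γ δ) {κ : ℕ} (hF : FP Γ κ) {h : A} {P : ℤ → A} {α : ℤ → ℕ}
    {y : V} {C : ℕ} (hG : RelGeom Γ h P α y C) :
    QC Γ (PtSet h P α y) (2 * C + Γ.dist y (h • y) + κ) := by
  rintro _ ⟨i₁, j₁, h₁, rfl⟩ _ ⟨i₂, j₂, h₂, rfl⟩ p n hp t ht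
  have htot : LexLE i₁ j₁ i₂ j₂ ∨ LexLE i₂ j₂ i₁ j₁ := by
    unfold LexLE
    omega
  rcases htot with hle | hle
  · exact MLin_qc_aux hA hF hG h₁ h₂ hle hp ht
  · obtain ⟨q, hq, hq'⟩ := MLin_qc_aux hA hF hG h₂ h₁ hle hp.symm (t := n - t) (by omega)
    refine ⟨q, hq, ?_⟩
    have : n - (n - t) = t := by omega
    simp only [this] at hq'
    exact hq'

end Pool.Agent.Lib.MP_7e344a_al
end

section

/-!
# MP_7e344a_al: M06b, projections to the path of a relator
-/

set_option autoImplicit false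

namespace Pool.Agent.Lib.MP_7e344a_al

variable {A V : Type} [Group A] [MulAction A V] {Γ : SimpleGraph V} {δ : ℕ}

/-- `(i, j)` is the position of a path point nearest to `v`. -/
def Nearest (Γ : SimpleGraph V) (h : A) (P : ℤ → A) (α : ℤ → ℕ) (y v : V) (i : ℤ) (j : ℕ) : Prop :=
  j ≤ α i ∧ ∀ (i' : ℤ) (j' : ℕ), j' ≤ α i' → Γ.dist v (pt h P y i j) ≤ Γ.dist v (pt h P y i' j')

theorem exists_nearest (Γ : SimpleGraph V) (h : A) (P : ℤ → A) (α : ℤ → ℕ) (y v : V) :
    ∃ i j, Nearest Γ h P α y v i j := by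
  classical
  have hex : ∃ n : ℕ, ∃ (i : ℤ) (j : ℕ), j ≤ α i ∧ Γ.dist v (pt h P y i j) = n :=
    ⟨_, 0, 0, Nat.zero_le _, rfl⟩
  obtain ⟨i, j, hj, hn⟩ := Nat.find_spec hex
  refine ⟨i, j, hj, ?_⟩
  intro i' j' hj'
  rw [hn]
  exact Nat.find_min' hex ⟨i', j', hj', rfl⟩

theorem RelGeom.proj2 (hA : Act A V Γ δ) {κ : ℕ} (hF : FP Γ κ) {h : A} {P : ℤ → A} {α : ℤ → ℕ}
    {y : V} {C c : ℕ} (hG : RelGeom Γ h P α y C)
    (hc : c = 4 * (2 * C + Γ.dist y (h • y) + κ) + κ + 2) {u u' : V} {i i' : ℤ} {j j' : ℕ}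
    (hn : Nearest Γ h P α y u i j) (hn' : Nearest Γ h P α y u' i' j')
    (hfar : c < Γ.dist (pt h P y i j) (pt h P y i' j')) :
    Γ.dist u (pt h P y i j) + Γ.dist (pt h P y i j) (pt h P y i' j') +
      Γ.dist (pt h P y i' j') u' ≤ Γ.dist u u' + c := by
  obtain ⟨st, blk, z, hst, hblk, _, _, hz, hadd, hstep⟩ := hG.lin hA
  have key : ∀ k : ℤ, ∃ (a : ℤ) (b : ℕ), b ≤ α a ∧ z k = pt h P y a b := by
    intro k
    obtain ⟨h1, h2⟩ := hblk k
    rw [hst] at h2
    have h3 : st (blk k) + ((k - st (blk k)).toNat : ℤ) = k := by omega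
    have h4 := hz (blk k) (k - st (blk k)).toNat (by omega)
    rw [h3] at h4
    exact ⟨blk k, (k - st (blk k)).toNat, by omega, h4⟩
  have hm : ∀ k, Γ.dist u (z (st i + j)) ≤ Γ.dist u (z k) := by
    intro k
    obtain ⟨a, b, hb, hk⟩ := key k
    rw [hz i j hn.1, hk]
    exact hn.2 a b hb
  have hm' : ∀ k, Γ.dist u' (z (st i' + j')) ≤ Γ.dist u' (z k) := by
    intro k
    obtain ⟨a, b, hb, hk⟩ := key k
    rw [hz i' j' hn'.1, hk]
    exact hn'.2 a b hb
  have hfin := Pool.Agent.Lib.MP_7e344a_al.proj2 (C := C) (S := C + Γ.dist y (h • y)) hA.conn hF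
    hadd hstep hm hm' (by
      rw [hz i j hn.1, hz i' j' hn'.1]
      omega)
  rw [hz i j hn.1, hz i' j' hn'.1] at hfin
  omega

/-- at least one full block in between -/
theorem RelGeom.far (hA : Act A V Γ δ) {h : A} {P : ℤ → A} {α : ℤ → ℕ} {y : V} {C : ℕ}
    (hG : RelGeom Γ h P α y C) {i i' : ℤ} {j j' : ℕ} (hj : j ≤ α i) (hj' : j' ≤ α i')
    (hi : i + 2 ≤ i') : Γ.dist y (h ^ (α (i + 1)) • y) ≤
      Γ.dist (pt h P y i j) (pt h P y i' j') + 3 * C := by
  have _ := hA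
  have e1 : pt h P y (i + 1) 0 = P (i + 1) • y := by simp [pt]
  have e2 : pt h P y (i + 2) 0 = P (i + 2) • y := by simp [pt]
  have h1 := hG.add i (i + 1) i' j 0 j' hj (Nat.zero_le _) hj' (Or.inl (by omega))
    (Or.inl (by omega))
  have h2 := hG.add (i + 1) (i + 2) i' 0 0 j' (Nat.zero_le _) (Nat.zero_le _) hj'
    (Or.inl (by omega)) (by
      rcases lt_or_eq_of_le hi with h3 | h3
      · exact Or.inl h3
      · exact Or.inr ⟨h3, Nat.zero_le _⟩)
  have h3 := hG.len (i + 1) 1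
  have e3 : i + 1 + ((1 : ℕ) : ℤ) = i + 2 := by push_cast; ring
  rw [e3] at h3
  simp only [Finset.range_one, Finset.sum_singleton, Nat.cast_zero, add_zero, one_mul] at h3
  rw [e1] at h1 h2
  rw [e2] at h2
  omega

/-- at least two full blocks in between -/
theorem RelGeom.far2 (hA : Act A V Γ δ) {h : A} {P : ℤ → A} {α : ℤ → ℕ} {y : V} {C : ℕ}
    (hG : RelGeom Γ h P α y C) {i i' : ℤ} {j j' : ℕ} (hj : j ≤ α i) (hj' : j' ≤ α i')
    (hi : i + 3 ≤ i') : Γ.dist y (h ^ (α (i + 1)) • y) + Γ.dist y (h ^ (α (i + 2)) • y) ≤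
      Γ.dist (pt h P y i j) (pt h P y i' j') + 4 * C := by
  have _ := hA
  have e1 : pt h P y (i + 1) 0 = P (i + 1) • y := by simp [pt]
  have e2 : pt h P y (i + 3) 0 = P (i + 3) • y := by simp [pt]
  have h1 := hG.add i (i + 1) i' j 0 j' hj (Nat.zero_le _) hj' (Or.inl (by omega))
    (Or.inl (by omega))
  have h2 := hG.add (i + 1) (i + 3) i' 0 0 j' (Nat.zero_le _) (Nat.zero_le _) hj'
    (Or.inl (by omega)) (by
      rcases lt_or_eq_of_le hi with h3 | h3
      · exact Or.inl h3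
      · exact Or.inr ⟨h3, Nat.zero_le _⟩)
  have h3 := hG.len (i + 1) 2
  have e3 : i + 1 + ((2 : ℕ) : ℤ) = i + 3 := by push_cast; ring
  rw [e3] at h3
  have e4 : i + 1 + 1 = i + 2 := by ring
  simp only [Finset.sum_range_succ, Finset.sum_range_zero, Nat.cast_zero, add_zero, zero_add,
    Nat.cast_one, e4] at h3
  rw [e1] at h1 h2
  rw [e2] at h2
  omega

theorem M_Lin2_pt_smul (h : A) (P : ℤ → A) (y : V) (x : A) (i : ℤ) (j : ℕ) :
    pt h (fun i => x * P i) y i j = x • pt h P y i j := by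
  simp only [pt]
  rw [smul_smul, mul_assoc]

/-- translation of a path -/
theorem RelGeom.smul (hA : Act A V Γ δ) {h : A} {P : ℤ → A} {α : ℤ → ℕ} {y : V} {C : ℕ}
    (hG : RelGeom Γ h P α y C) (x : A) : RelGeom Γ h (fun i => x * P i) α y C := by
  have hd := dist_smul hA.act x
  refine ⟨?_, ?_, ?_, ?_, ?_⟩
  · intro i₁ i₂ i₃ j₁ j₂ j₃ h1 h2 h3 h4 h5
    rw [M_Lin2_pt_smul, M_Lin2_pt_smul, M_Lin2_pt_smul, hd, hd, hd]
    exact hG.add i₁ i₂ i₃ j₁ j₂ j₃ h1 h2 h3 h4 h5
  · intro i k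
    have h1 := hG.len i k
    have e : Γ.dist ((x * P i) • y) ((x * P (i + k)) • y) = Γ.dist (P i • y) (P (i + k) • y) := by
      rw [mul_smul, mul_smul, hd]
    show _ ≤ Γ.dist ((x * P i) • y) ((x * P (i + k)) • y) + k * C
    rw [e]
    exact h1
  · intro i
    rw [M_Lin2_pt_smul, M_Lin2_pt_smul, hd]
    exact hG.step i
  · intro i k j m hik hj
    have e : ((x * P i) * h ^ m) • y = x • ((P i * h ^ m) • y) := by
      rw [smul_smul, mul_assoc]
    rw [e, M_Lin2_pt_smul, M_Lin2_pt_smul, hd, hd, hd]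
    exact hG.after i k j m hik hj
  · intro i k j m hik hj
    have e : ((x * P i) * h ^ m) • y = x • ((P i * h ^ m) • y) := by
      rw [smul_smul, mul_assoc]
    rw [e, M_Lin2_pt_smul, M_Lin2_pt_smul, hd, hd, hd]
    exact hG.before i k j m hik hj

end Pool.Agent.Lib.MP_7e344a_al
end

section

/-!
# MP_7e344a_al: M07a, a block near a translate of the path lies on the line of a block
-/

set_option autoImplicit false

namespace Pool.Agent.Lib.MP_7e344a_al

variable {A V : Type} [Group A] [MulAction A V] {Γ : SimpleGraph V} {δ : ℕ}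

/-- distance of two points of one block -/
theorem overA_block (hA : Act A V Γ δ) {h : A} {y : V} {C l : ℕ} (hL : Lox Γ h y C l)
    (P : ℤ → A) (i : ℤ) {j₁ j₂ M D : ℕ} (h₁ : j₁ ≤ M + D) (h₂ : j₂ ≤ M + D) :
    Γ.dist (pt h P y i j₁) (pt h P y i j₂) ≤
      Γ.dist y (h ^ M • y) + Γ.dist y (h ^ D • y) + C := by
  have key : ∀ a b : ℕ, a ≤ b → b ≤ M + D → Γ.dist (pt h P y i a) (pt h P y i b) ≤
      Γ.dist y (h ^ M • y) + Γ.dist y (h ^ D • y) + C := by
    intro a b hab hb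
    have e1 : Γ.dist (pt h P y i a) (pt h P y i b) = Γ.dist y (h ^ (b - a) • y) := by
      unfold pt
      rw [mul_smul, mul_smul, dist_smul hA.act]
      have := hA.dist_zpow h y (a : ℤ) (b : ℤ)
      rw [zpow_natCast, zpow_natCast] at this
      rw [this]
      congr 2
      rw [← zpow_natCast]
      congr 1
      push_cast [Nat.cast_sub hab]
      ring
    rw [e1]
    have e2 := hL.nat_add hA (b - a) (M + D - (b - a))
    rw [show b - a + (M + D - (b - a)) = M + D by omega] at e2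
    have e3 := hA.nat_sub h y M D
    omega
  rcases le_total j₁ j₂ with hle | hle
  · exact key j₁ j₂ hle h₂
  · rw [SimpleGraph.dist_comm]
    exact key j₂ j₁ hle h₁

/-- points with two full blocks in between are far -/
theorem overA_far (hA : Act A V Γ δ) {h : A} {y : V} {C l : ℕ} (hL : Lox Γ h y C l)
    {P : ℤ → A} {α : ℤ → ℕ} {C' M D E₁ : ℕ} (hG : RelGeom Γ h P α y C') (hlo : ∀ i, M ≤ α i)
    (hD : D ≤ M) (hM : l * (4 * C + 4 * C' + 2 * E₁ + 1) < M - D) {i i' : ℤ} {j j' : ℕ}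
    (hj : j ≤ α i) (hj' : j' ≤ α i')
    (hd : Γ.dist (pt h P y i j) (pt h P y i' j') ≤
      Γ.dist y (h ^ M • y) + Γ.dist y (h ^ D • y) + C + 2 * E₁) : i' < i + 3 := by
  by_contra hcon
  push Not at hcon
  have h1 := hG.far2 hA hj hj' hcon
  have h2 : ∀ s, M ≤ s → Γ.dist y (h ^ M • y) ≤ Γ.dist y (h ^ s • y) + C := by
    intro s hs
    have := hL.nat_add hA M (s - M)
    rw [show M + (s - M) = s by omega] at this
    omega
  have h3 := h2 _ (hlo (i + 1))
  have h4 := h2 _ (hlo (i + 2))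
  have h5 := hL.nat_add hA D (M - D)
  rw [show D + (M - D) = M by omega] at h5
  have h6 : Γ.dist y (h ^ (M - D) • y) ≤ 4 * C + 4 * C' + 2 * E₁ := by omega
  have h7 := hL.grow (M - D)
  have h8 : l * (Γ.dist y (h ^ (M - D) • y) + 1) ≤ l * (4 * C + 4 * C' + 2 * E₁ + 1) :=
    Nat.mul_le_mul_left _ (by omega)
  omega

theorem same_line (hA : Act A V Γ δ) {h : A} {y : V} {C l : ℕ} (hL : Lox Γ h y C l) (C' E₁ : ℕ) :
    ∃ M₁ : ℕ, ∀ (U : Set A) (P : ℤ → A) (α : ℤ → ℕ) (υ : ℤ → A) (K M c : ℕ), M₁ ≤ M →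
      RelData h U P α υ K M c → RelGeom Γ h P α y C' → ∀ (x : A) (i : ℤ),
      (∀ j ≤ α i, ∃ (i' : ℤ) (j' : ℕ), j' ≤ α i' ∧
        Γ.dist (pt h P y i j) (x • pt h P y i' j') ≤ E₁) →
      ∃ i' : ℤ, (P i)⁻¹ * x * P i' ∈ El h := by
  obtain ⟨B, hB⟩ := overlap_line hA hL E₁
  refine ⟨3 * B + 2 * (l * (4 * C + 4 * C' + 2 * E₁ + 1)) + 2, ?_⟩
  intro U P α υ K M c hM hR hG x i hpart
  set W := l * (4 * C + 4 * C' + 2 * E₁ + 1) with hW
  set D := M / 10 with hD
  have hDM : D ≤ M := Nat.div_le_self _ _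
  have hMD : W < M - D := by omega
  have hαi : α i ≤ M + D := by
    have := hR.hi i
    omega
  have hαlo : M ≤ α i := hR.lo i
  set n := α i / 3 with hn
  have hn3 : 3 * n ≤ α i := Nat.mul_div_le _ _
  have hnB : B ≤ n := by
    rw [hn, Nat.le_div_iff_mul_le (by norm_num)]
    omega
  -- two points with partners in the same block
  have same : ∀ (a b : ℕ) (i' : ℤ) (a' b' : ℕ), a + n ≤ b →
      Γ.dist (pt h P y i a) (x • pt h P y i' a') ≤ E₁ →
      Γ.dist (pt h P y i b) (x • pt h P y i' b') ≤ E₁ → (P i)⁻¹ * x * P i' ∈ El h := by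
    intro a b i' a' b' hab ha hb
    have tr : ∀ s s' : ℕ, Γ.dist (pt h P y i s) (x • pt h P y i' s') =
        Γ.dist (h ^ (s : ℤ) • y) (((P i)⁻¹ * x * P i' * h ^ (s' : ℤ)) • y) := by
      intro s s'
      rw [← dist_smul hA.act (P i)⁻¹]
      unfold pt
      congr 1
      · rw [← mul_smul, zpow_natCast]
        congr 1
        group
      · rw [← mul_smul, ← mul_smul, zpow_natCast]
        congr 1
        group
    rw [tr] at ha hb
    apply hB _ (a : ℤ) (b : ℤ) (a' : ℤ) (b' : ℤ) ha hb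
    omega
  -- partners are within three consecutive blocks
  have near : ∀ (a b : ℕ) (ia ib : ℤ) (a' b' : ℕ), a ≤ α i → b ≤ α i → a' ≤ α ia → b' ≤ α ib →
      Γ.dist (pt h P y i a) (x • pt h P y ia a') ≤ E₁ →
      Γ.dist (pt h P y i b) (x • pt h P y ib b') ≤ E₁ → ib < ia + 3 := by
    intro a b ia ib a' b' ha hb ha' hb' hda hdb
    apply overA_far hA hL hG hR.lo hDM hMD ha' hb'
    have t0 : Γ.dist (pt h P y ia a') (pt h P y ib b') =
        Γ.dist (x • pt h P y ia a') (x • pt h P y ib b') := (dist_smul hA.act _ _ _).symm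
    have t1 : Γ.dist (x • pt h P y ia a') (x • pt h P y ib b') ≤
        Γ.dist (x • pt h P y ia a') (pt h P y i a) + Γ.dist (pt h P y i a) (x • pt h P y ib b') :=
      hA.conn.dist_triangle
    have t2 : Γ.dist (pt h P y i a) (x • pt h P y ib b') ≤
        Γ.dist (pt h P y i a) (pt h P y i b) + Γ.dist (pt h P y i b) (x • pt h P y ib b') :=
      hA.conn.dist_triangle
    rw [SimpleGraph.dist_comm (u := x • pt h P y ia a') (v := pt h P y i a)] at t1
    have t3 := overA_block hA hL P i (j₁ := a) (j₂ := b) (ha.trans hαi) (hb.trans hαi)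
    omega
  obtain ⟨i0, a0, h0, d0⟩ := hpart 0 (Nat.zero_le _)
  obtain ⟨i1, a1, h1, d1⟩ := hpart n (by omega)
  obtain ⟨i2, a2, h2, d2⟩ := hpart (2 * n) (by omega)
  obtain ⟨i3, a3, h3, d3⟩ := hpart (3 * n) hn3
  have b0 : (0 : ℕ) ≤ α i := Nat.zero_le _
  have b1 : n ≤ α i := by omega
  have b2 : 2 * n ≤ α i := by omega
  have n01 := near 0 n i0 i1 a0 a1 b0 b1 h0 h1 d0 d1
  have n02 := near 0 (2 * n) i0 i2 a0 a2 b0 b2 h0 h2 d0 d2
  have n03 := near 0 (3 * n) i0 i3 a0 a3 b0 hn3 h0 h3 d0 d3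
  have n12 := near n (2 * n) i1 i2 a1 a2 b1 b2 h1 h2 d1 d2
  have n13 := near n (3 * n) i1 i3 a1 a3 b1 hn3 h1 h3 d1 d3
  have n23 := near (2 * n) (3 * n) i2 i3 a2 a3 b2 hn3 h2 h3 d2 d3
  have n10 := near n 0 i1 i0 a1 a0 b1 b0 h1 h0 d1 d0
  have n20 := near (2 * n) 0 i2 i0 a2 a0 b2 b0 h2 h0 d2 d0
  have n30 := near (3 * n) 0 i3 i0 a3 a0 hn3 b0 h3 h0 d3 d0
  have n21 := near (2 * n) n i2 i1 a2 a1 b2 b1 h2 h1 d2 d1
  have n31 := near (3 * n) n i3 i1 a3 a1 hn3 b1 h3 h1 d3 d1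
  have n32 := near (3 * n) (2 * n) i3 i2 a3 a2 hn3 b2 h3 h2 d3 d2
  by_cases e01 : i0 = i1
  · subst e01
    exact ⟨i0, same 0 n i0 a0 a1 (by omega) d0 d1⟩
  by_cases e02 : i0 = i2
  · subst e02
    exact ⟨i0, same 0 (2 * n) i0 a0 a2 (by omega) d0 d2⟩
  by_cases e03 : i0 = i3
  · subst e03
    exact ⟨i0, same 0 (3 * n) i0 a0 a3 (by omega) d0 d3⟩
  by_cases e12 : i1 = i2
  · subst e12
    exact ⟨i1, same n (2 * n) i1 a1 a2 (by omega) d1 d2⟩
  by_cases e13 : i1 = i3
  · subst e13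
    exact ⟨i1, same n (3 * n) i1 a1 a3 (by omega) d1 d3⟩
  by_cases e23 : i2 = i3
  · subst e23
    exact ⟨i2, same (2 * n) (3 * n) i2 a2 a3 (by omega) d2 d3⟩
  exfalso
  omega

end Pool.Agent.Lib.MP_7e344a_al
end

section

/-!
# MP_7e344a_al: M07b, the ends of blocks on the same line match
-/

set_option autoImplicit false

namespace Pool.Agent.Lib.MP_7e344a_al

variable {A V : Type} [Group A] [MulAction A V] {Γ : SimpleGraph V} {δ : ℕ}

theorem overB_core (hc : Γ.Connected) {a b q q' v v' : V} {C' R E₁ : ℕ}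
    (h1 : Γ.dist a q + Γ.dist q v ≤ Γ.dist a v + C')
    (h2 : Γ.dist b q' + Γ.dist q' v' ≤ Γ.dist b v' + C')
    (hv : Γ.dist q' v ≤ R) (hv' : Γ.dist q v' ≤ R) (hE : Γ.dist a b ≤ E₁) :
    Γ.dist q q' ≤ E₁ + C' + 2 * R := by
  have t1 : Γ.dist q q' ≤ Γ.dist q v + Γ.dist v q' := hc.dist_triangle
  have t2 : Γ.dist a v ≤ Γ.dist a q' + Γ.dist q' v := hc.dist_triangle
  have t3 : Γ.dist q' q ≤ Γ.dist q' v' + Γ.dist v' q := hc.dist_triangle
  have t4 : Γ.dist b v' ≤ Γ.dist b q + Γ.dist q v' := hc.dist_triangle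
  have t5 : Γ.dist a q' ≤ Γ.dist a b + Γ.dist b q' := hc.dist_triangle
  have t6 : Γ.dist b q ≤ Γ.dist b a + Γ.dist a q := hc.dist_triangle
  rw [SimpleGraph.dist_comm (u := v) (v := q')] at t1
  rw [SimpleGraph.dist_comm (u := q') (v := q), SimpleGraph.dist_comm (u := v') (v := q)] at t3
  rw [SimpleGraph.dist_comm (u := b) (v := a)] at t6
  omega

theorem overB_line (hA : Act A V Γ δ) {h : A} {y : V} {R : ℕ}
    (hR : ∀ g ∈ El h, ∃ m : ℤ, Γ.dist (g • y) (h ^ m • y) ≤ R) {p p' : A}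
    (he : p⁻¹ * p' ∈ El h) (s : ℤ) : ∃ m : ℤ, Γ.dist ((p' * h ^ s) • y) ((p * h ^ m) • y) ≤ R := by
  obtain ⟨m, hm⟩ := hR (p⁻¹ * p' * h ^ s)
    ((El h).mul_mem he ((El h).zpow_mem (self_mem_El h) s))
  refine ⟨m, ?_⟩
  have e1 : (p' * h ^ s) • y = p • ((p⁻¹ * p' * h ^ s) • y) := by
    rw [← mul_smul]
    congr 1
    group
  have e2 : (p * h ^ m) • y = p • (h ^ m • y) := by rw [mul_smul]
  rw [e1, e2, dist_smul hA.act]
  exact hm

theorem overB_pt {h : A} {P : ℤ → A} {y : V} (x : A) (i : ℤ) (j : ℕ) :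
    x • pt h P y i j = (x * P i * h ^ (j : ℤ)) • y := by
  unfold pt
  rw [← mul_smul, zpow_natCast, mul_assoc]

theorem overB_pt' {h : A} {P : ℤ → A} {y : V} (i : ℤ) (j : ℕ) :
    pt h P y i j = (P i * h ^ (j : ℤ)) • y := by
  unfold pt
  rw [zpow_natCast]

theorem match_before (hA : Act A V Γ δ) {h : A} {P : ℤ → A} {α : ℤ → ℕ} {y : V} {C' R : ℕ}
    (hG : RelGeom Γ h P α y C')
    (hR : ∀ g ∈ El h, ∃ m : ℤ, Γ.dist (g • y) (h ^ m • y) ≤ R) {x : A} {i i' : ℤ}
    (he : (P i)⁻¹ * x * P i' ∈ El h) {k k' : ℤ} {j j' : ℕ} (hk : k < i) (hj : j ≤ α k)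
    (hj' : j' ≤ α k') {E₁ : ℕ} (hE : Γ.dist (pt h P y k j) (x • pt h P y k' j') ≤ E₁)
    (hbig : E₁ + R + C' < Γ.dist (pt h P y k j) (pt h P y i 0)) :
    Γ.dist (pt h P y i 0) (x • pt h P y i' 0) ≤ E₁ + C' + 2 * R ∨
      Γ.dist (pt h P y i 0) (x • pt h P y i' (α i')) ≤ E₁ + C' + 2 * R := by
  have he1 : (P i)⁻¹ * (x * P i') ∈ El h := by rwa [← mul_assoc]
  have he2 : (x * P i')⁻¹ * P i ∈ El h := by
    have := (El h).inv_mem he1
    rwa [mul_inv_rev, inv_inv] at this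
  have hG' := hG.smul hA x
  have hbef := hG.before i k j
  rcases lt_trichotomy k' i' with hlt | heq | hgt
  · left
    obtain ⟨m, hm⟩ := overB_line hA hR he1 ((0 : ℕ) : ℤ)
    obtain ⟨m', hm'⟩ := overB_line hA hR he2 ((0 : ℕ) : ℤ)
    rw [← overB_pt] at hm
    rw [← overB_pt'] at hm'
    have h2 := hG'.before i' k' j' m' hlt hj'
    have e3 : ∀ (a : ℤ) (b : ℕ), pt h (fun i => x * P i) y a b = x • pt h P y a b := by
      intro a b
      rw [overB_pt, overB_pt']
    rw [e3, e3] at h2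
    exact overB_core hA.conn (hbef m hk hj) h2 hm hm' hE
  · exfalso
    subst heq
    obtain ⟨m, hm⟩ := overB_line hA hR he1 ((j' : ℕ) : ℤ)
    rw [← overB_pt] at hm
    have h1 := hbef m hk hj
    have t1 : Γ.dist (pt h P y k j) ((P i * h ^ m) • y) ≤
      Γ.dist (pt h P y k j) (x • pt h P y k' j') +
        Γ.dist (x • pt h P y k' j') ((P i * h ^ m) • y) := hA.conn.dist_triangle
    omega
  · right
    obtain ⟨m, hm⟩ := overB_line hA hR he1 ((α i' : ℕ) : ℤ)
    obtain ⟨m', hm'⟩ := overB_line hA hR he2 ((0 : ℕ) : ℤ)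
    rw [← overB_pt] at hm
    rw [← overB_pt'] at hm'
    have h2 := hG'.after i' k' j' m' hgt hj'
    have e3 : ∀ (a : ℤ) (b : ℕ), pt h (fun i => x * P i) y a b = x • pt h P y a b := by
      intro a b
      rw [overB_pt, overB_pt']
    rw [e3, e3] at h2
    exact overB_core hA.conn (hbef m hk hj) h2 hm hm' hE

theorem match_after (hA : Act A V Γ δ) {h : A} {P : ℤ → A} {α : ℤ → ℕ} {y : V} {C' R : ℕ}
    (hG : RelGeom Γ h P α y C')
    (hR : ∀ g ∈ El h, ∃ m : ℤ, Γ.dist (g • y) (h ^ m • y) ≤ R) {x : A} {i i' : ℤ}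
    (he : (P i)⁻¹ * x * P i' ∈ El h) {k k' : ℤ} {j j' : ℕ} (hk : i < k) (hj : j ≤ α k)
    (hj' : j' ≤ α k') {E₁ : ℕ} (hE : Γ.dist (pt h P y k j) (x • pt h P y k' j') ≤ E₁)
    (hbig : E₁ + R + C' < Γ.dist (pt h P y k j) (pt h P y i (α i))) :
    Γ.dist (pt h P y i (α i)) (x • pt h P y i' 0) ≤ E₁ + C' + 2 * R ∨
      Γ.dist (pt h P y i (α i)) (x • pt h P y i' (α i')) ≤ E₁ + C' + 2 * R := by
  have he1 : (P i)⁻¹ * (x * P i') ∈ El h := by rwa [← mul_assoc]
  have he2 : (x * P i')⁻¹ * P i ∈ El h := by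
    have := (El h).inv_mem he1
    rwa [mul_inv_rev, inv_inv] at this
  have hG' := hG.smul hA x
  have haft := hG.after i k j
  rcases lt_trichotomy k' i' with hlt | heq | hgt
  · left
    obtain ⟨m, hm⟩ := overB_line hA hR he1 ((0 : ℕ) : ℤ)
    obtain ⟨m', hm'⟩ := overB_line hA hR he2 ((α i : ℕ) : ℤ)
    rw [← overB_pt] at hm
    rw [← overB_pt'] at hm'
    have h2 := hG'.before i' k' j' m' hlt hj'
    have e3 : ∀ (a : ℤ) (b : ℕ), pt h (fun i => x * P i) y a b = x • pt h P y a b := by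
      intro a b
      rw [overB_pt, overB_pt']
    rw [e3, e3] at h2
    exact overB_core hA.conn (haft m hk hj) h2 hm hm' hE
  · exfalso
    subst heq
    obtain ⟨m, hm⟩ := overB_line hA hR he1 ((j' : ℕ) : ℤ)
    rw [← overB_pt] at hm
    have h1 := haft m hk hj
    have t1 : Γ.dist (pt h P y k j) ((P i * h ^ m) • y) ≤
      Γ.dist (pt h P y k j) (x • pt h P y k' j') +
        Γ.dist (x • pt h P y k' j') ((P i * h ^ m) • y) := hA.conn.dist_triangle
    omega
  · right
    obtain ⟨m, hm⟩ := overB_line hA hR he1 ((α i' : ℕ) : ℤ)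
    obtain ⟨m', hm'⟩ := overB_line hA hR he2 ((α i : ℕ) : ℤ)
    rw [← overB_pt] at hm
    rw [← overB_pt'] at hm'
    have h2 := hG'.after i' k' j' m' hgt hj'
    have e3 : ∀ (a : ℤ) (b : ℕ), pt h (fun i => x * P i) y a b = x • pt h P y a b := by
      intro a b
      rw [overB_pt, overB_pt']
    rw [e3, e3] at h2
    exact overB_core hA.conn (haft m hk hj) h2 hm hm' hE

end Pool.Agent.Lib.MP_7e344a_al
end

section

/-!
# MP_7e344a_al: M07c, matching of blocks
-/

set_option autoImplicit false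

namespace Pool.Agent.Lib.MP_7e344a_al

variable {A V : Type} [Group A] [MulAction A V] {Γ : SimpleGraph V} {δ : ℕ}

theorem overC_big {h : A} {y : V} {C l : ℕ} (hL : Lox Γ h y C l) {T m : ℕ}
    (hm : l * (T + 1) + 1 ≤ m) : T < Γ.dist y (h ^ m • y) := by
  by_contra hcon
  have h1 := hL.grow m
  have h2 : l * (Γ.dist y (h ^ m • y) + 1) ≤ l * (T + 1) :=
    Nat.mul_le_mul_left _ (by omega)
  omega

/-- two powers near the same point have near exponents -/
theorem overC_two (hA : Act A V Γ δ) {h : A} {y : V} {a b : ℤ} {w : V} {E' : ℕ}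
    (h1 : Γ.dist (h ^ a • y) w ≤ E') (h2 : Γ.dist (h ^ b • y) w ≤ E') :
    Γ.dist y (h ^ (b - a) • y) ≤ 2 * E' := by
  have h3 : Γ.dist (h ^ a • y) (h ^ b • y) ≤ Γ.dist (h ^ a • y) w + Γ.dist w (h ^ b • y) :=
    hA.conn.dist_triangle
  rw [hA.dist_zpow, SimpleGraph.dist_comm (u := w)] at h3
  omega

theorem block_match (hA : Act A V Γ δ) {h : A} {y : V} {C l : ℕ} (hL : Lox Γ h y C l)
    (C' E₁ : ℕ) :
    ∃ M₁ c₄ E₂ : ℕ, ∀ (U : Set A) (P : ℤ → A) (α : ℤ → ℕ) (υ : ℤ → A) (K M c : ℕ), M₁ ≤ M →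
      c₄ ≤ c → RelData h U P α υ K M c → RelGeom Γ h P α y C' → ∀ (x : A) (i : ℤ),
      (∀ i₀, i - 1 ≤ i₀ → i₀ ≤ i + 1 → ∀ j ≤ α i₀, ∃ (i' : ℤ) (j' : ℕ), j' ≤ α i' ∧
        Γ.dist (pt h P y i₀ j) (x • pt h P y i' j') ≤ E₁) →
      ∃ k : ℤ, ∃ e ∈ El h, x * P K ^ k * P i = P i * e ∧ Γ.dist y (e • y) ≤ E₂ := by
  obtain ⟨R, hR⟩ := El_near hA hL
  obtain ⟨Ms, hs⟩ := same_line hA hL C' E₁
  set E' : ℕ := E₁ + C' + 2 * R with hE'
  set T : ℕ := E₁ + R + 2 * C' + 2 * E' with hT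
  refine ⟨Ms + (l * (T + 1) + 1), l * (2 * E' + 1), E', ?_⟩
  intro U P α υ K M c hM hc hD hG x i hyp
  have h1 : h ≠ 1 := hL.ne_one hA
  have hact := hA.act
  have hbig : ∀ i₀, T < Γ.dist y (h ^ (α i₀) • y) := fun i₀ =>
    overC_big hL (by have := hD.lo i₀; omega)
  obtain ⟨i', he⟩ := hs U P α υ K M c (by omega) hD hG x i
    (hyp i (by omega) (by omega))
  set e : A := (P i)⁻¹ * x * P i' with hedef
  have hPe : x * P i' = P i * e := by rw [hedef]; group
  have hcomm : ∀ n : ℤ, e * h ^ n = h ^ n * e := by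
    intro n
    exact El_comm hA h1 he (Subgroup.zpow_mem _ (self_mem_El h) n)
  -- translate distances
  have hpt : ∀ (j j' : ℕ), Γ.dist (pt h P y i j) (x • pt h P y i' j') =
      Γ.dist (h ^ (j : ℤ) • y) (h ^ (j' : ℤ) • (e • y)) := by
    intro j j'
    have e1 : pt h P y i j = P i • (h ^ (j : ℤ) • y) := by
      unfold pt; rw [mul_smul, zpow_natCast]
    have e2 : x • pt h P y i' j' = P i • (h ^ (j' : ℤ) • (e • y)) := by
      unfold pt
      rw [← mul_smul, ← mul_smul, ← mul_smul, ← mul_assoc, hPe, mul_assoc (P i), ← zpow_natCast,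
        hcomm, mul_assoc]
    rw [e1, e2, dist_smul hact]
  -- the start
  have hb : Γ.dist (h ^ (0 : ℤ) • y) (h ^ (0 : ℤ) • (e • y)) ≤ E' ∨
      Γ.dist (h ^ (0 : ℤ) • y) (h ^ ((α i' : ℕ) : ℤ) • (e • y)) ≤ E' := by
    obtain ⟨k', j', hj', hdist⟩ := hyp (i - 1) (by omega) (by omega) 0 (Nat.zero_le _)
    have hlen := hG.len (i - 1) 1
    simp only [Finset.sum_range_one, Nat.cast_zero, add_zero, Nat.cast_one, sub_add_cancel,
      one_mul] at hlen
    have e1 : pt h P y (i - 1) 0 = P (i - 1) • y := by unfold pt; simp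
    have e2 : pt h P y i 0 = P i • y := by unfold pt; simp
    have hbg := hbig (i - 1)
    have := match_before hA hG hR (x := x) (i := i) (i' := i') he (k := i - 1) (by omega)
      (Nat.zero_le _) hj' hdist (by rw [e1, e2]; omega)
    have q1 := hpt 0 0
    have q2 := hpt 0 (α i')
    rw [q1, q2] at this
    simpa using this
  have ha : Γ.dist (h ^ ((α i : ℕ) : ℤ) • y) (h ^ (0 : ℤ) • (e • y)) ≤ E' ∨
      Γ.dist (h ^ ((α i : ℕ) : ℤ) • y) (h ^ ((α i' : ℕ) : ℤ) • (e • y)) ≤ E' := by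
    obtain ⟨k', j', hj', hdist⟩ := hyp (i + 1) (by omega) (by omega) (α (i + 1)) le_rfl
    have hst := hG.step i
    have hbg := hbig (i + 1)
    have e1 : pt h P y (i + 1) (α (i + 1)) = P (i + 1) • (h ^ (α (i + 1)) • y) := by
      unfold pt; rw [mul_smul]
    have e2 : pt h P y (i + 1) 0 = P (i + 1) • y := by unfold pt; simp
    have d1 : Γ.dist (pt h P y (i + 1) 0) (pt h P y (i + 1) (α (i + 1))) =
        Γ.dist y (h ^ (α (i + 1)) • y) := by
      rw [e1, e2, dist_smul hact]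
    have d2 : Γ.dist (pt h P y (i + 1) 0) (pt h P y (i + 1) (α (i + 1))) ≤
        Γ.dist (pt h P y (i + 1) 0) (pt h P y i (α i)) +
        Γ.dist (pt h P y i (α i)) (pt h P y (i + 1) (α (i + 1))) := hA.conn.dist_triangle
    rw [SimpleGraph.dist_comm (u := pt h P y (i + 1) 0) (v := pt h P y i (α i)),
      SimpleGraph.dist_comm (u := pt h P y i (α i)) (v := pt h P y (i + 1) (α (i + 1)))] at d2
    have := match_after hA hG hR (x := x) (i := i) (i' := i') he (k := i + 1) (by omega)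
      le_rfl hj' hdist (by omega)
    have q1 := hpt (α i) 0
    have q2 := hpt (α i) (α i')
    rw [q1, q2] at this
    simpa using this
  have hbi := hbig i
  -- shift of a distance by a power
  have hsh : ∀ a b c : ℤ, Γ.dist (h ^ a • y) (h ^ b • (e • y)) =
      Γ.dist (h ^ (a + c) • y) (h ^ (b + c) • (e • y)) := by
    intro a b c
    rw [add_comm a c, add_comm b c, zpow_add, zpow_add, mul_smul (h ^ c) (h ^ a),
      mul_smul (h ^ c) (h ^ b), dist_smul hact (h ^ c)]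
  have hbig' : ∀ m : ℤ, (α i : ℤ) ≤ m → 2 * E' < Γ.dist y (h ^ m • y) := by
    intro m hm
    obtain ⟨n, rfl⟩ : ∃ n : ℕ, m = n := ⟨m.toNat, by omega⟩
    rw [zpow_natCast]
    have hlo := hD.lo i
    have hmono : l * (T + 1) + 1 ≤ n := by omega
    have := overC_big hL (T := T) (m := n) hmono
    omega
  rcases hb with hb | hb <;> rcases ha with ha | ha
  · exfalso
    have := overC_two hA hb ha
    rw [sub_zero] at this
    have := hbig' (α i) le_rfl
    omega
  · -- good case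
    have hb0 : Γ.dist y (e • y) ≤ E' := by simpa only [zpow_zero, one_smul] using hb
    rw [hsh 0 0 (α i')] at hb
    rw [zero_add] at hb
    have h2 := overC_two hA hb ha
    have h3 : |(α i' : ℤ) - (α i : ℤ)| ≤ (c : ℤ) := by
      have h4 := hL.grow_int hA ((α i : ℤ) - (α i' : ℤ))
      have h5 : l * (Γ.dist y (h ^ ((α i : ℤ) - α i') • y) + 1) ≤ l * (2 * E' + 1) :=
        Nat.mul_le_mul_left _ (by omega)
      rw [abs_le]
      omega
    obtain ⟨k, hk⟩ := hD.gap i' i h3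
    refine ⟨k, e, he, ?_, ?_⟩
    · have hi' : i' = i + K * k := by omega
      rw [mul_assoc, ← hD.per_zpow, ← hi', hPe]
    · exact hb0
  · exfalso
    -- reversed
    rw [hsh 0 (α i') (-(α i'))] at hb
    rw [add_neg_cancel, zero_add] at hb
    have h2 := overC_two hA hb ha
    have := hbig' ((α i : ℤ) - -((α i' : ℕ) : ℤ)) (by omega)
    omega
  · exfalso
    have := overC_two hA hb ha
    rw [sub_zero] at this
    have := hbig' (α i) le_rfl
    omega

end Pool.Agent.Lib.MP_7e344a_al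
end

section

/-!
# MP_7e344a_al: M07d, the overlap theorem
-/

set_option autoImplicit false

namespace Pool.Agent.Lib.MP_7e344a_al

variable {A V : Type} [Group A] [MulAction A V] {Γ : SimpleGraph V} {δ : ℕ}

theorem OverD_pt_smul (h : A) (P : ℤ → A) (y : V) (x : A) (i : ℤ) (j : ℕ) :
    pt h (fun i => x * P i) y i j = x • pt h P y i j := by
  unfold pt
  rw [mul_assoc, mul_smul]

/-- all path points between two points which are near to points of the translated path are near to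
the translated path -/
theorem OverD_near (hA : Act A V Γ δ) {κ : ℕ} (hF : FP Γ κ) {h : A} {P : ℤ → A} {α : ℤ → ℕ}
    {y : V} {C' E : ℕ} (hG : RelGeom Γ h P α y C') {x : A} {i₁ i₂ i₁' i₂' : ℤ}
    {j₁ j₂ j₁' j₂' : ℕ} (h₁ : j₁ ≤ α i₁) (h₂ : j₂ ≤ α i₂) (h₁' : j₁' ≤ α i₁') (h₂' : j₂' ≤ α i₂')
    (hE₁ : Γ.dist (pt h P y i₁ j₁) (x • pt h P y i₁' j₁') ≤ E)
    (hE₂ : Γ.dist (pt h P y i₂ j₂) (x • pt h P y i₂' j₂') ≤ E)
    {i : ℤ} {j : ℕ} (hj : j ≤ α i) (hi₁ : i₁ < i) (hi₂ : i < i₂) :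
    ∃ (i' : ℤ) (j' : ℕ), j' ≤ α i' ∧ Γ.dist (pt h P y i j) (x • pt h P y i' j') ≤
      2 * C' + (C' + 4 * E) + Γ.dist y (h • y) + κ := by
  have hG' := hG.smul hA x
  have hadd := hG.add i₁ i i₂ j₁ j j₂ h₁ hj h₂ (Or.inl hi₁) (Or.inl hi₂)
  have t1 : Γ.dist (x • pt h P y i₁' j₁') (pt h P y i j) ≤
      Γ.dist (x • pt h P y i₁' j₁') (pt h P y i₁ j₁) + Γ.dist (pt h P y i₁ j₁) (pt h P y i j) :=
    hA.conn.dist_triangle
  have t2 : Γ.dist (pt h P y i j) (x • pt h P y i₂' j₂') ≤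
      Γ.dist (pt h P y i j) (pt h P y i₂ j₂) + Γ.dist (pt h P y i₂ j₂) (x • pt h P y i₂' j₂') :=
    hA.conn.dist_triangle
  have t3 : Γ.dist (pt h P y i₁ j₁) (pt h P y i₂ j₂) ≤
      Γ.dist (pt h P y i₁ j₁) (x • pt h P y i₁' j₁') +
        Γ.dist (x • pt h P y i₁' j₁') (pt h P y i₂ j₂) :=
    hA.conn.dist_triangle
  have t4 : Γ.dist (x • pt h P y i₁' j₁') (pt h P y i₂ j₂) ≤
      Γ.dist (x • pt h P y i₁' j₁') (x • pt h P y i₂' j₂') +
        Γ.dist (x • pt h P y i₂' j₂') (pt h P y i₂ j₂) :=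
    hA.conn.dist_triangle
  rw [SimpleGraph.dist_comm (u := x • pt h P y i₁' j₁') (v := pt h P y i₁ j₁)] at t1
  rw [SimpleGraph.dist_comm (u := x • pt h P y i₂' j₂') (v := pt h P y i₂ j₂)] at t4
  rcases le_total i₁' i₂' with hle | hle
  · by_cases hlex : LexLE i₁' j₁' i₂' j₂'
    · obtain ⟨i', j', hj', -, -, hd⟩ := hG'.near hA hF (v := pt h P y i j) (E := C' + 4 * E)
        h₁' h₂' hlex (by
          rw [OverD_pt_smul, OverD_pt_smul]
          omega)
      rw [OverD_pt_smul] at hd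
      exact ⟨i', j', hj', hd⟩
    · have hlex' : LexLE i₂' j₂' i₁' j₁' := by
        unfold LexLE at hlex ⊢
        push Not at hlex
        right
        have := hlex.1
        have h3 : i₁' = i₂' := le_antisymm hle this
        exact ⟨h3.symm, (hlex.2 h3).le⟩
      obtain ⟨i', j', hj', -, -, hd⟩ := hG'.near hA hF (v := pt h P y i j) (E := C' + 4 * E)
        h₂' h₁' hlex' (by
          rw [OverD_pt_smul, OverD_pt_smul]
          rw [SimpleGraph.dist_comm (u := x • pt h P y i₂' j₂') (v := pt h P y i j),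
            SimpleGraph.dist_comm (u := pt h P y i j) (v := x • pt h P y i₁' j₁'),
            SimpleGraph.dist_comm (u := x • pt h P y i₂' j₂') (v := x • pt h P y i₁' j₁')]
          omega)
      rw [OverD_pt_smul] at hd
      exact ⟨i', j', hj', hd⟩
  · by_cases hlex' : LexLE i₂' j₂' i₁' j₁'
    · obtain ⟨i', j', hj', -, -, hd⟩ := hG'.near hA hF (v := pt h P y i j) (E := C' + 4 * E)
        h₂' h₁' hlex' (by
          rw [OverD_pt_smul, OverD_pt_smul]
          rw [SimpleGraph.dist_comm (u := x • pt h P y i₂' j₂') (v := pt h P y i j),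
            SimpleGraph.dist_comm (u := pt h P y i j) (v := x • pt h P y i₁' j₁'),
            SimpleGraph.dist_comm (u := x • pt h P y i₂' j₂') (v := x • pt h P y i₁' j₁')]
          omega)
      rw [OverD_pt_smul] at hd
      exact ⟨i', j', hj', hd⟩
    · have hlex : LexLE i₁' j₁' i₂' j₂' := by
        unfold LexLE at hlex' ⊢
        push Not at hlex'
        right
        have := hlex'.1
        have h3 : i₂' = i₁' := le_antisymm hle this
        exact ⟨h3.symm, (hlex'.2 h3).le⟩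
      obtain ⟨i', j', hj', -, -, hd⟩ := hG'.near hA hF (v := pt h P y i j) (E := C' + 4 * E)
        h₁' h₂' hlex (by
          rw [OverD_pt_smul, OverD_pt_smul]
          omega)
      rw [OverD_pt_smul] at hd
      exact ⟨i', j', hj', hd⟩

theorem OverD_per {h : A} {U : Set A} {P : ℤ → A} {α : ℤ → ℕ} {υ : ℤ → A} {K M c : ℕ}
    (hD : RelData h U P α υ K M c) (i k : ℤ) : P (i + K * k) = P K ^ k * P i := by
  induction k using Int.induction_on with
  | zero => simp
  | succ k ih =>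
    have h1 := hD.per (i + K * k)
    rw [show i + (K : ℤ) * ((k : ℤ) + 1) = i + K * k + K by ring, h1, ih, ← mul_assoc,
      add_comm (k : ℤ) 1, zpow_one_add]
  | pred k ih =>
    have h1 := hD.per (i + K * (-(k : ℤ) - 1))
    rw [show i + (K : ℤ) * (-(k : ℤ) - 1) + K = i + K * (-(k : ℤ)) by ring, ih] at h1
    rw [show (-(k : ℤ) - 1) = -1 + -k by ring, zpow_add, zpow_neg_one, mul_assoc,
      show -1 + -(k : ℤ) = -(k : ℤ) - 1 by ring, h1, inv_mul_cancel_left]

/-- different translates of a break point by powers of the relator are far from each other -/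
theorem OverD_far {h : A} {y : V} {U : Set A} {P : ℤ → A}
    {α : ℤ → ℕ} {υ : ℤ → A} {K M c C' B : ℕ} (hD : RelData h U P α υ K M c)
    (hG : RelGeom Γ h P α y C') (hbig : ∀ i, C' + B < Γ.dist y (h ^ α i • y)) (i k k' : ℤ)
    (hk : k < k') : B < Γ.dist ((P K ^ k * P i) • y) ((P K ^ k' * P i) • y) := by
  rw [← OverD_per hD, ← OverD_per hD]
  have hpos : 0 < (K : ℤ) * (k' - k) := mul_pos (by exact_mod_cast hD.Kpos) (by omega)
  obtain ⟨n, hn⟩ := Int.eq_ofNat_of_zero_le hpos.le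
  have h1 := hG.len (i + K * k) n
  have h2 : i + (K : ℤ) * k' = i + K * k + n := by
    rw [← hn]; ring
  rw [h2]
  have hn0 : 0 < n := by
    rw [hn] at hpos
    exact_mod_cast hpos
  have h3 : n * (C' + B + 1) ≤ ∑ l ∈ Finset.range n, Γ.dist y (h ^ (α (i + K * k + l)) • y) := by
    calc n * (C' + B + 1) = ∑ _l ∈ Finset.range n, (C' + B + 1) := by simp
      _ ≤ _ := Finset.sum_le_sum fun l _ => hbig _
  have h4 : n * (C' + B + 1) = n * C' + n * (B + 1) := by ring
  have h5 : B + 1 ≤ n * (B + 1) := Nat.le_mul_of_pos_left _ hn0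
  omega

theorem overlap (hA : Act A V Γ δ) {h : A} {y : V} {C l : ℕ} (hL : Lox Γ h y C l) {U : Set A}
    (hU : U.Finite) (hUE : ∀ u ∈ U, u ∉ El h) (C' E : ℕ) :
    ∃ M₁ c₄ : ℕ, ∀ (P : ℤ → A) (α : ℤ → ℕ) (υ : ℤ → A) (K M c : ℕ), M₁ ≤ M → c₄ ≤ c →
      RelData h U P α υ K M c → RelGeom Γ h P α y C' →
      ∀ (x : A) (i₁ i₂ i₁' i₂' : ℤ) (j₁ j₂ j₁' j₂' : ℕ), j₁ ≤ α i₁ → j₂ ≤ α i₂ → j₁' ≤ α i₁' →
        j₂' ≤ α i₂' → i₁ + 5 ≤ i₂ → Γ.dist (pt h P y i₁ j₁) (x • pt h P y i₁' j₁') ≤ E →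
        Γ.dist (pt h P y i₂ j₂) (x • pt h P y i₂' j₂') ≤ E → x ∈ Subgroup.zpowers (P K) := by
  have hF : FP Γ (6 * δ + 2) := fp_of_slim hA.conn hA.slim
  have h1 : h ≠ 1 := hL.ne_one hA
  obtain ⟨DU, hDU⟩ : ∃ DU : ℕ, ∀ u ∈ U, Γ.dist y (u • y) ≤ DU := by
    obtain ⟨DU, hDU⟩ := (hU.image (fun u => Γ.dist y (u • y))).bddAbove
    exact ⟨DU, fun u hu => hDU ⟨u, hu, rfl⟩⟩
  obtain ⟨M₁, c₄, E₂, hbm⟩ := block_match hA hL C'
    (2 * C' + (C' + 4 * E) + Γ.dist y (h • y) + (6 * δ + 2))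
  refine ⟨max M₁ (l * (C' + (2 * DU + 2 * E₂) + 1) + 1), c₄, ?_⟩
  intro P α υ K M c hM hc hD hG x i₁ i₂ i₁' i₂' j₁ j₂ j₁' j₂' hj₁ hj₂ hj₁' hj₂' hi hE₁ hE₂
  have hM₁ : M₁ ≤ M := (le_max_left _ _).trans hM
  have hM₂ : l * (C' + (2 * DU + 2 * E₂) + 1) + 1 ≤ M := (le_max_right _ _).trans hM
  have hbig : ∀ i, C' + (2 * DU + 2 * E₂) < Γ.dist y (h ^ α i • y) := by
    intro i
    by_contra hcon
    push Not at hcon
    have h2 := hL.grow (α i)
    have h3 := hD.lo i
    have h4 : l * (Γ.dist y (h ^ α i • y) + 1) ≤ l * (C' + (2 * DU + 2 * E₂) + 1) :=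
      Nat.mul_le_mul_left _ (by omega)
    omega
  have hnear : ∀ i₀, i₁ < i₀ → i₀ < i₂ → ∀ j ≤ α i₀, ∃ (i' : ℤ) (j' : ℕ), j' ≤ α i' ∧
        Γ.dist (pt h P y i₀ j) (x • pt h P y i' j') ≤
          2 * C' + (C' + 4 * E) + Γ.dist y (h • y) + (6 * δ + 2) := by
    intro i₀ h2 h3 j hj
    exact OverD_near hA hF hG hj₁ hj₂ hj₁' hj₂' hE₁ hE₂ hj h2 h3
  obtain ⟨k, e, he, hke, hde⟩ := hbm U P α υ K M c hM₁ hc hD hG x (i₁ + 2)
    (fun i₀ h2 h3 => hnear i₀ (by omega) (by omega))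
  obtain ⟨k', e', he', hke', hde'⟩ := hbm U P α υ K M c hM₁ hc hD hG x (i₁ + 2 + 1)
    (fun i₀ h2 h3 => hnear i₀ (by omega) (by omega))
  set i : ℤ := i₁ + 2 with hidef
  have hstep := hD.step i
  have hυU : υ i ∈ U := hD.mem i
  have hcomm : e * h ^ α i = h ^ α i * e :=
    El_comm hA h1 he ((El h).pow_mem (self_mem_El h) _)
  -- the image of the break point `i + 1`
  have hA1 : x * P K ^ k * P (i + 1) = P i * h ^ α i * e * υ i := by
    rw [hstep, ← mul_assoc, ← mul_assoc, hke, mul_assoc (P i) e, hcomm]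
    simp only [mul_assoc]
  have hkk : k = k' := by
    have e1 : Γ.dist ((x * P K ^ k * P (i + 1)) • y) (P (i + 1) • y) ≤ 2 * DU + E₂ := by
      rw [hA1, hstep]
      have e2 : Γ.dist ((P i * h ^ α i * e * υ i) • y) ((P i * h ^ α i * υ i) • y) =
          Γ.dist (e • υ i • y) (υ i • y) := by
        rw [mul_assoc (P i * h ^ α i) e, mul_smul, mul_smul (P i * h ^ α i) (υ i),
          dist_smul hA.act, mul_smul]
      rw [e2]
      have e3 : Γ.dist (e • υ i • y) (υ i • y) ≤ Γ.dist (e • υ i • y) (e • y) +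
          Γ.dist (e • y) (υ i • y) := hA.conn.dist_triangle
      have e4 : Γ.dist (e • y) (υ i • y) ≤ Γ.dist (e • y) y + Γ.dist y (υ i • y) :=
        hA.conn.dist_triangle
      rw [dist_smul hA.act, SimpleGraph.dist_comm (u := υ i • y) (v := y)] at e3
      rw [SimpleGraph.dist_comm (u := e • y) (v := y)] at e4
      have e5 := hDU _ hυU
      omega
    have e6 : Γ.dist ((x * P K ^ k' * P (i + 1)) • y) (P (i + 1) • y) ≤ E₂ := by
      rw [hke', mul_smul, dist_smul hA.act, SimpleGraph.dist_comm]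
      exact hde'
    have e7 : Γ.dist ((P K ^ k * P (i + 1)) • y) ((P K ^ k' * P (i + 1)) • y) ≤
        2 * DU + 2 * E₂ := by
      have e8 : Γ.dist ((x * P K ^ k * P (i + 1)) • y) ((x * P K ^ k' * P (i + 1)) • y) ≤
          Γ.dist ((x * P K ^ k * P (i + 1)) • y) (P (i + 1) • y) +
            Γ.dist (P (i + 1) • y) ((x * P K ^ k' * P (i + 1)) • y) := hA.conn.dist_triangle
      rw [SimpleGraph.dist_comm (u := P (i + 1) • y)] at e8
      rw [mul_assoc x, mul_assoc x, mul_smul x, mul_smul x, dist_smul hA.act] at e8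
      rw [mul_assoc x, mul_smul x] at e1 e6
      omega
    rcases lt_trichotomy k k' with hlt | heq | hlt
    · have := OverD_far hD hG hbig (i + 1) k k' hlt
      omega
    · exact heq
    · have := OverD_far hD hG hbig (i + 1) k' k hlt
      rw [SimpleGraph.dist_comm] at this
      omega
  have he1 : e = 1 := by
    by_contra hne
    have h2 : P i * h ^ α i * e * υ i = P i * h ^ α i * υ i * e' := by
      rw [← hA1, hkk, hke', hstep]
    have h3 : e * υ i = υ i * e' := by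
      have h4 : (P i * h ^ α i) * (e * υ i) = (P i * h ^ α i) * (υ i * e') := by
        rw [← mul_assoc, h2, mul_assoc]
      exact mul_left_cancel h4
    have h5 : (υ i)⁻¹ * e * υ i = e' := by
      rw [mul_assoc, h3, inv_mul_cancel_left]
    exact hUE _ hυU (El_conj hA h1 he hne (by rw [h5]; exact he'))
  rw [he1, mul_one] at hke
  have h6 : x * P K ^ k = 1 := by
    have : x * P K ^ k * P i = 1 * P i := by rw [hke, one_mul]
    exact mul_right_cancel this
  rw [eq_inv_of_mul_eq_one_left h6]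
  exact (Subgroup.zpowers (P K)).inv_mem (Subgroup.zpow_mem_zpowers _ _)

end Pool.Agent.Lib.MP_7e344a_al
end
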